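import Pool.Agent.H35.WL.Defs

/-!
# WL-Bc: the number of bad pairs of triples

`Bad1 η τ τ'`: `p₁ ∈ {p₂, p₃, p₄}` or `p₁ ∣ r` or `p₁ ∣ r'` or `p₁ ∣ η`.  `#TT P ≤ (4P)² (16P+1)`.  Each of
the first three conditions leaves one choice for `p₁` (factor `4P` lost); for given `p₁ > P` at most
`17` integers `r`, `|r| ≤ 8P`, are divisible by `p₁`; at most `tau |η|` primes divide `η ≠ 0`.
So the number is at most `10^6 P^5 (1 + tau |η|)`.  `Bad1` for `(τ', τ)` is the condition for `p₃`: the same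
count by symmetry.
-/

set_option autoImplicit false

namespace Pool.Agent.H35.WL

open Finset
open Pool.Agent.H80.KF

/-- the prime `p₁` cannot be used in the Kloosterman modulus -/
def Bad1 (η : ℤ) (τ τ' : ℕ × ℕ × ℤ) : Prop :=
  τ.1 = τ.2.1 ∨ τ.1 = τ'.1 ∨ τ.1 = τ'.2.1 ∨ (τ.1 : ℤ) ∣ τ.2.2 ∨ (τ.1 : ℤ) ∣ τ'.2.2 ∨
    (τ.1 : ℤ) ∣ η

private lemma bc_PP (P : ℕ) : ((PP P).card : ℝ) ≤ 3 * P := by
  have h : (PP P).card ≤ 3 * P := by
    refine (Finset.card_filter_le _ _).trans ?_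
    rw [Nat.card_Ioc]
    omega
  exact_mod_cast h

private lemma bc_R (P : ℕ) (hP : 1 ≤ P) : ((Icc (-(8 * P : ℤ)) (8 * P)).card : ℝ) ≤ 17 * P := by
  have h : (Icc (-(8 * P : ℤ)) (8 * P)).card ≤ 17 * P := by
    rw [Int.card_Icc]
    omega
  exact_mod_cast h

private lemma bc_TT (P : ℕ) (hP : 1 ≤ P) : ((TT P).card : ℝ) ≤ 153 * (P : ℝ) ^ 3 := by
  unfold TT
  rw [card_product, card_product]
  push_cast
  have h1 := bc_PP P
  have h2 := bc_R P hP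
  calc ((PP P).card : ℝ) * (((PP P).card : ℝ) * ((Icc (-(8 * P : ℤ)) (8 * P)).card : ℝ))
      ≤ (3 * P) * ((3 * P) * (17 * P)) := by gcongr
    _ = 153 * (P : ℝ) ^ 3 := by ring

private lemma bc_mem {P : ℕ} {τ : ℕ × ℕ × ℤ} (h : τ ∈ TT P) :
    τ.1 ∈ PP P ∧ τ.2.1 ∈ PP P ∧ τ.2.2 ∈ Icc (-(8 * P : ℤ)) (8 * P) := by
  unfold TT at h
  rw [mem_product, mem_product] at h
  exact h

private lemma bc_lt {P p : ℕ} (h : p ∈ PP P) : P < p := by
  unfold PP at h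
  rw [mem_filter, mem_Ioc] at h
  exact h.1.1

private lemma bc_quot {P p : ℕ} {r : ℤ} (hp : p ∈ PP P) (hr : r ∈ Icc (-(8 * P : ℤ)) (8 * P)) :
    r / (p : ℤ) ∈ Icc (-8 : ℤ) 8 := by
  have h1 : (P : ℤ) < p := by exact_mod_cast bc_lt hp
  have h0 : (0 : ℤ) ≤ P := by positivity
  rw [mem_Icc] at hr ⊢
  constructor
  · rw [Int.le_ediv_iff_mul_le (by omega)]
    linarith [hr.1]
  · have : r / (p : ℤ) < 9 := by
      rw [Int.ediv_lt_iff_lt_mul (by omega)]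
      linarith [hr.2]
    omega

open Classical in
theorem bad_card (P : ℕ) (hP : 1 ≤ P) (η : ℤ) (hη : η ≠ 0) :
    (((TT P ×ˢ TT P).filter (fun t => Bad1 η t.1 t.2)).card : ℝ) ≤
      10 ^ 7 * (P : ℝ) ^ 5 * (1 + tau η.natAbs) := by
  have hPr : (1 : ℝ) ≤ P := by exact_mod_cast hP
  have hPP := bc_PP P
  have hR := bc_R P hP
  have hT := bc_TT P hP
  have h17' : (Icc (-8 : ℤ) 8).card = 17 := by
    rw [Int.card_Icc]
    rfl
  have h17 : ((Icc (-8 : ℤ) 8).card : ℝ) = 17 := by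
    rw [h17']
    norm_num
  set S := TT P ×ˢ TT P with hS
  have hmem : ∀ t ∈ S, t.1 ∈ TT P ∧ t.2 ∈ TT P := fun t ht => mem_product.mp ht
  -- the six conditions
  have c1 : ((S.filter (fun t => t.1.1 = t.1.2.1)).card : ℝ) ≤ 7803 * (P : ℝ) ^ 5 := by
    have h : (S.filter (fun t => t.1.1 = t.1.2.1)).card ≤
        ((PP P ×ˢ Icc (-(8 * P : ℤ)) (8 * P)) ×ˢ TT P).card := by
      refine Finset.card_le_card_of_injOn (fun t => ((t.1.2.1, t.1.2.2), t.2)) ?_ ?_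
      · intro t ht
        have ht' := mem_filter.mp (mem_coe.mp ht)
        obtain ⟨h1, h2⟩ := hmem t ht'.1
        obtain ⟨a1, a2, a3⟩ := bc_mem h1
        exact mem_coe.mpr (mem_product.mpr ⟨mem_product.mpr ⟨a2, a3⟩, h2⟩)
      · intro t ht s hs hts
        have ht' := (mem_filter.mp (mem_coe.mp ht)).2
        have hs' := (mem_filter.mp (mem_coe.mp hs)).2
        simp only [Prod.mk.injEq] at hts
        obtain ⟨⟨e1, e2⟩, e3⟩ := hts
        refine Prod.ext (Prod.ext ?_ (Prod.ext e1 e2)) e3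
        rw [ht', hs', e1]
    have h' : ((S.filter (fun t => t.1.1 = t.1.2.1)).card : ℝ) ≤
        (((PP P ×ˢ Icc (-(8 * P : ℤ)) (8 * P)) ×ˢ TT P).card : ℝ) := by exact_mod_cast h
    refine h'.trans ?_
    rw [card_product, card_product]
    push_cast
    calc ((PP P).card : ℝ) * ((Icc (-(8 * P : ℤ)) (8 * P)).card : ℝ) * ((TT P).card : ℝ)
        ≤ (3 * P) * (17 * P) * (153 * (P : ℝ) ^ 3) := by gcongr
      _ = 7803 * (P : ℝ) ^ 5 := by ring
  have c2 : ((S.filter (fun t => t.1.1 = t.2.1)).card : ℝ) ≤ 7803 * (P : ℝ) ^ 5 := by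
    have h : (S.filter (fun t => t.1.1 = t.2.1)).card ≤
        ((PP P ×ˢ Icc (-(8 * P : ℤ)) (8 * P)) ×ˢ TT P).card := by
      refine Finset.card_le_card_of_injOn (fun t => ((t.2.2.1, t.2.2.2), t.1)) ?_ ?_
      · intro t ht
        have ht' := mem_filter.mp (mem_coe.mp ht)
        obtain ⟨h1, h2⟩ := hmem t ht'.1
        obtain ⟨a1, a2, a3⟩ := bc_mem h2
        exact mem_coe.mpr (mem_product.mpr ⟨mem_product.mpr ⟨a2, a3⟩, h1⟩)
      · intro t ht s hs hts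
        have ht' := (mem_filter.mp (mem_coe.mp ht)).2
        have hs' := (mem_filter.mp (mem_coe.mp hs)).2
        simp only [Prod.mk.injEq] at hts
        obtain ⟨⟨e1, e2⟩, e3⟩ := hts
        refine Prod.ext e3 (Prod.ext ?_ (Prod.ext e1 e2))
        rw [← ht', ← hs', e3]
    have h' : ((S.filter (fun t => t.1.1 = t.2.1)).card : ℝ) ≤
        (((PP P ×ˢ Icc (-(8 * P : ℤ)) (8 * P)) ×ˢ TT P).card : ℝ) := by exact_mod_cast h
    refine h'.trans ?_
    rw [card_product, card_product]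
    push_cast
    calc ((PP P).card : ℝ) * ((Icc (-(8 * P : ℤ)) (8 * P)).card : ℝ) * ((TT P).card : ℝ)
        ≤ (3 * P) * (17 * P) * (153 * (P : ℝ) ^ 3) := by gcongr
      _ = 7803 * (P : ℝ) ^ 5 := by ring
  have c3 : ((S.filter (fun t => t.1.1 = t.2.2.1)).card : ℝ) ≤ 7803 * (P : ℝ) ^ 5 := by
    have h : (S.filter (fun t => t.1.1 = t.2.2.1)).card ≤
        ((PP P ×ˢ Icc (-(8 * P : ℤ)) (8 * P)) ×ˢ TT P).card := by
      refine Finset.card_le_card_of_injOn (fun t => ((t.2.1, t.2.2.2), t.1)) ?_ ?_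
      · intro t ht
        have ht' := mem_filter.mp (mem_coe.mp ht)
        obtain ⟨h1, h2⟩ := hmem t ht'.1
        obtain ⟨a1, a2, a3⟩ := bc_mem h2
        exact mem_coe.mpr (mem_product.mpr ⟨mem_product.mpr ⟨a1, a3⟩, h1⟩)
      · intro t ht s hs hts
        have ht' := (mem_filter.mp (mem_coe.mp ht)).2
        have hs' := (mem_filter.mp (mem_coe.mp hs)).2
        simp only [Prod.mk.injEq] at hts
        obtain ⟨⟨e1, e2⟩, e3⟩ := hts
        refine Prod.ext e3 (Prod.ext e1 (Prod.ext ?_ e2))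
        rw [← ht', ← hs', e3]
    have h' : ((S.filter (fun t => t.1.1 = t.2.2.1)).card : ℝ) ≤
        (((PP P ×ˢ Icc (-(8 * P : ℤ)) (8 * P)) ×ˢ TT P).card : ℝ) := by exact_mod_cast h
    refine h'.trans ?_
    rw [card_product, card_product]
    push_cast
    calc ((PP P).card : ℝ) * ((Icc (-(8 * P : ℤ)) (8 * P)).card : ℝ) * ((TT P).card : ℝ)
        ≤ (3 * P) * (17 * P) * (153 * (P : ℝ) ^ 3) := by gcongr
      _ = 7803 * (P : ℝ) ^ 5 := by ring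
  have c4 : ((S.filter (fun t => (t.1.1 : ℤ) ∣ t.1.2.2)).card : ℝ) ≤ 23409 * (P : ℝ) ^ 5 := by
    have h : (S.filter (fun t => (t.1.1 : ℤ) ∣ t.1.2.2)).card ≤
        ((PP P ×ˢ (PP P ×ˢ Icc (-8 : ℤ) 8)) ×ˢ TT P).card := by
      refine Finset.card_le_card_of_injOn
        (fun t => ((t.1.1, (t.1.2.1, t.1.2.2 / (t.1.1 : ℤ))), t.2)) ?_ ?_
      · intro t ht
        have ht' := mem_filter.mp (mem_coe.mp ht)
        obtain ⟨h1, h2⟩ := hmem t ht'.1
        obtain ⟨a1, a2, a3⟩ := bc_mem h1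
        exact mem_coe.mpr (mem_product.mpr ⟨mem_product.mpr ⟨a1, mem_product.mpr
          ⟨a2, bc_quot a1 a3⟩⟩, h2⟩)
      · intro t ht s hs hts
        have ht' := (mem_filter.mp (mem_coe.mp ht)).2
        have hs' := (mem_filter.mp (mem_coe.mp hs)).2
        simp only [Prod.mk.injEq] at hts
        obtain ⟨⟨e1, e2, e3⟩, e4⟩ := hts
        refine Prod.ext (Prod.ext e1 (Prod.ext e2 ?_)) e4
        rw [← Int.ediv_mul_cancel ht', ← Int.ediv_mul_cancel hs', e3, e1]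
    have h' : ((S.filter (fun t => (t.1.1 : ℤ) ∣ t.1.2.2)).card : ℝ) ≤
        (((PP P ×ˢ (PP P ×ˢ Icc (-8 : ℤ) 8)) ×ˢ TT P).card : ℝ) := by exact_mod_cast h
    refine h'.trans ?_
    rw [card_product, card_product, card_product]
    push_cast
    rw [h17]
    calc ((PP P).card : ℝ) * (((PP P).card : ℝ) * 17) * ((TT P).card : ℝ)
        ≤ (3 * P) * ((3 * P) * 17) * (153 * (P : ℝ) ^ 3) := by gcongr
      _ = 23409 * (P : ℝ) ^ 5 := by ring
  have c5 : ((S.filter (fun t => (t.1.1 : ℤ) ∣ t.2.2.2)).card : ℝ) ≤ 23409 * (P : ℝ) ^ 5 := by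
    have h : (S.filter (fun t => (t.1.1 : ℤ) ∣ t.2.2.2)).card ≤
        ((PP P ×ˢ (PP P ×ˢ Icc (-8 : ℤ) 8)) ×ˢ TT P).card := by
      refine Finset.card_le_card_of_injOn
        (fun t => ((t.2.1, (t.2.2.1, t.2.2.2 / (t.1.1 : ℤ))), t.1)) ?_ ?_
      · intro t ht
        have ht' := mem_filter.mp (mem_coe.mp ht)
        obtain ⟨h1, h2⟩ := hmem t ht'.1
        obtain ⟨a1, a2, a3⟩ := bc_mem h2
        exact mem_coe.mpr (mem_product.mpr ⟨mem_product.mpr ⟨a1, mem_product.mpr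
          ⟨a2, bc_quot (bc_mem h1).1 a3⟩⟩, h1⟩)
      · intro t ht s hs hts
        have ht' := (mem_filter.mp (mem_coe.mp ht)).2
        have hs' := (mem_filter.mp (mem_coe.mp hs)).2
        simp only [Prod.mk.injEq] at hts
        obtain ⟨⟨e1, e2, e3⟩, e4⟩ := hts
        refine Prod.ext e4 (Prod.ext e1 (Prod.ext e2 ?_))
        rw [← Int.ediv_mul_cancel ht', ← Int.ediv_mul_cancel hs', e3, e4]
    have h' : ((S.filter (fun t => (t.1.1 : ℤ) ∣ t.2.2.2)).card : ℝ) ≤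
        (((PP P ×ˢ (PP P ×ˢ Icc (-8 : ℤ) 8)) ×ˢ TT P).card : ℝ) := by exact_mod_cast h
    refine h'.trans ?_
    rw [card_product, card_product, card_product]
    push_cast
    rw [h17]
    calc ((PP P).card : ℝ) * (((PP P).card : ℝ) * 17) * ((TT P).card : ℝ)
        ≤ (3 * P) * ((3 * P) * 17) * (153 * (P : ℝ) ^ 3) := by gcongr
      _ = 23409 * (P : ℝ) ^ 5 := by ring
  have c6 : ((S.filter (fun t => (t.1.1 : ℤ) ∣ η)).card : ℝ) ≤
      7803 * (P : ℝ) ^ 5 * tau η.natAbs := by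
    have h : (S.filter (fun t => (t.1.1 : ℤ) ∣ η)).card ≤
        ((η.natAbs.divisors ×ˢ (PP P ×ˢ Icc (-(8 * P : ℤ)) (8 * P))) ×ˢ TT P).card := by
      refine Finset.card_le_card ?_
      intro t ht
      have ht' := mem_filter.mp ht
      obtain ⟨h1, h2⟩ := hmem t ht'.1
      obtain ⟨a1, a2, a3⟩ := bc_mem h1
      refine mem_product.mpr ⟨mem_product.mpr ⟨?_, mem_product.mpr ⟨a2, a3⟩⟩, h2⟩
      rw [Nat.mem_divisors]
      exact ⟨Int.natCast_dvd.mp ht'.2, Int.natAbs_ne_zero.mpr hη⟩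
    have h' : ((S.filter (fun t => (t.1.1 : ℤ) ∣ η)).card : ℝ) ≤
        (((η.natAbs.divisors ×ˢ (PP P ×ˢ Icc (-(8 * P : ℤ)) (8 * P))) ×ˢ TT P).card : ℝ) := by
      exact_mod_cast h
    refine h'.trans ?_
    rw [card_product, card_product, card_product]
    push_cast
    have ht : ((η.natAbs.divisors.card : ℕ) : ℝ) = (tau η.natAbs : ℝ) := rfl
    rw [ht]
    calc (tau η.natAbs : ℝ) * (((PP P).card : ℝ) * ((Icc (-(8 * P : ℤ)) (8 * P)).card : ℝ)) *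
          ((TT P).card : ℝ)
        ≤ (tau η.natAbs : ℝ) * ((3 * P) * (17 * P)) * (153 * (P : ℝ) ^ 3) := by gcongr
      _ = 7803 * (P : ℝ) ^ 5 * tau η.natAbs := by ring
  have hsub : S.filter (fun t => Bad1 η t.1 t.2) ⊆
      S.filter (fun t => t.1.1 = t.1.2.1) ∪ (S.filter (fun t => t.1.1 = t.2.1) ∪
      (S.filter (fun t => t.1.1 = t.2.2.1) ∪ (S.filter (fun t => (t.1.1 : ℤ) ∣ t.1.2.2) ∪
      (S.filter (fun t => (t.1.1 : ℤ) ∣ t.2.2.2) ∪ S.filter (fun t => (t.1.1 : ℤ) ∣ η))))) := by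
    intro t ht
    have ht' := mem_filter.mp ht
    have hb : Bad1 η t.1 t.2 := ht'.2
    unfold Bad1 at hb
    simp only [mem_union, mem_filter]
    rcases hb with h | h | h | h | h | h
    · exact Or.inl ⟨ht'.1, h⟩
    · exact Or.inr (Or.inl ⟨ht'.1, h⟩)
    · exact Or.inr (Or.inr (Or.inl ⟨ht'.1, h⟩))
    · exact Or.inr (Or.inr (Or.inr (Or.inl ⟨ht'.1, h⟩)))
    · exact Or.inr (Or.inr (Or.inr (Or.inr (Or.inl ⟨ht'.1, h⟩))))
    · exact Or.inr (Or.inr (Or.inr (Or.inr (Or.inr ⟨ht'.1, h⟩))))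
  have hcard : (S.filter (fun t => Bad1 η t.1 t.2)).card ≤
      (S.filter (fun t => t.1.1 = t.1.2.1)).card + ((S.filter (fun t => t.1.1 = t.2.1)).card +
      ((S.filter (fun t => t.1.1 = t.2.2.1)).card +
      ((S.filter (fun t => (t.1.1 : ℤ) ∣ t.1.2.2)).card +
      ((S.filter (fun t => (t.1.1 : ℤ) ∣ t.2.2.2)).card +
      (S.filter (fun t => (t.1.1 : ℤ) ∣ η)).card)))) := by
    refine (Finset.card_le_card hsub).trans ?_
    refine (card_union_le _ _).trans (Nat.add_le_add_left ?_ _)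
    refine (card_union_le _ _).trans (Nat.add_le_add_left ?_ _)
    refine (card_union_le _ _).trans (Nat.add_le_add_left ?_ _)
    refine (card_union_le _ _).trans (Nat.add_le_add_left ?_ _)
    exact card_union_le _ _
  have hcard' : ((S.filter (fun t => Bad1 η t.1 t.2)).card : ℝ) ≤
      ((S.filter (fun t => t.1.1 = t.1.2.1)).card : ℝ) +
      (((S.filter (fun t => t.1.1 = t.2.1)).card : ℝ) +
      (((S.filter (fun t => t.1.1 = t.2.2.1)).card : ℝ) +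
      (((S.filter (fun t => (t.1.1 : ℤ) ∣ t.1.2.2)).card : ℝ) +
      (((S.filter (fun t => (t.1.1 : ℤ) ∣ t.2.2.2)).card : ℝ) +
      ((S.filter (fun t => (t.1.1 : ℤ) ∣ η)).card : ℝ))))) := by exact_mod_cast hcard
  have hτ : (0 : ℝ) ≤ tau η.natAbs := Nat.cast_nonneg _
  have hP5 : (0 : ℝ) ≤ (P : ℝ) ^ 5 := by positivity
  have hm : 0 ≤ (P : ℝ) ^ 5 * tau η.natAbs := mul_nonneg hP5 hτ
  nlinarith [hcard', c1, c2, c3, c4, c5, c6, hP5, hm]

open Classical in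
theorem bad_card' (P : ℕ) (hP : 1 ≤ P) (η : ℤ) (hη : η ≠ 0) :
    (((TT P ×ˢ TT P).filter (fun t => Bad1 η t.2 t.1)).card : ℝ) ≤
      10 ^ 7 * (P : ℝ) ^ 5 * (1 + tau η.natAbs) := by
  refine le_trans ?_ (bad_card P hP η hη)
  have h : ((TT P ×ˢ TT P).filter (fun t => Bad1 η t.2 t.1)).card ≤
      ((TT P ×ˢ TT P).filter (fun t => Bad1 η t.1 t.2)).card := by
    refine Finset.card_le_card_of_injOn Prod.swap ?_ (Prod.swap_injective.injOn)
    intro t ht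
    have ht' := mem_filter.mp (mem_coe.mp ht)
    have h1 := mem_product.mp ht'.1
    exact mem_coe.mpr (mem_filter.mpr ⟨mem_product.mpr ⟨h1.2, h1.1⟩, ht'.2⟩)
  exact_mod_cast h

/-- a good pair: `K₀` is prime to `p₁` -/
theorem good_K0 (η : ℤ) (τ τ' : ℕ × ℕ × ℤ) (h1 : τ.1.Prime) (h2 : τ.2.1.Prime)
    (h3 : τ'.1.Prime) (h4 : τ'.2.1.Prime) (h : ¬ Bad1 η τ τ') : ¬ (τ.1 : ℤ) ∣ K0 η τ τ' := by
  intro hd
  apply h
  unfold Bad1
  have hp : Prime (τ.1 : ℤ) := Nat.prime_iff_prime_int.mp h1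
  unfold K0 at hd
  rcases hp.dvd_or_dvd hd with hd | hd
  · exact Or.inr (Or.inr (Or.inr (Or.inr (Or.inr hd))))
  · have e : (((τ.1 : ℤ) - τ.2.1) * τ.2.2 * τ'.1 * τ'.2.1) =
        (((τ.1 : ℤ) - τ.2.1) * τ.2.2 * τ'.1 * τ'.2.1 -
          ((τ'.1 : ℤ) - τ'.2.1) * τ'.2.2 * τ.1 * τ.2.1) +
        (τ.1 : ℤ) * (((τ'.1 : ℤ) - τ'.2.1) * τ'.2.2 * τ.2.1) := by ring
    have hd2 : (τ.1 : ℤ) ∣ ((τ.1 : ℤ) - τ.2.1) * τ.2.2 * τ'.1 * τ'.2.1 := by
      rw [e]
      exact dvd_add hd (dvd_mul_right _ _)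
    rcases hp.dvd_or_dvd hd2 with hd2 | hd2
    · rcases hp.dvd_or_dvd hd2 with hd2 | hd2
      · rcases hp.dvd_or_dvd hd2 with hd2 | hd2
        · left
          have hd3 : (τ.1 : ℤ) ∣ (τ.2.1 : ℤ) := by
            have := dvd_sub (dvd_refl (τ.1 : ℤ)) hd2
            rwa [sub_sub_cancel] at this
          exact (Nat.prime_dvd_prime_iff_eq h1 h2).mp (Int.natCast_dvd_natCast.mp hd3)
        · exact Or.inr (Or.inr (Or.inr (Or.inl hd2)))
      · exact Or.inr (Or.inl ((Nat.prime_dvd_prime_iff_eq h1 h3).mp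
          (Int.natCast_dvd_natCast.mp hd2)))
    · exact Or.inr (Or.inr (Or.inl ((Nat.prime_dvd_prime_iff_eq h1 h4).mp
        (Int.natCast_dvd_natCast.mp hd2))))

/-- a good pair: `K₀` is prime to `p₃` -/
theorem good_K0' (η : ℤ) (τ τ' : ℕ × ℕ × ℤ) (h1 : τ.1.Prime) (h2 : τ.2.1.Prime)
    (h3 : τ'.1.Prime) (h4 : τ'.2.1.Prime) (h : ¬ Bad1 η τ' τ) : ¬ (τ'.1 : ℤ) ∣ K0 η τ τ' := by
  intro hd
  apply good_K0 η τ' τ h3 h4 h1 h2 h
  have e : K0 η τ' τ = -K0 η τ τ' := by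
    unfold K0
    ring
  rw [e]
  exact (dvd_neg).mpr hd

end Pool.Agent.H35.WL
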