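import Pool.Agent.H35.WL.Defs

/-!
# WL-Ki: incomplete sums and one residue class, with a general bound `B` for the complete sums

`kl_incomplete3`: copy of `kl_incomplete` (Pool/Agent/H94/EH/M13.lean, line 1367; the private lemmas
`klc_*`, `klg*`, `klS_eq` before it have to be copied) where the bound for `‖klS q a b‖` is a hypothesis.
`cls_bound3`: copy of `cls_bound` (Pool/Agent/H94/EH/M14.lean, line 88, private lemmas `clsB_*`) with
`kl_incomplete3`.
-/

set_option autoImplicit false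

namespace Pool.Agent.H35.WL

open Finset
open Pool.Agent.H80.KF

private theorem klc_ee_nat_mul (n : ℕ) (t : ℝ) : ee ((n : ℝ) * t) = ee t ^ n := by
  unfold ee
  rw [← Complex.exp_nat_mul]
  congr 1
  push_cast
  ring

private theorem klc_ee_eq_one {t : ℝ} (h : ee t = 1) : ∃ n : ℤ, t = n := by
  unfold ee at h
  obtain ⟨n, hn⟩ := Complex.exp_eq_one_iff.1 h
  refine ⟨n, ?_⟩
  have h2 : (2 * (Real.pi : ℂ) * Complex.I) ≠ 0 := by
    simp [Real.pi_ne_zero, Complex.I_ne_zero]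
  have h3 : (2 * (Real.pi : ℂ) * Complex.I) * ((t : ℂ) - n) = 0 := by
    linear_combination hn
  have h4 : (t : ℂ) - n = 0 := (mul_eq_zero.1 h3).resolve_left h2
  have h5 : (t : ℂ) = ((n : ℝ) : ℂ) := by
    rw [sub_eq_zero.1 h4]
    push_cast
    rfl
  exact_mod_cast h5

private theorem klc_orth (q : ℕ) (hq : 1 ≤ q) (k : ℤ) :
    ∑ b ∈ range q, ee ((b : ℝ) * k / q) = if (q : ℤ) ∣ k then (q : ℂ) else 0 := by
  have hq0 : (q : ℝ) ≠ 0 := by positivity
  have h1 : ∀ b ∈ range q, ee ((b : ℝ) * k / q) = ee ((k : ℝ) / q) ^ b := by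
    intro b _
    rw [← klc_ee_nat_mul]
    congr 1
    ring
  rw [Finset.sum_congr rfl h1]
  split_ifs with hk
  · obtain ⟨m, rfl⟩ := hk
    have : ee ((((q : ℤ) * m : ℤ) : ℝ) / q) = 1 := by
      have h2 : ((((q : ℤ) * m : ℤ) : ℝ) / q) = (m : ℝ) := by
        push_cast
        field_simp
      rw [h2, ee_int]
    rw [this]
    simp
  · have hne : ee ((k : ℝ) / q) ≠ 1 := by
      intro h
      obtain ⟨n, hn⟩ := klc_ee_eq_one h
      apply hk
      refine ⟨n, ?_⟩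
      rw [div_eq_iff hq0] at hn
      have : (k : ℝ) = ((q * n : ℤ) : ℝ) := by
        push_cast
        rw [hn]
        ring
      exact_mod_cast this
    have hpow : ee ((k : ℝ) / q) ^ q = 1 := by
      rw [← klc_ee_nat_mul]
      have : (q : ℝ) * ((k : ℝ) / q) = (k : ℝ) := by field_simp
      rw [this, ee_int]
    rw [geom_sum_eq hne, hpow]
    simp

/-- the function with period `q` to be summed -/
private noncomputable def klg (q : ℕ) (a : ℤ) (y : ℕ) : ℂ :=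
  if Nat.Coprime y q then kf q a y else 0

private theorem klg_congr {q : ℕ} (hq : 1 ≤ q) (a : ℤ) {y y' : ℕ} (h : y ≡ y' [MOD q]) :
    klg q a y = klg q a y' := by
  unfold klg
  have h1 : Nat.Coprime y q ↔ Nat.Coprime y' q := by
    unfold Nat.Coprime
    rw [h.gcd_eq]
  by_cases hc : Nat.Coprime y q
  · rw [if_pos hc, if_pos (h1.1 hc)]
    exact kf_congr hq (by simp) h
  · rw [if_neg hc, if_neg (fun h' => hc (h1.2 h'))]

private theorem klS_eq (q : ℕ) (a b : ℤ) :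
    klS q a b = ∑ x ∈ range q, ee ((b : ℝ) * x / q) * klg q a x := by
  unfold klS klg
  rw [Finset.sum_filter]
  apply Finset.sum_congr rfl
  intro x _
  split_ifs <;> simp

private theorem klg_fourier {q : ℕ} (hq : 1 ≤ q) (a : ℤ) (y : ℕ) :
    ∑ b ∈ range q, klS q a (-(b : ℤ)) * ee ((b : ℝ) * y / q) = (q : ℂ) * klg q a y := by
  have hq0 : (q : ℝ) ≠ 0 := by positivity
  have h1 : ∀ b ∈ range q, klS q a (-(b : ℤ)) * ee ((b : ℝ) * y / q) =
      ∑ x ∈ range q, klg q a x * ee ((b : ℝ) * (((y : ℤ) - x : ℤ) : ℝ) / q) := by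
    intro b _
    rw [klS_eq, Finset.sum_mul]
    apply Finset.sum_congr rfl
    intro x _
    have : ee ((b : ℝ) * (((y : ℤ) - x : ℤ) : ℝ) / q) =
        ee (((-(b : ℤ) : ℤ) : ℝ) * x / q) * ee ((b : ℝ) * y / q) := by
      rw [← ee_add]
      congr 1
      push_cast
      ring
    rw [this]
    ring
  rw [Finset.sum_congr rfl h1, Finset.sum_comm]
  have h2 : ∀ x ∈ range q, ∑ b ∈ range q,
      klg q a x * ee ((b : ℝ) * (((y : ℤ) - x : ℤ) : ℝ) / q) =
      klg q a x * (if (q : ℤ) ∣ ((y : ℤ) - x) then (q : ℂ) else 0) := by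
    intro x _
    rw [← Finset.mul_sum, klc_orth q hq]
  rw [Finset.sum_congr rfl h2, Finset.sum_eq_single (y % q)]
  · have hd : (q : ℤ) ∣ ((y : ℤ) - ((y % q : ℕ) : ℤ)) := by
      rw [Int.natCast_mod]
      exact Int.dvd_self_sub_emod
    rw [if_pos hd, klg_congr hq a (Nat.mod_modEq y q), mul_comm]
  · intro x hx hne
    rw [if_neg, mul_zero]
    intro hd
    apply hne
    have h3 : x ≡ y [MOD q] := by
      rw [Nat.modEq_iff_dvd]
      exact hd
    have h4 : x % q = y % q := h3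
    rw [Nat.mod_eq_of_lt (Finset.mem_range.1 hx)] at h4
    exact h4
  · intro hx
    exact absurd (Finset.mem_range.2 (Nat.mod_lt _ (by omega))) hx

private theorem klc_sin {x : ℝ} (h0 : 0 < x) (h1 : x < 1) :
    1 / Real.sin (Real.pi * x) ≤ (1 / 2) * (1 / x + 1 / (1 - x)) := by
  have hpi := Real.pi_pos
  have h1x : 0 < 1 - x := by linarith
  by_cases hx : x ≤ 1 / 2
  · have hs : 2 * x ≤ Real.sin (Real.pi * x) := by
      have := Real.mul_le_sin (x := Real.pi * x) (by positivity) (by nlinarith)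
      calc 2 * x = 2 / Real.pi * (Real.pi * x) := by field_simp
        _ ≤ _ := this
    calc 1 / Real.sin (Real.pi * x) ≤ 1 / (2 * x) :=
          one_div_le_one_div_of_le (by positivity) hs
      _ = (1 / 2) * (1 / x) := by field_simp
      _ ≤ _ := by
          have : 0 < 1 / (1 - x) := by positivity
          linarith
  · push Not at hx
    have hs : 2 * (1 - x) ≤ Real.sin (Real.pi * x) := by
      have := Real.mul_le_sin (x := Real.pi * (1 - x)) (by positivity) (by nlinarith)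
      have h3 : Real.sin (Real.pi * (1 - x)) = Real.sin (Real.pi * x) := by
        rw [← Real.sin_pi_sub]
        congr 1
        ring
      calc 2 * (1 - x) = 2 / Real.pi * (Real.pi * (1 - x)) := by field_simp
        _ ≤ _ := this
        _ = _ := h3
    calc 1 / Real.sin (Real.pi * x) ≤ 1 / (2 * (1 - x)) :=
          one_div_le_one_div_of_le (by positivity) hs
      _ = (1 / 2) * (1 / (1 - x)) := by field_simp
      _ ≤ _ := by
          have : 0 < 1 / x := by positivity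
          linarith

private theorem klc_geom {x : ℝ} (h0 : 0 < x) (h1 : x < 1) (T : ℕ) :
    ‖∑ t ∈ range T, ee x ^ t‖ ≤ (1 / 2) * (1 / x + 1 / (1 - x)) := by
  have hpi := Real.pi_pos
  have hsin : 0 < Real.sin (Real.pi * x) := by
    apply Real.sin_pos_of_pos_of_lt_pi (by positivity)
    nlinarith
  have hnorm : ‖ee x - 1‖ = 2 * Real.sin (Real.pi * x) := by
    have h2 : ee x = Complex.exp (Complex.I * ((2 * Real.pi * x : ℝ) : ℂ)) := by
      unfold ee
      congr 1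
      push_cast
      ring
    rw [h2, Complex.norm_exp_I_mul_ofReal_sub_one, Real.norm_eq_abs]
    have h3 : 2 * Real.pi * x / 2 = Real.pi * x := by ring
    rw [h3, abs_of_pos (by positivity)]
  have hne : ee x ≠ 1 := by
    intro h
    rw [h] at hnorm
    simp at hnorm
    exact hsin.ne' hnorm
  rw [geom_sum_eq hne, norm_div, hnorm]
  have hn2 : ‖ee x ^ T - 1‖ ≤ 2 := by
    calc ‖ee x ^ T - 1‖ ≤ ‖ee x ^ T‖ + ‖(1 : ℂ)‖ := norm_sub_le _ _
      _ = 2 := by
          rw [norm_pow, norm_ee]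
          norm_num
  calc ‖ee x ^ T - 1‖ / (2 * Real.sin (Real.pi * x)) ≤ 2 / (2 * Real.sin (Real.pi * x)) := by
        gcongr
    _ = 1 / Real.sin (Real.pi * x) := by
        field_simp
    _ ≤ _ := klc_sin h0 h1

private theorem klc_perm {q M : ℕ} (hM : Nat.Coprime M q) (h : ℕ → ℝ) :
    ∑ b ∈ Ico 1 q, h (b * M % q) = ∑ b ∈ Ico 1 q, h b := by
  have hinj : Set.InjOn (fun b => b * M % q) (Ico 1 q : Finset ℕ) := by
    intro b hb b' hb' hbb
    have hb1 := Finset.mem_Ico.1 (Finset.mem_coe.1 hb)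
    have hb2 := Finset.mem_Ico.1 (Finset.mem_coe.1 hb')
    have h1 : b * M ≡ b' * M [MOD q] := hbb
    have h2 : b ≡ b' [MOD q] := Nat.ModEq.cancel_right_of_coprime hM.symm h1
    exact Nat.ModEq.eq_of_lt_of_lt h2 hb1.2 hb2.2
  have himg : (Ico 1 q).image (fun b => b * M % q) = Ico 1 q := by
    apply Finset.eq_of_subset_of_card_le
    · intro y hy
      obtain ⟨b, hb, rfl⟩ := Finset.mem_image.1 hy
      have hb1 := Finset.mem_Ico.1 hb
      refine Finset.mem_Ico.2 ⟨?_, Nat.mod_lt _ (by omega)⟩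
      rw [Nat.one_le_iff_ne_zero]
      intro h0
      have hd : q ∣ b * M := Nat.dvd_of_mod_eq_zero h0
      have hd2 : q ∣ b := Nat.Coprime.dvd_of_dvd_mul_right hM.symm hd
      exact absurd (Nat.le_of_dvd (by omega) hd2) (by omega)
    · rw [Finset.card_image_of_injOn hinj]
  conv_rhs => rw [← himg]
  rw [Finset.sum_image hinj]

private theorem klc_harm (q : ℕ) (hq : 1 ≤ q) :
    ∑ b ∈ Ico 1 q, (1 : ℝ) / b ≤ 1 + Real.log q := by
  have h1 : ∑ b ∈ Ico 1 q, (1 : ℝ) / b = ((harmonic (q - 1) : ℚ) : ℝ) := by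
    rw [Finset.sum_Ico_eq_sum_range]
    unfold harmonic
    push_cast
    apply Finset.sum_congr rfl
    intro i _
    rw [one_div, add_comm]
  rw [h1]
  by_cases h : q = 1
  · subst h
    simp
  · calc ((harmonic (q - 1) : ℚ) : ℝ) ≤ 1 + Real.log ((q - 1 : ℕ) : ℝ) :=
          harmonic_le_one_add_log _
      _ ≤ 1 + Real.log q := by
          have : Real.log ((q - 1 : ℕ) : ℝ) ≤ Real.log q := by
            apply Real.log_le_log
            · have : 0 < q - 1 := by omega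
              exact_mod_cast this
            · exact_mod_cast Nat.sub_le q 1
          linarith

private theorem klc_sum {q : ℕ} (hq : 1 ≤ q) :
    ∑ b ∈ Ico 1 q, (1 / 2 : ℝ) * (1 / ((b : ℝ) / q) + 1 / (1 - (b : ℝ) / q)) ≤
      q * (1 + Real.log q) := by
  have hq0 : (q : ℝ) ≠ 0 := by positivity
  have h1 : ∀ b ∈ Ico 1 q, (1 / 2 : ℝ) * (1 / ((b : ℝ) / q) + 1 / (1 - (b : ℝ) / q)) =
      (q / 2 : ℝ) * (1 / (b : ℝ)) + (q / 2 : ℝ) * (1 / ((q - b : ℕ) : ℝ)) := by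
    intro b hb
    have hb1 := Finset.mem_Ico.1 hb
    have hb0 : (b : ℝ) ≠ 0 := by
      have : b ≠ 0 := by omega
      exact_mod_cast this
    have hqb : (q : ℝ) - b ≠ 0 := by
      have : (b : ℝ) < q := by exact_mod_cast hb1.2
      linarith
    rw [Nat.cast_sub hb1.2.le]
    have h3 : 1 - (b : ℝ) / q = ((q : ℝ) - b) / q := by field_simp
    rw [h3]
    field_simp
  rw [Finset.sum_congr rfl h1, Finset.sum_add_distrib, ← Finset.mul_sum, ← Finset.mul_sum]
  have h2 : ∑ b ∈ Ico 1 q, (1 : ℝ) / ((q - b : ℕ) : ℝ) = ∑ b ∈ Ico 1 q, (1 : ℝ) / (b : ℝ) := by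
    apply Finset.sum_nbij' (fun b => q - b) (fun b => q - b)
    · intro b hb
      have := Finset.mem_Ico.1 hb
      exact Finset.mem_Ico.2 ⟨by omega, by omega⟩
    · intro b hb
      have := Finset.mem_Ico.1 hb
      exact Finset.mem_Ico.2 ⟨by omega, by omega⟩
    · intro b hb
      have := Finset.mem_Ico.1 hb
      show q - (q - b) = b
      omega
    · intro b hb
      have := Finset.mem_Ico.1 hb
      show q - (q - b) = b
      omega
    · intro b hb
      rfl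
  rw [h2]
  have h3 := klc_harm q hq
  have hq1 : (0 : ℝ) ≤ q := by positivity
  nlinarith [mul_le_mul_of_nonneg_left h3 hq1]

theorem kl_incomplete3 (q : ℕ) (hq : 1 ≤ q) (a : ℤ) (B : ℝ) (hB : ∀ b : ℤ, ‖klS q a b‖ ≤ B)
    (M ρ T : ℕ) (hM : Nat.Coprime M q) :
    ‖∑ t ∈ (range T).filter (fun t => Nat.Coprime (ρ + M * t) q), kf q a (ρ + M * t)‖ ≤
      ((T : ℝ) / q + 3 + Real.log q) * B := by
  have hB0 : 0 ≤ B := (norm_nonneg _).trans (hB 0)
  have hq0 : (0 : ℝ) < q := by positivity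
  have hkl : ∀ b : ℤ, ‖klS q a b‖ ≤ B := hB
  -- the Fourier expansion
  have hexp : (q : ℂ) * ∑ t ∈ (range T).filter (fun t => Nat.Coprime (ρ + M * t) q),
      kf q a (ρ + M * t) = ∑ b ∈ range q, klS q a (-(b : ℤ)) *
        (ee ((b : ℝ) * ρ / q) * ∑ t ∈ range T, ee ((b : ℝ) * M / q) ^ t) := by
    rw [Finset.sum_filter, Finset.mul_sum]
    have h1 : ∀ t ∈ range T, (q : ℂ) * (if Nat.Coprime (ρ + M * t) q then kf q a (ρ + M * t) else 0)
        = ∑ b ∈ range q, klS q a (-(b : ℤ)) *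
          (ee ((b : ℝ) * ρ / q) * ee ((b : ℝ) * M / q) ^ t) := by
      intro t _
      have h2 := klg_fourier hq a (ρ + M * t)
      unfold klg at h2
      rw [← h2]
      apply Finset.sum_congr rfl
      intro b _
      congr 1
      rw [← klc_ee_nat_mul, ← ee_add]
      congr 1
      push_cast
      ring
    rw [Finset.sum_congr rfl h1, Finset.sum_comm]
    apply Finset.sum_congr rfl
    intro b _
    rw [Finset.mul_sum, Finset.mul_sum]
  have hnq : (q : ℝ) * ‖∑ t ∈ (range T).filter (fun t => Nat.Coprime (ρ + M * t) q),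
      kf q a (ρ + M * t)‖ ≤ B * (T + q * (1 + Real.log q)) := by
    have h0 : (q : ℝ) = ‖(q : ℂ)‖ := by simp
    rw [h0, ← norm_mul, hexp, ← h0]
    have hterm : ∀ b ∈ range q, ‖klS q a (-(b : ℤ)) *
        (ee ((b : ℝ) * ρ / q) * ∑ t ∈ range T, ee ((b : ℝ) * M / q) ^ t)‖ ≤
        B * ‖∑ t ∈ range T, ee ((b : ℝ) * M / q) ^ t‖ := by
      intro b _
      rw [norm_mul, norm_mul, norm_ee, one_mul]
      exact mul_le_mul_of_nonneg_right (hkl _) (norm_nonneg _)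
    refine (norm_sum_le _ _).trans ((Finset.sum_le_sum hterm).trans ?_)
    rw [← Finset.mul_sum]
    apply mul_le_mul_of_nonneg_left _ hB0
    rw [Finset.range_eq_Ico, Finset.sum_eq_sum_Ico_succ_bot (by omega)]
    have hz : ‖∑ t ∈ range T, ee (((0 : ℕ) : ℝ) * M / q) ^ t‖ = T := by
      have : (((0 : ℕ) : ℝ) * M / q) = 0 := by simp
      rw [this, ee_zero]
      simp
    rw [hz]
    have hrest : ∀ b ∈ Ico (0 + 1) q, ‖∑ t ∈ range T, ee ((b : ℝ) * M / q) ^ t‖ ≤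
        (fun c : ℕ => (1 / 2 : ℝ) * (1 / ((c : ℝ) / q) + 1 / (1 - (c : ℝ) / q))) (b * M % q) := by
      intro b hb
      have hb1 := Finset.mem_Ico.1 hb
      have hc1 : 1 ≤ b * M % q := by
        rw [Nat.one_le_iff_ne_zero]
        intro h0
        have hd : q ∣ b * M := Nat.dvd_of_mod_eq_zero h0
        have hd2 : q ∣ b := Nat.Coprime.dvd_of_dvd_mul_right hM.symm hd
        exact absurd (Nat.le_of_dvd (by omega) hd2) (by omega)
      have hc2 : b * M % q < q := Nat.mod_lt _ (by omega)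
      have hee : ee ((b : ℝ) * M / q) = ee (((b * M % q : ℕ) : ℝ) / q) := by
        obtain ⟨w, hw⟩ : ∃ w : ℕ, w = b * M / q := ⟨_, rfl⟩
        apply ee_eq_of_int (w : ℤ)
        have h3 : (b : ℝ) * M = (q : ℝ) * w + ((b * M % q : ℕ) : ℝ) := by
          have h4 : b * M = q * w + b * M % q := by
            rw [hw]
            exact (Nat.div_add_mod _ _).symm
          exact_mod_cast h4
        rw [h3, Int.cast_natCast]
        field_simp
        ring
      rw [hee]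
      apply klc_geom
      · have : (0 : ℝ) < ((b * M % q : ℕ) : ℝ) := by exact_mod_cast hc1
        positivity
      · rw [div_lt_one hq0]
        exact_mod_cast hc2
    have h5 := Finset.sum_le_sum hrest
    have h6 := klc_perm hM (fun c : ℕ => (1 / 2 : ℝ) * (1 / ((c : ℝ) / q) + 1 / (1 - (c : ℝ) / q)))
    have h7 := klc_sum hq
    rw [zero_add] at h5 ⊢
    linarith
  have hfin : ‖∑ t ∈ (range T).filter (fun t => Nat.Coprime (ρ + M * t) q),
      kf q a (ρ + M * t)‖ ≤ B * (T + q * (1 + Real.log q)) / q := by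
    rw [le_div_iff₀ hq0, mul_comm]
    exact hnq
  refine hfin.trans ?_
  have h8 : B * (T + q * (1 + Real.log q)) / q = ((T : ℝ) / q + 1 + Real.log q) * B := by
    field_simp
    ring
  rw [h8]
  apply mul_le_mul_of_nonneg_right _ hB0
  linarith

private theorem clsB_conv (J : Finset ℕ) (hne : J.Nonempty)
    (hconv : ∀ a ∈ J, ∀ c ∈ J, ∀ b, a ≤ b → b ≤ c → b ∈ J) :
    ∃ t0 T, J = Ico t0 (t0 + (T + 1)) := by
  refine ⟨J.min' hne, J.max' hne - J.min' hne, ?_⟩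
  have h1 : J.min' hne ≤ J.max' hne := J.min'_le _ (J.max'_mem hne)
  ext t
  rw [mem_Ico]
  constructor
  · intro ht
    have := J.min'_le t ht
    have := J.le_max' t ht
    omega
  · rintro ⟨h2, h3⟩
    exact hconv _ (J.min'_mem hne) _ (J.max'_mem hne) t h2 (by omega)

private theorem clsB_aff (n0 ν lo hi : ℤ) (a b c : ℕ) (hab : a ≤ b) (hbc : b ≤ c)
    (ha : lo < n0 + ν * a ∧ n0 + ν * a ≤ hi) (hc : lo < n0 + ν * c ∧ n0 + ν * c ≤ hi) :
    lo < n0 + ν * b ∧ n0 + ν * b ≤ hi := by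
  have h1 : (a : ℤ) ≤ b := by exact_mod_cast hab
  have h2 : (b : ℤ) ≤ c := by exact_mod_cast hbc
  rcases le_total 0 ν with h | h
  · have h3 := mul_le_mul_of_nonneg_left h1 h
    have h4 := mul_le_mul_of_nonneg_left h2 h
    constructor <;> linarith only [ha, h3, hc, h4, ha.1, ha.2, hc.1, hc.2]
  · have h3 := mul_le_mul_of_nonpos_left h1 h
    have h4 := mul_le_mul_of_nonpos_left h2 h
    constructor <;> linarith [ha.1, ha.2, hc.1, hc.2]

private theorem clsB_cc (N P : ℕ) (hN : 1 ≤ N) (η : ℤ) (hη : |η| ≤ 4 * (N : ℤ) ^ 2)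
    (τ : ℕ × ℕ × ℤ) (hτ : τ ∈ TT P) (m : ℕ) (hm : m ∈ II N) :
    |cc η τ m| ≤ 16 * N := by
  unfold TT at hτ
  rw [mem_product, mem_product] at hτ
  obtain ⟨h1, h2, -⟩ := hτ
  unfold PP at h1 h2
  rw [mem_filter, mem_Ioc] at h1 h2
  unfold II at hm
  rw [mem_Ioc] at hm
  have hN0 : (0 : ℝ) < N := by exact_mod_cast hN
  have hp1 : (P : ℝ) + 1 ≤ τ.1 := by exact_mod_cast h1.1.1
  have hp1' : (τ.1 : ℝ) ≤ 4 * P := by exact_mod_cast h1.1.2
  have hp2 : (P : ℝ) + 1 ≤ τ.2.1 := by exact_mod_cast h2.1.1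
  have hp2' : (τ.2.1 : ℝ) ≤ 4 * P := by exact_mod_cast h2.1.2
  have hP0 : (0 : ℝ) ≤ P := Nat.cast_nonneg _
  have hm1 : (N : ℝ) ≤ m := by exact_mod_cast hm.1.le
  have hη' : |(η : ℝ)| ≤ 4 * (N : ℝ) ^ 2 := by exact_mod_cast hη
  have hd : |(τ.1 : ℝ) - τ.2.1| ≤ 3 * P := by
    rw [abs_le]
    constructor <;> linarith only [hp1, hp2', hp1', hp2]
  unfold cc
  push_cast
  rw [abs_div, abs_mul]
  have hden : (0 : ℝ) < (τ.1 : ℝ) * m := by
    apply mul_pos <;> linarith only [hp1, hp1', hN0, hm1]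
  rw [abs_of_pos hden, div_le_iff₀ hden]
  calc |(η : ℝ)| * |(τ.1 : ℝ) - τ.2.1| ≤ (4 * (N : ℝ) ^ 2) * (3 * P) :=
        mul_le_mul hη' hd (abs_nonneg _) (by positivity)
    _ ≤ 16 * N * (P * N) := by nlinarith only [hN0, hP0, mul_nonneg (mul_nonneg hN0.le hN0.le) hP0]
    _ ≤ 16 * N * ((τ.1 : ℝ) * m) := by
        refine mul_le_mul_of_nonneg_left ?_ (by positivity)
        exact mul_le_mul (by linarith only [hp1]) hm1 hN0.le (by linarith only [hp1, hp1'])

theorem cls_bound3 (N P : ℕ) (hN : 1 ≤ N) (hP : 1 ≤ P) (η : ℤ) (hη : |η| ≤ 4 * (N : ℤ) ^ 2)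
    (F : ℝ → ℂ) (hF : Wt N F) (τ τ' : ℕ × ℕ × ℤ) (hτ : τ ∈ TT P) (hτ' : τ' ∈ TT P)
    (s k : ℕ) (hs : 1 ≤ s) (hk : 1 ≤ k) (hm : s * k ∈ II N) (hr : τ.2.2 ≠ 0) (hr' : τ'.2.2 ≠ 0)
    (hcop : Nat.Coprime k (τ.2.2.natAbs * τ'.2.2.natAbs * (τ.1 * τ.2.1 * (τ'.1 * τ'.2.1)) * s))
    (ρ : ℕ) (hρ : ρ < M0 τ τ' s) (B : ℝ) (hB : ∀ b : ℤ, ‖klS k (K0 η τ τ') b‖ ≤ B) :
    ‖CS F η N τ τ' (s * k) s ρ‖ ≤
      3001 * (((N + 1 : ℝ) / (M0 τ τ' s) + 1) / k + 3 + Real.log k) * B := by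
  classical
  have hτ1 := hτ
  have hτ1' := hτ'
  unfold TT at hτ1 hτ1'
  rw [mem_product, mem_product] at hτ1 hτ1'
  have hp1 : τ.1.Prime := (mem_filter.mp hτ1.1).2
  have hp2 : τ.2.1.Prime := (mem_filter.mp hτ1.2.1).2
  have hp3 : τ'.1.Prime := (mem_filter.mp hτ1'.1).2
  have hp4 : τ'.2.1.Prime := (mem_filter.mp hτ1'.2.1).2
  have hR0 : 0 ≤ B := (norm_nonneg _).trans (hB 0)
  have hk0 : (0 : ℝ) < k := by exact_mod_cast hk
  have hlog : 0 ≤ Real.log k := Real.log_nonneg (by exact_mod_cast hk)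
  have hM0 : 0 < M0 τ τ' s := by
    unfold M0
    have h1 : 0 < Nat.lcm τ.2.2.natAbs τ'.2.2.natAbs :=
      Nat.lcm_pos (Int.natAbs_pos.mpr hr) (Int.natAbs_pos.mpr hr')
    have h2 := hp1.pos
    have h3 := hp3.pos
    positivity
  have hM0r : (0 : ℝ) < M0 τ τ' s := by exact_mod_cast hM0
  have hN0 : (0 : ℝ) < N := by exact_mod_cast hN
  have hRHS : 0 ≤ 3001 * (((N + 1 : ℝ) / (M0 τ τ' s) + 1) / k + 3 + Real.log k) * B := by
    positivity
  by_cases hex : ∃ t, Adm N τ.1 τ.2.1 τ.2.2 (s * k) (ρ + M0 τ τ' s * t) ∧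
      Adm N τ'.1 τ'.2.1 τ'.2.2 (s * k) (ρ + M0 τ τ' s * t)
  swap
  · have h0 : CS F η N τ τ' (s * k) s ρ = 0 := by
      unfold CS
      refine sum_eq_zero fun t _ => ?_
      by_cases h1 : Adm N τ.1 τ.2.1 τ.2.2 (s * k) (ρ + M0 τ τ' s * t)
      · have h2 : ¬ Adm N τ'.1 τ'.2.1 τ'.2.2 (s * k) (ρ + M0 τ τ' s * t) :=
          fun h2 => hex ⟨t, h1, h2⟩
        have h3 : gg F η N τ' (s * k) (ρ + M0 τ τ' s * t) = 0 := by
          unfold gg
          rw [if_neg h2]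
        rw [h3, map_zero, mul_zero]
      · have h3 : gg F η N τ (s * k) (ρ + M0 τ τ' s * t) = 0 := by
          unfold gg
          rw [if_neg h1]
        rw [h3, zero_mul]
    rw [h0, norm_zero]
    exact hRHS
  obtain ⟨tst, ha, ha'⟩ := hex
  obtain ⟨c, hc, n0, ν, n1, ν', hform⟩ := cls_formula N hN η F τ τ' hp1 hp2 hp3 hp4 s k hs hk hm
    hcop ρ tst ha ha'
  set M := M0 τ τ' s with hMdef
  have hspk : Nat.Coprime (sp τ τ' s) k := by
    refine Nat.Coprime.symm (hcop.coprime_dvd_right ?_)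
    unfold sp
    exact ⟨τ.2.2.natAbs * τ'.2.2.natAbs, by ring⟩
  have hMk : Nat.Coprime M k := by
    refine Nat.Coprime.symm (hcop.coprime_dvd_right ?_)
    rw [hMdef]
    unfold M0
    obtain ⟨u, hu⟩ := Nat.lcm_dvd_mul τ.2.2.natAbs τ'.2.2.natAbs
    refine ⟨u * (τ.2.1 * τ'.2.1), ?_⟩
    rw [hu]
    ring
  -- the index set
  set J := (range (2 * N + 2)).filter (fun t => ρ + M * t ∈ II N ∧
    (((N : ℤ) < n0 + ν * t ∧ n0 + ν * t ≤ 2 * N + 1) ∧
      ((N : ℤ) < n1 + ν' * t ∧ n1 + ν' * t ≤ 2 * N + 1))) with hJ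
  have hCS : CS F η N τ τ' (s * k) s ρ = ∑ t ∈ J, if Nat.Coprime (ρ + M * t) k then
      c * GG F ((s * k : ℕ) : ℝ) (cc η τ (s * k)) (cc η τ' (s * k))
        ((ρ : ℝ) + (M : ℝ) * t) ((n0 : ℝ) + (ν : ℝ) * t) ((n1 : ℝ) + (ν' : ℝ) * t) *
          kf k (K0 η τ τ') (sp τ τ' s * (ρ + M * t)) else 0 := by
    have h1 : J = ((range (2 * N + 2)).filter (fun t => ρ + M * t ∈ II N)).filter
        (fun t : ℕ => ((N : ℤ) < n0 + ν * t ∧ n0 + ν * t ≤ 2 * N + 1) ∧
          ((N : ℤ) < n1 + ν' * t ∧ n1 + ν' * t ≤ 2 * N + 1)) := by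
      rw [hJ, filter_filter]
    rw [h1, sum_filter]
    unfold CS
    rw [← hMdef]
    refine sum_congr rfl fun t ht => ?_
    rw [hform t (mem_filter.mp ht).2]
    by_cases h2 : ((N : ℤ) < n0 + ν * t ∧ n0 + ν * t ≤ 2 * N + 1) ∧
        ((N : ℤ) < n1 + ν' * t ∧ n1 + ν' * t ≤ 2 * N + 1)
    · rw [if_pos h2]
      by_cases h3 : Nat.Coprime (ρ + M * t) k
      · rw [if_pos h3, if_pos ⟨h2.1, h2.2, h3⟩]
      · rw [if_neg h3, if_neg (fun h => h3 h.2.2)]
    · rw [if_neg h2, if_neg (fun h => h2 ⟨h.1, h.2.1⟩)]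
  rw [hCS]
  rcases J.eq_empty_or_nonempty with hJe | hJne
  · rw [hJe, sum_empty, norm_zero]
    exact hRHS
  obtain ⟨t0, T, hJT⟩ := clsB_conv J hJne (by
    intro a ha c hc b hab hbc
    rw [hJ, mem_filter, mem_range] at ha hc ⊢
    refine ⟨by omega, ?_, clsB_aff _ _ _ _ a b c hab hbc ha.2.2.1 hc.2.2.1,
      clsB_aff _ _ _ _ a b c hab hbc ha.2.2.2 hc.2.2.2⟩
    have h1 := ha.2.1
    have h2 := hc.2.1
    unfold II at h1 h2 ⊢
    rw [mem_Ioc] at h1 h2 ⊢
    have h3 : M * a ≤ M * b := Nat.mul_le_mul_left _ hab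
    have h4 : M * b ≤ M * c := Nat.mul_le_mul_left _ hbc
    omega)
  have hmem : ∀ j, j < T + 1 → t0 + j ∈ J := by
    intro j hj
    rw [hJT, mem_Ico]
    omega
  have hprop : ∀ j, j < T + 1 → (N < ρ + M * (t0 + j) ∧ ρ + M * (t0 + j) ≤ 2 * N + 1) ∧
      (((N : ℤ) < n0 + ν * (t0 + j : ℕ) ∧ n0 + ν * (t0 + j : ℕ) ≤ 2 * N + 1) ∧
      ((N : ℤ) < n1 + ν' * (t0 + j : ℕ) ∧ n1 + ν' * (t0 + j : ℕ) ≤ 2 * N + 1)) := by
    intro j hj
    have h1 := hmem j hj
    rw [hJ, mem_filter] at h1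
    have h2 := h1.2.1
    unfold II at h2
    rw [mem_Ioc] at h2
    exact ⟨h2, h1.2.2⟩
  have hTb : ((T + 1 : ℕ) : ℝ) ≤ (N + 1 : ℝ) / M + 1 := by
    have h1 := (hprop 0 (by omega)).1.1
    have h2 := (hprop T (by omega)).1.2
    have h3 : M * T ≤ N := by
      have h4 : M * (t0 + T) = M * (t0 + 0) + M * T := by ring
      omega
    have h5 : (M : ℝ) * T ≤ N := by exact_mod_cast h3
    have h6 : (T : ℝ) ≤ (N + 1 : ℝ) / M := by
      rw [le_div_iff₀ hM0r]
      linarith only [h5]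
    push_cast
    linarith only [h6]
  rw [hJT, sum_Ico_eq_sum_range, Nat.add_sub_cancel_left]
  set G : ℕ → ℂ := fun j => GG F ((s * k : ℕ) : ℝ) (cc η τ (s * k)) (cc η τ' (s * k))
    (((ρ : ℝ) + (M : ℝ) * t0) + (M : ℝ) * j) (((n0 : ℝ) + (ν : ℝ) * t0) + (ν : ℝ) * j)
    (((n1 : ℝ) + (ν' : ℝ) * t0) + (ν' : ℝ) * j) with hG
  set f : ℕ → ℂ := fun j => if Nat.Coprime (ρ + M * (t0 + j)) k then
    kf k (K0 η τ τ') (sp τ τ' s * (ρ + M * (t0 + j))) else 0 with hf
  have hsum : (∑ j ∈ range (T + 1), if Nat.Coprime (ρ + M * (t0 + j)) k then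
      c * GG F ((s * k : ℕ) : ℝ) (cc η τ (s * k)) (cc η τ' (s * k))
        ((ρ : ℝ) + (M : ℝ) * (t0 + j : ℕ)) ((n0 : ℝ) + (ν : ℝ) * (t0 + j : ℕ))
        ((n1 : ℝ) + (ν' : ℝ) * (t0 + j : ℕ)) *
          kf k (K0 η τ τ') (sp τ τ' s * (ρ + M * (t0 + j))) else 0) =
      c * ∑ j ∈ range (T + 1), G j * f j := by
    rw [mul_sum]
    refine sum_congr rfl fun j _ => ?_
    rw [hG, hf]
    by_cases h3 : Nat.Coprime (ρ + M * (t0 + j)) k
    · simp only [if_pos h3]
      have e1 : (ρ : ℝ) + (M : ℝ) * (t0 + j : ℕ) = ((ρ : ℝ) + (M : ℝ) * t0) + (M : ℝ) * j := by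
        push_cast
        ring
      have e2 : (n0 : ℝ) + (ν : ℝ) * (t0 + j : ℕ) = ((n0 : ℝ) + (ν : ℝ) * t0) + (ν : ℝ) * j := by
        push_cast
        ring
      have e3 : (n1 : ℝ) + (ν' : ℝ) * (t0 + j : ℕ) =
          ((n1 : ℝ) + (ν' : ℝ) * t0) + (ν' : ℝ) * j := by
        push_cast
        ring
      rw [e1, e2, e3]
      ring
    · simp only [if_neg h3, mul_zero]
  rw [hsum, norm_mul, hc, one_mul]
  have hm' := hm
  unfold II at hm'
  rw [mem_Ioc] at hm'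
  have hNr : (1 : ℝ) ≤ N := by exact_mod_cast hN
  have hcast : ∀ x : ℝ, (N : ℝ) < x ∧ x ≤ 2 * N + 1 → (N : ℝ) ≤ x ∧ x ≤ 3 * N := by
    intro x hx
    exact ⟨hx.1.le, by linarith only [hNr, hx, hx.2]⟩
  obtain ⟨hG1, hG2⟩ := tv N hN F hF ((s * k : ℕ) : ℝ) (cc η τ (s * k)) (cc η τ' (s * k))
    (by exact_mod_cast hm'.1.le)
    (by
      have h1 : ((s * k : ℕ) : ℝ) ≤ 2 * N + 1 := by exact_mod_cast hm'.2
      linarith only [hNr, h1])
    (clsB_cc N P hN η hη τ hτ _ hm) (clsB_cc N P hN η hη τ' hτ' _ hm) (T + 1)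
    ((ρ : ℝ) + (M : ℝ) * t0) M ((n0 : ℝ) + (ν : ℝ) * t0) ν ((n1 : ℝ) + (ν' : ℝ) * t0) ν'
    (by
      intro t ht
      apply hcast
      have h1 := (hprop t ht).1
      have h2 : (N : ℝ) < (ρ : ℝ) + (M : ℝ) * ((t0 : ℝ) + t) := by exact_mod_cast h1.1
      have h3 : (ρ : ℝ) + (M : ℝ) * ((t0 : ℝ) + t) ≤ 2 * N + 1 := by exact_mod_cast h1.2
      constructor <;> linarith only [h2, h3])
    (by
      intro t ht
      apply hcast
      have h1 := (hprop t ht).2.1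
      push_cast at h1
      have h2 : (N : ℝ) < (n0 : ℝ) + (ν : ℝ) * ((t0 : ℝ) + t) := by exact_mod_cast h1.1
      have h3 : (n0 : ℝ) + (ν : ℝ) * ((t0 : ℝ) + t) ≤ 2 * N + 1 := by exact_mod_cast h1.2
      constructor <;> linarith only [h2, h3])
    (by
      intro t ht
      apply hcast
      have h1 := (hprop t ht).2.2
      push_cast at h1
      have h2 : (N : ℝ) < (n1 : ℝ) + (ν' : ℝ) * ((t0 : ℝ) + t) := by exact_mod_cast h1.1
      have h3 : (n1 : ℝ) + (ν' : ℝ) * ((t0 : ℝ) + t) ≤ 2 * N + 1 := by exact_mod_cast h1.2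
      constructor <;> linarith only [h2, h3])
  have hBB : ∀ j ≤ T + 1, ‖∑ t ∈ range j, f t‖ ≤
      (((N + 1 : ℝ) / M + 1) / k + 3 + Real.log k) * B := by
    intro j hj
    have h1 : ∑ t ∈ range j, f t = ∑ t ∈ (range j).filter (fun t => Nat.Coprime
        (sp τ τ' s * (ρ + M * t0) + sp τ τ' s * M * t) k),
        kf k (K0 η τ τ') (sp τ τ' s * (ρ + M * t0) + sp τ τ' s * M * t) := by
      rw [sum_filter]
      refine sum_congr rfl fun t _ => ?_
      have e1 : sp τ τ' s * (ρ + M * t0) + sp τ τ' s * M * t =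
          sp τ τ' s * (ρ + M * (t0 + t)) := by ring
      rw [hf, e1]
      by_cases h3 : Nat.Coprime (ρ + M * (t0 + t)) k
      · simp only [if_pos h3]
        rw [if_pos (Nat.Coprime.mul_left hspk h3)]
      · simp only [if_neg h3]
        rw [if_neg]
        intro h4
        exact h3 (Nat.Coprime.coprime_mul_left h4)
    rw [h1]
    refine (kl_incomplete3 k hk (K0 η τ τ') B hB (sp τ τ' s * M) (sp τ τ' s * (ρ + M * t0)) j
      (Nat.Coprime.mul_left hspk hMk)).trans ?_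
    refine mul_le_mul_of_nonneg_right ?_ hR0
    have h2 : (j : ℝ) ≤ (N + 1 : ℝ) / M + 1 := by
      refine le_trans ?_ hTb
      exact_mod_cast hj
    have h3 : (j : ℝ) / k ≤ ((N + 1 : ℝ) / M + 1) / k := div_le_div_of_nonneg_right h2 hk0.le
    linarith only [h3]
  have hfin := abel_bv f G (T + 1) _ 3000 hBB hG1 hG2
  refine hfin.trans (le_of_eq ?_)
  ring

end Pool.Agent.H35.WL
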