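import Pool.Agent.H35.WL.Fm
import Pool.Agent.H35.WL.Ki

/-!
# WL-Bd: the sum over one class

Copy of `cls_bound` (Pool/Agent/H94/EH/M14.lean, line 88, private lemmas `clsB_*`) with
`cls_formula7`, `M7`, `CS7` in place of `cls_formula`, `M0`, `CS`; the Kloosterman modulus is
`k u₁ u₃`, coprime to `M₇` and to `s (w₁ w₃) (p₂ p₄)`, and the incomplete sums are bounded by
`kl_incomplete3` with `B`.
-/

set_option autoImplicit false

namespace Pool.Agent.H35.WL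

open Finset
open Pool.Agent.H80.KF

private theorem Bd_conv (J : Finset ℕ) (hne : J.Nonempty)
    (hconv : ∀ a ∈ J, ∀ c ∈ J, ∀ b, a ≤ b → b ≤ c → b ∈ J) :
    ∃ t0 T, J = Ico t0 (t0 + (T + 1)) := by
  refine ⟨J.min' hne, J.max' hne - J.min' hne, ?_⟩
  have h1 : J.min' hne ≤ J.max' hne := J.min'_le _ (J.max'_mem hne)
  ext t
  rw [mem_Ico]
  constructor
  · intro ht
    have := J.min'_le t ht
    have := J.le_max' t ht
    omega
  · rintro ⟨h2, h3⟩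
    exact hconv _ (J.min'_mem hne) _ (J.max'_mem hne) t h2 (by omega)

private theorem Bd_aff (n0 ν lo hi : ℤ) (a b c : ℕ) (hab : a ≤ b) (hbc : b ≤ c)
    (ha : lo < n0 + ν * a ∧ n0 + ν * a ≤ hi) (hc : lo < n0 + ν * c ∧ n0 + ν * c ≤ hi) :
    lo < n0 + ν * b ∧ n0 + ν * b ≤ hi := by
  have h1 : (a : ℤ) ≤ b := by exact_mod_cast hab
  have h2 : (b : ℤ) ≤ c := by exact_mod_cast hbc
  rcases le_total 0 ν with h | h
  · have h3 := mul_le_mul_of_nonneg_left h1 h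
    have h4 := mul_le_mul_of_nonneg_left h2 h
    constructor <;> linarith only [ha, h3, hc, h4, ha.1, ha.2, hc.1, hc.2]
  · have h3 := mul_le_mul_of_nonpos_left h1 h
    have h4 := mul_le_mul_of_nonpos_left h2 h
    constructor <;> linarith [ha.1, ha.2, hc.1, hc.2]

private theorem Bd_cc (N P : ℕ) (hN : 1 ≤ N) (η : ℤ) (hη : |η| ≤ 4 * (N : ℤ) ^ 2)
    (τ : ℕ × ℕ × ℤ) (hτ : τ ∈ TT P) (m : ℕ) (hm : m ∈ II N) :
    |cc η τ m| ≤ 16 * N := by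
  unfold TT at hτ
  rw [mem_product, mem_product] at hτ
  obtain ⟨h1, h2, -⟩ := hτ
  unfold PP at h1 h2
  rw [mem_filter, mem_Ioc] at h1 h2
  unfold II at hm
  rw [mem_Ioc] at hm
  have hN0 : (0 : ℝ) < N := by exact_mod_cast hN
  have hp1 : (P : ℝ) + 1 ≤ τ.1 := by exact_mod_cast h1.1.1
  have hp1' : (τ.1 : ℝ) ≤ 4 * P := by exact_mod_cast h1.1.2
  have hp2 : (P : ℝ) + 1 ≤ τ.2.1 := by exact_mod_cast h2.1.1
  have hp2' : (τ.2.1 : ℝ) ≤ 4 * P := by exact_mod_cast h2.1.2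
  have hP0 : (0 : ℝ) ≤ P := Nat.cast_nonneg _
  have hm1 : (N : ℝ) ≤ m := by exact_mod_cast hm.1.le
  have hη' : |(η : ℝ)| ≤ 4 * (N : ℝ) ^ 2 := by exact_mod_cast hη
  have hd : |(τ.1 : ℝ) - τ.2.1| ≤ 3 * P := by
    rw [abs_le]
    constructor <;> linarith only [hp1, hp2', hp1', hp2]
  unfold cc
  push_cast
  rw [abs_div, abs_mul]
  have hden : (0 : ℝ) < (τ.1 : ℝ) * m := by
    apply mul_pos <;> linarith only [hp1, hp1', hN0, hm1]
  rw [abs_of_pos hden, div_le_iff₀ hden]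
  calc |(η : ℝ)| * |(τ.1 : ℝ) - τ.2.1| ≤ (4 * (N : ℝ) ^ 2) * (3 * P) :=
        mul_le_mul hη' hd (abs_nonneg _) (by positivity)
    _ ≤ 16 * N * (P * N) := by nlinarith only [hN0, hP0, mul_nonneg (mul_nonneg hN0.le hN0.le) hP0]
    _ ≤ 16 * N * ((τ.1 : ℝ) * m) := by
        refine mul_le_mul_of_nonneg_left ?_ (by positivity)
        exact mul_le_mul (by linarith only [hp1]) hm1 hN0.le (by linarith only [hp1, hp1'])

theorem cls_bound7 (N P : ℕ) (hN : 1 ≤ N) (hP : 1 ≤ P) (η : ℤ) (hη : |η| ≤ 4 * (N : ℤ) ^ 2)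
    (F : ℝ → ℂ) (hF : Wt N F) (τ τ' : ℕ × ℕ × ℤ) (hτ : τ ∈ TT P) (hτ' : τ' ∈ TT P)
    (s k u1 w1 u3 w3 : ℕ) (hs : 1 ≤ s) (hk : 1 ≤ k) (hm : s * k ∈ II N)
    (e1 : τ.1 = u1 * w1) (e3 : τ'.1 = u3 * w3) (hr : τ.2.2 ≠ 0) (hr' : τ'.2.2 ≠ 0)
    (hcop : Nat.Coprime (k * (u1 * u3))
      (τ.2.2.natAbs * τ'.2.2.natAbs * (τ.2.1 * τ'.2.1) * (s * (w1 * w3))))
    (ρ : ℕ) (hρ : ρ < M7 τ τ' s (w1 * w3)) (B : ℝ)
    (hB : ∀ b : ℤ, ‖klS (k * (u1 * u3)) (K0 η τ τ') b‖ ≤ B) :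
    ‖CS7 F η N τ τ' (s * k) s (w1 * w3) ρ‖ ≤
      3001 * (((N + 1 : ℝ) / (M7 τ τ' s (w1 * w3)) + 1) / ((k * (u1 * u3) : ℕ) : ℝ) + 3 +
        Real.log ((k * (u1 * u3) : ℕ) : ℝ)) * B := by
  classical
  have hτ1 := hτ
  have hτ1' := hτ'
  unfold TT at hτ1 hτ1'
  rw [mem_product, mem_product] at hτ1 hτ1'
  have hp1 : τ.1.Prime := (mem_filter.mp hτ1.1).2
  have hp2 : τ.2.1.Prime := (mem_filter.mp hτ1.2.1).2
  have hp3 : τ'.1.Prime := (mem_filter.mp hτ1'.1).2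
  have hp4 : τ'.2.1.Prime := (mem_filter.mp hτ1'.2.1).2
  have hR0 : 0 ≤ B := (norm_nonneg _).trans (hB 0)
  have hu1 : 0 < u1 := Nat.pos_of_ne_zero fun h => by
    rw [h, Nat.zero_mul] at e1
    exact hp1.ne_zero e1
  have hw1 : 0 < w1 := Nat.pos_of_ne_zero fun h => by
    rw [h, Nat.mul_zero] at e1
    exact hp1.ne_zero e1
  have hu3 : 0 < u3 := Nat.pos_of_ne_zero fun h => by
    rw [h, Nat.zero_mul] at e3
    exact hp3.ne_zero e3
  have hw3 : 0 < w3 := Nat.pos_of_ne_zero fun h => by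
    rw [h, Nat.mul_zero] at e3
    exact hp3.ne_zero e3
  have hq : 1 ≤ k * (u1 * u3) := Nat.mul_pos hk (Nat.mul_pos hu1 hu3)
  have hq0 : (0 : ℝ) < ((k * (u1 * u3) : ℕ) : ℝ) := by exact_mod_cast hq
  have hlog : 0 ≤ Real.log ((k * (u1 * u3) : ℕ) : ℝ) :=
    Real.log_nonneg (by exact_mod_cast hq)
  have hM0 : 0 < M7 τ τ' s (w1 * w3) := by
    unfold M7
    have h1 : 0 < Nat.lcm τ.2.2.natAbs τ'.2.2.natAbs :=
      Nat.lcm_pos (Int.natAbs_pos.mpr hr) (Int.natAbs_pos.mpr hr')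
    exact Nat.mul_pos h1 (Nat.mul_pos hs (Nat.mul_pos hw1 hw3))
  have hM0r : (0 : ℝ) < M7 τ τ' s (w1 * w3) := by exact_mod_cast hM0
  have hN0 : (0 : ℝ) < N := by exact_mod_cast hN
  have hRHS : 0 ≤ 3001 * (((N + 1 : ℝ) / (M7 τ τ' s (w1 * w3)) + 1) /
      ((k * (u1 * u3) : ℕ) : ℝ) + 3 + Real.log ((k * (u1 * u3) : ℕ) : ℝ)) * B := by
    positivity
  by_cases hex : ∃ t, Adm N τ.1 τ.2.1 τ.2.2 (s * k) (ρ + M7 τ τ' s (w1 * w3) * t) ∧
      Adm N τ'.1 τ'.2.1 τ'.2.2 (s * k) (ρ + M7 τ τ' s (w1 * w3) * t)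
  swap
  · have h0 : CS7 F η N τ τ' (s * k) s (w1 * w3) ρ = 0 := by
      unfold CS7
      refine sum_eq_zero fun t _ => ?_
      by_cases h1 : Adm N τ.1 τ.2.1 τ.2.2 (s * k) (ρ + M7 τ τ' s (w1 * w3) * t)
      · have h2 : ¬ Adm N τ'.1 τ'.2.1 τ'.2.2 (s * k) (ρ + M7 τ τ' s (w1 * w3) * t) :=
          fun h2 => hex ⟨t, h1, h2⟩
        have h3 : gg F η N τ' (s * k) (ρ + M7 τ τ' s (w1 * w3) * t) = 0 := by
          unfold gg
          rw [if_neg h2]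
        rw [h3, map_zero, mul_zero]
      · have h3 : gg F η N τ (s * k) (ρ + M7 τ τ' s (w1 * w3) * t) = 0 := by
          unfold gg
          rw [if_neg h1]
        rw [h3, zero_mul]
    rw [h0, norm_zero]
    exact hRHS
  obtain ⟨tst, ha, ha'⟩ := hex
  obtain ⟨c, hc, n0, ν, n1, ν', hform⟩ := cls_formula7 N hN η F τ τ' hp1 hp2 hp3 hp4 s k u1 w1
    u3 w3 hs hk hm e1 e3 hcop ρ tst ha ha'
  set M := M7 τ τ' s (w1 * w3) with hMdef
  have hspk : Nat.Coprime (s * (w1 * w3) * (τ.2.1 * τ'.2.1)) (k * (u1 * u3)) := by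
    refine Nat.Coprime.symm (hcop.coprime_dvd_right ?_)
    exact ⟨τ.2.2.natAbs * τ'.2.2.natAbs, by ring⟩
  have hMk : Nat.Coprime M (k * (u1 * u3)) := by
    refine Nat.Coprime.symm (hcop.coprime_dvd_right ?_)
    rw [hMdef]
    unfold M7
    obtain ⟨u, hu⟩ := Nat.lcm_dvd_mul τ.2.2.natAbs τ'.2.2.natAbs
    refine ⟨u * (τ.2.1 * τ'.2.1), ?_⟩
    rw [hu]
    ring
  obtain ⟨q, hqdef⟩ : ∃ q : ℕ, q = k * (u1 * u3) := ⟨_, rfl⟩
  obtain ⟨sw, hswdef⟩ : ∃ sw : ℕ, sw = s * (w1 * w3) * (τ.2.1 * τ'.2.1) := ⟨_, rfl⟩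
  rw [← hqdef] at hspk hMk hq hq0 hlog hB hRHS ⊢
  rw [← hswdef] at hspk
  simp only [← hqdef, ← hswdef] at hform
  -- the index set
  set J := (range (2 * N + 2)).filter (fun t => ρ + M * t ∈ II N ∧
    (((N : ℤ) < n0 + ν * t ∧ n0 + ν * t ≤ 2 * N + 1) ∧
      ((N : ℤ) < n1 + ν' * t ∧ n1 + ν' * t ≤ 2 * N + 1))) with hJ
  have hCS : CS7 F η N τ τ' (s * k) s (w1 * w3) ρ = ∑ t ∈ J, if Nat.Coprime (ρ + M * t) q then
      c * GG F ((s * k : ℕ) : ℝ) (cc η τ (s * k)) (cc η τ' (s * k))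
        ((ρ : ℝ) + (M : ℝ) * t) ((n0 : ℝ) + (ν : ℝ) * t) ((n1 : ℝ) + (ν' : ℝ) * t) *
          kf q (K0 η τ τ') (sw * (ρ + M * t)) else 0 := by
    have h1 : J = ((range (2 * N + 2)).filter (fun t => ρ + M * t ∈ II N)).filter
        (fun t : ℕ => ((N : ℤ) < n0 + ν * t ∧ n0 + ν * t ≤ 2 * N + 1) ∧
          ((N : ℤ) < n1 + ν' * t ∧ n1 + ν' * t ≤ 2 * N + 1)) := by
      rw [hJ, filter_filter]
    rw [h1, sum_filter]
    unfold CS7
    rw [← hMdef]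
    refine sum_congr rfl fun t ht => ?_
    rw [hform t (mem_filter.mp ht).2]
    by_cases h2 : ((N : ℤ) < n0 + ν * t ∧ n0 + ν * t ≤ 2 * N + 1) ∧
        ((N : ℤ) < n1 + ν' * t ∧ n1 + ν' * t ≤ 2 * N + 1)
    · rw [if_pos h2]
      by_cases h3 : Nat.Coprime (ρ + M * t) q
      · rw [if_pos h3, if_pos ⟨h2.1, h2.2, h3⟩]
      · rw [if_neg h3, if_neg (fun h => h3 h.2.2)]
    · rw [if_neg h2, if_neg (fun h => h2 ⟨h.1, h.2.1⟩)]
  rw [hCS]
  rcases J.eq_empty_or_nonempty with hJe | hJne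
  · rw [hJe, sum_empty, norm_zero]
    exact hRHS
  obtain ⟨t0, T, hJT⟩ := Bd_conv J hJne (by
    intro a ha c hc b hab hbc
    rw [hJ, mem_filter, mem_range] at ha hc ⊢
    refine ⟨by omega, ?_, Bd_aff _ _ _ _ a b c hab hbc ha.2.2.1 hc.2.2.1,
      Bd_aff _ _ _ _ a b c hab hbc ha.2.2.2 hc.2.2.2⟩
    have h1 := ha.2.1
    have h2 := hc.2.1
    unfold II at h1 h2 ⊢
    rw [mem_Ioc] at h1 h2 ⊢
    have h3 : M * a ≤ M * b := Nat.mul_le_mul_left _ hab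
    have h4 : M * b ≤ M * c := Nat.mul_le_mul_left _ hbc
    omega)
  have hmem : ∀ j, j < T + 1 → t0 + j ∈ J := by
    intro j hj
    rw [hJT, mem_Ico]
    omega
  have hprop : ∀ j, j < T + 1 → (N < ρ + M * (t0 + j) ∧ ρ + M * (t0 + j) ≤ 2 * N + 1) ∧
      (((N : ℤ) < n0 + ν * (t0 + j : ℕ) ∧ n0 + ν * (t0 + j : ℕ) ≤ 2 * N + 1) ∧
      ((N : ℤ) < n1 + ν' * (t0 + j : ℕ) ∧ n1 + ν' * (t0 + j : ℕ) ≤ 2 * N + 1)) := by
    intro j hj
    have h1 := hmem j hj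
    rw [hJ, mem_filter] at h1
    have h2 := h1.2.1
    unfold II at h2
    rw [mem_Ioc] at h2
    exact ⟨h2, h1.2.2⟩
  have hTb : ((T + 1 : ℕ) : ℝ) ≤ (N + 1 : ℝ) / M + 1 := by
    have h1 := (hprop 0 (by omega)).1.1
    have h2 := (hprop T (by omega)).1.2
    have h3 : M * T ≤ N := by
      have h4 : M * (t0 + T) = M * (t0 + 0) + M * T := by ring
      omega
    have h5 : (M : ℝ) * T ≤ N := by exact_mod_cast h3
    have h6 : (T : ℝ) ≤ (N + 1 : ℝ) / M := by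
      rw [le_div_iff₀ hM0r]
      linarith only [h5]
    push_cast
    linarith only [h6]
  rw [hJT, sum_Ico_eq_sum_range, Nat.add_sub_cancel_left]
  set G : ℕ → ℂ := fun j => GG F ((s * k : ℕ) : ℝ) (cc η τ (s * k)) (cc η τ' (s * k))
    (((ρ : ℝ) + (M : ℝ) * t0) + (M : ℝ) * j) (((n0 : ℝ) + (ν : ℝ) * t0) + (ν : ℝ) * j)
    (((n1 : ℝ) + (ν' : ℝ) * t0) + (ν' : ℝ) * j) with hG
  set f : ℕ → ℂ := fun j => if Nat.Coprime (ρ + M * (t0 + j)) q then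
    kf q (K0 η τ τ') (sw * (ρ + M * (t0 + j))) else 0 with hf
  have hsum : (∑ j ∈ range (T + 1), if Nat.Coprime (ρ + M * (t0 + j)) q then
      c * GG F ((s * k : ℕ) : ℝ) (cc η τ (s * k)) (cc η τ' (s * k))
        ((ρ : ℝ) + (M : ℝ) * (t0 + j : ℕ)) ((n0 : ℝ) + (ν : ℝ) * (t0 + j : ℕ))
        ((n1 : ℝ) + (ν' : ℝ) * (t0 + j : ℕ)) *
          kf q (K0 η τ τ') (sw * (ρ + M * (t0 + j))) else 0) =
      c * ∑ j ∈ range (T + 1), G j * f j := by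
    rw [mul_sum]
    refine sum_congr rfl fun j _ => ?_
    rw [hG, hf]
    by_cases h3 : Nat.Coprime (ρ + M * (t0 + j)) q
    · simp only [if_pos h3]
      have e1 : (ρ : ℝ) + (M : ℝ) * (t0 + j : ℕ) = ((ρ : ℝ) + (M : ℝ) * t0) + (M : ℝ) * j := by
        push_cast
        ring
      have e2 : (n0 : ℝ) + (ν : ℝ) * (t0 + j : ℕ) = ((n0 : ℝ) + (ν : ℝ) * t0) + (ν : ℝ) * j := by
        push_cast
        ring
      have e3 : (n1 : ℝ) + (ν' : ℝ) * (t0 + j : ℕ) =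
          ((n1 : ℝ) + (ν' : ℝ) * t0) + (ν' : ℝ) * j := by
        push_cast
        ring
      rw [e1, e2, e3]
      ring
    · simp only [if_neg h3, mul_zero]
  rw [hsum, norm_mul, hc, one_mul]
  have hm' := hm
  unfold II at hm'
  rw [mem_Ioc] at hm'
  have hNr : (1 : ℝ) ≤ N := by exact_mod_cast hN
  have hcast : ∀ x : ℝ, (N : ℝ) < x ∧ x ≤ 2 * N + 1 → (N : ℝ) ≤ x ∧ x ≤ 3 * N := by
    intro x hx
    exact ⟨hx.1.le, by linarith only [hNr, hx, hx.2]⟩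
  obtain ⟨hG1, hG2⟩ := tv N hN F hF ((s * k : ℕ) : ℝ) (cc η τ (s * k)) (cc η τ' (s * k))
    (by exact_mod_cast hm'.1.le)
    (by
      have h1 : ((s * k : ℕ) : ℝ) ≤ 2 * N + 1 := by exact_mod_cast hm'.2
      linarith only [hNr, h1])
    (Bd_cc N P hN η hη τ hτ _ hm) (Bd_cc N P hN η hη τ' hτ' _ hm) (T + 1)
    ((ρ : ℝ) + (M : ℝ) * t0) M ((n0 : ℝ) + (ν : ℝ) * t0) ν ((n1 : ℝ) + (ν' : ℝ) * t0) ν'
    (by
      intro t ht
      apply hcast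
      have h1 := (hprop t ht).1
      have h2 : (N : ℝ) < (ρ : ℝ) + (M : ℝ) * ((t0 : ℝ) + t) := by exact_mod_cast h1.1
      have h3 : (ρ : ℝ) + (M : ℝ) * ((t0 : ℝ) + t) ≤ 2 * N + 1 := by exact_mod_cast h1.2
      constructor <;> linarith only [h2, h3])
    (by
      intro t ht
      apply hcast
      have h1 := (hprop t ht).2.1
      push_cast at h1
      have h2 : (N : ℝ) < (n0 : ℝ) + (ν : ℝ) * ((t0 : ℝ) + t) := by exact_mod_cast h1.1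
      have h3 : (n0 : ℝ) + (ν : ℝ) * ((t0 : ℝ) + t) ≤ 2 * N + 1 := by exact_mod_cast h1.2
      constructor <;> linarith only [h2, h3])
    (by
      intro t ht
      apply hcast
      have h1 := (hprop t ht).2.2
      push_cast at h1
      have h2 : (N : ℝ) < (n1 : ℝ) + (ν' : ℝ) * ((t0 : ℝ) + t) := by exact_mod_cast h1.1
      have h3 : (n1 : ℝ) + (ν' : ℝ) * ((t0 : ℝ) + t) ≤ 2 * N + 1 := by exact_mod_cast h1.2
      constructor <;> linarith only [h2, h3])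
  have hBj : ∀ j ≤ T + 1, ‖∑ t ∈ range j, f t‖ ≤
      (((N + 1 : ℝ) / M + 1) / q + 3 + Real.log q) * B := by
    intro j hj
    have h1 : ∑ t ∈ range j, f t = ∑ t ∈ (range j).filter (fun t => Nat.Coprime
        (sw * (ρ + M * t0) + sw * M * t) q),
        kf q (K0 η τ τ') (sw * (ρ + M * t0) + sw * M * t) := by
      rw [sum_filter]
      refine sum_congr rfl fun t _ => ?_
      have e1 : sw * (ρ + M * t0) + sw * M * t =
          sw * (ρ + M * (t0 + t)) := by ring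
      rw [hf, e1]
      by_cases h3 : Nat.Coprime (ρ + M * (t0 + t)) q
      · simp only [if_pos h3]
        rw [if_pos (Nat.Coprime.mul_left hspk h3)]
      · simp only [if_neg h3]
        rw [if_neg]
        intro h4
        exact h3 (Nat.Coprime.coprime_mul_left h4)
    rw [h1]
    refine (kl_incomplete3 q hq (K0 η τ τ') B hB (sw * M) (sw * (ρ + M * t0)) j
      (Nat.Coprime.mul_left hspk hMk)).trans ?_
    refine mul_le_mul_of_nonneg_right ?_ hR0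
    have h2 : (j : ℝ) ≤ (N + 1 : ℝ) / M + 1 := by
      refine le_trans ?_ hTb
      exact_mod_cast hj
    have h3 : (j : ℝ) / q ≤ ((N + 1 : ℝ) / M + 1) / q := div_le_div_of_nonneg_right h2 hq0.le
    linarith only [h3]
  have hfin := abel_bv f G (T + 1) _ 3000 hBj hG1 hG2
  refine hfin.trans (le_of_eq ?_)
  ring

end Pool.Agent.H35.WL
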