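import Pool.Agent.H35.WL.Cc
import Pool.Agent.H35.KL.Cr

/-!
# WL-Cr: copy of `crs2` (Pool/Agent/H35/KL/Cr.lean) with `xk3` in place of `xk2` and `RV` (exponent
`1/20`) in place of `RR` (exponent `1/50`)

The private lemmas `CrL_n0`, `CrL_entry`, `CrL_num` have to be copied/adapted.  `ε = mg σ κ > 0`,
`div_bound` with `δ = ε/2`.  `Q ≤ x^{1/2 + σ/4 - κ/2} ≤ x^{3/5}`.
* `XK`: `21 C x^{ε/2} Q^{1-σ} √r2 √r2 ≤ x^ε Q^{1-σ} √r2 √r2` for large `x`;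
* `cross_ram`: `100 x tau(|h|)/R ≤ 100 x C x^{ε/2} · 2 x^{-1/20} ≤ x^{1 - 1/20 + ε}`.
-/

set_option autoImplicit false

namespace Pool.Agent.H35.WL

open Finset
open Pool.Agent.H80.KF
open Pool.Agent.H35.KL (n2 r2)

/-- solution of two congruences -/
private theorem CrL_n0 (a a' : ℤ) : ∃ n0 : ℕ → ℕ → ℤ, ∀ q q' : ℕ,
    ((Nat.gcd q q' : ℕ) : ℤ) ∣ a' - a → (q : ℤ) ∣ n0 q q' - a ∧ (q' : ℤ) ∣ n0 q q' - a' := by
  classical
  have h : ∀ q q' : ℕ, ∃ n0 : ℤ, ((Nat.gcd q q' : ℕ) : ℤ) ∣ a' - a →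
      (q : ℤ) ∣ n0 - a ∧ (q' : ℤ) ∣ n0 - a' := by
    intro q q'
    by_cases hd : ((Nat.gcd q q' : ℕ) : ℤ) ∣ a' - a
    · obtain ⟨t, ht⟩ := hd
      have hb := Nat.gcd_eq_gcd_ab q q'
      refine ⟨a + q * Nat.gcdA q q' * t, fun _ => ⟨?_, ?_⟩⟩
      · exact ⟨Nat.gcdA q q' * t, by ring⟩
      · refine ⟨-(Nat.gcdB q q' * t), ?_⟩
        rw [hb] at ht
        linear_combination -ht
    · exact ⟨0, fun h => absurd h hd⟩
  choose n0 hn0 using h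
  exact ⟨n0, hn0⟩

/-- one Gram entry -/
private theorem CrL_entry (x J R q q' : ℕ) (hx : 1 ≤ x) (hJ : 1 ≤ J) (hq : 1 ≤ q) (hq' : 1 ≤ q')
    (hdiv : ∀ m, 1 ≤ m → m ≤ q * q' → m ∣ 2 * x * J) (h1 : q * R ≤ 2 * x) (h2 : q' * R ≤ 2 * x)
    (h3 : R * R ≤ 2 * x) (a a' : ℤ) (n0 : ℕ → ℕ → ℤ)
    (hn0 : ((Nat.gcd q q' : ℕ) : ℤ) ∣ a' - a →
      (q : ℤ) ∣ n0 q q' - a ∧ (q' : ℤ) ∣ n0 q q' - a') :
    ((∑ n ∈ RW x J, ww x J n * uu R q a n * uu R q' a' n : ℝ) : ℂ) =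
      (if ((Nat.gcd q q' : ℕ) : ℤ) ∣ a' - a then
        ((Real.pi ^ 2 * x / (2 * (Nat.lcm q q' : ℕ)) : ℝ) : ℂ) *
          (fej x (Nat.lcm q q') (n0 q q') - 1) else 0) +
        ((Real.pi ^ 2 * x / (2 * q * q') *
          ∑ r ∈ (Nat.gcd q q').divisors.filter (fun r => R < r), ram r (a' - a) : ℝ) : ℂ) := by
  have hg : 1 ≤ Nat.gcd q q' := Nat.gcd_pos_of_pos_left _ hq
  have hsum := ram_sum (Nat.gcd q q') hg (a' - a)
  have hsplit : ∑ r ∈ (Nat.gcd q q').divisors.filter (fun r => R < r), ram r (a' - a)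
      = (∑ r ∈ (Nat.gcd q q').divisors, ram r (a' - a)) -
        ∑ r ∈ (Nat.gcd q q').divisors.filter (fun r => r ≤ R), ram r (a' - a) := by
    have h4 := Finset.sum_filter_add_sum_filter_not (Nat.gcd q q').divisors (fun r => r ≤ R)
      (fun r => ram r (a' - a))
    have h5 : (Nat.gcd q q').divisors.filter (fun r => ¬ r ≤ R)
        = (Nat.gcd q q').divisors.filter (fun r => R < r) := by
      refine Finset.filter_congr fun r _ => ?_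
      exact not_le
    rw [h5] at h4
    linarith
  by_cases hd : ((Nat.gcd q q' : ℕ) : ℤ) ∣ a' - a
  · rw [if_pos hd]
    have h4 := gram_in x J R q q' hx hJ hq hq' hdiv h1 h2 h3 a a' (n0 q q') (hn0 hd).1 (hn0 hd).2
    rw [h4, hsplit, hsum, if_pos hd]
    have hgl : ((Nat.gcd q q' : ℕ) : ℝ) * (Nat.lcm q q' : ℕ) = q * q' := by
      exact_mod_cast Nat.gcd_mul_lcm q q'
    have hq0 : (q : ℝ) ≠ 0 := by
      have : (1 : ℝ) ≤ q := by exact_mod_cast hq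
      linarith
    have hq0' : (q' : ℝ) ≠ 0 := by
      have : (1 : ℝ) ≤ q' := by exact_mod_cast hq'
      linarith
    have hl0 : ((Nat.lcm q q' : ℕ) : ℝ) ≠ 0 := by
      have : Nat.lcm q q' ≠ 0 := Nat.lcm_ne_zero (by omega) (by omega)
      exact_mod_cast this
    have h6 : Real.pi ^ 2 * x / (2 * q * q') * ((Nat.gcd q q' : ℕ) : ℝ)
        = Real.pi ^ 2 * x / (2 * (Nat.lcm q q' : ℕ)) := by
      rw [div_mul_eq_mul_div, div_eq_div_iff (by positivity) (by positivity)]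
      linear_combination (2 * Real.pi ^ 2 * x) * hgl
    rw [mul_sub (Real.pi ^ 2 * (x : ℝ) / (2 * q * q')), h6]
    push_cast
    ring
  · rw [if_neg hd]
    have h4 := gram_out x J R q q' hx hJ hq hq' hdiv h1 h2 h3 a a' hd
    rw [h4, hsplit, hsum, if_neg hd]
    push_cast
    ring

/-- the numerical part -/
private theorem CrL_num (σ κ : ℝ) (hσ0 : 0 < σ) (hσ1 : σ ≤ 1 / 20) (h0 : 0 ≤ κ)
    (h1 : κ < σ / 2) : ∃ x0 : ℕ, ∀ x : ℕ, x0 ≤ x →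
    1 ≤ x ∧ 1 ≤ RV x ∧
    (∀ Q : ℕ, 1 ≤ Q → (Q : ℝ) ≤ (x : ℝ) ^ ((1 : ℝ) / 2 + σ / 4 - κ / 2) →
      2 * Q * RV x ≤ 2 * x) ∧
    RV x * RV x ≤ 2 * x ∧
    ∀ h : ℤ, h ≠ 0 → |h| ≤ x →
      100 * x * (tau h.natAbs : ℝ) / (RV x : ℝ) ≤
        (x : ℝ) ^ (1 - 1 / 20 + mg σ κ) ∧
      21 * (tau h.natAbs : ℝ) ≤ (x : ℝ) ^ (mg σ κ) := by
  have hε : 0 < mg σ κ := by
    have h2 : 0 < σ / 2 - κ := by linarith
    unfold mg
    positivity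
  set ε : ℝ := mg σ κ with hεdef
  clear_value ε
  obtain ⟨C, hC1, hC⟩ := Pool.Agent.H92.EH.div_bound (ε / 2) (by positivity)
  have ht1 : Filter.Tendsto (fun x : ℕ => ((x : ℝ)) ^ (ε / 2)) Filter.atTop
      Filter.atTop :=
    (tendsto_rpow_atTop (by positivity)).comp tendsto_natCast_atTop_atTop
  obtain ⟨X1, hX1⟩ := Filter.eventually_atTop.1 (ht1.eventually_ge_atTop (200 * C))
  refine ⟨max 1 X1, fun x hx => ?_⟩
  have hx1 : 1 ≤ x := (le_max_left _ _).trans hx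
  have hxX1 : X1 ≤ x := (le_max_right _ _).trans hx
  have hxr : (1 : ℝ) ≤ x := by exact_mod_cast hx1
  have hxpos : (0 : ℝ) < x := by linarith
  have b1 := hX1 x hxX1
  have hr1 : (1 : ℝ) ≤ (x : ℝ) ^ ((1 : ℝ) / 20) := Real.one_le_rpow hxr (by norm_num)
  have hR1 : 1 ≤ RV x := Nat.one_le_floor_iff _ |>.2 hr1
  have hRle : (RV x : ℝ) ≤ (x : ℝ) ^ ((1 : ℝ) / 20) :=
    Nat.floor_le (by positivity)
  have hRge : (x : ℝ) ^ ((1 : ℝ) / 20) / 2 ≤ (RV x : ℝ) := by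
    have h1 : (x : ℝ) ^ ((1 : ℝ) / 20) < (RV x : ℝ) + 1 :=
      Nat.lt_floor_add_one ((x : ℝ) ^ ((1 : ℝ) / 20))
    have h2 : (1 : ℝ) ≤ (RV x : ℝ) := by exact_mod_cast hR1
    linarith
  refine ⟨hx1, hR1, ?_, ?_, ?_⟩
  · intro Q hQ1 hQ
    have h1 : (Q : ℝ) * (RV x : ℝ) ≤ x := by
      calc (Q : ℝ) * (RV x : ℝ)
          ≤ (x : ℝ) ^ ((1 : ℝ) / 2 + σ / 4 - κ / 2) * (x : ℝ) ^ ((1 : ℝ) / 20) := by gcongr
        _ = (x : ℝ) ^ ((1 : ℝ) / 2 + σ / 4 - κ / 2 + 1 / 20) := (Real.rpow_add hxpos _ _).symm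
        _ ≤ (x : ℝ) ^ (1 : ℝ) := Real.rpow_le_rpow_of_exponent_le hxr (by linarith)
        _ = x := Real.rpow_one _
    have h2 : Q * RV x ≤ x := by exact_mod_cast h1
    rw [mul_assoc]
    exact Nat.mul_le_mul_left 2 h2
  · have h1 : (RV x : ℝ) * (RV x : ℝ) ≤ x := by
      calc (RV x : ℝ) * (RV x : ℝ)
          ≤ (x : ℝ) ^ ((1 : ℝ) / 20) * (x : ℝ) ^ ((1 : ℝ) / 20) := by gcongr
        _ = (x : ℝ) ^ ((1 : ℝ) / 20 + 1 / 20) := (Real.rpow_add hxpos _ _).symm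
        _ ≤ (x : ℝ) ^ (1 : ℝ) := Real.rpow_le_rpow_of_exponent_le hxr (by norm_num)
        _ = x := Real.rpow_one _
    have h2 : RV x * RV x ≤ x := by
      exact_mod_cast h1
    omega
  · intro h hh hhx
    have hnat : 1 ≤ h.natAbs := Int.natAbs_pos.2 hh
    have hle : (h.natAbs : ℝ) ≤ x := by
      have h1 : ((h.natAbs : ℕ) : ℤ) ≤ x := by
        rw [Int.natCast_natAbs]
        exact hhx
      exact_mod_cast h1
    have ht : (tau h.natAbs : ℝ) ≤ C * (x : ℝ) ^ (ε / 2) := by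
      refine (hC h.natAbs hnat).trans ?_
      exact mul_le_mul_of_nonneg_left
        (Real.rpow_le_rpow (Nat.cast_nonneg _) hle (by positivity)) (by linarith)
    have hRpos : 0 < (RV x : ℝ) := by
      have : (1 : ℝ) ≤ (RV x : ℝ) := by exact_mod_cast hR1
      linarith
    have hp : 0 < (x : ℝ) ^ (ε / 2) := by positivity
    have e0 : (x : ℝ) ^ ε = (x : ℝ) ^ (ε / 2) * (x : ℝ) ^ (ε / 2) := by
      rw [← Real.rpow_add hxpos]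
      congr 1
      ring
    have e4 : (x : ℝ) ^ (ε / 2) * (200 * C) ≤ (x : ℝ) ^ ε := by
      rw [e0]
      exact mul_le_mul_of_nonneg_left b1 hp.le
    constructor
    · rw [div_le_iff₀ hRpos]
      have e1 : (x : ℝ) ^ (1 - 1 / 20 + ε) * (x : ℝ) ^ ((1 : ℝ) / 20)
          = x * (x : ℝ) ^ ε := by
        have e2 : (x : ℝ) * (x : ℝ) ^ ε
            = (x : ℝ) ^ (1 : ℝ) * (x : ℝ) ^ ε := by
          rw [Real.rpow_one]
        rw [e2, ← Real.rpow_add hxpos, ← Real.rpow_add hxpos]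
        congr 1
        ring
      have e5 : 100 * (x : ℝ) * (tau h.natAbs : ℝ) ≤
          100 * x * (C * (x : ℝ) ^ (ε / 2)) :=
        mul_le_mul_of_nonneg_left ht (by positivity)
      have e6 : (x : ℝ) ^ (1 - 1 / 20 + ε) * ((x : ℝ) ^ ((1 : ℝ) / 20) / 2) ≤
          (x : ℝ) ^ (1 - 1 / 20 + ε) * (RV x : ℝ) :=
        mul_le_mul_of_nonneg_left hRge (by positivity)
      have e7 : (x : ℝ) * ((x : ℝ) ^ (ε / 2) * (200 * C)) ≤
          x * (x : ℝ) ^ ε := mul_le_mul_of_nonneg_left e4 hxpos.le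
      linarith
    · have hC0 : 0 ≤ C * (x : ℝ) ^ (ε / 2) := by positivity
      linarith

theorem crs3 (σ κ : ℝ) (hσ0 : 0 < σ) (hσ1 : σ ≤ 1 / 20) (h0 : 0 ≤ κ) (h1 : κ < σ / 2)
    (hK : KB σ) : ∃ x0 : ℕ, ∀ x Q J : ℕ, x0 ≤ x → 1 ≤ Q →
    1 ≤ J → (Q : ℝ) ≤ (x : ℝ) ^ ((1 : ℝ) / 2 + σ / 4 - κ / 2) →
    (∀ m, 1 ≤ m → m ≤ 4 * Q ^ 2 → m ∣ 2 * x * J) →
    ∀ a a' : ℤ, a ≠ a' → |a| ≤ x → |a'| ≤ x → |a' - a| ≤ x →
    ∀ c c' : ℕ → ℝ, (∀ q, |c q| ≤ 1) → (∀ q, |c' q| ≤ 1) →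
    |∑ n ∈ RW x J, ww x J n * (SS (RV x) Q c a n * SS (RV x) Q c' a' n)| ≤
      (x : ℝ) ^ (1 - 1 / 20 + mg σ κ) +
      (x : ℝ) ^ (mg σ κ) * (Q : ℝ) ^ (1 - σ) *
        (Real.sqrt (r2 (Ioc Q (2 * Q)) c) * Real.sqrt (r2 (Ioc Q (2 * Q)) c')) := by
  obtain ⟨X1, hX1⟩ := CrL_num σ κ hσ0 hσ1 h0 h1
  obtain ⟨X2, hX2⟩ := xk3 σ hσ0 hσ1 hK
  refine ⟨max X1 X2, fun x Q J hx hQ1 hJ hQ hdiv a a' haa ha ha' hd c c' hc hc' => ?_⟩
  obtain ⟨hx1, hR1, hnQ, hRR, hτ⟩ := hX1 x ((le_max_left _ _).trans hx)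
  have hQR := hnQ Q hQ1 hQ
  set R : ℕ := RV x with hR
  obtain ⟨n0, hn0⟩ := CrL_n0 a a'
  have hQ' : (Q : ℝ) ≤ (x : ℝ) ^ ((3 : ℝ) / 5) := by
    refine hQ.trans (Real.rpow_le_rpow_of_exponent_le ?_ (by linarith))
    exact_mod_cast hx1
  have hxk := hX2 x Q ((le_max_right _ _).trans hx) hQ1 hQ' a a' haa ha ha' hd c c' n0 hn0
  have hh : a' - a ≠ 0 := sub_ne_zero.2 haa.symm
  have hcr := cross_ram x Q R hQ1 hR1 c c' hc hc' (a' - a) hh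
  obtain ⟨hτ', hτ2⟩ := hτ (a' - a) hh hd
  set Y : ℝ := ∑ q ∈ Ioc Q (2 * Q), ∑ q' ∈ Ioc Q (2 * Q), c q * c' q' *
    (Real.pi ^ 2 * x / (2 * q * q')) *
        ∑ r ∈ (Nat.gcd q q').divisors.filter (fun r => R < r), ram r (a' - a) with hY
  have hexp : ∑ n ∈ RW x J, ww x J n * (SS R Q c a n * SS R Q c' a' n) =
      ∑ q ∈ Ioc Q (2 * Q), ∑ q' ∈ Ioc Q (2 * Q), c q * c' q' *
        ∑ n ∈ RW x J, ww x J n * uu R q a n * uu R q' a' n := by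
    have e1 : ∀ n ∈ RW x J, ww x J n * (SS R Q c a n * SS R Q c' a' n) =
        ∑ q ∈ Ioc Q (2 * Q), ∑ q' ∈ Ioc Q (2 * Q), c q * c' q' *
          (ww x J n * uu R q a n * uu R q' a' n) := by
      intro n _
      unfold SS
      rw [Finset.sum_mul_sum, Finset.mul_sum]
      refine Finset.sum_congr rfl fun q _ => ?_
      rw [Finset.mul_sum]
      refine Finset.sum_congr rfl fun q' _ => ?_
      ring
    rw [Finset.sum_congr rfl e1, Finset.sum_comm]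
    refine Finset.sum_congr rfl fun q _ => ?_
    rw [Finset.sum_comm]
    refine Finset.sum_congr rfl fun q' _ => ?_
    rw [Finset.mul_sum]
  have hkey : ((∑ n ∈ RW x J, ww x J n * (SS R Q c a n * SS R Q c' a' n) : ℝ) : ℂ) =
      XK x Q c c' a a' n0 + (Y : ℂ) := by
    rw [hexp, hY, XK]
    push_cast
    rw [← Finset.sum_add_distrib]
    refine Finset.sum_congr rfl fun q hq => ?_
    rw [← Finset.sum_add_distrib]
    refine Finset.sum_congr rfl fun q' hq' => ?_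
    rw [mem_Ioc] at hq hq'
    have hent := CrL_entry x J R q q' hx1 hJ (by omega) (by omega)
      (fun m hm1 hm2 => hdiv m hm1 (hm2.trans (by nlinarith [hq.2, hq'.2])))
      (le_trans (Nat.mul_le_mul_right R hq.2) hQR) (le_trans (Nat.mul_le_mul_right R hq'.2) hQR)
      hRR a a' n0 (hn0 q q')
    push_cast at hent
    rw [hent]
    split_ifs
    · ring
    · ring
  have h1 : |∑ n ∈ RW x J, ww x J n * (SS R Q c a n * SS R Q c' a' n)| =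
      ‖((∑ n ∈ RW x J, ww x J n * (SS R Q c a n * SS R Q c' a' n) : ℝ) : ℂ)‖ := by
    rw [Complex.norm_real, Real.norm_eq_abs]
  rw [h1, hkey]
  have hs : 0 ≤ (Q : ℝ) ^ (1 - σ) *
      (Real.sqrt (r2 (Ioc Q (2 * Q)) c) * Real.sqrt (r2 (Ioc Q (2 * Q)) c')) := by positivity
  have h2 : ‖XK x Q c c' a a' n0‖ ≤ (x : ℝ) ^ (mg σ κ) * (Q : ℝ) ^ (1 - σ) *
      (Real.sqrt (r2 (Ioc Q (2 * Q)) c) * Real.sqrt (r2 (Ioc Q (2 * Q)) c')) := by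
    refine hxk.trans ?_
    have h4 := mul_le_mul_of_nonneg_right hτ2 hs
    rwa [← mul_assoc, ← mul_assoc ((x : ℝ) ^ (mg σ κ))] at h4
  have h3 : ‖(Y : ℂ)‖ ≤ (x : ℝ) ^ (1 - 1 / 20 + mg σ κ) := by
    rw [Complex.norm_real, Real.norm_eq_abs]
    exact hcr.trans hτ'
  calc ‖XK x Q c c' a a' n0 + (Y : ℂ)‖ ≤ ‖XK x Q c c' a a' n0‖ + ‖(Y : ℂ)‖ := norm_add_le _ _
    _ ≤ _ := by
        rw [add_comm]
        exact add_le_add h3 h2

end Pool.Agent.H35.WL
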