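import Pool.Agent.H35.KL.Defs

/-!
# Project WL: definitions

Weil's bound for Kloosterman sums in the amplified Kloosterman-fraction form.
-/

set_option autoImplicit false

namespace Pool.Agent.H35.WL

open Finset
open Pool.Agent.H80.KF
open Pool.Agent.H35.KL (n2 r2)

/-- the frequencies with denominator at most `RV x` are treated by Bombieri-Vinogradov -/
noncomputable def RV (x : ℕ) : ℕ := ⌊(x : ℝ) ^ ((1 : ℝ) / 20)⌋₊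

/-- the level `x^{1/2 + σ/4 - κ/2}` -/
noncomputable def QW (σ κ : ℝ) (x : ℕ) : ℕ := ⌊(x : ℝ) ^ ((1 : ℝ) / 2 + σ / 4 - κ / 2)⌋₊

/-- a small exponent -/
noncomputable def mg (σ κ : ℝ) : ℝ := σ * (σ / 2 - κ) / 8

/-- Weil's bound (Estermann's form, with a divisor factor) for all moduli -/
def WB : Prop := ∀ q : ℕ, 1 ≤ q → ∀ a b : ℤ,
  ‖klS q a b‖ ≤ (tau q : ℝ) ^ 3 * Real.sqrt ((Int.gcd a q : ℝ) * q)

/-- bound for the off-diagonal part, with `P^k` -/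
def OOB (k : ℕ) : Prop := ∀ ε : ℝ, 0 < ε → ∃ C : ℝ, 0 < C ∧ ∀ N P : ℕ, 1 ≤ N → 1 ≤ P → P ≤ N →
    ∀ η : ℤ, η ≠ 0 → |η| ≤ 4 * (N : ℤ) ^ 2 → ∀ F : ℝ → ℂ, Wt N F →
    OO F η N P ≤ C * (P : ℝ) ^ k * (N : ℝ) ^ (3 / 2 + ε)

/-- the bilinear form with Kloosterman fractions, saving `N^σ` against the `ℓ²` norms -/
def KB (σ : ℝ) : Prop := ∃ N0 : ℕ, ∀ N : ℕ, N0 ≤ N → ∀ η : ℤ, η ≠ 0 → |η| ≤ 4 * (N : ℤ) ^ 2 →
    ∀ α β : ℕ → ℂ, ∀ F : ℝ → ℂ, Wt N F →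
    ‖∑ n ∈ II N, ∑ m ∈ (II N).filter (fun m => Nat.Coprime m n),
        α m * β n * F ((m : ℝ) * n) * kf n η m‖ ≤
      (N : ℝ) ^ (1 - σ) * (Real.sqrt (n2 (II N) α) * Real.sqrt (n2 (II N) β))

end Pool.Agent.H35.WL
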