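import Pool.Agent.H35.WL.Le
import Pool.Agent.H35.WL.Defs

/-!
# WL-Ep: prime moduli

`klS p a b = ∑_{x mod p, (x,p)=1} e((a x̄ + b x)/p) = KZ ψ b a` with `ψ = ZMod.stdAddChar`
(Pool/Agent/H94/EH/M13.lean: `klB_char`, `klB_T_eq` are private there, copy them).  `p = 2`: one term.
`p ∤ a`, `p ∤ b`: `weil`.  `p ∤ a, p ∣ b` or `p ∣ a, p ∤ b`: the sum is `-1`.  `p ∣ a, p ∣ b`: at most
`p - 1 ≤ √(p · p)`.
-/

set_option autoImplicit false

namespace Pool.Agent.H35.WL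

open Finset
open Pool.Agent.H80.KF

private theorem ep_ee_add (s t : ℝ) : ee (s + t) = ee s * ee t := by
  unfold ee
  rw [← Complex.exp_add]
  congr 1
  push_cast
  ring

private theorem ep_char (q : ℕ) [NeZero q] (j : ℤ) :
    ZMod.stdAddChar (j : ZMod q) = ee ((j : ℝ) / q) := by
  rw [ZMod.stdAddChar_coe, ee]
  congr 1
  push_cast
  ring

private theorem ep_eq (p : ℕ) [Fact p.Prime] (a b : ℤ) :
    klS p a b = KZ (ZMod.stdAddChar : AddChar (ZMod p) ℂ) (b : ZMod p) (a : ZMod p) := by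
  unfold klS KZ
  refine Finset.sum_bij' (fun x hx => ZMod.unitOfCoprime x (mem_filter.mp hx).2)
    (fun u _ => (u : ZMod p).val) (fun _ _ => mem_univ _) ?_ ?_ ?_ ?_
  · intro u _
    rw [mem_filter, mem_range]
    exact ⟨ZMod.val_lt _, ZMod.val_coe_unit_coprime u⟩
  · intro x hx
    rw [mem_filter, mem_range] at hx
    simp only [ZMod.coe_unitOfCoprime]
    exact ZMod.val_cast_of_lt hx.1
  · intro u _
    apply Units.ext
    simp only [ZMod.coe_unitOfCoprime]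
    exact ZMod.natCast_zmod_val _
  · intro x hx
    simp only [ZMod.coe_unitOfCoprime, ← ZMod.inv_coe_unit]
    have h1 : (b : ZMod p) * (x : ZMod p) + (a : ZMod p) * ((x : ℕ) : ZMod p)⁻¹ =
        ((b * (x : ℤ) + a * (iv p x : ℤ) : ℤ) : ZMod p) := by
      unfold iv
      push_cast
      rw [ZMod.natCast_zmod_val]
    rw [h1, ep_char, kf, ← ep_ee_add]
    congr 1
    push_cast
    ring

private theorem ep_ne (p : ℕ) [Fact p.Prime] : (ZMod.stdAddChar : AddChar (ZMod p) ℂ) ≠ 1 := by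
  intro h
  have h1 : (ZMod.stdAddChar : AddChar (ZMod p) ℂ) 1 = (ZMod.stdAddChar : AddChar (ZMod p) ℂ) 0 := by
    rw [h]
    simp
  exact one_ne_zero (ZMod.injective_stdAddChar h1)

private theorem ep_triv (p : ℕ) [Fact p.Prime] (ψ : AddChar (ZMod p) ℂ) (a b : ZMod p) :
    ‖KZ ψ a b‖ ≤ (p : ℝ) - 1 := by
  unfold KZ
  refine (norm_sum_le _ _).trans ?_
  have h1 : ∀ x : (ZMod p)ˣ, ‖ψ (a * (x : ZMod p) + b * ((x⁻¹ : (ZMod p)ˣ) : ZMod p))‖ = 1 :=
    fun x => AddChar.norm_apply ψ _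
  simp only [h1, sum_const, card_univ, nsmul_eq_mul, mul_one]
  rw [ZMod.card_units_eq_totient, Nat.totient_prime (Fact.out : p.Prime),
    Nat.cast_sub (Fact.out : p.Prime).one_le]
  simp

/-- the Ramanujan sum -/
private theorem ep_ram (p : ℕ) [Fact p.Prime] (ψ : AddChar (ZMod p) ℂ) (hψ : ψ ≠ 1) (a : ZMod p)
    (ha : a ≠ 0) : KZ ψ 0 a = -1 := by
  have h1 : KZ ψ 0 a = ∑ x : (ZMod p)ˣ, ψ (a * (x : ZMod p)) := by
    unfold KZ
    refine Fintype.sum_equiv (Equiv.inv (ZMod p)ˣ) _ _ fun x => ?_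
    rw [zero_mul, zero_add]
    rfl
  have h2 : ∑ x : (ZMod p)ˣ, ψ (a * (x : ZMod p)) = ∑ x ∈ (univ : Finset (ZMod p)).erase 0, ψ (a * x) := by
    refine Finset.sum_bij (fun x _ => (x : ZMod p)) ?_ ?_ ?_ ?_
    · intro x _
      simp
    · intro x _ y _ h
      exact Units.ext h
    · intro y hy
      rw [mem_erase] at hy
      exact ⟨Units.mk0 y hy.1, mem_univ _, rfl⟩
    · intro x _
      rfl
  have h3 : ∑ x : ZMod p, ψ (a * x) = 0 := by
    have h4 : ∑ x : ZMod p, ψ (a * x) = ∑ x : ZMod p, ψ x := by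
      refine Fintype.sum_equiv (Equiv.mulLeft₀ a ha) _ _ fun x => ?_
      simp
    rw [h4]
    exact AddChar.sum_eq_zero_of_ne_one hψ
  rw [h1, h2]
  have h5 := Finset.add_sum_erase (univ : Finset (ZMod p)) (fun x => ψ (a * x)) (mem_univ 0)
  simp only [mul_zero, AddChar.map_zero_eq_one] at h5
  rw [h3] at h5
  linear_combination h5

theorem klS_prime (p : ℕ) (hp : p.Prime) (a b : ℤ) :
    ‖klS p a b‖ ≤ 8 * Real.sqrt ((Int.gcd a p : ℝ) * p) := by
  have : Fact p.Prime := ⟨hp⟩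
  rw [ep_eq]
  have hp1 : (1 : ℝ) ≤ p := by exact_mod_cast hp.one_le
  by_cases ha : (p : ℤ) ∣ a
  · have h1 : Int.gcd a p = p := by
      rw [Int.gcd_comm]
      have h5 : (p : ℤ).natAbs ∣ a.natAbs := Int.natAbs_dvd_natAbs.2 ha
      rw [Int.natAbs_natCast] at h5
      have h6 : Int.gcd (p : ℤ) a = Nat.gcd p a.natAbs := rfl
      rw [h6]
      exact Nat.gcd_eq_left h5
    rw [h1, Real.sqrt_mul_self (by positivity)]
    have := ep_triv p ZMod.stdAddChar (b : ZMod p) (a : ZMod p)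
    linarith
  have h1 : Int.gcd a p = 1 := by
    have h5 : ¬ p ∣ a.natAbs := fun h => ha (Int.natCast_dvd.2 h)
    have h6 : Int.gcd a (p : ℤ) = Nat.gcd a.natAbs p := rfl
    rw [h6, Nat.gcd_comm]
    exact (Nat.Prime.coprime_iff_not_dvd hp).2 h5
  have ha0 : (a : ZMod p) ≠ 0 := by
    rwa [Ne, ZMod.intCast_zmod_eq_zero_iff_dvd]
  rw [h1, Nat.cast_one, one_mul]
  have h2 : 1 ≤ Real.sqrt p := Real.one_le_sqrt.2 hp1
  by_cases hp2 : p = 2
  · have := ep_triv p ZMod.stdAddChar (b : ZMod p) (a : ZMod p)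
    have h3 : (p : ℝ) = 2 := by exact_mod_cast hp2
    rw [h3] at this h2 ⊢
    linarith
  by_cases hb : (b : ZMod p) = 0
  · rw [hb, ep_ram p _ (ep_ne p) _ ha0]
    simp only [norm_neg, norm_one]
    linarith
  · have := weil hp2 _ (ep_ne p) (b : ZMod p) (a : ZMod p) hb ha0
    linarith

end Pool.Agent.H35.WL
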