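import Pool.Agent.H35.WL.Qc

/-!
# WL-Ew: all moduli

`klS_mul`: `(q₁, q₂) = 1`; `u q₂ + v q₁ ≡ 1 mod q₁ q₂`, i.e. `1/(q₁q₂) ≡ u/q₁ + v/q₂ mod 1`;
`x mod q₁q₂ ↔ (x mod q₁, x mod q₂)`.
`wb`: induction on the factorization (`Nat.recOnPosPrimePosCoprime`): `‖klS q a b‖ ≤
8^{ω(q)} √(gcd(a,q) q)` (`gcd(a u, q₁) = gcd(a, q₁)` for `(u, q₁) = 1`), and `8^{ω(q)} ≤ tau(q)^3`.
-/

set_option autoImplicit false

namespace Pool.Agent.H35.WL

open Finset
open Pool.Agent.H80.KF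

/-- the term of the Kloosterman sum depends only on `x` modulo `q` -/
private theorem Ew_mod (q : ℕ) (hq : 1 ≤ q) (A B : ℤ) (x : ℕ) :
    ee ((B : ℝ) * x / q) * kf q A x = ee ((B : ℝ) * ((x % q : ℕ) : ℝ) / q) * kf q A (x % q) := by
  have hq0 : (q : ℝ) ≠ 0 := by
    have : (1 : ℝ) ≤ q := by exact_mod_cast hq
    linarith
  congr 1
  · apply ee_eq_of_int (B * (x / q : ℕ))
    have h1 : (x : ℝ) = ((x % q : ℕ) : ℝ) + q * ((x / q : ℕ) : ℝ) := by
      exact_mod_cast (Nat.mod_add_div x q).symm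
    rw [← sub_div, ← mul_sub]
    have h2 : (x : ℝ) - ((x % q : ℕ) : ℝ) = q * ((x / q : ℕ) : ℝ) := by linarith
    rw [h2, Int.cast_mul, Int.cast_natCast]
    field_simp
  · exact kf_congr hq (by simp) (Nat.mod_modEq x q).symm

private theorem Ew_term (q1 q2 : ℕ) (h1 : 1 ≤ q1) (h2 : 1 ≤ q2) (u v : ℤ)
    (huv : u * q2 + v * q1 = 1) (a b : ℤ) (x : ℕ) (hx : Nat.Coprime x (q1 * q2)) :
    ee ((b : ℝ) * x / ((q1 * q2 : ℕ) : ℝ)) * kf (q1 * q2) a x =
      (ee (((b * u : ℤ) : ℝ) * x / q1) * kf q1 (a * u) x) *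
        (ee (((b * v : ℤ) : ℝ) * x / q2) * kf q2 (a * v) x) := by
  have hq : 1 ≤ q1 * q2 := Nat.mul_pos h1 h2
  have hs := iv_spec hq hx
  have k1 : (q1 : ℤ) ∣ x * ((iv (q1 * q2) x : ℕ) : ℤ) - 1 :=
    dvd_trans ⟨(q2 : ℤ), by push_cast; ring⟩ hs
  have k2 : (q2 : ℤ) ∣ x * ((iv (q1 * q2) x : ℕ) : ℤ) - 1 :=
    dvd_trans ⟨(q1 : ℤ), by push_cast; ring⟩ hs
  rw [kf_eq h1 (a * u) _ k1, kf_eq h2 (a * v) _ k2]
  have h10 : (q1 : ℝ) ≠ 0 := by
    have : (1 : ℝ) ≤ q1 := by exact_mod_cast h1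
    linarith
  have h20 : (q2 : ℝ) ≠ 0 := by
    have : (1 : ℝ) ≤ q2 := by exact_mod_cast h2
    linarith
  have huv' : (u : ℝ) * q2 + v * q1 = 1 := by exact_mod_cast huv
  unfold kf
  rw [← ee_add, ← ee_add, ← ee_add, ← ee_add]
  congr 1
  push_cast
  field_simp
  linear_combination (-((b : ℝ) * x) - (a : ℝ) * ((iv (q1 * q2) x : ℕ) : ℝ)) * huv'

theorem klS_mul (q1 q2 : ℕ) (h1 : 1 ≤ q1) (h2 : 1 ≤ q2) (h : Nat.Coprime q1 q2) :
    ∃ u v : ℤ, IsCoprime u (q1 : ℤ) ∧ IsCoprime v (q2 : ℤ) ∧ ∀ a b : ℤ,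
      klS (q1 * q2) a b = klS q1 (a * u) (b * u) * klS q2 (a * v) (b * v) := by
  obtain ⟨v, u, huv⟩ := Nat.isCoprime_iff_coprime.2 h
  refine ⟨u, v, ⟨q2, v, by linear_combination huv⟩, ⟨q1, u, by linear_combination huv⟩,
    fun a b => ?_⟩
  unfold klS
  rw [Finset.sum_mul_sum, ← Finset.sum_product']
  refine Finset.sum_bij (fun x _ => (x % q1, x % q2)) ?_ ?_ ?_ ?_
  · intro x hx
    rw [mem_filter, mem_range] at hx
    rw [mem_product, mem_filter, mem_filter, mem_range, mem_range]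
    refine ⟨⟨Nat.mod_lt _ h1, ?_⟩, ⟨Nat.mod_lt _ h2, ?_⟩⟩
    · have := Nat.Coprime.coprime_mul_right_right hx.2
      rw [Nat.Coprime] at this ⊢
      rw [(Nat.mod_modEq x q1).gcd_eq]
      exact this
    · have := Nat.Coprime.coprime_mul_left_right hx.2
      rw [Nat.Coprime] at this ⊢
      rw [(Nat.mod_modEq x q2).gcd_eq]
      exact this
  · intro x hx y hy hxy
    rw [mem_filter, mem_range] at hx hy
    rw [Prod.mk.injEq] at hxy
    have h3 : x ≡ y [MOD q1 * q2] :=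
      (Nat.modEq_and_modEq_iff_modEq_mul h).1 ⟨hxy.1, hxy.2⟩
    exact Nat.ModEq.eq_of_lt_of_lt h3 hx.1 hy.1
  · intro p hp
    rw [mem_product, mem_filter, mem_filter, mem_range, mem_range] at hp
    obtain ⟨⟨hp1, hp2⟩, ⟨hp3, hp4⟩⟩ := hp
    have hz := (Nat.chineseRemainder h p.1 p.2).2
    set z : ℕ := (Nat.chineseRemainder h p.1 p.2 : ℕ) with hzdef
    have hlt : z < q1 * q2 := Nat.chineseRemainder_lt_mul h p.1 p.2 (by omega) (by omega)
    have e1 : z % q1 = p.1 := by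
      have h3 : z % q1 = p.1 % q1 := hz.1
      rw [h3, Nat.mod_eq_of_lt hp1]
    have e2 : z % q2 = p.2 := by
      have h3 : z % q2 = p.2 % q2 := hz.2
      rw [h3, Nat.mod_eq_of_lt hp3]
    refine ⟨z, ?_, Prod.ext e1 e2⟩
    rw [mem_filter, mem_range]
    refine ⟨hlt, Nat.Coprime.mul_right ?_ ?_⟩
    · rw [Nat.Coprime, ← (Nat.mod_modEq z q1).gcd_eq, e1]
      exact hp2
    · rw [Nat.Coprime, ← (Nat.mod_modEq z q2).gcd_eq, e2]
      exact hp4
  · intro x hx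
    rw [mem_filter, mem_range] at hx
    rw [Ew_term q1 q2 h1 h2 u v (by linear_combination huv) a b x hx.2,
      Ew_mod q1 h1 (a * u) (b * u) x, Ew_mod q2 h2 (a * v) (b * v) x]

private theorem Ew_gcd (a u : ℤ) (q : ℕ) (h : IsCoprime u (q : ℤ)) :
    Int.gcd (a * u) q = Int.gcd a q := by
  have h1 : Nat.Coprime u.natAbs q := by
    have := Int.isCoprime_iff_gcd_eq_one.1 h
    rwa [Int.gcd, Int.natAbs_natCast] at this
  rw [Int.gcd, Int.gcd, Int.natAbs_mul, Int.natAbs_natCast]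
  exact Nat.Coprime.gcd_mul_right_cancel _ h1

theorem wb : WB := by
  intro q
  induction q using Nat.recOnPosPrimePosCoprime with
  | prime_pow p n hp hn =>
    intro _ a b
    refine (klS_pp p n hp a b).trans ?_
    have h1 : tau (p ^ n) = n + 1 := by
      unfold tau
      rw [Nat.divisors_prime_pow hp, Finset.card_map, Finset.card_range]
    have h2 : (8 : ℝ) ≤ (tau (p ^ n) : ℝ) ^ 3 := by
      rw [h1]
      have h3 : (2 : ℝ) ≤ ((n + 1 : ℕ) : ℝ) := by exact_mod_cast (by omega : 2 ≤ n + 1)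
      calc (8 : ℝ) = 2 ^ 3 := by norm_num
        _ ≤ _ := pow_le_pow_left₀ (by norm_num) h3 3
    have h3 : ((p ^ n : ℕ) : ℝ) = (p : ℝ) ^ n := by push_cast; rfl
    rw [h3]
    exact mul_le_mul_of_nonneg_right h2 (Real.sqrt_nonneg _)
  | zero => intro h; omega
  | one =>
    intro _ a b
    have h1 : ‖klS 1 a b‖ ≤ 1 := by
      unfold klS
      refine (norm_sum_le _ _).trans ?_
      have h2 : ∀ x ∈ (range 1).filter (fun x => Nat.Coprime x 1),
          ‖ee ((b : ℝ) * x / ((1 : ℕ) : ℝ)) * kf 1 a x‖ ≤ 1 := by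
        intro x _
        rw [norm_mul, norm_ee, norm_kf, one_mul]
      refine (Finset.sum_le_card_nsmul _ _ _ h2).trans ?_
      rw [nsmul_eq_mul, mul_one]
      have h3 : ((range 1).filter (fun x => Nat.Coprime x 1)).card ≤ 1 :=
        (Finset.card_filter_le _ _).trans (by simp)
      exact_mod_cast h3
    refine h1.trans ?_
    have h4 : tau 1 = 1 := by unfold tau; simp
    have h5 : Int.gcd a ((1 : ℕ) : ℤ) = 1 := by simp
    rw [h4, h5]
    simp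
  | coprime m n hm hn hmn ihm ihn =>
    intro _ a b
    have hm1 : 1 ≤ m := by omega
    have hn1 : 1 ≤ n := by omega
    obtain ⟨u, v, hu, hv, hk⟩ := klS_mul m n hm1 hn1 hmn
    rw [hk, norm_mul]
    have e1 := ihm hm1 (a * u) (b * u)
    have e2 := ihn hn1 (a * v) (b * v)
    rw [Ew_gcd a u m hu] at e1
    rw [Ew_gcd a v n hv] at e2
    refine (mul_le_mul e1 e2 (norm_nonneg _) (by positivity)).trans (le_of_eq ?_)
    have h1 : tau (m * n) = tau m * tau n := by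
      unfold tau
      exact Nat.Coprime.card_divisors_mul hmn
    have h2 : Int.gcd a ((m * n : ℕ) : ℤ) = Int.gcd a m * Int.gcd a n := by
      rw [Int.gcd, Int.gcd, Int.gcd, Int.natAbs_natCast, Int.natAbs_natCast, Int.natAbs_natCast]
      exact Nat.Coprime.gcd_mul _ hmn
    rw [h1, h2]
    have h3 : ((Int.gcd a m * Int.gcd a n : ℕ) : ℝ) * ((m * n : ℕ) : ℝ) =
        ((Int.gcd a m : ℝ) * m) * ((Int.gcd a n : ℝ) * n) := by
      push_cast
      ring
    rw [h3, Real.sqrt_mul (by positivity : (0 : ℝ) ≤ (Int.gcd a m : ℝ) * m) ((Int.gcd a n : ℝ) * n)]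
    push_cast
    ring

end Pool.Agent.H35.WL
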