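import Pool.Agent.H35.WL.Defs
import Pool.Agent.H35.KL.Kn

/-!
# WL-Kn: the bilinear form from the off-diagonal bound

Adapt `lemmaK2` of Pool/Agent/H35/KL/Kn.lean (`w30`, `split2`, `cau2` are public).
Let `e = 1/(2k-4)` (`1/12` for `k = 8`, `1/10` for `k = 7`), `P = ⌊N^e⌋` (so `P ≥ N^{1/25}` for large
`N`, needed for `w30` and `pp_half`), `c = #PP P ≥ P/log N`, `A = n2 (II N) α`.  By `cau2` and `OOB k`
with a tiny `ε`: `U² ≤ A² (2 (2Nc)² + C P^k N^{3/2+ε})`, so `U ≤ A (3 N c + √C P^{k/2} N^{3/4+ε/2})`;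
by `split2`: `W ≤ 12N/c² (200 N c A + U) ≤ A N^{ε'} (N²/P + N^{7/4} P^{k/2-2}) ≤ A N^{2 - e + ε''}`;
Cauchy in `n`: `‖S‖² ≤ n2 β · W`, i.e. saving `N^{e/2 - ε'''} = N^{1/(4(k-2)) - ε'''}`.
-/

set_option autoImplicit false

namespace Pool.Agent.H35.WL

open Finset
open Pool.Agent.H80.KF
open Pool.Agent.H35.KL (n2 r2)

private theorem Kw_large (κ B : ℝ) (hκ : 0 < κ) :
    ∃ N0 : ℕ, ∀ N : ℕ, N0 ≤ N → B ≤ (N : ℝ) ^ κ := by
  have h := ((tendsto_rpow_atTop hκ).comp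
    (tendsto_natCast_atTop_atTop (R := ℝ))).eventually_ge_atTop B
  obtain ⟨N0, h0⟩ := Filter.eventually_atTop.1 h
  exact ⟨N0, fun N hN => h0 N hN⟩

private theorem Kw_cauchy {N : ℕ} (β T : ℕ → ℂ) :
    ‖∑ n ∈ II N, β n * T n‖ ^ 2 ≤ n2 (II N) β * ∑ n ∈ II N, ‖T n‖ ^ 2 := by
  have h1 : ‖∑ n ∈ II N, β n * T n‖ ≤ ∑ n ∈ II N, ‖β n‖ * ‖T n‖ := by
    refine (norm_sum_le _ _).trans (le_of_eq (Finset.sum_congr rfl fun n _ => ?_))
    rw [norm_mul]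
  refine (pow_le_pow_left₀ (norm_nonneg _) h1 2).trans ?_
  exact Finset.sum_mul_sq_le_sq_mul_sq _ _ _

/-- the amplified sum -/
private theorem Kw_core {N P k : ℕ} (hk : k = 7 ∨ k = 8) (hN : 1 ≤ N) (hP : 1 ≤ P)
    {c Λ U O C W A e ε : ℝ} (he : e * (2 * ((k : ℝ) - 2)) = 1) (hε : 0 ≤ ε)
    (hA : 0 < A) (hc : (P : ℝ) / Λ ≤ c) (hΛ : 1 ≤ Λ) (hU : 0 ≤ U) (hC : 0 ≤ C)
    (hUO : U ^ 2 ≤ A ^ 2 * (2 * ((2 * N) ^ 2 * c ^ 2) + O))
    (hO : O ≤ C * (P : ℝ) ^ k * (N : ℝ) ^ (3 / 2 + ε))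
    (hW : W ≤ 12 * N / c ^ 2 * (200 * N * c * A + U))
    (hP1 : (P : ℝ) ≤ (N : ℝ) ^ e) (hP2 : (N : ℝ) ^ e ≤ 2 * P) :
    W ≤ A * ((N : ℝ) ^ (2 - e + ε / 2) * (4872 * Λ + 12 * Real.sqrt C * Λ ^ 2)) := by
  have hN1 : (1 : ℝ) ≤ N := by exact_mod_cast hN
  have hN0 : (0 : ℝ) < N := by linarith
  have hP1r : (1 : ℝ) ≤ P := by exact_mod_cast hP
  have hP0 : (0 : ℝ) < P := by linarith
  have hΛ0 : 0 < Λ := by linarith
  have hc0 : 0 < c := lt_of_lt_of_le (by positivity) hc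
  have hkr : (7 : ℝ) ≤ k := by
    rcases hk with rfl | rfl <;> norm_num
  have hs0 : 0 ≤ Real.sqrt C := Real.sqrt_nonneg C
  have hic : 1 / c ≤ Λ / P := by
    rw [div_le_div_iff₀ hc0 hP0]
    rw [div_le_iff₀ hΛ0] at hc
    linarith
  obtain ⟨Q, hQ⟩ : ∃ Q : ℝ, Q = Real.sqrt C * (P : ℝ) ^ ((k : ℝ) / 2) *
    (N : ℝ) ^ (3 / 4 + ε / 2) := ⟨_, rfl⟩
  have hQ0 : 0 ≤ Q := by rw [hQ]; positivity
  have hOQ : O ≤ Q ^ 2 := by
    refine hO.trans (le_of_eq ?_)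
    rw [hQ, mul_pow, mul_pow, Real.sq_sqrt hC, ← Real.rpow_natCast ((N : ℝ) ^ _) 2,
      ← Real.rpow_mul hN0.le, ← Real.rpow_natCast ((P : ℝ) ^ _) 2, ← Real.rpow_mul hP0.le,
      ← Real.rpow_natCast (P : ℝ) k]
    congr 2
    · congr 1
      push_cast
      ring
    · push_cast
      ring
  have hUle : U ≤ A * (3 * N * c + Q) := by
    apply (pow_le_pow_iff_left₀ hU (by positivity) two_ne_zero).1
    refine hUO.trans ?_
    rw [mul_pow A]
    apply mul_le_mul_of_nonneg_left _ (by positivity)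
    have h3 : 0 ≤ (N : ℝ) ^ 2 * c ^ 2 + 6 * (N : ℝ) * c * Q := by positivity
    have h2 : (3 * (N : ℝ) * c + Q) ^ 2 =
        2 * ((2 * N) ^ 2 * c ^ 2) + Q ^ 2 + ((N : ℝ) ^ 2 * c ^ 2 + 6 * (N : ℝ) * c * Q) := by ring
    rw [h2]
    linarith
  have hstep : W ≤ 12 * N / c ^ 2 * (200 * N * c * A + A * (3 * N * c + Q)) := by
    refine hW.trans ?_
    apply mul_le_mul_of_nonneg_left _ (by positivity)
    linarith
  have heq : 12 * (N : ℝ) / c ^ 2 * (200 * N * c * A + A * (3 * N * c + Q)) =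
      A * (2436 * (N : ℝ) ^ 2 * (1 / c) + 12 * (N * Q) * (1 / c) ^ 2) := by
    field_simp
    ring
  rw [heq] at hstep
  have h1c : 0 ≤ 1 / c := by positivity
  have t1 : 2436 * (N : ℝ) ^ 2 * (1 / c) ≤ 2436 * (N : ℝ) ^ 2 * (Λ / P) :=
    mul_le_mul_of_nonneg_left hic (by positivity)
  have t2 : 12 * (N * Q) * (1 / c) ^ 2 ≤ 12 * (N * Q) * (Λ / P) ^ 2 :=
    mul_le_mul_of_nonneg_left (pow_le_pow_left₀ h1c hic 2) (by positivity)
  obtain ⟨G, hG⟩ : ∃ G : ℝ, G = (N : ℝ) ^ (2 - e + ε / 2) := ⟨_, rfl⟩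
  have hG0 : 0 < G := by rw [hG]; positivity
  have hinv : (N : ℝ) ^ 2 / P ≤ 2 * G := by
    rw [div_le_iff₀ hP0]
    have e1 : (N : ℝ) ^ 2 = (N : ℝ) ^ (2 - e) * (N : ℝ) ^ e := by
      rw [← Real.rpow_natCast (N : ℝ) 2, ← Real.rpow_add hN0]
      congr 1
      push_cast
      ring
    have e2 : (N : ℝ) ^ (2 - e) ≤ G := by
      rw [hG]
      exact Real.rpow_le_rpow_of_exponent_le hN1 (by linarith)
    rw [e1]
    calc (N : ℝ) ^ (2 - e) * (N : ℝ) ^ e ≤ G * (2 * P) :=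
          mul_le_mul e2 hP2 (by positivity) hG0.le
      _ = _ := by ring
  have hNQ : N * Q / (P : ℝ) ^ 2 ≤ Real.sqrt C * G := by
    have e1 : (P : ℝ) ^ ((k : ℝ) / 2) = (P : ℝ) ^ ((k : ℝ) / 2 - 2) * (P : ℝ) ^ 2 := by
      rw [← Real.rpow_natCast (P : ℝ) 2, ← Real.rpow_add hP0]
      congr 1
      push_cast
      ring
    have e2 : (P : ℝ) ^ ((k : ℝ) / 2 - 2) ≤ (N : ℝ) ^ (1 / 4 - e) := by
      have h5 : (P : ℝ) ^ ((k : ℝ) / 2 - 2) ≤ ((N : ℝ) ^ e) ^ ((k : ℝ) / 2 - 2) :=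
        Real.rpow_le_rpow hP0.le hP1 (by linarith)
      rw [← Real.rpow_mul hN0.le] at h5
      have h6 : e * ((k : ℝ) / 2 - 2) = 1 / 4 - e := by linarith
      rw [h6] at h5
      exact h5
    have e3 : G = N * (N : ℝ) ^ (3 / 4 + ε / 2) * (N : ℝ) ^ (1 / 4 - e) := by
      rw [hG]
      nth_rewrite 2 [← Real.rpow_one (N : ℝ)]
      rw [← Real.rpow_add hN0, ← Real.rpow_add hN0]
      congr 1
      ring
    rw [div_le_iff₀ (by positivity), hQ, e1, e3]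
    have h7 : (N : ℝ) * (Real.sqrt C * ((P : ℝ) ^ ((k : ℝ) / 2 - 2) * (P : ℝ) ^ 2) *
        (N : ℝ) ^ (3 / 4 + ε / 2)) = (Real.sqrt C * (N * (N : ℝ) ^ (3 / 4 + ε / 2)) *
        (P : ℝ) ^ 2) * (P : ℝ) ^ ((k : ℝ) / 2 - 2) := by ring
    rw [h7]
    refine (mul_le_mul_of_nonneg_left e2 (by positivity)).trans (le_of_eq ?_)
    ring
  rw [← hG]
  refine hstep.trans ?_
  apply mul_le_mul_of_nonneg_left _ hA.le
  have s1 : 2436 * (N : ℝ) ^ 2 * (Λ / P) ≤ 2436 * Λ * (2 * G) := by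
    have : 2436 * (N : ℝ) ^ 2 * (Λ / P) = 2436 * Λ * ((N : ℝ) ^ 2 / P) := by ring
    rw [this]
    exact mul_le_mul_of_nonneg_left hinv (by positivity)
  have s2 : 12 * (N * Q) * (Λ / P) ^ 2 ≤ 12 * Λ ^ 2 * (Real.sqrt C * G) := by
    have : 12 * (N * Q) * (Λ / P) ^ 2 = 12 * Λ ^ 2 * (N * Q / (P : ℝ) ^ 2) := by ring
    rw [this]
    exact mul_le_mul_of_nonneg_left hNQ (by positivity)
  calc 2436 * (N : ℝ) ^ 2 * (1 / c) + 12 * (N * Q) * (1 / c) ^ 2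
      ≤ 2436 * Λ * (2 * G) + 12 * Λ ^ 2 * (Real.sqrt C * G) := by linarith
    _ = _ := by ring

theorem kb_of_oob (k : ℕ) (hk : k = 7 ∨ k = 8) (h : OOB k) (σ : ℝ) (h0 : 0 < σ)
    (h1 : σ < 1 / (4 * ((k : ℝ) - 2))) : KB σ := by
  have hkr : (7 : ℝ) ≤ k ∧ (k : ℝ) ≤ 8 := by
    rcases hk with rfl | rfl <;> norm_num
  obtain ⟨e, hedef⟩ : ∃ e : ℝ, e = 1 / (2 * ((k : ℝ) - 2)) := ⟨_, rfl⟩
  have hk2 : 0 < (k : ℝ) - 2 := by linarith [hkr.1]
  have he : e * (2 * ((k : ℝ) - 2)) = 1 := by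
    rw [hedef]
    field_simp
  have he12 : 1 / 12 ≤ e := by
    rw [hedef]
    apply one_div_le_one_div_of_le (by linarith)
    linarith [hkr.2]
  have he10 : e ≤ 1 / 10 := by
    rw [hedef]
    apply one_div_le_one_div_of_le (by norm_num)
    linarith [hkr.1]
  have hσe : 2 * σ < e := by
    have h2 : 1 / (4 * ((k : ℝ) - 2)) = e / 2 := by
      rw [hedef]
      field_simp
      norm_num
    rw [h2] at h1
    linarith
  obtain ⟨γ, hγ⟩ : ∃ γ : ℝ, γ = e - 2 * σ := ⟨_, rfl⟩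
  have hγ0 : 0 < γ := by linarith
  obtain ⟨C, hC, hOO⟩ := h (γ / 2) (by linarith)
  obtain ⟨P0, hP0⟩ := pp_card_ge
  obtain ⟨Nh, hNh⟩ := pp_half
  obtain ⟨Nw, hNw⟩ := Pool.Agent.H35.KL.w30
  obtain ⟨N1, hN1⟩ := Kw_large (1 / 12) (2 * max (P0 : ℝ) 2) (by norm_num)
  obtain ⟨N2, hN2⟩ := Kw_large (1 / 12 - 1 / 25) 2 (by norm_num)
  obtain ⟨N3, hN3⟩ := Kw_large (γ / 2)
    ((4872 + 12 * Real.sqrt C) * (8 / γ) ^ 2) (by linarith)
  refine ⟨max Nw (max (max (max Nh 3) N1) (max N2 N3)), ?_⟩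
  intro N hN' η hη0 hη α β F hF
  have l0 : Nw ≤ N := (le_max_left _ _).trans hN'
  have hN : max (max (max Nh 3) N1) (max N2 N3) ≤ N := (le_max_right _ _).trans hN'
  have l1 : Nh ≤ N := (le_max_left _ _).trans ((le_max_left _ _).trans ((le_max_left _ _).trans hN))
  have l2 : 3 ≤ N := (le_max_right _ _).trans ((le_max_left _ _).trans ((le_max_left _ _).trans hN))
  have l3 : N1 ≤ N := (le_max_right _ _).trans ((le_max_left _ _).trans hN)
  have l4 : N2 ≤ N := (le_max_left _ _).trans ((le_max_right _ _).trans hN)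
  have l5 : N3 ≤ N := (le_max_right _ _).trans ((le_max_right _ _).trans hN)
  have g1' := hN1 N l3
  have g2 := hN2 N l4
  have g3 := hN3 N l5
  have hNge : 1 ≤ N := by omega
  have hNr : (1 : ℝ) ≤ N := by exact_mod_cast hNge
  have hN0 : (0 : ℝ) < N := by linarith
  have g1 : 2 * max (P0 : ℝ) 2 ≤ (N : ℝ) ^ e :=
    g1'.trans (Real.rpow_le_rpow_of_exponent_le hNr he12)
  obtain ⟨P, hPdef⟩ : ∃ P : ℕ, P = ⌊(N : ℝ) ^ e⌋₊ := ⟨_, rfl⟩
  have hx0 : 0 ≤ (N : ℝ) ^ e := by positivity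
  have hPle : (P : ℝ) ≤ (N : ℝ) ^ e := by rw [hPdef]; exact Nat.floor_le hx0
  have hPlt : (N : ℝ) ^ e < P + 1 := by rw [hPdef]; exact Nat.lt_floor_add_one _
  have hx4 : 4 ≤ (N : ℝ) ^ e := by
    have := le_max_right (P0 : ℝ) 2
    linarith
  have hP1r : (1 : ℝ) ≤ P := by linarith
  have hP1 : 1 ≤ P := by exact_mod_cast hP1r
  have hPge : (N : ℝ) ^ e ≤ 2 * P := by linarith
  have hPN : P ≤ N := by
    have h1 : (N : ℝ) ^ e ≤ (N : ℝ) ^ (1 : ℝ) :=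
      Real.rpow_le_rpow_of_exponent_le hNr (by linarith)
    rw [Real.rpow_one] at h1
    exact_mod_cast hPle.trans h1
  have hPP0 : P0 ≤ P := by
    have := le_max_left (P0 : ℝ) 2
    have h1 : (P0 : ℝ) ≤ P := by linarith
    exact_mod_cast h1
  have hP2 : (2 : ℝ) ≤ P := by
    have := le_max_right (P0 : ℝ) 2
    linarith
  have hP25 : (N : ℝ) ^ ((1 : ℝ) / 25) ≤ P := by
    have e1 : (N : ℝ) ^ ((1 : ℝ) / 12) =
        (N : ℝ) ^ ((1 : ℝ) / 25) * (N : ℝ) ^ ((1 : ℝ) / 12 - 1 / 25) := by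
      rw [← Real.rpow_add hN0]
      norm_num
    have h1 : (N : ℝ) ^ ((1 : ℝ) / 25) * 2 ≤
        (N : ℝ) ^ ((1 : ℝ) / 25) * (N : ℝ) ^ ((1 : ℝ) / 12 - 1 / 25) :=
      mul_le_mul_of_nonneg_left g2 (by positivity)
    rw [← e1] at h1
    have h2 : (N : ℝ) ^ ((1 : ℝ) / 12) ≤ (N : ℝ) ^ e :=
      Real.rpow_le_rpow_of_exponent_le hNr he12
    linarith
  have hhalf := hNh N P l1 hP25
  have hw := hNw N P l0 hP25
  have hlogP : 0 < Real.log P := Real.log_pos (by linarith)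
  have hlogPN : Real.log P ≤ Real.log N :=
    Real.log_le_log (by linarith) (by exact_mod_cast hPN)
  have hΛ1 : 1 ≤ Real.log N := by
    rw [Real.le_log_iff_exp_le hN0]
    have : Real.exp 1 ≤ 3 := Real.exp_one_lt_three.le
    have h3 : (3 : ℝ) ≤ N := by exact_mod_cast l2
    linarith
  have hc : (P : ℝ) / Real.log N ≤ ((PP P).card : ℝ) := by
    refine le_trans ?_ (hP0 P hPP0)
    exact div_le_div_of_nonneg_left (by linarith) hlogP hlogPN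
  have hcpos : 0 < (PP P).card := by
    have h1 : (0 : ℝ) < ((PP P).card : ℝ) := lt_of_lt_of_le (by positivity) hc
    exact_mod_cast h1
  have hΛle : Real.log N ≤ 8 / γ * (N : ℝ) ^ (γ / 8) := by
    have := Real.log_le_rpow_div hN0.le (by linarith : (0 : ℝ) < γ / 8)
    refine this.trans (le_of_eq ?_)
    field_simp
  have hS : ∑ n ∈ II N, ∑ m ∈ (II N).filter (fun m => Nat.Coprime m n),
        α m * β n * F ((m : ℝ) * n) * kf n η m =
      ∑ n ∈ II N, β n * ∑ m ∈ (II N).filter (fun m => Nat.Coprime m n),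
        α m * F ((m : ℝ) * n) * kf n η m := by
    apply Finset.sum_congr rfl
    intro n _
    rw [Finset.mul_sum]
    apply Finset.sum_congr rfl
    intro m _
    ring
  have hB0 : 0 ≤ n2 (II N) β := Pool.Agent.H35.KL.n2_nonneg _ _
  rcases (Pool.Agent.H35.KL.n2_nonneg (II N) α).eq_or_lt with hA | hA
  · -- all coefficients vanish
    have hz : ∀ m ∈ II N, α m = 0 := by
      intro m hm
      have h1 : ∑ m ∈ II N, ‖α m‖ ^ 2 = 0 := hA.symm
      have h2 := (Finset.sum_eq_zero_iff_of_nonneg fun m _ => by positivity).1 h1 m hm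
      have h3 : ‖α m‖ = 0 := by
        simpa using h2
      exact norm_eq_zero.1 h3
    have h0 : ∑ n ∈ II N, ∑ m ∈ (II N).filter (fun m => Nat.Coprime m n),
        α m * β n * F ((m : ℝ) * n) * kf n η m = 0 := by
      apply Finset.sum_eq_zero
      intro n _
      apply Finset.sum_eq_zero
      intro m hm
      rw [hz m (Finset.mem_filter.1 hm).1]
      ring
    rw [h0, norm_zero]
    positivity
  · have hsplit := Pool.Agent.H35.KL.split2 N P hNge hP1 hPN η α F hF.1 hcpos hw hhalf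
    have hcau := Pool.Agent.H35.KL.cau2 N P hNge η α F hF.1
    have hO := hOO N P hNge hP1 hPN η hη0 hη F hF
    have hfin := Kw_core hk hNge hP1 he (by linarith) hA hc hΛ1 (norm_nonneg (UU F η N P α))
      hC.le hcau hO hsplit hPle hPge
    rw [hS]
    apply (pow_le_pow_iff_left₀ (norm_nonneg _) (by positivity) two_ne_zero).1
    refine (Kw_cauchy β _).trans ?_
    have hD : 4872 * Real.log N + 12 * Real.sqrt C * Real.log N ^ 2 ≤
        (4872 + 12 * Real.sqrt C) * (8 / γ) ^ 2 * (N : ℝ) ^ (γ / 4) := by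
      have hs0 : 0 ≤ Real.sqrt C := Real.sqrt_nonneg C
      have a1 : Real.log N ≤ Real.log N ^ 2 := by nlinarith
      have a2 : Real.log N ^ 2 ≤ (8 / γ) ^ 2 * (N : ℝ) ^ (γ / 4) := by
        refine (pow_le_pow_left₀ (by linarith) hΛle 2).trans (le_of_eq ?_)
        rw [mul_pow, ← Real.rpow_natCast ((N : ℝ) ^ _) 2, ← Real.rpow_mul hN0.le]
        congr 2
        push_cast
        ring
      calc 4872 * Real.log N + 12 * Real.sqrt C * Real.log N ^ 2 ≤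
            4872 * Real.log N ^ 2 + 12 * Real.sqrt C * Real.log N ^ 2 := by linarith
        _ = (4872 + 12 * Real.sqrt C) * Real.log N ^ 2 := by ring
        _ ≤ (4872 + 12 * Real.sqrt C) * ((8 / γ) ^ 2 * (N : ℝ) ^ (γ / 4)) :=
            mul_le_mul_of_nonneg_left a2 (by positivity)
        _ = _ := by ring
    have e1 : ((N : ℝ) ^ (1 - σ) *
        (Real.sqrt (n2 (II N) α) * Real.sqrt (n2 (II N) β))) ^ 2 =
        n2 (II N) β * (n2 (II N) α * ((N : ℝ) ^ (2 - e + γ / 2 / 2) *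
          ((N : ℝ) ^ (γ / 2) * (N : ℝ) ^ (γ / 4)))) := by
      rw [mul_pow, mul_pow, Real.sq_sqrt hA.le, Real.sq_sqrt hB0,
        ← Real.rpow_natCast ((N : ℝ) ^ _) 2, ← Real.rpow_mul hN0.le, ← Real.rpow_add hN0,
        ← Real.rpow_add hN0]
      have e2 : (1 - σ) * ((2 : ℕ) : ℝ) = 2 - e + γ / 2 / 2 + (γ / 2 + γ / 4) := by
        rw [hγ]
        push_cast
        ring
      rw [e2]
      ring
    rw [e1]
    apply mul_le_mul_of_nonneg_left _ hB0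
    refine hfin.trans ?_
    apply mul_le_mul_of_nonneg_left _ hA.le
    apply mul_le_mul_of_nonneg_left _ (by positivity)
    refine hD.trans ?_
    exact mul_le_mul_of_nonneg_right g3 (by positivity)

end Pool.Agent.H35.WL
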