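import Pool.Agent.H35.WL.Oo

/-!
# WL-Pw: sums of `pt(B,m)^{1/2}` over the multiples of `v`

`v ∣ B` (`v ≥ 1`): `m = v m'`, all primes of `v` divide `B`, so `pt B (v m') = v pt B m'`; `m' ≤ (2N+1)/v`.
As in `pt_half_sum`: `∑_{m' ≤ X} pt(B,m')^{1/2} ≤ ∑_{d ∣ B^∞} d^{1/2} X/d ≤ X 4^{ω(B)} ≤ X tau(B)^2`
for every real `X > 0`.  So the sum is at most `v^{1/2} (3N/v) tau(B)^2`.
-/

set_option autoImplicit false

namespace Pool.Agent.H35.WL

open Finset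
open Pool.Agent.H80.KF

private theorem ptw_prime_dvd {B m p : ℕ} (hp : p.Prime) (h : p ∣ pt B m) : p ∣ B := by
  unfold pt at h
  obtain ⟨q, hq, hpq⟩ := (Prime.dvd_finsetProd_iff hp.prime _).1 h
  have h1 := Finset.mem_filter.1 hq
  have h2 := (Nat.prime_dvd_prime_iff_eq hp (Nat.prime_of_mem_primeFactors h1.1)).1
    (hp.dvd_of_dvd_pow hpq)
  rw [h2]
  exact h1.2

private theorem ptw_mul (B v m : ℕ) (hB : B ≠ 0) (hv : v ≠ 0) (hm : m ≠ 0) :
    pt B (v * m) ≤ v * pt B m := by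
  refine Nat.le_of_dvd (Nat.mul_pos (Nat.pos_of_ne_zero hv) (pt_pos B m)) ?_
  have hvm : v * m ≠ 0 := Nat.mul_ne_zero hv hm
  have h1 : Nat.Coprime (pt B (v * m)) (m / pt B m) := by
    refine Nat.coprime_of_dvd fun p hp h2 h3 => ?_
    exact Nat.Prime.not_coprime_iff_dvd.2 ⟨p, hp, h3, ptw_prime_dvd hp h2⟩
      (pt_coprime B m hB hm).1
  have h2 : v * pt B m * (m / pt B m) = v * m := by
    rw [mul_assoc, Nat.mul_div_cancel' (pt_dvd B m hm)]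
  refine h1.dvd_of_dvd_mul_right ?_
  rw [h2]
  exact pt_dvd B (v * m) hvm

/-- `n ↦ n^{-1/2}` -/
private noncomputable def ptw_f : ℕ →* ℝ where
  toFun n := (n : ℝ) ^ (-(1 : ℝ) / 2)
  map_one' := by simp
  map_mul' a b := by
    push_cast
    exact Real.mul_rpow (Nat.cast_nonneg a) (Nat.cast_nonneg b)

private theorem ptw_f_apply (n : ℕ) : ptw_f n = (n : ℝ) ^ (-(1 : ℝ) / 2) := rfl

private theorem ptw_f_nonneg (n : ℕ) : 0 ≤ ptw_f n := Real.rpow_nonneg (Nat.cast_nonneg n) _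

private theorem ptw_f_prime {p : ℕ} (hp : p.Prime) : ptw_f p ≤ 3 / 4 := by
  rw [ptw_f_apply]
  have h1 : (2 : ℝ) ≤ p := by exact_mod_cast hp.two_le
  have h2 : (p : ℝ) ^ (-(1 : ℝ) / 2) ≤ (2 : ℝ) ^ (-(1 : ℝ) / 2) :=
    Real.rpow_le_rpow_of_nonpos (by norm_num) h1 (by norm_num)
  refine h2.trans ?_
  have h3 : ((2 : ℝ) ^ (-(1 : ℝ) / 2)) ^ (2 : ℕ) = 1 / 2 := by
    rw [← Real.rpow_natCast, ← Real.rpow_mul (by norm_num)]
    have : (-(1 : ℝ) / 2) * ((2 : ℕ) : ℝ) = ((-1 : ℤ) : ℝ) := by norm_num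
    rw [this, Real.rpow_intCast]
    norm_num
  by_contra hlt
  push Not at hlt
  have h4 : ((3 : ℝ) / 4) ^ (2 : ℕ) < ((2 : ℝ) ^ (-(1 : ℝ) / 2)) ^ (2 : ℕ) :=
    pow_lt_pow_left₀ hlt (by norm_num) (by norm_num)
  rw [h3] at h4
  norm_num at h4

private theorem ptw_count (M d : ℕ) :
    (((Ioc 0 M).filter (fun m => d ∣ m)).card : ℝ) ≤ M / d := by
  have h1 : ((Ioc 0 M).filter (fun m => d ∣ m)).card = M / d := Nat.Ioc_filter_dvd_card_eq_div M d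
  rw [h1]
  exact Nat.cast_div_le

private theorem ptw_two_pow (B : ℕ) (hB : B ≠ 0) : 2 ^ B.primeFactors.card ≤ tau B := by
  unfold tau
  rw [← Finset.card_powerset]
  refine Finset.card_le_card_of_injOn (fun s => ∏ p ∈ s, p) ?_ ?_
  · intro s hs
    have hs' : s ⊆ B.primeFactors := Finset.mem_powerset.1 hs
    show ∏ p ∈ s, p ∈ (B.divisors : Set ℕ)
    rw [Finset.mem_coe, Nat.mem_divisors]
    exact ⟨(Finset.prod_dvd_prod_of_subset _ _ _ hs').trans (Nat.prod_primeFactors_dvd B), hB⟩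
  · intro s hs t ht hst
    have hs' : s ⊆ B.primeFactors := Finset.mem_powerset.1 hs
    have ht' : t ⊆ B.primeFactors := Finset.mem_powerset.1 ht
    have h1 : ∀ u : Finset ℕ, u ⊆ B.primeFactors → (∏ p ∈ u, p).primeFactors = u := by
      intro u hu
      exact Nat.primeFactors_prod fun p hp => Nat.prime_of_mem_primeFactors (hu hp)
    rw [← h1 s hs', ← h1 t ht']
    exact congrArg Nat.primeFactors hst

private theorem ptw_term (B m : ℕ) (S : Finset ℕ) (hmS : pt B m ∈ S) (hm : m ≠ 0) :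
    ((pt B m : ℕ) : ℝ) ^ ((1 : ℝ) / 2) ≤
      ∑ d ∈ S, if d ∣ m then (d : ℝ) ^ ((1 : ℝ) / 2) else 0 := by
  have h1 : (if pt B m ∣ m then ((pt B m : ℕ) : ℝ) ^ ((1 : ℝ) / 2) else 0) =
      ((pt B m : ℕ) : ℝ) ^ ((1 : ℝ) / 2) := if_pos (pt_dvd B m hm)
  rw [← h1]
  refine Finset.single_le_sum (f := fun d : ℕ => if d ∣ m then (d : ℝ) ^ ((1 : ℝ) / 2) else 0)
    (fun d _ => ?_) hmS
  split_ifs
  · exact Real.rpow_nonneg (Nat.cast_nonneg d) _
  · exact le_rfl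

private theorem ptw_gen (M B : ℕ) (hB : 1 ≤ B) :
    ∑ m ∈ Ioc 0 M, ((pt B m : ℕ) : ℝ) ^ ((1 : ℝ) / 2) ≤ M * (tau B : ℝ) ^ 2 := by
  classical
  set S : Finset ℕ := (Ioc 0 M).image (pt B) with hS
  have hS1 : ∀ d ∈ S, 1 ≤ d := by
    intro d hd
    obtain ⟨m, _, rfl⟩ := Finset.mem_image.1 hd
    exact pt_pos B m
  have hS2 : ∀ d ∈ S, d ∈ Nat.factoredNumbers B.primeFactors := by
    intro d hd
    obtain ⟨m, _, rfl⟩ := Finset.mem_image.1 hd
    rw [Nat.mem_factoredNumbers']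
    intro p hp hpd
    exact Nat.mem_primeFactors.2 ⟨hp, ptw_prime_dvd hp hpd, by omega⟩
  -- step 1
  have h1 : ∑ m ∈ Ioc 0 M, ((pt B m : ℕ) : ℝ) ^ ((1 : ℝ) / 2) ≤
      ∑ d ∈ S, (d : ℝ) ^ ((1 : ℝ) / 2) * ((M : ℝ) / d) := by
    calc ∑ m ∈ Ioc 0 M, ((pt B m : ℕ) : ℝ) ^ ((1 : ℝ) / 2)
        ≤ ∑ m ∈ Ioc 0 M, ∑ d ∈ S, if d ∣ m then (d : ℝ) ^ ((1 : ℝ) / 2) else 0 := by
          refine Finset.sum_le_sum fun m hm => ?_
          have hm0 : m ≠ 0 := by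
            have := Finset.mem_Ioc.1 hm
            omega
          exact ptw_term B m S (Finset.mem_image_of_mem _ hm) hm0
      _ = ∑ d ∈ S, ∑ m ∈ Ioc 0 M, if d ∣ m then (d : ℝ) ^ ((1 : ℝ) / 2) else 0 :=
          Finset.sum_comm
      _ ≤ ∑ d ∈ S, (d : ℝ) ^ ((1 : ℝ) / 2) * ((M : ℝ) / d) := by
          refine Finset.sum_le_sum fun d hd => ?_
          rw [← Finset.sum_filter, Finset.sum_const, nsmul_eq_mul, mul_comm]
          refine mul_le_mul_of_nonneg_left ?_ (Real.rpow_nonneg (Nat.cast_nonneg d) _)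
          exact ptw_count M d
  -- step 2
  have h2 : ∑ d ∈ S, (d : ℝ) ^ ((1 : ℝ) / 2) * ((M : ℝ) / d) =
      M * ∑ d ∈ S, ptw_f d := by
    rw [Finset.mul_sum]
    refine Finset.sum_congr rfl fun d hd => ?_
    have hd0 : (0 : ℝ) < d := by exact_mod_cast hS1 d hd
    have h3 : (d : ℝ) ^ ((1 : ℝ) / 2) = ptw_f d * d := by
      rw [ptw_f_apply]
      nth_rw 3 [← Real.rpow_one (d : ℝ)]
      rw [← Real.rpow_add hd0]
      norm_num
    rw [h3]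
    field_simp
  -- step 3
  have hnorm : ∀ {p : ℕ}, p.Prime → ‖ptw_f p‖ < 1 := by
    intro p hp
    rw [Real.norm_of_nonneg (ptw_f_nonneg p)]
    have := ptw_f_prime hp
    linarith
  have h4 := EulerProduct.summable_and_hasSum_factoredNumbers_prod_filter_prime_geometric
    (f := ptw_f) hnorm B.primeFactors
  have h5 : ∑ d ∈ S, ptw_f d ≤ ∏ p ∈ B.primeFactors with p.Prime, (1 - ptw_f p)⁻¹ := by
    have h6 : ∑ d ∈ S.attach, ptw_f d.1 = ∑ d ∈ S, ptw_f d :=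
      Finset.sum_attach S (fun d => ptw_f d)
    rw [← h6]
    let e : {d // d ∈ S} → Nat.factoredNumbers B.primeFactors := fun d => ⟨d.1, hS2 d.1 d.2⟩
    have he : Function.Injective e := by
      intro a b hab
      apply Subtype.ext
      exact congrArg (fun x => x.1) hab
    have h7 : ∑ d ∈ S.attach, ptw_f d.1 =
        ∑ m ∈ S.attach.image e, ptw_f (m : ℕ) := by
      rw [Finset.sum_image fun a _ b _ h => he h]
    rw [h7]
    exact sum_le_hasSum _ (fun m _ => ptw_f_nonneg _) h4.2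
  have h6 : ∏ p ∈ B.primeFactors with p.Prime, (1 - ptw_f p)⁻¹ ≤
      (4 : ℝ) ^ B.primeFactors.card := by
    have h7 : B.primeFactors.filter (fun p => p.Prime) = B.primeFactors :=
      Finset.filter_true_of_mem fun p hp => Nat.prime_of_mem_primeFactors hp
    rw [h7, ← Finset.prod_const]
    refine Finset.prod_le_prod (fun p hp => ?_) fun p hp => ?_
    · have := ptw_f_prime (Nat.prime_of_mem_primeFactors hp)
      exact inv_nonneg.2 (by linarith)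
    · have := ptw_f_prime (Nat.prime_of_mem_primeFactors hp)
      rw [inv_le_comm₀ (by linarith) (by norm_num)]
      linarith
  have h7 : (4 : ℝ) ^ B.primeFactors.card ≤ (tau B : ℝ) ^ 2 := by
    have h8 : ((2 : ℝ) ^ B.primeFactors.card) ≤ tau B := by
      exact_mod_cast ptw_two_pow B (by omega)
    calc (4 : ℝ) ^ B.primeFactors.card = ((2 : ℝ) ^ B.primeFactors.card) ^ 2 := by
          rw [← pow_mul, mul_comm, pow_mul]
          norm_num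
      _ ≤ (tau B : ℝ) ^ 2 := pow_le_pow_left₀ (by positivity) h8 2
  rw [h2] at h1
  refine h1.trans ?_
  exact mul_le_mul_of_nonneg_left (h5.trans (h6.trans h7)) (Nat.cast_nonneg M)

theorem pt_v_sum (N B v : ℕ) (hN : 1 ≤ N) (hB : 1 ≤ B) (hv : 1 ≤ v) (hvB : v ∣ B) :
    ∑ m ∈ (II N).filter (fun m => v ∣ m), ((pt B m : ℕ) : ℝ) ^ ((1 : ℝ) / 2) ≤
      3 * N * (tau B : ℝ) ^ 2 / Real.sqrt v := by
  classical
  have hv0 : (0 : ℝ) < v := by exact_mod_cast hv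
  have hinj : Set.InjOn (fun m' : ℕ => v * m') (Ioc 0 ((2 * N + 1) / v) : Finset ℕ) := by
    intro a _ b _ hab
    exact Nat.eq_of_mul_eq_mul_left hv hab
  have hsub : (II N).filter (fun m => v ∣ m) ⊆
      (Ioc 0 ((2 * N + 1) / v)).image (fun m' : ℕ => v * m') := by
    intro m hm
    obtain ⟨h1, h2⟩ := Finset.mem_filter.1 hm
    have h3 := Finset.mem_Ioc.1 h1
    obtain ⟨c, rfl⟩ := h2
    refine Finset.mem_image.2 ⟨c, Finset.mem_Ioc.2 ⟨?_, ?_⟩, rfl⟩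
    · rcases Nat.eq_zero_or_pos c with h4 | h4
      · rw [h4, mul_zero] at h3
        omega
      · exact h4
    · rw [Nat.le_div_iff_mul_le hv, mul_comm]
      exact h3.2
  have hS : ∑ m ∈ (II N).filter (fun m => v ∣ m), ((pt B m : ℕ) : ℝ) ^ ((1 : ℝ) / 2) ≤
      ∑ m' ∈ Ioc 0 ((2 * N + 1) / v), ((pt B (v * m') : ℕ) : ℝ) ^ ((1 : ℝ) / 2) := by
    rw [← Finset.sum_image (f := fun m : ℕ => ((pt B m : ℕ) : ℝ) ^ ((1 : ℝ) / 2)) hinj]
    exact Finset.sum_le_sum_of_subset_of_nonneg hsub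
      fun m _ _ => Real.rpow_nonneg (Nat.cast_nonneg _) _
  have hT : ∑ m' ∈ Ioc 0 ((2 * N + 1) / v), ((pt B (v * m') : ℕ) : ℝ) ^ ((1 : ℝ) / 2) ≤
      Real.sqrt v * ∑ m' ∈ Ioc 0 ((2 * N + 1) / v), ((pt B m' : ℕ) : ℝ) ^ ((1 : ℝ) / 2) := by
    rw [Finset.mul_sum]
    refine Finset.sum_le_sum fun m' hm' => ?_
    have hm0 : m' ≠ 0 := by
      have := Finset.mem_Ioc.1 hm'
      omega
    have h1 : ((pt B (v * m') : ℕ) : ℝ) ≤ (v : ℝ) * (pt B m' : ℕ) := by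
      exact_mod_cast ptw_mul B v m' (by omega) (by omega) hm0
    calc ((pt B (v * m') : ℕ) : ℝ) ^ ((1 : ℝ) / 2)
        ≤ ((v : ℝ) * (pt B m' : ℕ)) ^ ((1 : ℝ) / 2) :=
          Real.rpow_le_rpow (Nat.cast_nonneg _) h1 (by norm_num)
      _ = (v : ℝ) ^ ((1 : ℝ) / 2) * ((pt B m' : ℕ) : ℝ) ^ ((1 : ℝ) / 2) :=
          Real.mul_rpow (Nat.cast_nonneg _) (Nat.cast_nonneg _)
      _ = Real.sqrt v * ((pt B m' : ℕ) : ℝ) ^ ((1 : ℝ) / 2) := by
          rw [Real.sqrt_eq_rpow]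
  have hG := ptw_gen ((2 * N + 1) / v) B hB
  have hK : (((2 * N + 1) / v : ℕ) : ℝ) ≤ 3 * N / v := by
    have h1 : (((2 * N + 1) / v : ℕ) : ℝ) ≤ ((2 * N + 1 : ℕ) : ℝ) / v := Nat.cast_div_le
    refine h1.trans ?_
    have h2 : ((2 * N + 1 : ℕ) : ℝ) ≤ 3 * N := by
      have : 2 * N + 1 ≤ 3 * N := by omega
      exact_mod_cast this
    gcongr
  have hs0 : 0 < Real.sqrt v := Real.sqrt_pos.2 hv0
  calc ∑ m ∈ (II N).filter (fun m => v ∣ m), ((pt B m : ℕ) : ℝ) ^ ((1 : ℝ) / 2)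
      ≤ Real.sqrt v * ∑ m' ∈ Ioc 0 ((2 * N + 1) / v), ((pt B m' : ℕ) : ℝ) ^ ((1 : ℝ) / 2) :=
        hS.trans hT
    _ ≤ Real.sqrt v * ((((2 * N + 1) / v : ℕ) : ℝ) * (tau B : ℝ) ^ 2) :=
        mul_le_mul_of_nonneg_left hG hs0.le
    _ ≤ Real.sqrt v * ((3 * N / v) * (tau B : ℝ) ^ 2) :=
        mul_le_mul_of_nonneg_left (mul_le_mul_of_nonneg_right hK (by positivity)) hs0.le
    _ = 3 * N * (tau B : ℝ) ^ 2 / Real.sqrt v := by
        have h1 : (v : ℝ) = Real.sqrt v * Real.sqrt v := (Real.mul_self_sqrt hv0.le).symm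
        have h2 : Real.sqrt v * ((3 * N / v) * (tau B : ℝ) ^ 2) =
            Real.sqrt v * ((3 * N / (Real.sqrt v * Real.sqrt v)) * (tau B : ℝ) ^ 2) := by
          rw [← h1]
        rw [h2]
        field_simp

end Pool.Agent.H35.WL
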