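import Pool.Agent.H35.WL.Ic
import Pool.Agent.H35.WL.Pw
import Pool.Agent.H35.WL.Bc

/-!
# WL-O7: the off-diagonal part (`P^7` version)

For `(τ, τ')` not diagonal (so `K₀ ≠ 0` as in `oo_bound`, Pool/Agent/H94/EH/M14.lean, line 832) and `m₁`
put `u₁ = p₁` if `¬ Bad1 η τ τ'` and `p₁ ∤ m₁`, else `u₁ = 1`; `u₃ = p₃` if `¬ Bad1 η τ' τ` and `p₃ ∤ m₁`,
else `1`.  `inner_w` (from `inner7`; `gcd(K₀, u₁u₃) = 1` by `good_K0`, `good_K0'`): the inner sum is at most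
`10^10 P (1 + √P β₁)(1 + √P β₃) √N (log N + 1) pt^{1/2} tau(m₁)^3`, where
`β₁ = [Bad1 η τ τ'] + [p₁ ∣ m₁]`, `β₃ = [Bad1 η τ' τ] + [p₃ ∣ m₁]` (`w₁ w₃ √(u₁u₃) = p₁p₃/√(u₁u₃)`).
Expand; `[p₁∣m₁][p₃∣m₁] ≤ [p₁p₃ ∣ m₁] + [Bad1 η τ τ'][p₁ ∣ m₁]`.  With `S_v ≤ 3N tau(B)²/√v`
(`pt_v_sum`, `B = B0 η τ τ'`, `p₁, p₃, p₁p₃ ∣ B`), `p_i > P`, `bad_card`, `bad_card'`,
`#TT ≤ 300 P³`: every term gives `≤ C P^6 N^{1+ε}`, e.g. `√P · #bad · N ≤ P^{5.5}`,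
`√P · P^6 · N/√P`, `P · P^6 · N/P`, `P · #bad · N ≤ P^6`.  `tau` of everything is `≤ C N^ε`.
Total `P · P^6 · N^{3/2 + ε}`.
-/

set_option autoImplicit false

namespace Pool.Agent.H35.WL

open Finset
open Pool.Agent.H80.KF

private theorem o7_mem_PP {P p : ℕ} (h : p ∈ PP P) : p.Prime ∧ P < p ∧ p ≤ 4 * P := by
  unfold PP at h
  rw [mem_filter, mem_Ioc] at h
  exact ⟨h.2, h.1.1, h.1.2⟩

private theorem o7_mem_TT {P : ℕ} {τ : ℕ × ℕ × ℤ} (h : τ ∈ TT P) :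
    (τ.1.Prime ∧ P < τ.1 ∧ τ.1 ≤ 4 * P) ∧ (τ.2.1.Prime ∧ P < τ.2.1 ∧ τ.2.1 ≤ 4 * P) ∧
      |τ.2.2| ≤ 8 * (P : ℤ) := by
  unfold TT at h
  rw [mem_product, mem_product, mem_Icc] at h
  exact ⟨o7_mem_PP h.1, o7_mem_PP h.2.1, abs_le.2 h.2.2⟩

private theorem o7_K0_le {N P : ℕ} {η : ℤ} (hη : |η| ≤ 4 * (N : ℤ) ^ 2) {τ τ' : ℕ × ℕ × ℤ}
    (hτ : τ ∈ TT P) (hτ' : τ' ∈ TT P) : |K0 η τ τ'| ≤ 4096 * (N : ℤ) ^ 2 * (P : ℤ) ^ 4 := by
  obtain ⟨⟨a0, a1, a2⟩, ⟨a00, a3, a4⟩, a5⟩ := o7_mem_TT hτ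
  obtain ⟨⟨b0, b1, b2⟩, ⟨b00, b3, b4⟩, b5⟩ := o7_mem_TT hτ'
  have hP : (0 : ℤ) ≤ P := Int.natCast_nonneg P
  have key : ∀ (p q p' q' : ℕ) (r : ℤ), p ≤ 4 * P → q ≤ 4 * P → p' ≤ 4 * P →
      q' ≤ 4 * P → |r| ≤ 8 * (P : ℤ) →
      |((p : ℤ) - q) * r * p' * q'| ≤ 512 * (P : ℤ) ^ 4 := by
    intro p q p' q' r h2 h4 h5 h6 h7
    rw [abs_mul, abs_mul, abs_mul, Nat.abs_cast, Nat.abs_cast]
    have c1 : |((p : ℤ) - q)| ≤ 4 * P := by
      rw [abs_le]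
      constructor <;> omega
    have c2 : (p' : ℤ) ≤ 4 * P := by exact_mod_cast h5
    have c3 : (q' : ℤ) ≤ 4 * P := by exact_mod_cast h6
    calc |((p : ℤ) - q)| * |r| * p' * q' ≤ (4 * P) * (8 * P) * (4 * P) * (4 * P) := by
          apply mul_le_mul _ c3 (Int.natCast_nonneg _) (by positivity)
          apply mul_le_mul _ c2 (Int.natCast_nonneg _) (by positivity)
          exact mul_le_mul c1 h7 (abs_nonneg _) (by positivity)
      _ = 512 * (P : ℤ) ^ 4 := by ring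
  have k1 := key τ.1 τ.2.1 τ'.1 τ'.2.1 τ.2.2 a2 a4 b2 b4 a5
  have k2 := key τ'.1 τ'.2.1 τ.1 τ.2.1 τ'.2.2 b2 b4 a2 a4 b5
  unfold K0
  rw [abs_mul]
  calc |η| * |((τ.1 : ℤ) - τ.2.1) * τ.2.2 * τ'.1 * τ'.2.1 -
        ((τ'.1 : ℤ) - τ'.2.1) * τ'.2.2 * τ.1 * τ.2.1|
      ≤ (4 * (N : ℤ) ^ 2) * (512 * (P : ℤ) ^ 4 + 512 * (P : ℤ) ^ 4) := by
        apply mul_le_mul hη _ (abs_nonneg _) (by positivity)
        exact (abs_sub _ _).trans (add_le_add k1 k2)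
    _ = 4096 * (N : ℤ) ^ 2 * (P : ℤ) ^ 4 := by ring

private theorem o7_B0_le {N P : ℕ} (hPN : P ≤ N) {η : ℤ} (hη : |η| ≤ 4 * (N : ℤ) ^ 2)
    {τ τ' : ℕ × ℕ × ℤ} (hτ : τ ∈ TT P) (hτ' : τ' ∈ TT P) :
    B0 η τ τ' ≤ 2 ^ 26 * N ^ 12 := by
  obtain ⟨⟨a0, a1, a2⟩, ⟨a00, a3, a4⟩, a5⟩ := o7_mem_TT hτ
  obtain ⟨⟨b0, b1, b2⟩, ⟨b00, b3, b4⟩, b5⟩ := o7_mem_TT hτ'
  have k1 : (K0 η τ τ').natAbs ≤ 4096 * N ^ 2 * P ^ 4 := by
    have := o7_K0_le hη hτ hτ'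
    rw [Int.abs_eq_natAbs] at this
    exact_mod_cast this
  have k2 : τ.2.2.natAbs ≤ 8 * P := by
    rw [Int.abs_eq_natAbs] at a5
    exact_mod_cast a5
  have k3 : τ'.2.2.natAbs ≤ 8 * P := by
    rw [Int.abs_eq_natAbs] at b5
    exact_mod_cast b5
  unfold B0
  calc (K0 η τ τ').natAbs * (τ.2.2.natAbs * τ'.2.2.natAbs) * (τ.1 * τ.2.1 * (τ'.1 * τ'.2.1))
      ≤ (4096 * N ^ 2 * P ^ 4) * ((8 * P) * (8 * P)) * ((4 * P) * (4 * P) * ((4 * P) * (4 * P))) :=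
        Nat.mul_le_mul (Nat.mul_le_mul k1 (Nat.mul_le_mul k2 k3))
          (Nat.mul_le_mul (Nat.mul_le_mul a2 a4) (Nat.mul_le_mul b2 b4))
    _ = 2 ^ 26 * (N ^ 2 * P ^ 10) := by ring
    _ ≤ 2 ^ 26 * (N ^ 2 * N ^ 10) := by
        apply Nat.mul_le_mul_left
        apply Nat.mul_le_mul_left
        exact Nat.pow_le_pow_left hPN 10
    _ = 2 ^ 26 * N ^ 12 := by ring

private theorem o7_gg {F : ℝ → ℂ} {η : ℤ} {N : ℕ} {τ : ℕ × ℕ × ℤ} {m1 m2 : ℕ}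
    (h : gg F η N τ m1 m2 ≠ 0) : Adm N τ.1 τ.2.1 τ.2.2 m1 m2 := by
  by_contra hc
  apply h
  unfold gg
  rw [if_neg hc]

private theorem o7_II {N m : ℕ} (hN : 1 ≤ N) (h : m ∈ II N) : 1 ≤ m ∧ m ≤ 3 * N := by
  unfold II at h
  rw [mem_Ioc] at h
  omega

private theorem o7_TT_card {P : ℕ} (hP : 1 ≤ P) : ((TT P).card : ℝ) ≤ 153 * (P : ℝ) ^ 3 := by
  have hP' : (1 : ℝ) ≤ P := by exact_mod_cast hP
  unfold TT
  rw [card_product, card_product, Int.card_Icc]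
  have e : ((8 * (P : ℤ) + 1 - -(8 * P : ℤ)).toNat) = 16 * P + 1 := by omega
  rw [e]
  push_cast
  have h := pp_card_le P
  have h0 : (0 : ℝ) ≤ ((PP P).card : ℝ) := Nat.cast_nonneg _
  calc ((PP P).card : ℝ) * (((PP P).card : ℝ) * (16 * P + 1))
      ≤ (3 * P) * ((3 * P) * (17 * P)) := by
        apply mul_le_mul h _ (by positivity) (by positivity)
        apply mul_le_mul h _ (by positivity) (by positivity)
        linarith only [hP']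
    _ = 153 * (P : ℝ) ^ 3 := by ring

private theorem o7_choice {P p : ℕ} (hp : p ≤ 4 * P) (b d : Prop) [Decidable b] [Decidable d] :
    ∃ u w : ℕ, p = u * w ∧ ((u = 1 ∧ w = p) ∨ (u = p ∧ w = 1 ∧ ¬ b ∧ ¬ d)) ∧
      (w : ℝ) * Real.sqrt u ≤ 4 * Real.sqrt P *
        (1 + Real.sqrt P * ((if b then 1 else 0) + (if d then 1 else 0))) := by
  have hs : 0 ≤ Real.sqrt (P : ℝ) := Real.sqrt_nonneg _
  have hss : Real.sqrt (P : ℝ) * Real.sqrt P = P := Real.mul_self_sqrt (Nat.cast_nonneg _)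
  have hp' : (p : ℝ) ≤ 4 * P := by exact_mod_cast hp
  by_cases hb : b
  · refine ⟨1, p, (one_mul p).symm, Or.inl ⟨rfl, rfl⟩, ?_⟩
    rw [if_pos hb, Nat.cast_one, Real.sqrt_one, mul_one]
    by_cases hd : d
    · rw [if_pos hd]
      nlinarith only [hs, hss, hp']
    · rw [if_neg hd]
      nlinarith only [hs, hss, hp']
  · by_cases hd : d
    · refine ⟨1, p, (one_mul p).symm, Or.inl ⟨rfl, rfl⟩, ?_⟩
      rw [if_neg hb, if_pos hd, Nat.cast_one, Real.sqrt_one, mul_one]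
      nlinarith only [hs, hss, hp']
    · refine ⟨p, 1, (mul_one p).symm, Or.inr ⟨rfl, rfl, hb, hd⟩, ?_⟩
      rw [if_neg hb, if_neg hd, Nat.cast_one, one_mul, add_zero, mul_zero, add_zero, mul_one]
      have h4 : Real.sqrt (p : ℝ) ≤ 2 * Real.sqrt P := by
        apply Real.sqrt_le_iff.2
        refine ⟨by positivity, ?_⟩
        rw [mul_pow, sq (Real.sqrt (P : ℝ)), hss]
        linarith only [hp']
      linarith only [h4, hs]

private theorem o7_cop {p : ℕ} (hp : p.Prime) {r r' : ℤ} {p2 p4 m w w' : ℕ} (h2 : p2.Prime)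
    (h4 : p4.Prime) (n2 : p ≠ p2) (n4 : p ≠ p4) (hr : ¬ (p : ℤ) ∣ r) (hr' : ¬ (p : ℤ) ∣ r')
    (hm : ¬ p ∣ m) (hw : ¬ p ∣ w) (hw' : ¬ p ∣ w') :
    Nat.Coprime p (r.natAbs * r'.natAbs * (p2 * p4) * (m * (w * w'))) := by
  rw [Nat.Prime.coprime_iff_not_dvd hp]
  intro h
  rcases (Nat.Prime.dvd_mul hp).1 h with h | h
  · rcases (Nat.Prime.dvd_mul hp).1 h with h | h
    · rcases (Nat.Prime.dvd_mul hp).1 h with h | h
      · exact hr (Int.natCast_dvd.2 h)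
      · exact hr' (Int.natCast_dvd.2 h)
    · rcases (Nat.Prime.dvd_mul hp).1 h with h | h
      · exact n2 ((Nat.prime_dvd_prime_iff_eq hp h2).1 h)
      · exact n4 ((Nat.prime_dvd_prime_iff_eq hp h4).1 h)
  · rcases (Nat.Prime.dvd_mul hp).1 h with h | h
    · exact hm h
    · rcases (Nat.Prime.dvd_mul hp).1 h with h | h
      · exact hw h
      · exact hw' h

open Classical in
theorem inner_w (hW : WB) (N P : ℕ) (hN : 1 ≤ N) (hP : 1 ≤ P) (hPN : P ≤ N) (η : ℤ)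
    (hη : |η| ≤ 4 * (N : ℤ) ^ 2)
    (F : ℝ → ℂ) (hF : Wt N F) (τ τ' : ℕ × ℕ × ℤ) (hτ : τ ∈ TT P) (hτ' : τ' ∈ TT P)
    (hK : K0 η τ τ' ≠ 0) (m1 : ℕ) (hm : m1 ∈ II N) :
    ‖∑ m2 ∈ II N, gg F η N τ m1 m2 * (starRingEnd ℂ) (gg F η N τ' m1 m2)‖ ≤
      10 ^ 10 * P * (1 + Real.sqrt P * ((if Bad1 η τ τ' then 1 else 0) + (if τ.1 ∣ m1 then 1 else 0))) *
        (1 + Real.sqrt P * ((if Bad1 η τ' τ then 1 else 0) + (if τ'.1 ∣ m1 then 1 else 0))) *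
        (N : ℝ) ^ ((1 : ℝ) / 2) * (Real.log N + 1) *
        ((pt (B0 η τ τ') m1 : ℕ) : ℝ) ^ ((1 : ℝ) / 2) * (tau m1 : ℝ) ^ (3 : ℕ) := by
  obtain ⟨⟨q1, a1, a2⟩, ⟨q2, a3, a4⟩, a5⟩ := o7_mem_TT hτ
  obtain ⟨⟨q3, b1, b2⟩, ⟨q4, b3, b4⟩, b5⟩ := o7_mem_TT hτ'
  obtain ⟨u1, w1, e1, c1, d1⟩ := o7_choice a2 (Bad1 η τ τ') (τ.1 ∣ m1)
  obtain ⟨u3, w3, e3, c3, d3⟩ := o7_choice b2 (Bad1 η τ' τ) (τ'.1 ∣ m1)
  have hN1 : (1 : ℝ) ≤ N := by exact_mod_cast hN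
  have hlogN : 0 ≤ Real.log N := Real.log_nonneg hN1
  have k1 : Nat.Coprime u1
      (τ.2.2.natAbs * τ'.2.2.natAbs * (τ.2.1 * τ'.2.1) * (m1 * (w1 * w3))) := by
    rcases c1 with ⟨h, -⟩ | ⟨h, h', hb, hd⟩
    · rw [h]
      exact Nat.coprime_one_left _
    · rw [h, h']
      unfold Bad1 at hb
      push Not at hb
      obtain ⟨g1, g2, g3, g4, g5, g6⟩ := hb
      refine o7_cop q1 q2 q4 g1 g3 g4 g5 hd (Nat.Prime.not_dvd_one q1) ?_
      rcases c3 with ⟨-, h3⟩ | ⟨-, h3, -⟩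
      · rw [h3]
        intro hdv
        exact g2 ((Nat.prime_dvd_prime_iff_eq q1 q3).1 hdv)
      · rw [h3]
        exact Nat.Prime.not_dvd_one q1
  have k3 : Nat.Coprime u3
      (τ.2.2.natAbs * τ'.2.2.natAbs * (τ.2.1 * τ'.2.1) * (m1 * (w1 * w3))) := by
    rcases c3 with ⟨h, -⟩ | ⟨h, h', hb, hd⟩
    · rw [h]
      exact Nat.coprime_one_left _
    · rw [h, h']
      unfold Bad1 at hb
      push Not at hb
      obtain ⟨g1, g2, g3, g4, g5, g6⟩ := hb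
      refine o7_cop q3 q2 q4 g3 g1 g5 g4 hd ?_ (Nat.Prime.not_dvd_one q3)
      rcases c1 with ⟨-, h3⟩ | ⟨-, h3, -⟩
      · rw [h3]
        intro hdv
        exact g2 ((Nat.prime_dvd_prime_iff_eq q3 q1).1 hdv)
      · rw [h3]
        exact Nat.Prime.not_dvd_one q3
  have hcop := Nat.Coprime.mul_left k1 k3
  have g1 : Nat.Coprime (K0 η τ τ').natAbs u1 := by
    rcases c1 with ⟨h, -⟩ | ⟨h, -, hb, -⟩
    · rw [h]
      exact Nat.coprime_one_right _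
    · rw [h, Nat.coprime_comm, Nat.Prime.coprime_iff_not_dvd q1]
      intro hd
      exact good_K0 η τ τ' q1 q2 q3 q4 hb (Int.natCast_dvd.2 hd)
  have g3 : Nat.Coprime (K0 η τ τ').natAbs u3 := by
    rcases c3 with ⟨h, -⟩ | ⟨h, -, hb, -⟩
    · rw [h]
      exact Nat.coprime_one_right _
    · rw [h, Nat.coprime_comm, Nat.Prime.coprime_iff_not_dvd q3]
      intro hd
      exact good_K0' η τ τ' q1 q2 q3 q4 hb (Int.natCast_dvd.2 hd)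
  have hg : Int.gcd (K0 η τ τ') (u1 * u3 : ℕ) = 1 := Nat.Coprime.mul_right g1 g3
  refine (inner7 hW N P hN hP hPN η hη F hF τ τ' hτ hτ' hK m1 hm u1 w1 u3 w3 e1 e3 hcop).trans ?_
  rw [hg, Nat.cast_one, mul_one]
  push_cast
  rw [Real.sqrt_mul (Nat.cast_nonneg _)]
  obtain ⟨X, hX⟩ : ∃ X : ℝ, X = (1 + Real.sqrt P *
    ((if Bad1 η τ τ' then 1 else 0) + (if τ.1 ∣ m1 then 1 else 0))) := ⟨_, rfl⟩
  obtain ⟨Y, hY⟩ : ∃ Y : ℝ, Y = (1 + Real.sqrt P *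
    ((if Bad1 η τ' τ then 1 else 0) + (if τ'.1 ∣ m1 then 1 else 0))) := ⟨_, rfl⟩
  rw [← hX] at d1 ⊢
  rw [← hY] at d3 ⊢
  obtain ⟨Z, hZ⟩ : ∃ Z : ℝ, Z = (N : ℝ) ^ ((1 : ℝ) / 2) * (Real.log N + 1) *
    ((pt (B0 η τ τ') m1 : ℕ) : ℝ) ^ ((1 : ℝ) / 2) * (tau m1 : ℝ) ^ (3 : ℕ) := ⟨_, rfl⟩
  have hZ0 : 0 ≤ Z := by rw [hZ]; positivity
  have hs : 0 ≤ Real.sqrt (P : ℝ) := Real.sqrt_nonneg _
  have hss : Real.sqrt (P : ℝ) * Real.sqrt P = P := Real.mul_self_sqrt (Nat.cast_nonneg _)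
  have hX0 : 0 ≤ X := by
    rw [hX]
    split_ifs <;> positivity
  have hY0 : 0 ≤ Y := by
    rw [hY]
    split_ifs <;> positivity
  have hprod : ((w1 : ℝ) * Real.sqrt u1) * ((w3 : ℝ) * Real.sqrt u3) ≤
      (4 * Real.sqrt P * X) * (4 * Real.sqrt P * Y) :=
    mul_le_mul d1 d3 (by positivity) (by positivity)
  calc 10 ^ 8 * ((w1 : ℝ) * w3) * (Real.sqrt u1 * Real.sqrt u3) * (N : ℝ) ^ ((1 : ℝ) / 2) *
        (Real.log N + 1) * ((pt (B0 η τ τ') m1 : ℕ) : ℝ) ^ ((1 : ℝ) / 2) * (tau m1 : ℝ) ^ (3 : ℕ)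
      = 10 ^ 8 * (((w1 : ℝ) * Real.sqrt u1) * ((w3 : ℝ) * Real.sqrt u3)) * Z := by
        rw [hZ]
        ring
    _ ≤ 10 ^ 8 * ((4 * Real.sqrt P * X) * (4 * Real.sqrt P * Y)) * Z := by
        apply mul_le_mul_of_nonneg_right _ hZ0
        exact mul_le_mul_of_nonneg_left hprod (by norm_num)
    _ = (16 * 10 ^ 8) * (Real.sqrt P * Real.sqrt P * X * Y * Z) := by ring
    _ = (16 * 10 ^ 8) * (P * X * Y * Z) := by rw [hss]
    _ ≤ 10 ^ 10 * (P * X * Y * Z) := by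
        apply mul_le_mul_of_nonneg_right (by norm_num)
        positivity
    _ = _ := by
        rw [hZ]
        ring

private theorem o7_expand {s b1 b3 d1 d3 d13 : ℝ} (hs : 1 ≤ s)
    (h1 : b1 = 0 ∨ b1 = 1) (h3 : b3 = 0 ∨ b3 = 1) (g1 : d1 = 0 ∨ d1 = 1) (g3 : d3 = 0 ∨ d3 = 1)
    (h13 : 0 ≤ d13) (h : d1 = 1 → d3 = 1 → b1 = 0 → d13 = 1) :
    (1 + s * (b1 + d1)) * (1 + s * (b3 + d3)) ≤
      (1 + 4 * s ^ 2 * (b1 + b3)) + s * d1 + s * d3 + s ^ 2 * d13 := by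
  have hs2 : s ≤ s ^ 2 := by nlinarith only [hs]
  have hsd : 0 ≤ s ^ 2 * d13 := by positivity
  rcases h1 with h1 | h1
  · rcases g1 with g1 | g1
    · rcases h3 with h3 | h3 <;> rcases g3 with g3 | g3 <;> subst h1 g1 h3 g3 <;>
        nlinarith only [hs, hs2, hsd]
    · rcases g3 with g3 | g3
      · rcases h3 with h3 | h3 <;> subst h1 g1 h3 g3 <;> nlinarith only [hs, hs2, hsd]
      · have hd := h g1 g3 h1
        rcases h3 with h3 | h3 <;> subst h1 g1 h3 g3 hd <;> nlinarith only [hs, hs2, hsd]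
  · rcases g1 with g1 | g1 <;> rcases h3 with h3 | h3 <;> rcases g3 with g3 | g3 <;>
      subst h1 g1 h3 g3 <;> nlinarith only [hs, hs2, hsd]

private theorem o7_sum_ite {S : Finset ℕ} (p : ℕ → Prop) [DecidablePred p] (g : ℕ → ℝ) :
    ∑ m ∈ S, g m * (if p m then 1 else 0) = ∑ m ∈ S.filter p, g m := by
  rw [Finset.sum_filter]
  apply Finset.sum_congr rfl
  intro m _
  by_cases h : p m
  · rw [if_pos h, if_pos h, mul_one]
  · rw [if_neg h, if_neg h, mul_zero]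

open Classical in
private theorem o7_term (hW : WB) {δ C1 : ℝ} (hδ : 0 < δ) (hC1 : 1 ≤ C1)
    (hdiv : ∀ n : ℕ, 1 ≤ n → (n.divisors.card : ℝ) ≤ C1 * (n : ℝ) ^ δ)
    {N P : ℕ} (hN : 1 ≤ N) (hP : 1 ≤ P) (hPN : P ≤ N) {η : ℤ} (hη0 : η ≠ 0)
    (hη : |η| ≤ 4 * (N : ℤ) ^ 2) {F : ℝ → ℂ} (hF : Wt N F) {τ τ' : ℕ × ℕ × ℤ}
    (hτ : τ ∈ TT P) (hτ' : τ' ∈ TT P) (hd : ¬ Diag τ τ') :
    ∑ m1 ∈ II N, ‖∑ m2 ∈ II N, gg F η N τ m1 m2 * (starRingEnd ℂ) (gg F η N τ' m1 m2)‖ ≤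
      10 ^ 10 * P * (N : ℝ) ^ ((1 : ℝ) / 2) * (Real.log N + 1) * (C1 * (3 * (N : ℝ)) ^ δ) ^ 3 *
        (3 * N * (C1 * (2 ^ 26 * (N : ℝ) ^ 12) ^ δ) ^ 2) *
        (4 + 4 * P * ((if Bad1 η τ τ' then 1 else 0) + (if Bad1 η τ' τ then 1 else 0))) := by
  have hN1 : (1 : ℝ) ≤ N := by exact_mod_cast hN
  have hP1 : (1 : ℝ) ≤ P := by exact_mod_cast hP
  have hP0 : (0 : ℝ) < P := by linarith only [hP1]
  have hlog : 0 ≤ Real.log N := Real.log_nonneg hN1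
  have hC0 : 0 < C1 := by linarith only [hC1]
  obtain ⟨b1, hb1⟩ : ∃ b1 : ℝ, b1 = (if Bad1 η τ τ' then 1 else 0) := ⟨_, rfl⟩
  obtain ⟨b3, hb3⟩ : ∃ b3 : ℝ, b3 = (if Bad1 η τ' τ then 1 else 0) := ⟨_, rfl⟩
  have hb1v : b1 = 0 ∨ b1 = 1 := by
    rw [hb1]
    split_ifs
    · exact Or.inr rfl
    · exact Or.inl rfl
  have hb3v : b3 = 0 ∨ b3 = 1 := by
    rw [hb3]
    split_ifs
    · exact Or.inr rfl
    · exact Or.inl rfl
  have hb10 : 0 ≤ b1 := by rcases hb1v with h | h <;> (rw [h]; try norm_num)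
  have hb30 : 0 ≤ b3 := by rcases hb3v with h | h <;> (rw [h]; try norm_num)
  rw [← hb1, ← hb3]
  by_cases hex : ∃ m1 ∈ II N, ∃ m2 ∈ II N, gg F η N τ m1 m2 ≠ 0 ∧ gg F η N τ' m1 m2 ≠ 0
  · obtain ⟨m1, _, m2, _, h1, h2⟩ := hex
    have ha := o7_gg h1
    have ha' := o7_gg h2
    have hK : K0 η τ τ' ≠ 0 := k0_ne N P η hη0 τ τ' hτ hτ' hd m1 m2 m1 m2 ha ha'
    have hr : τ.2.2 ≠ 0 := ha.2.2.2.1
    have hr' : τ'.2.2 ≠ 0 := ha'.2.2.2.1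
    obtain ⟨⟨q1, a1, a2⟩, ⟨q2, a3, a4⟩, a5⟩ := o7_mem_TT hτ
    obtain ⟨⟨q3, c1, c2⟩, ⟨q4, c3, c4⟩, c5⟩ := o7_mem_TT hτ'
    have hB1 : 1 ≤ B0 η τ τ' := by
      unfold B0
      have c1 : 0 < (K0 η τ τ').natAbs := Int.natAbs_pos.2 hK
      have c2 : 0 < τ.2.2.natAbs := Int.natAbs_pos.2 hr
      have c3 : 0 < τ'.2.2.natAbs := Int.natAbs_pos.2 hr'
      exact Nat.mul_pos (Nat.mul_pos c1 (Nat.mul_pos c2 c3))
        (Nat.mul_pos (Nat.mul_pos q1.pos q2.pos) (Nat.mul_pos q3.pos q4.pos))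
    have hB2 := o7_B0_le hPN hη hτ hτ'
    have htB : (tau (B0 η τ τ') : ℝ) ≤ C1 * (2 ^ 26 * (N : ℝ) ^ 12) ^ δ := by
      refine (hdiv _ hB1).trans ?_
      apply mul_le_mul_of_nonneg_left _ hC0.le
      apply Real.rpow_le_rpow (Nat.cast_nonneg _) _ hδ.le
      exact_mod_cast hB2
    have htm : ∀ m ∈ II N, (tau m : ℝ) ^ (3 : ℕ) ≤ (C1 * (3 * (N : ℝ)) ^ δ) ^ 3 := by
      intro m hm
      obtain ⟨d1, d2⟩ := o7_II hN hm
      apply pow_le_pow_left₀ (Nat.cast_nonneg _)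
      refine (hdiv _ d1).trans ?_
      apply mul_le_mul_of_nonneg_left _ hC0.le
      apply Real.rpow_le_rpow (Nat.cast_nonneg _) _ hδ.le
      exact_mod_cast d2
    have hv1 : τ.1 ∣ B0 η τ τ' := by
      unfold B0
      exact Dvd.dvd.mul_left (Dvd.dvd.mul_right (Dvd.dvd.mul_right (dvd_refl _) _) _) _
    have hv3 : τ'.1 ∣ B0 η τ τ' := by
      unfold B0
      exact Dvd.dvd.mul_left (Dvd.dvd.mul_left (Dvd.dvd.mul_right (dvd_refl _) _) _) _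
    have hv13 : τ.1 * τ'.1 ∣ B0 η τ τ' := by
      unfold B0
      exact Dvd.dvd.mul_left (mul_dvd_mul (Dvd.dvd.mul_right (dvd_refl _) _)
        (Dvd.dvd.mul_right (dvd_refl _) _)) _
    obtain ⟨s, hs⟩ : ∃ s : ℝ, s = Real.sqrt P := ⟨_, rfl⟩
    have hss : s * s = P := by rw [hs]; exact Real.mul_self_sqrt (Nat.cast_nonneg _)
    have hs1 : 1 ≤ s := by
      rw [hs]
      exact Real.one_le_sqrt.2 hP1
    have hs0 : 0 < s := by linarith only [hs1]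
    have hs2 : s ^ 2 = P := by rw [sq, hss]
    obtain ⟨g, hg⟩ : ∃ g : ℕ → ℝ, g = fun m => ((pt (B0 η τ τ') m : ℕ) : ℝ) ^ ((1 : ℝ) / 2) :=
      ⟨_, rfl⟩
    have hg0 : ∀ m, 0 ≤ g m := by
      intro m
      rw [hg]
      exact Real.rpow_nonneg (Nat.cast_nonneg _) _
    obtain ⟨T, hT⟩ : ∃ T : ℝ, T = 3 * N * (C1 * (2 ^ 26 * (N : ℝ) ^ 12) ^ δ) ^ 2 := ⟨_, rfl⟩
    have hT0 : 0 ≤ T := by rw [hT]; positivity
    have hTB : 3 * N * (tau (B0 η τ τ') : ℝ) ^ 2 ≤ T := by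
      rw [hT]
      apply mul_le_mul_of_nonneg_left _ (by positivity)
      exact pow_le_pow_left₀ (Nat.cast_nonneg _) htB 2
    have s0 : ∑ m ∈ II N, g m ≤ T := by
      rw [hg]
      exact (pt_half_sum N _ hN hB1).trans hTB
    have s1 : s * ∑ m ∈ (II N).filter (fun m => τ.1 ∣ m), g m ≤ T := by
      have h := pt_v_sum N (B0 η τ τ') τ.1 hN hB1 q1.one_lt.le hv1
      have hsq : s ≤ Real.sqrt τ.1 := by
        rw [hs]
        exact Real.sqrt_le_sqrt (by exact_mod_cast a1.le)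
      have hq0 : 0 < Real.sqrt (τ.1 : ℝ) := lt_of_lt_of_le hs0 hsq
      rw [le_div_iff₀ hq0] at h
      have h0 : 0 ≤ ∑ m ∈ (II N).filter (fun m => τ.1 ∣ m), g m :=
        Finset.sum_nonneg fun m _ => hg0 m
      calc s * ∑ m ∈ (II N).filter (fun m => τ.1 ∣ m), g m
          ≤ Real.sqrt τ.1 * ∑ m ∈ (II N).filter (fun m => τ.1 ∣ m), g m :=
            mul_le_mul_of_nonneg_right hsq h0
        _ = (∑ m ∈ (II N).filter (fun m => τ.1 ∣ m), g m) * Real.sqrt τ.1 := mul_comm _ _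
        _ ≤ _ := by
            refine le_trans ?_ hTB
            rw [hg]
            exact h
    have s3 : s * ∑ m ∈ (II N).filter (fun m => τ'.1 ∣ m), g m ≤ T := by
      have h := pt_v_sum N (B0 η τ τ') τ'.1 hN hB1 q3.one_lt.le hv3
      have hsq : s ≤ Real.sqrt τ'.1 := by
        rw [hs]
        exact Real.sqrt_le_sqrt (by exact_mod_cast c1.le)
      have hq0 : 0 < Real.sqrt (τ'.1 : ℝ) := lt_of_lt_of_le hs0 hsq
      rw [le_div_iff₀ hq0] at h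
      have h0 : 0 ≤ ∑ m ∈ (II N).filter (fun m => τ'.1 ∣ m), g m :=
        Finset.sum_nonneg fun m _ => hg0 m
      calc s * ∑ m ∈ (II N).filter (fun m => τ'.1 ∣ m), g m
          ≤ Real.sqrt τ'.1 * ∑ m ∈ (II N).filter (fun m => τ'.1 ∣ m), g m :=
            mul_le_mul_of_nonneg_right hsq h0
        _ = (∑ m ∈ (II N).filter (fun m => τ'.1 ∣ m), g m) * Real.sqrt τ'.1 := mul_comm _ _
        _ ≤ _ := by
            refine le_trans ?_ hTB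
            rw [hg]
            exact h
    have s13 : s ^ 2 * ∑ m ∈ (II N).filter (fun m => τ.1 * τ'.1 ∣ m), g m ≤ T := by
      have h := pt_v_sum N (B0 η τ τ') (τ.1 * τ'.1) hN hB1 (Nat.mul_pos q1.pos q3.pos) hv13
      have hsq : s ^ 2 ≤ Real.sqrt ((τ.1 * τ'.1 : ℕ) : ℝ) := by
        rw [hs2]
        apply Real.le_sqrt_of_sq_le
        rw [sq]
        push_cast
        have e1 : (P : ℝ) ≤ (τ.1 : ℝ) := by exact_mod_cast a1.le
        have e3 : (P : ℝ) ≤ (τ'.1 : ℝ) := by exact_mod_cast c1.le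
        exact mul_le_mul e1 e3 hP0.le (Nat.cast_nonneg _)
      have hq0 : 0 < Real.sqrt ((τ.1 * τ'.1 : ℕ) : ℝ) := lt_of_lt_of_le (by positivity) hsq
      rw [le_div_iff₀ hq0] at h
      have h0 : 0 ≤ ∑ m ∈ (II N).filter (fun m => τ.1 * τ'.1 ∣ m), g m :=
        Finset.sum_nonneg fun m _ => hg0 m
      calc s ^ 2 * ∑ m ∈ (II N).filter (fun m => τ.1 * τ'.1 ∣ m), g m
          ≤ Real.sqrt ((τ.1 * τ'.1 : ℕ) : ℝ) *
              ∑ m ∈ (II N).filter (fun m => τ.1 * τ'.1 ∣ m), g m :=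
            mul_le_mul_of_nonneg_right hsq h0
        _ = (∑ m ∈ (II N).filter (fun m => τ.1 * τ'.1 ∣ m), g m) *
              Real.sqrt ((τ.1 * τ'.1 : ℕ) : ℝ) := mul_comm _ _
        _ ≤ _ := by
            refine le_trans ?_ hTB
            rw [hg]
            exact h
    obtain ⟨A, hA⟩ : ∃ A : ℝ, A = 10 ^ 10 * P * (N : ℝ) ^ ((1 : ℝ) / 2) * (Real.log N + 1) *
      (C1 * (3 * (N : ℝ)) ^ δ) ^ 3 := ⟨_, rfl⟩
    have hA0 : 0 ≤ A := by rw [hA]; positivity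
    have hpt : ∀ m ∈ II N,
        ‖∑ m2 ∈ II N, gg F η N τ m m2 * (starRingEnd ℂ) (gg F η N τ' m m2)‖ ≤
        A * ((1 + 4 * s ^ 2 * (b1 + b3)) * g m + s * (g m * (if τ.1 ∣ m then 1 else 0)) +
          s * (g m * (if τ'.1 ∣ m then 1 else 0)) +
          s ^ 2 * (g m * (if τ.1 * τ'.1 ∣ m then 1 else 0))) := by
      intro m hm
      refine (inner_w hW N P hN hP hPN η hη F hF τ τ' hτ hτ' hK m hm).trans ?_
      rw [← hs, ← hb1, ← hb3]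
      obtain ⟨d1, hd1⟩ : ∃ d1 : ℝ, d1 = (if τ.1 ∣ m then 1 else 0) := ⟨_, rfl⟩
      obtain ⟨d3, hd3⟩ : ∃ d3 : ℝ, d3 = (if τ'.1 ∣ m then 1 else 0) := ⟨_, rfl⟩
      obtain ⟨d13, hd13⟩ : ∃ d13 : ℝ, d13 = (if τ.1 * τ'.1 ∣ m then 1 else 0) := ⟨_, rfl⟩
      have hd1v : d1 = 0 ∨ d1 = 1 := by
        rw [hd1]
        split_ifs
        · exact Or.inr rfl
        · exact Or.inl rfl
      have hd3v : d3 = 0 ∨ d3 = 1 := by
        rw [hd3]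
        split_ifs
        · exact Or.inr rfl
        · exact Or.inl rfl
      have hd130 : 0 ≤ d13 := by
        rw [hd13]
        split_ifs <;> norm_num
      have himp : d1 = 1 → d3 = 1 → b1 = 0 → d13 = 1 := by
        intro h1 h3 hb
        have e1 : τ.1 ∣ m := by
          by_contra hc
          rw [hd1, if_neg hc] at h1
          norm_num at h1
        have e3 : τ'.1 ∣ m := by
          by_contra hc
          rw [hd3, if_neg hc] at h3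
          norm_num at h3
        have hnb : ¬ Bad1 η τ τ' := by
          intro hc
          rw [hb1, if_pos hc] at hb
          norm_num at hb
        have hne : τ.1 ≠ τ'.1 := by
          intro hc
          exact hnb (Or.inr (Or.inl hc))
        rw [hd13, if_pos]
        exact Nat.Coprime.mul_dvd_of_dvd_of_dvd ((Nat.coprime_primes q1 q3).2 hne) e1 e3
      rw [← hd1, ← hd3, ← hd13]
      have hexp := o7_expand hs1 hb1v hb3v hd1v hd3v hd130 himp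
      have hgm : ((pt (B0 η τ τ') m : ℕ) : ℝ) ^ ((1 : ℝ) / 2) = g m := by rw [hg]
      rw [hgm]
      have hX0 : 0 ≤ (1 + s * (b1 + d1)) * (1 + s * (b3 + d3)) := by
        have z1 : 0 ≤ d1 := by rcases hd1v with h | h <;> (rw [h]; try norm_num)
        have z3 : 0 ≤ d3 := by rcases hd3v with h | h <;> (rw [h]; try norm_num)
        positivity
      calc 10 ^ 10 * P * (1 + s * (b1 + d1)) * (1 + s * (b3 + d3)) * (N : ℝ) ^ ((1 : ℝ) / 2) *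
            (Real.log N + 1) * g m * (tau m : ℝ) ^ (3 : ℕ)
          = (10 ^ 10 * P * (N : ℝ) ^ ((1 : ℝ) / 2) * (Real.log N + 1) *
              (((1 + s * (b1 + d1)) * (1 + s * (b3 + d3))) * g m)) * (tau m : ℝ) ^ (3 : ℕ) := by
            ring
        _ ≤ (10 ^ 10 * P * (N : ℝ) ^ ((1 : ℝ) / 2) * (Real.log N + 1) *
              (((1 + s * (b1 + d1)) * (1 + s * (b3 + d3))) * g m)) *
              (C1 * (3 * (N : ℝ)) ^ δ) ^ 3 := by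
            apply mul_le_mul_of_nonneg_left (htm m hm)
            have := hg0 m
            positivity
        _ = A * (((1 + s * (b1 + d1)) * (1 + s * (b3 + d3))) * g m) := by
            rw [hA]
            ring
        _ ≤ A * (((1 + 4 * s ^ 2 * (b1 + b3)) + s * d1 + s * d3 + s ^ 2 * d13) * g m) := by
            apply mul_le_mul_of_nonneg_left _ hA0
            exact mul_le_mul_of_nonneg_right hexp (hg0 m)
        _ = _ := by ring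
    refine (Finset.sum_le_sum hpt).trans ?_
    rw [← Finset.mul_sum, Finset.sum_add_distrib, Finset.sum_add_distrib, Finset.sum_add_distrib,
      ← Finset.mul_sum, ← Finset.mul_sum, ← Finset.mul_sum, ← Finset.mul_sum, o7_sum_ite,
      o7_sum_ite, o7_sum_ite, ← hA, ← hT, mul_assoc A]
    apply mul_le_mul_of_nonneg_left _ hA0
    have hco : 0 ≤ 1 + 4 * s ^ 2 * (b1 + b3) := by positivity
    have hfirst := mul_le_mul_of_nonneg_left s0 hco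
    rw [hs2] at hfirst s13 ⊢
    calc (1 + 4 * (P : ℝ) * (b1 + b3)) * ∑ m ∈ II N, g m +
          s * ∑ m ∈ (II N).filter (fun m => τ.1 ∣ m), g m +
          s * ∑ m ∈ (II N).filter (fun m => τ'.1 ∣ m), g m +
          P * ∑ m ∈ (II N).filter (fun m => τ.1 * τ'.1 ∣ m), g m
        ≤ (1 + 4 * P * (b1 + b3)) * T + T + T + T := by
          linarith only [hfirst, s1, s3, s13]
      _ = T * (4 + 4 * P * (b1 + b3)) := by ring
  · push Not at hex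
    have hz : ∑ m1 ∈ II N, ‖∑ m2 ∈ II N,
        gg F η N τ m1 m2 * (starRingEnd ℂ) (gg F η N τ' m1 m2)‖ = 0 := by
      apply Finset.sum_eq_zero
      intro m1 hm1
      rw [norm_eq_zero]
      apply Finset.sum_eq_zero
      intro m2 hm2
      by_cases h0 : gg F η N τ m1 m2 = 0
      · rw [h0, zero_mul]
      · rw [hex m1 hm1 m2 hm2 h0, map_zero, mul_zero]
    rw [hz]
    positivity

theorem oo_bound7 (hW : WB) : OOB 7 := by
  classical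
  intro ε hε
  obtain ⟨δ, hδe⟩ : ∃ δ : ℝ, δ = ε / 30 := ⟨_, rfl⟩
  have hδ : 0 < δ := by rw [hδe]; positivity
  obtain ⟨C1, hC1, hdiv⟩ := Pool.Agent.H92.EH.div_bound δ hδ
  have hC0 : 0 < C1 := by linarith only [hC1]
  refine ⟨10 ^ 10 * (1 / δ + 1) * (C1 * 3 ^ δ) ^ 3 * (3 * (C1 * (2 ^ 26) ^ δ) ^ 2) *
    (2 * 10 ^ 8 * (C1 * 4 ^ δ)), by positivity, ?_⟩
  intro N P hN hP hPN η hη0 hη F hF
  have hN1 : (1 : ℝ) ≤ N := by exact_mod_cast hN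
  have hN0 : (0 : ℝ) < N := by linarith only [hN1]
  have hP1 : (1 : ℝ) ≤ P := by exact_mod_cast hP
  have hP0 : (0 : ℝ) < P := by linarith only [hP1]
  have hlog : 0 ≤ Real.log N := Real.log_nonneg hN1
  obtain ⟨A, hA⟩ : ∃ A : ℝ, A = 10 ^ 10 * P * (N : ℝ) ^ ((1 : ℝ) / 2) * (Real.log N + 1) *
      (C1 * (3 * (N : ℝ)) ^ δ) ^ 3 *
        (3 * N * (C1 * (2 ^ 26 * (N : ℝ) ^ 12) ^ δ) ^ 2) := ⟨_, rfl⟩
  have hA0 : 0 ≤ A := by rw [hA]; positivity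
  obtain ⟨X, hX⟩ : ∃ X : ℝ, X = C1 * (4 * (N : ℝ) ^ 2) ^ δ := ⟨_, rfl⟩
  have hX1 : 1 ≤ X := by
    rw [hX]
    have h1 : (1 : ℝ) ≤ (4 * (N : ℝ) ^ 2) ^ δ := by
      apply Real.one_le_rpow _ hδ.le
      nlinarith only [hN1]
    nlinarith only [hC1, h1]
  have hη1 : (tau η.natAbs : ℝ) ≤ X := by
    have h1 : 1 ≤ η.natAbs := Int.natAbs_pos.2 hη0
    refine (hdiv _ h1).trans ?_
    rw [hX]
    apply mul_le_mul_of_nonneg_left _ hC0.le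
    apply Real.rpow_le_rpow (Nat.cast_nonneg _) _ hδ.le
    rw [Int.abs_eq_natAbs] at hη
    exact_mod_cast hη
  have hbad1 : (((TT P ×ˢ TT P).filter (fun t => Bad1 η t.1 t.2)).card : ℝ) ≤
      10 ^ 7 * (P : ℝ) ^ 5 * (1 + X) := by
    refine (bad_card P hP η hη0).trans ?_
    apply mul_le_mul_of_nonneg_left _ (by positivity)
    linarith only [hη1]
  have hbad3 : (((TT P ×ˢ TT P).filter (fun t => Bad1 η t.2 t.1)).card : ℝ) ≤
      10 ^ 7 * (P : ℝ) ^ 5 * (1 + X) := by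
    refine (bad_card' P hP η hη0).trans ?_
    apply mul_le_mul_of_nonneg_left _ (by positivity)
    linarith only [hη1]
  have hTT : (((TT P ×ˢ TT P)).card : ℝ) ≤ (153 * (P : ℝ) ^ 3) ^ 2 := by
    rw [card_product]
    push_cast
    rw [pow_two]
    exact mul_le_mul (o7_TT_card hP) (o7_TT_card hP) (Nat.cast_nonneg _) (by positivity)
  have hsum1 : ∑ t ∈ TT P ×ˢ TT P, ((if Bad1 η t.1 t.2 then 1 else 0 : ℝ)) =
      (((TT P ×ˢ TT P).filter (fun t => Bad1 η t.1 t.2)).card : ℝ) := Finset.sum_boole _ _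
  have hsum3 : ∑ t ∈ TT P ×ˢ TT P, ((if Bad1 η t.2 t.1 then 1 else 0 : ℝ)) =
      (((TT P ×ˢ TT P).filter (fun t => Bad1 η t.2 t.1)).card : ℝ) := Finset.sum_boole _ _
  have h1 : OO F η N P ≤ A * (P : ℝ) ^ 6 * (2 * 10 ^ 8 * X) := by
    unfold OO
    calc _ ≤ ∑ t ∈ (TT P ×ˢ TT P).filter (fun t => ¬ Diag t.1 t.2),
            A * (4 + 4 * P * ((if Bad1 η t.1 t.2 then 1 else 0) +
              (if Bad1 η t.2 t.1 then 1 else 0))) := by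
          apply Finset.sum_le_sum
          intro t ht
          rw [mem_filter, mem_product] at ht
          rw [hA]
          exact o7_term hW hδ hC1 hdiv hN hP hPN hη0 hη hF ht.1.1 ht.1.2 ht.2
      _ ≤ ∑ t ∈ TT P ×ˢ TT P,
            A * (4 + 4 * P * ((if Bad1 η t.1 t.2 then 1 else 0) +
              (if Bad1 η t.2 t.1 then 1 else 0))) := by
          apply Finset.sum_le_sum_of_subset_of_nonneg (Finset.filter_subset _ _)
          intro t _ _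
          apply mul_nonneg hA0
          split_ifs <;> positivity
      _ = A * (4 * ((TT P ×ˢ TT P).card : ℝ) + 4 * P *
            ((((TT P ×ˢ TT P).filter (fun t => Bad1 η t.1 t.2)).card : ℝ) +
              (((TT P ×ˢ TT P).filter (fun t => Bad1 η t.2 t.1)).card : ℝ))) := by
          rw [← Finset.mul_sum, Finset.sum_add_distrib, ← Finset.mul_sum, Finset.sum_add_distrib,
            hsum1, hsum3, Finset.sum_const, nsmul_eq_mul]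
          ring
      _ ≤ A * (4 * (153 * (P : ℝ) ^ 3) ^ 2 + 4 * P *
            (10 ^ 7 * (P : ℝ) ^ 5 * (1 + X) + 10 ^ 7 * (P : ℝ) ^ 5 * (1 + X))) := by
          apply mul_le_mul_of_nonneg_left _ hA0
          apply add_le_add
          · exact mul_le_mul_of_nonneg_left hTT (by norm_num)
          · apply mul_le_mul_of_nonneg_left _ (by positivity)
            exact add_le_add hbad1 hbad3
      _ = A * (P : ℝ) ^ 6 * (93636 + 8 * 10 ^ 7 * (1 + X)) := by ring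
      _ ≤ A * (P : ℝ) ^ 6 * (2 * 10 ^ 8 * X) := by
          apply mul_le_mul_of_nonneg_left _ (by positivity)
          linarith only [hX1]
  refine h1.trans ?_
  have hNd : (1 : ℝ) ≤ (N : ℝ) ^ δ := Real.one_le_rpow hN1 hδ.le
  have e1 : Real.log N + 1 ≤ (1 / δ + 1) * (N : ℝ) ^ δ := by
    have := Real.log_le_rpow_div hN0.le hδ
    have e : (1 / δ + 1) * (N : ℝ) ^ δ = (N : ℝ) ^ δ / δ + (N : ℝ) ^ δ := by ring
    rw [e]
    linarith only [hNd, this]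
  have e2 : (3 * (N : ℝ)) ^ δ = 3 ^ δ * (N : ℝ) ^ δ := Real.mul_rpow (by norm_num) hN0.le
  have e3 : (2 ^ 26 * (N : ℝ) ^ 12) ^ δ = (2 ^ 26) ^ δ * (N : ℝ) ^ (12 * δ) := by
    rw [Real.mul_rpow (by norm_num) (by positivity), ← Real.rpow_natCast (N : ℝ) 12,
      ← Real.rpow_mul hN0.le]
    norm_num
  have e5 : (4 * (N : ℝ) ^ 2) ^ δ = 4 ^ δ * (N : ℝ) ^ (2 * δ) := by
    rw [Real.mul_rpow (by norm_num) (by positivity), ← Real.rpow_natCast (N : ℝ) 2,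
      ← Real.rpow_mul hN0.le]
    norm_num
  have e4 : (N : ℝ) ^ (3 / 2 + ε) = (N : ℝ) ^ ((1 : ℝ) / 2) * (N : ℝ) ^ δ * ((N : ℝ) ^ δ) ^ 3 * N *
      ((N : ℝ) ^ (12 * δ)) ^ 2 * (N : ℝ) ^ (2 * δ) := by
    rw [← Real.rpow_natCast ((N : ℝ) ^ (12 * δ)) 2, ← Real.rpow_mul hN0.le,
      ← Real.rpow_natCast ((N : ℝ) ^ δ) 3, ← Real.rpow_mul hN0.le,
      ← Real.rpow_add hN0, ← Real.rpow_add hN0, ← Real.rpow_add_one hN0.ne',
      ← Real.rpow_add hN0, ← Real.rpow_add hN0]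
    congr 1
    rw [hδe]
    push_cast
    ring
  rw [hA, hX, e2, e3, e5, e4]
  calc 10 ^ 10 * P * (N : ℝ) ^ ((1 : ℝ) / 2) * (Real.log N + 1) *
        (C1 * (3 ^ δ * (N : ℝ) ^ δ)) ^ 3 *
        (3 * N * (C1 * ((2 ^ 26) ^ δ * (N : ℝ) ^ (12 * δ))) ^ 2) * (P : ℝ) ^ 6 *
        (2 * 10 ^ 8 * (C1 * (4 ^ δ * (N : ℝ) ^ (2 * δ))))
      = (Real.log N + 1) * (10 ^ 10 * P * (N : ℝ) ^ ((1 : ℝ) / 2) *
        (C1 * (3 ^ δ * (N : ℝ) ^ δ)) ^ 3 *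
        (3 * N * (C1 * ((2 ^ 26) ^ δ * (N : ℝ) ^ (12 * δ))) ^ 2) * (P : ℝ) ^ 6 *
        (2 * 10 ^ 8 * (C1 * (4 ^ δ * (N : ℝ) ^ (2 * δ))))) := by ring
    _ ≤ ((1 / δ + 1) * (N : ℝ) ^ δ) * (10 ^ 10 * P * (N : ℝ) ^ ((1 : ℝ) / 2) *
        (C1 * (3 ^ δ * (N : ℝ) ^ δ)) ^ 3 *
        (3 * N * (C1 * ((2 ^ 26) ^ δ * (N : ℝ) ^ (12 * δ))) ^ 2) * (P : ℝ) ^ 6 *
        (2 * 10 ^ 8 * (C1 * (4 ^ δ * (N : ℝ) ^ (2 * δ))))) :=
        mul_le_mul_of_nonneg_right e1 (by positivity)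
    _ = _ := by ring

end Pool.Agent.H35.WL
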