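import Pool.Agent.H35.WL.Fa
import Pool.Agent.H35.WL.Ew
import Pool.Agent.H35.WL.Kn
import Pool.Agent.H35.WL.O7

/-!
# The level `θ` with `θ + κ/2 < 41/80`
-/

set_option autoImplicit false

namespace Pool.Agent.H35.WL

open Finset
open Pool.Agent.H91.EHA (err)
open Pool.Agent.H80.KF

theorem kb_all (σ : ℝ) (h0 : 0 < σ) (h1 : σ < 1 / 20) : KB σ :=
  kb_of_oob 7 (Or.inl rfl) (oo_bound7 wb) σ h0 (by push_cast; norm_num; linarith)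

theorem fam_theta (θ κ : ℝ) (h0 : 0 ≤ κ) (h1 : κ < 1 / 40) (h2 : θ + κ / 2 < 41 / 80) (c : ℕ) :
    ∃ x0 : ℕ, ∀ x : ℕ, x0 ≤ x →
    ∀ F : Finset (Finset ℤ), (∀ A ∈ F, ∀ B ∈ F, A ≠ B → Disjoint A B) →
    (∀ A ∈ F, (∀ a ∈ A, |a| ≤ x) ∧ (A.card : ℝ) ≤ (x : ℝ) ^ κ ∧
      ¬ (∀ r : ℕ → ℤ, (∀ q, r q ∈ A) →
        ∑ q ∈ (Icc 1 ⌊(x : ℝ) ^ θ⌋₊).filter (fun q : ℕ => IsCoprime (r q) (q : ℤ)),
          ME x q (r q : ZMod q) ≤ x / Real.log x ^ c)) →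
    (F.card : ℝ) ≤ Real.log x ^ (4 * c + 21) := by
  obtain ⟨σ, hσ0, hσ1, hσ2, hσ3⟩ : ∃ σ : ℝ, 0 < σ ∧ σ < 1 / 20 ∧ κ < σ / 2 ∧
      θ ≤ 1 / 2 + σ / 4 - κ / 2 := by
    refine ⟨(max (2 * κ) (4 * (θ + κ / 2) - 2) + 1 / 20) / 2, ?_, ?_, ?_, ?_⟩
    · have := le_max_left (2 * κ) (4 * (θ + κ / 2) - 2)
      linarith
    · have : max (2 * κ) (4 * (θ + κ / 2) - 2) < 1 / 20 := max_lt (by linarith) (by linarith)
      linarith
    · have := le_max_left (2 * κ) (4 * (θ + κ / 2) - 2)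
      linarith
    · have := le_max_right (2 * κ) (4 * (θ + κ / 2) - 2)
      linarith
  obtain ⟨x1, hx1⟩ := fam_card3 σ κ hσ0 hσ1.le h0 hσ2 (kb_all σ hσ0 hσ1) c
  refine ⟨max x1 1, fun x hx F hF hbad => ?_⟩
  refine hx1 x ((le_max_left _ _).trans hx) F hF fun A hA => ?_
  obtain ⟨h3, h4, h5⟩ := hbad A hA
  refine ⟨h3, h4, fun h => h5 fun r hr => ?_⟩
  have h6 := h r hr
  refine le_trans ?_ h6
  refine sum_le_sum_of_subset_of_nonneg ?_ ?_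
  · refine filter_subset_filter _ (Icc_subset_Icc le_rfl ?_)
    unfold QW
    refine Nat.floor_le_floor ?_
    refine Real.rpow_le_rpow_of_exponent_le ?_ hσ3
    have : 1 ≤ x := (le_max_right _ _).trans hx
    exact_mod_cast this
  · intro q _ _
    unfold ME
    refine le_trans (abs_nonneg (err 0 q (r q : ZMod q))) ?_
    exact le_sup' (f := fun y => |err y q (r q : ZMod q)|) (mem_range.2 (Nat.succ_pos x))

end Pool.Agent.H35.WL
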