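import Pool.Agent.H35.WL.Defs

/-!
# WL-Fm: the summand on a residue class of `m₂`, primes `p₁`, `p₃` in the Kloosterman modulus

Generalization of `cls_formula` (Pool/Agent/H94/EH/M13.lean, line 2039; private lemmas `clsa_adm`,
`clsa_gg` before it).  `p₁ = u₁ w₁`, `p₃ = u₃ w₃` (so each `u_i` is `1` or the prime).  The Kloosterman
modulus is `k u₁ u₃`, the classes are modulo `M₇ = lcm(|r|,|r'|) s w₁ w₃`.
For `τ` apply the library lemma `phase` with `w₁` in place of `p₁` and `k u₁` in place of `k`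
(`w₁ (s (k u₁)) = p₁ (s k)`): `kf n ξ (p₁ s k) = ee(..) kf (w₁ s) (-ξ) (n k u₁) kf (k u₁) (ξ r) (w₁ p₂ s m₂)`;
`n(t)` modulo `w₁ s` is constant (`r q = M₇`, `w₁ s ∣ q`).  `Adm` for `τ` iff `n(t) ∈ II N` and
`(m₂, k u₁) = 1`: if `u₁ = 1`, `p₁ = w₁ ∣ M₇` as before; if `u₁ = p₁`, then `p₁ ∤ m₂` is part of
`(m₂, k u₁) = 1`.  The same for `τ'` with `u₃, w₃`.
`kf_up`: `kf (q u) (a u) m = kf q a m` if `(m, q u) = 1` (an inverse mod `q u` is an inverse mod `q`).  So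
both phases have modulus `q' = k u₁ u₃`, with numerators `ξ r u₃`, `ξ' r' u₁`; as in `phase2`
(`kf_mul_left` with `w₃ p₄`, `w₁ p₂`) the product is `kf q' K₀ (s (w₁ w₃) (p₂ p₄) m₂)` with the same
`K₀ = ξ r p₃ p₄ - ξ' r' p₁ p₂`.
-/

set_option autoImplicit false

namespace Pool.Agent.H35.WL

open Finset
open Pool.Agent.H80.KF

/-- the modulus of the classes -/
def M7 (τ τ' : ℕ × ℕ × ℤ) (s w : ℕ) : ℕ := Nat.lcm τ.2.2.natAbs τ'.2.2.natAbs * (s * w)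

/-- the sum over the class `ρ mod M₇` -/
noncomputable def CS7 (F : ℝ → ℂ) (η : ℤ) (N : ℕ) (τ τ' : ℕ × ℕ × ℤ) (m1 s w ρ : ℕ) : ℂ :=
  ∑ t ∈ (range (2 * N + 2)).filter (fun t => ρ + M7 τ τ' s w * t ∈ II N),
    gg F η N τ m1 (ρ + M7 τ τ' s w * t) * (starRingEnd ℂ) (gg F η N τ' m1 (ρ + M7 τ τ' s w * t))

theorem kf_up (q u m : ℕ) (hq : 1 ≤ q) (hu : 1 ≤ u) (a : ℤ) (h : Nat.Coprime m (q * u)) :
    kf (q * u) (a * u) m = kf q a m := by
  have hqu : 1 ≤ q * u := Nat.mul_pos hq hu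
  have h1 := iv_spec hqu h
  have h2 : (q : ℤ) ∣ (m : ℤ) * (iv (q * u) m : ℤ) - 1 := by
    refine Dvd.dvd.trans ?_ h1
    push_cast
    exact Dvd.intro _ rfl
  rw [kf_eq hq a (iv (q * u) m : ℤ) h2]
  unfold kf
  congr 1
  have hq0 : (q : ℝ) ≠ 0 := by
    have : (1 : ℝ) ≤ q := by exact_mod_cast hq
    linarith
  have hu0 : (u : ℝ) ≠ 0 := by
    have : (1 : ℝ) ≤ u := by exact_mod_cast hu
    linarith
  push_cast
  field_simp

private theorem fm_adm {N p1 p2 s k u w M ρ tst : ℕ} {r q : ℤ} (hp : p1.Prime) (he : p1 = u * w)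
    (hs : 1 ≤ s) (hk : 1 ≤ k) (h1 : Nat.Coprime (k * u) (w * s)) (h2 : Nat.Coprime (k * u) p2)
    (h3 : IsCoprime ((k * u : ℕ) : ℤ) r) (hrM : r * q = (M : ℤ)) (hq : ((w * s : ℕ) : ℤ) ∣ q)
    (hwM : w ∣ M) (ha : Adm N p1 p2 r (s * k) (ρ + M * tst)) :
    ∃ n0 ν : ℤ, ∃ ns : ℕ, (∀ t : ℕ, Adm N p1 p2 r (s * k) (ρ + M * t) ↔
        ((N : ℤ) < n0 + ν * t ∧ n0 + ν * t ≤ 2 * N + 1) ∧ Nat.Coprime (ρ + M * t) (k * u)) ∧
      ∀ t : ℕ, Adm N p1 p2 r (s * k) (ρ + M * t) →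
        (nn p1 p2 r (s * k) (ρ + M * t) : ℤ) = n0 + ν * t ∧
        nn p1 p2 r (s * k) (ρ + M * t) ≡ ns [MOD w * s] := by
  have hu1 : 1 ≤ u := by
    rcases Nat.eq_zero_or_pos u with h | h
    · rw [h, zero_mul] at he
      exact absurd hp (by rw [he]; exact Nat.not_prime_zero)
    · exact h
  have hw1 : 1 ≤ w := by
    rcases Nat.eq_zero_or_pos w with h | h
    · rw [h, mul_zero] at he
      exact absurd hp (by rw [he]; exact Nat.not_prime_zero)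
    · exact h
  have hku : 1 ≤ k * u := Nat.mul_pos hk hu1
  have hpk : p1 * (s * k) = w * (s * (k * u)) := by
    rw [he]
    ring
  obtain ⟨a1, a2, a3, a4, a5, a6, a7⟩ := ha
  set ns := nn p1 p2 r (s * k) (ρ + M * tst) with hns
  have hr : ∀ t : ℕ, r * ((ns : ℤ) - (-(p2 : ℤ) * q) * tst + (-(p2 : ℤ) * q) * t) =
      (p1 : ℤ) * (s * k : ℕ) - (p2 : ℤ) * (ρ + M * t : ℕ) := by
    intro t
    have e1 : r * ((ns : ℤ) - (-(p2 : ℤ) * q) * tst + (-(p2 : ℤ) * q) * t) =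
        r * (ns : ℤ) + (p2 : ℤ) * (r * q) * tst - (p2 : ℤ) * (r * q) * t := by ring
    rw [e1, a5, hrM]
    push_cast
    ring
  have hnn : ∀ t : ℕ, 0 ≤ (ns : ℤ) - (-(p2 : ℤ) * q) * tst + (-(p2 : ℤ) * q) * t →
      (nn p1 p2 r (s * k) (ρ + M * t) : ℤ) =
        (ns : ℤ) - (-(p2 : ℤ) * q) * tst + (-(p2 : ℤ) * q) * t := by
    intro t ht
    unfold nn
    rw [← hr t, Int.mul_ediv_cancel_left _ a4]
    exact Int.toNat_of_nonneg ht
  have hmod : ∀ t : ℕ, (nn p1 p2 r (s * k) (ρ + M * t) : ℤ) =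
        (ns : ℤ) - (-(p2 : ℤ) * q) * tst + (-(p2 : ℤ) * q) * t →
      nn p1 p2 r (s * k) (ρ + M * t) ≡ ns [MOD w * s] := by
    intro t ht
    apply (Nat.modEq_iff_dvd.2 _).symm
    rw [ht]
    have e : (ns : ℤ) - (-(p2 : ℤ) * q) * tst + (-(p2 : ℤ) * q) * t - (ns : ℤ) =
        q * ((p2 : ℤ) * tst - (p2 : ℤ) * t) := by ring
    rw [e]
    exact Dvd.dvd.mul_right hq _
  have hval : ∀ t : ℕ, Adm N p1 p2 r (s * k) (ρ + M * t) →
      (nn p1 p2 r (s * k) (ρ + M * t) : ℤ) =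
        (ns : ℤ) - (-(p2 : ℤ) * q) * tst + (-(p2 : ℤ) * q) * t := by
    rintro t ⟨_, _, _, _, b5, _, _⟩
    have e : r * (nn p1 p2 r (s * k) (ρ + M * t) : ℤ) =
        r * ((ns : ℤ) - (-(p2 : ℤ) * q) * tst + (-(p2 : ℤ) * q) * t) := by
      rw [b5, hr t]
    exact mul_left_cancel₀ a4 e
  refine ⟨(ns : ℤ) - (-(p2 : ℤ) * q) * tst, -(p2 : ℤ) * q, ns, fun t => ⟨fun hA => ?_, ?_⟩,
    fun t hA => ⟨hval t hA, hmod t (hval t hA)⟩⟩
  · have hv := hval t hA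
    obtain ⟨b1, b2, b3, b4, b5, b6, b7⟩ := hA
    rw [II, Finset.mem_Ioc] at b6
    refine ⟨⟨by rw [← hv]; exact_mod_cast b6.1, by rw [← hv]; exact_mod_cast b6.2⟩, ?_⟩
    rw [hpk] at b7
    refine (phase (p1 := w) (k := k * u) hw1 hs hku (by omega) ?_ b7 h1 h2 h3 0).1
    rw [b5]
    have e2 : (p1 : ℤ) * ((s * k : ℕ) : ℤ) = (w : ℤ) * ((s * (k * u) : ℕ) : ℤ) := by
      exact_mod_cast hpk
    rw [e2]
  · rintro ⟨⟨c1, c2⟩, c3⟩
    have hv := hnn t (by omega)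
    have hm := hmod t hv
    have hv5 : r * (nn p1 p2 r (s * k) (ρ + M * t) : ℤ) =
        (p1 : ℤ) * (s * k : ℕ) - (p2 : ℤ) * (ρ + M * t : ℕ) := by
      rw [hv, hr t]
    refine ⟨a1, ?_, a3, a4, hv5, ?_, ?_⟩
    · intro hd
      rcases hp.eq_one_or_self_of_dvd u ⟨w, he⟩ with hu | hu
      · have hwp : w = p1 := by rw [he, hu, one_mul]
        apply a2
        have hpM : p1 ∣ M := by rw [← hwp]; exact hwM
        have h4 : p1 ∣ M * t := Dvd.dvd.mul_right hpM t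
        have h5 : p1 ∣ M * tst := Dvd.dvd.mul_right hpM tst
        have h6 : p1 ∣ ρ := (Nat.dvd_add_left h4).1 hd
        exact dvd_add h6 h5
      · have h4 : p1 ∣ k * u := by rw [hu]; exact Dvd.intro_left _ rfl
        exact Nat.not_coprime_of_dvd_of_dvd hp.one_lt hd h4 c3
    · rw [II, Finset.mem_Ioc]
      rw [← hv] at c1 c2
      exact ⟨by exact_mod_cast c1, by exact_mod_cast c2⟩
    · have h4 : Nat.Coprime ns (w * s) := by
        have : p1 * (s * k) = (w * s) * (k * u) := by rw [he]; ring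
        rw [this] at a7
        exact Nat.Coprime.coprime_mul_right_right a7
      have h5 : Nat.Coprime (nn p1 p2 r (s * k) (ρ + M * t)) (w * s) := by
        unfold Nat.Coprime at h4 ⊢
        rw [← h4]
        exact Nat.ModEq.gcd_eq hm
      have h6 : Nat.Coprime (nn p1 p2 r (s * k) (ρ + M * t)) (k * u) := by
        by_contra hne
        obtain ⟨l, hl, hl1, hl2⟩ := Nat.Prime.not_coprime_iff_dvd.1 hne
        have h7 : (l : ℤ) ∣ (p2 : ℤ) * (ρ + M * t : ℕ) := by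
          have e : (p2 : ℤ) * (ρ + M * t : ℕ) = (p1 : ℤ) * (s * k : ℕ) -
              r * (nn p1 p2 r (s * k) (ρ + M * t) : ℤ) := by
            rw [hv5]
            ring
          rw [e]
          apply dvd_sub
          · have h8 : l ∣ p1 * (s * k) := by
              rw [hpk]
              exact Dvd.dvd.mul_left (Dvd.dvd.mul_left hl2 s) w
            exact_mod_cast h8
          · apply Dvd.dvd.mul_left
            exact_mod_cast hl1
        have h8 : l ∣ p2 * (ρ + M * t) := by exact_mod_cast h7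
        rcases (Nat.Prime.dvd_mul hl).1 h8 with h9 | h9
        · exact Nat.not_coprime_of_dvd_of_dvd hl.one_lt hl2 h9 h2
        · exact Nat.not_coprime_of_dvd_of_dvd hl.one_lt h9 hl2 c3
      have : p1 * (s * k) = (w * s) * (k * u) := by rw [he]; ring
      rw [this]
      exact Nat.Coprime.mul_right h5 h6

private theorem fm_gg {N p1 p2 s k u w M ρ t ns : ℕ} {r : ℤ} (he : p1 = u * w) (hu1 : 1 ≤ u)
    (hw1 : 1 ≤ w)
    (hs : 1 ≤ s) (hk : 1 ≤ k) (h1 : Nat.Coprime (k * u) (w * s)) (h2 : Nat.Coprime (k * u) p2)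
    (h3 : IsCoprime ((k * u : ℕ) : ℤ) r) (η : ℤ) (F : ℝ → ℂ) {x : ℝ}
    (hA : Adm N p1 p2 r (s * k) (ρ + M * t))
    (hx : (nn p1 p2 r (s * k) (ρ + M * t) : ℝ) = x)
    (hm : nn p1 p2 r (s * k) (ρ + M * t) ≡ ns [MOD w * s]) :
    gg F η N (p1, p2, r) (s * k) (ρ + M * t) =
      F (((s * k : ℕ) : ℝ) * x) * (starRingEnd ℂ) (F (((ρ + M * t : ℕ) : ℝ) * x)) *
        (ee (cc η (p1, p2, r) (s * k) / x) *
          kf (w * s) (-(η * ((p1 : ℤ) - p2))) (ns * (k * u)) *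
          kf (k * u) (η * ((p1 : ℤ) - p2) * r) (w * p2 * s * (ρ + M * t))) := by
  have hku : 1 ≤ k * u := Nat.mul_pos hk hu1
  have hpk : p1 * (s * k) = w * (s * (k * u)) := by
    rw [he]
    ring
  have hA' := hA
  obtain ⟨b1, b2, b3, b4, b5, b6, b7⟩ := hA'
  rw [II, Finset.mem_Ioc] at b6
  have e2 : (p1 : ℤ) * ((s * k : ℕ) : ℤ) = (w : ℤ) * ((s * (k * u) : ℕ) : ℤ) := by
    exact_mod_cast hpk
  rw [e2] at b5
  rw [hpk] at b7
  have hph := (phase (p1 := w) (k := k * u) hw1 hs hku (by omega) b5 b7 h1 h2 h3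
    (η * ((p1 : ℤ) - p2))).2
  unfold gg
  rw [if_pos hA]
  change F (((s * k : ℕ) : ℝ) * (nn p1 p2 r (s * k) (ρ + M * t) : ℝ)) *
    (starRingEnd ℂ) (F (((ρ + M * t : ℕ) : ℝ) * (nn p1 p2 r (s * k) (ρ + M * t) : ℝ))) *
    kf (nn p1 p2 r (s * k) (ρ + M * t)) (η * ((p1 : ℤ) - p2)) (p1 * (s * k)) = _
  rw [hpk, hph, hx]
  have hkf : kf (w * s) (-(η * ((p1 : ℤ) - p2)))
        (nn p1 p2 r (s * k) (ρ + M * t) * (k * u)) =
      kf (w * s) (-(η * ((p1 : ℤ) - p2))) (ns * (k * u)) :=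
    kf_congr (Nat.mul_pos hw1 hs) (by simp) (Nat.ModEq.mul_right (k * u) hm)
  rw [hkf]
  have hcc : ((η * ((p1 : ℤ) - p2) : ℤ) : ℝ) / ((w : ℝ) * (s * (k * u) : ℕ) * x) =
      cc η (p1, p2, r) (s * k) / x := by
    unfold cc
    rw [div_div]
    have e3 : (w : ℝ) * ((s * (k * u) : ℕ) : ℝ) = (p1 : ℝ) * ((s * k : ℕ) : ℝ) := by
      exact_mod_cast hpk.symm
    rw [e3]
  rw [hcc]

private theorem fm_phase {k s m2 p1 p2 p3 p4 u1 w1 u3 w3 : ℕ} (e1 : p1 = u1 * w1)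
    (e3 : p3 = u3 * w3) (hk : 1 ≤ k) (hu1 : 1 ≤ u1) (hu3 : 1 ≤ u3)
    (hw : Nat.Coprime (k * (u1 * u3)) (w1 * w3)) (hp : Nat.Coprime (k * (u1 * u3)) (p2 * p4))
    (hs : Nat.Coprime (k * (u1 * u3)) s)
    (hm : Nat.Coprime m2 (k * (u1 * u3))) (η r r' : ℤ) :
    kf (k * u1) (η * ((p1 : ℤ) - p2) * r) (w1 * p2 * s * m2) *
        (starRingEnd ℂ) (kf (k * u3) (η * ((p3 : ℤ) - p4) * r') (w3 * p4 * s * m2)) =
      kf (k * (u1 * u3)) (K0 η (p1, p2, r) (p3, p4, r'))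
        (s * (w1 * w3) * (p2 * p4) * m2) := by
  have hq : 1 ≤ k * (u1 * u3) := Nat.mul_pos hk (Nat.mul_pos hu1 hu3)
  have hw1 : Nat.Coprime (k * (u1 * u3)) w1 := Nat.Coprime.coprime_mul_right_right hw
  have hw3 : Nat.Coprime (k * (u1 * u3)) w3 := Nat.Coprime.coprime_mul_left_right hw
  have hp2 : Nat.Coprime (k * (u1 * u3)) p2 := Nat.Coprime.coprime_mul_right_right hp
  have hp4 : Nat.Coprime (k * (u1 * u3)) p4 := Nat.Coprime.coprime_mul_left_right hp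
  have c1 : Nat.Coprime (w1 * p2 * s * m2) (k * (u1 * u3)) :=
    Nat.Coprime.mul_left (Nat.Coprime.mul_left (Nat.Coprime.mul_left hw1.symm hp2.symm) hs.symm) hm
  have c3 : Nat.Coprime (w3 * p4 * s * m2) (k * (u1 * u3)) :=
    Nat.Coprime.mul_left (Nat.Coprime.mul_left (Nat.Coprime.mul_left hw3.symm hp4.symm) hs.symm) hm
  have q1 : k * (u1 * u3) = (k * u1) * u3 := by ring
  have q3 : k * (u1 * u3) = (k * u3) * u1 := by ring
  have f1 : kf (k * u1) (η * ((p1 : ℤ) - p2) * r) (w1 * p2 * s * m2) =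
      kf (k * (u1 * u3)) (η * ((p1 : ℤ) - p2) * r * u3) (w1 * p2 * s * m2) := by
    have c1' := c1
    rw [q1] at c1'
    rw [q1]
    exact (kf_up (k * u1) u3 _ (Nat.mul_pos hk hu1) hu3 _ c1').symm
  have f3 : kf (k * u3) (η * ((p3 : ℤ) - p4) * r') (w3 * p4 * s * m2) =
      kf (k * (u1 * u3)) (η * ((p3 : ℤ) - p4) * r' * u1) (w3 * p4 * s * m2) := by
    have c3' := c3
    rw [q3] at c3'
    rw [q3]
    exact (kf_up (k * u3) u1 _ (Nat.mul_pos hk hu3) hu1 _ c3').symm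
  rw [f1, f3, ← kf_neg,
    ← kf_mul_left hq (η * ((p1 : ℤ) - p2) * r * u3) (Nat.Coprime.mul_left hw3.symm hp4.symm) c1,
    ← kf_mul_left hq (-(η * ((p3 : ℤ) - p4) * r' * u1)) (Nat.Coprime.mul_left hw1.symm hp2.symm) c3]
  have g1 : w3 * p4 * (w1 * p2 * s * m2) = s * (w1 * w3) * (p2 * p4) * m2 := by ring
  have g2 : w1 * p2 * (w3 * p4 * s * m2) = s * (w1 * w3) * (p2 * p4) * m2 := by ring
  rw [g1, g2, ← kf_add]
  congr 1
  unfold K0
  rw [e1, e3]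
  push_cast
  ring

open Classical in
theorem cls_formula7 (N : ℕ) (hN : 1 ≤ N) (η : ℤ) (F : ℝ → ℂ) (τ τ' : ℕ × ℕ × ℤ)
    (h1 : τ.1.Prime) (h2 : τ.2.1.Prime) (h3 : τ'.1.Prime) (h4 : τ'.2.1.Prime)
    (s k u1 w1 u3 w3 : ℕ) (hs : 1 ≤ s) (hk : 1 ≤ k) (hm : s * k ∈ II N)
    (e1 : τ.1 = u1 * w1) (e3 : τ'.1 = u3 * w3)
    (hcop : Nat.Coprime (k * (u1 * u3))
      (τ.2.2.natAbs * τ'.2.2.natAbs * (τ.2.1 * τ'.2.1) * (s * (w1 * w3))))
    (ρ tst : ℕ) (ha : Adm N τ.1 τ.2.1 τ.2.2 (s * k) (ρ + M7 τ τ' s (w1 * w3) * tst))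
    (ha' : Adm N τ'.1 τ'.2.1 τ'.2.2 (s * k) (ρ + M7 τ τ' s (w1 * w3) * tst)) :
    ∃ c : ℂ, ‖c‖ = 1 ∧ ∃ n0 ν n1 ν' : ℤ, ∀ t : ℕ, ρ + M7 τ τ' s (w1 * w3) * t ∈ II N →
      gg F η N τ (s * k) (ρ + M7 τ τ' s (w1 * w3) * t) *
          (starRingEnd ℂ) (gg F η N τ' (s * k) (ρ + M7 τ τ' s (w1 * w3) * t)) =
        if ((N : ℤ) < n0 + ν * t ∧ n0 + ν * t ≤ 2 * N + 1) ∧
            ((N : ℤ) < n1 + ν' * t ∧ n1 + ν' * t ≤ 2 * N + 1) ∧
            Nat.Coprime (ρ + M7 τ τ' s (w1 * w3) * t) (k * (u1 * u3)) then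
          c * GG F ((s * k : ℕ) : ℝ) (cc η τ (s * k)) (cc η τ' (s * k))
              ((ρ : ℝ) + (M7 τ τ' s (w1 * w3) : ℝ) * t) ((n0 : ℝ) + (ν : ℝ) * t)
              ((n1 : ℝ) + (ν' : ℝ) * t) *
            kf (k * (u1 * u3)) (K0 η τ τ')
              (s * (w1 * w3) * (τ.2.1 * τ'.2.1) * (ρ + M7 τ τ' s (w1 * w3) * t))
        else 0 := by
  obtain ⟨p1, p2, r⟩ := τ
  obtain ⟨p3, p4, r'⟩ := τ'
  change Nat.Prime p1 at h1
  change Nat.Prime p2 at h2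
  change Nat.Prime p3 at h3
  change Nat.Prime p4 at h4
  change p1 = u1 * w1 at e1
  change p3 = u3 * w3 at e3
  change Nat.Coprime (k * (u1 * u3)) (r.natAbs * r'.natAbs * (p2 * p4) * (s * (w1 * w3))) at hcop
  set M := M7 (p1, p2, r) (p3, p4, r') s (w1 * w3) with hM
  change Adm N p1 p2 r (s * k) (ρ + M * tst) at ha
  change Adm N p3 p4 r' (s * k) (ρ + M * tst) at ha'
  have hMdef : M = Nat.lcm r.natAbs r'.natAbs * (s * (w1 * w3)) := rfl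
  have hpos : ∀ {p u w : ℕ}, p.Prime → p = u * w → 1 ≤ u ∧ 1 ≤ w := by
    intro p u w hp he
    have h0 := hp.pos
    rw [he] at h0
    exact ⟨Nat.pos_of_mul_pos_right h0, Nat.pos_of_mul_pos_left h0⟩
  obtain ⟨hu1, hw1⟩ := hpos h1 e1
  obtain ⟨hu3, hw3⟩ := hpos h3 e3
  set Q := k * (u1 * u3) with hQ
  have hQsw : Nat.Coprime Q (s * (w1 * w3)) := Nat.Coprime.coprime_mul_left_right hcop
  have hQs : Nat.Coprime Q s := Nat.Coprime.coprime_mul_right_right hQsw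
  have hQw : Nat.Coprime Q (w1 * w3) := Nat.Coprime.coprime_mul_left_right hQsw
  have hQw1 : Nat.Coprime Q w1 := Nat.Coprime.coprime_mul_right_right hQw
  have hQw3 : Nat.Coprime Q w3 := Nat.Coprime.coprime_mul_left_right hQw
  have hQA : Nat.Coprime Q (r.natAbs * r'.natAbs * (p2 * p4)) :=
    Nat.Coprime.coprime_mul_right_right hcop
  have hQP : Nat.Coprime Q (p2 * p4) := Nat.Coprime.coprime_mul_left_right hQA
  have hQR : Nat.Coprime Q (r.natAbs * r'.natAbs) := Nat.Coprime.coprime_mul_right_right hQA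
  have hQ2 : Nat.Coprime Q p2 := Nat.Coprime.coprime_mul_right_right hQP
  have hQ4 : Nat.Coprime Q p4 := Nat.Coprime.coprime_mul_left_right hQP
  have hQr : Nat.Coprime Q r.natAbs := Nat.Coprime.coprime_mul_right_right hQR
  have hQr' : Nat.Coprime Q r'.natAbs := Nat.Coprime.coprime_mul_left_right hQR
  have d1 : k * u1 ∣ Q := ⟨u3, by rw [hQ]; ring⟩
  have d3 : k * u3 ∣ Q := ⟨u1, by rw [hQ]; ring⟩
  have hkr : IsCoprime ((k * u1 : ℕ) : ℤ) r := by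
    rw [Int.isCoprime_iff_gcd_eq_one]
    have h5 : Nat.Coprime (k * u1) r.natAbs := hQr.coprime_dvd_left d1
    exact h5
  have hkr' : IsCoprime ((k * u3 : ℕ) : ℤ) r' := by
    rw [Int.isCoprime_iff_gcd_eq_one]
    have h5 : Nat.Coprime (k * u3) r'.natAbs := hQr'.coprime_dvd_left d3
    exact h5
  have hq : ∀ {a : ℤ} {p : ℕ}, a.natAbs ∣ Nat.lcm r.natAbs r'.natAbs → p ∣ w1 * w3 →
      ∃ q : ℤ, a * q = (M : ℤ) ∧ ((p * s : ℕ) : ℤ) ∣ q ∧ p ∣ M := by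
    intro a p ha1 hp
    have h5 : a ∣ (Nat.lcm r.natAbs r'.natAbs : ℤ) := Int.natAbs_dvd_natAbs.1 (by simpa using ha1)
    obtain ⟨b, hb⟩ := h5
    obtain ⟨c, hc⟩ := hp
    refine ⟨b * (s * (w1 * w3) : ℕ), ?_, ?_, ?_⟩
    · rw [← mul_assoc, ← hb, hMdef]
      push_cast
      ring
    · apply Dvd.dvd.mul_left
      rw [hc]
      exact_mod_cast (⟨c, by ring⟩ : p * s ∣ s * (p * c))
    · rw [hMdef, hc]
      exact ⟨Nat.lcm r.natAbs r'.natAbs * (s * c), by ring⟩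
  obtain ⟨q, hq1, hq2, hq3⟩ := hq (a := r) (p := w1) (Nat.dvd_lcm_left _ _) (Dvd.intro _ rfl)
  obtain ⟨q', hq1', hq2', hq3'⟩ := hq (a := r') (p := w3) (Nat.dvd_lcm_right _ _)
    (Dvd.intro_left _ rfl)
  have k1 : Nat.Coprime (k * u1) (w1 * s) :=
    (Nat.Coprime.mul_right hQw1 hQs).coprime_dvd_left d1
  have k3 : Nat.Coprime (k * u3) (w3 * s) :=
    (Nat.Coprime.mul_right hQw3 hQs).coprime_dvd_left d3
  have k2 : Nat.Coprime (k * u1) p2 := hQ2.coprime_dvd_left d1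
  have k4 : Nat.Coprime (k * u3) p4 := hQ4.coprime_dvd_left d3
  obtain ⟨n0, ν, ns, hadm, hval⟩ := fm_adm h1 e1 hs hk k1 k2 hkr hq1 hq2 hq3 ha
  obtain ⟨n1, ν', ns', hadm', hval'⟩ := fm_adm h3 e3 hs hk k3 k4 hkr' hq1' hq2' hq3' ha'
  refine ⟨kf (w1 * s) (-(η * ((p1 : ℤ) - p2))) (ns * (k * u1)) *
    (starRingEnd ℂ) (kf (w3 * s) (-(η * ((p3 : ℤ) - p4))) (ns' * (k * u3))), ?_,
    n0, ν, n1, ν', ?_⟩
  · rw [norm_mul, RCLike.norm_conj, norm_kf, norm_kf, one_mul]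
  intro t _
  split_ifs with hif
  · obtain ⟨hi1, hi2, hi3⟩ := hif
    have hi31 : Nat.Coprime (ρ + M * t) (k * u1) := hi3.coprime_dvd_right d1
    have hi33 : Nat.Coprime (ρ + M * t) (k * u3) := hi3.coprime_dvd_right d3
    have hA := (hadm t).2 ⟨hi1, hi31⟩
    have hA' := (hadm' t).2 ⟨hi2, hi33⟩
    obtain ⟨v1, v2⟩ := hval t hA
    obtain ⟨v1', v2'⟩ := hval' t hA'
    have hx : (nn p1 p2 r (s * k) (ρ + M * t) : ℝ) = (n0 : ℝ) + (ν : ℝ) * t := by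
      exact_mod_cast v1
    have hx' : (nn p3 p4 r' (s * k) (ρ + M * t) : ℝ) = (n1 : ℝ) + (ν' : ℝ) * t := by
      exact_mod_cast v1'
    have g1 := fm_gg e1 hu1 hw1 hs hk k1 k2 hkr η F hA hx v2
    have g2 := fm_gg e3 hu3 hw3 hs hk k3 k4 hkr' η F hA' hx' v2'
    have hph2 := fm_phase e1 e3 hk hu1 hu3 hQw hQP hQs hi3 η r r'
    rw [g1, g2]
    change _ = _ * GG F _ _ _ _ _ _ * kf (k * (u1 * u3)) (K0 η (p1, p2, r) (p3, p4, r'))
      (s * (w1 * w3) * (p2 * p4) * (ρ + M * t))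
    rw [← hph2]
    unfold GG
    simp only [map_mul, Complex.conj_conj]
    push_cast
    ring
  · by_cases hA : Adm N p1 p2 r (s * k) (ρ + M * t)
    · by_cases hA' : Adm N p3 p4 r' (s * k) (ρ + M * t)
      · exfalso
        refine hif ⟨((hadm t).1 hA).1, ((hadm' t).1 hA').1, ?_⟩
        have c1 := ((hadm t).1 hA).2
        have c3 := ((hadm' t).1 hA').2
        have c5 : Nat.Coprime (ρ + M * t) u3 := Nat.Coprime.coprime_mul_left_right c3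
        have c6 := Nat.Coprime.mul_right c1 c5
        have e5 : Q = k * u1 * u3 := by rw [hQ]; ring
        rw [e5]
        exact c6
      · have : gg F η N (p3, p4, r') (s * k) (ρ + M * t) = 0 := by
          unfold gg
          exact if_neg hA'
        rw [this, map_zero, mul_zero]
    · have : gg F η N (p1, p2, r) (s * k) (ρ + M * t) = 0 := by
        unfold gg
        exact if_neg hA
      rw [this, zero_mul]

end Pool.Agent.H35.WL
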