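import Mathlib

/-!
# WL-Ga: two facts for Stepanov's method

`sq_contra`: a squarefree nonconstant polynomial is not a constant times a square in `K(X)`: if
`a² = c F b²`, `b ≠ 0`, take `b` of least degree: `F ∣ a²`, so `F ∣ a` (`Squarefree.dvd_pow_iff_dvd`),
`a = F a'`, `F a'² = c b²`, so `F ∣ b`, `b = F b'`, `a'² = c F b'²`, contradiction.

`frob_mod`: `F^(Q+1) = C (F(0)^Q) * F + X^Q * G` for some `G`: `F^Q - C (F(0)^Q) = (F - C F(0))^Q`
(`Q = p^m`, `sub_pow_char_pow`) and `X ∣ F - C (F(0))`.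
-/

set_option autoImplicit false

namespace Pool.Agent.H35.WL

open Finset Polynomial

theorem sq_contra {K : Type*} [Field K] (F a b : K[X]) (c : K) (hc : c ≠ 0) (hF : Squarefree F)
    (hd : 1 ≤ F.natDegree) (hb : b ≠ 0) : a ^ 2 ≠ C c * F * b ^ 2 := by
  have hF0 : F ≠ 0 := by
    rintro rfl
    simp at hd
  have key : ∀ n : ℕ, ∀ a b : K[X], b ≠ 0 → b.natDegree ≤ n → a ^ 2 ≠ C c * F * b ^ 2 := by
    intro n
    induction n with
    | zero =>
      intro a b hb hn h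
      have h1 : F ∣ a ^ 2 := ⟨C c * b ^ 2, by rw [h]; ring⟩
      have h2 : F ∣ a := (hF.dvd_pow_iff_dvd two_ne_zero).1 h1
      obtain ⟨a', rfl⟩ := h2
      have h3 : F * a' ^ 2 = C c * b ^ 2 := by
        apply mul_left_cancel₀ hF0
        linear_combination h
      have h4 : F ∣ b ^ 2 := by
        refine ⟨C c⁻¹ * a' ^ 2, ?_⟩
        have h5 : (C c⁻¹ * C c : K[X]) = 1 := by
          rw [← C_mul, inv_mul_cancel₀ hc, C_1]
        linear_combination (-(b ^ 2)) * h5 - C c⁻¹ * h3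
      have h6 : F ∣ b := (hF.dvd_pow_iff_dvd two_ne_zero).1 h4
      have h7 := natDegree_le_of_dvd h6 hb
      omega
    | succ n ih =>
      intro a b hb hn h
      have h1 : F ∣ a ^ 2 := ⟨C c * b ^ 2, by rw [h]; ring⟩
      have h2 : F ∣ a := (hF.dvd_pow_iff_dvd two_ne_zero).1 h1
      obtain ⟨a', rfl⟩ := h2
      have h3 : F * a' ^ 2 = C c * b ^ 2 := by
        apply mul_left_cancel₀ hF0
        linear_combination h
      have h4 : F ∣ b ^ 2 := by
        refine ⟨C c⁻¹ * a' ^ 2, ?_⟩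
        have h5 : (C c⁻¹ * C c : K[X]) = 1 := by
          rw [← C_mul, inv_mul_cancel₀ hc, C_1]
        linear_combination (-(b ^ 2)) * h5 - C c⁻¹ * h3
      have h6 : F ∣ b := (hF.dvd_pow_iff_dvd two_ne_zero).1 h4
      obtain ⟨b', rfl⟩ := h6
      have hb' : b' ≠ 0 := by
        rintro rfl
        simp at hb
      have h7 : a' ^ 2 = C c * F * b' ^ 2 := by
        apply mul_left_cancel₀ hF0
        linear_combination h3
      have h8 : (F * b').natDegree = F.natDegree + b'.natDegree := natDegree_mul hF0 hb'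
      exact ih a' b' hb' (by omega) h7
  exact key b.natDegree a b hb le_rfl

theorem frob_mod {K : Type*} [Field K] (p m : ℕ) [Fact p.Prime] [CharP K p] (F : K[X]) :
    ∃ G : K[X], F ^ (p ^ m + 1) = C (F.eval 0 ^ (p ^ m)) * F + X ^ (p ^ m) * G := by
  obtain ⟨H, hH⟩ : (X : K[X]) ∣ F - C (F.eval 0) := by
    rw [← coeff_zero_eq_eval_zero]
    exact X_dvd_sub_C
  have h1 : (F - C (F.eval 0)) ^ p ^ m = F ^ p ^ m - C (F.eval 0) ^ p ^ m :=
    sub_pow_char_pow ..
  refine ⟨H ^ p ^ m * F, ?_⟩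
  have h2 : F ^ p ^ m = C (F.eval 0 ^ p ^ m) + X ^ p ^ m * H ^ p ^ m := by
    rw [← mul_pow, ← hH, h1, C_pow]
    ring
  rw [pow_succ, h2]
  ring

end Pool.Agent.H35.WL
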