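import Pool.Agent.H35.WL.Ga

/-!
# WL-Gb: Stepanov's auxiliary polynomial is not zero

`Q = p^m = 2A + 1`, `F` squarefree of degree `2h`, `1 ≤ h ≤ A`, `F(0) ≠ 0`.  If
`∑ a_j X^{jQ} = - F^{(Q+1)/2} ∑ b_j X^{jQ}`, square it:
`(∑ a_j X^{jQ})² = F^{Q+1} (∑ b_j X^{jQ})²`.  Let `k` be minimal with `a_k ≠ 0` or `b_k ≠ 0`; divide by
`X^{2kQ}` and reduce modulo `X^Q` with `frob_mod`: `a_k² ≡ F(0)^Q F b_k² mod X^Q`; both sides have
degree `≤ 2A < Q` (`2 (A - h) + 2h = 2A`), so they are equal.  `b_k = 0` gives `a_k = 0`; otherwise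
contradiction to `sq_contra`.
-/

set_option autoImplicit false

namespace Pool.Agent.H35.WL

open Finset Polynomial

private theorem low_term {E : Type*} [Field E] (Q N k : ℕ) (c : ℕ → E[X])
    (hz : ∀ j < k, j < N → c j = 0) :
    ∃ R : E[X], ∑ j ∈ range N, c j * X ^ (j * Q) =
      X ^ (k * Q) * ((if k < N then c k else 0) + X ^ Q * R) := by
  have hdv : ∀ s : Finset ℕ, s ⊆ range N → k ∉ s →
      (X : E[X]) ^ (k * Q + Q) ∣ ∑ j ∈ s, c j * X ^ (j * Q) := by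
    intro s hs hk
    apply Finset.dvd_sum
    intro j hj
    have hjN : j < N := mem_range.mp (hs hj)
    rcases lt_trichotomy j k with hlt | heq | hgt
    · rw [hz j hlt hjN]; simp
    · exact absurd (heq ▸ hj) hk
    · refine Dvd.dvd.mul_left (pow_dvd_pow _ ?_) _
      calc k * Q + Q = (k + 1) * Q := by ring
        _ ≤ j * Q := Nat.mul_le_mul_right Q hgt
  by_cases hkN : k < N
  · have hmem : k ∈ range N := mem_range.mpr hkN
    obtain ⟨R, hR⟩ := hdv ((range N).erase k) (erase_subset _ _) (notMem_erase _ _)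
    refine ⟨R, ?_⟩
    rw [← add_sum_erase _ _ hmem, hR, if_pos hkN, pow_add]
    ring
  · have hnm : k ∉ range N := fun h => hkN (mem_range.mp h)
    obtain ⟨R, hR⟩ := hdv (range N) (Subset.refl _) hnm
    refine ⟨R, ?_⟩
    rw [hR, if_neg hkN, pow_add]
    ring

theorem g_ne_zero {E : Type*} [Field E] (p m : ℕ) [Fact p.Prime] [CharP E p] (Q A h : ℕ)
    (hQ : Q = p ^ m) (hA : 2 * A + 1 = Q) (h1 : 1 ≤ h) (hh : h ≤ A) (F : E[X])
    (hF : Squarefree F) (hFd : F.natDegree = 2 * h) (hF0 : F.eval 0 ≠ 0) (a b : ℕ → E[X])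
    (ha : ∀ j, (a j).natDegree ≤ A) (hb : ∀ j, (b j).natDegree ≤ A - h)
    (hne : (∃ j ≤ A + h, a j ≠ 0) ∨ (∃ j ≤ A, b j ≠ 0)) :
    ∑ j ∈ range (A + h + 1), a j * X ^ (j * Q) +
      F ^ ((Q + 1) / 2) * ∑ j ∈ range (A + 1), b j * X ^ (j * Q) ≠ 0 := by
  classical
  intro heq
  have hex : ∃ k, (k ≤ A + h ∧ a k ≠ 0) ∨ (k ≤ A ∧ b k ≠ 0) := by
    rcases hne with ⟨j, hj, hj'⟩ | ⟨j, hj, hj'⟩
    · exact ⟨j, Or.inl ⟨hj, hj'⟩⟩
    · exact ⟨j, Or.inr ⟨hj, hj'⟩⟩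
  obtain ⟨k, hk, hmin⟩ : ∃ k, ((k ≤ A + h ∧ a k ≠ 0) ∨ (k ≤ A ∧ b k ≠ 0)) ∧
      ∀ j < k, ¬ ((j ≤ A + h ∧ a j ≠ 0) ∨ (j ≤ A ∧ b j ≠ 0)) :=
    ⟨Nat.find hex, Nat.find_spec hex, fun j hj => Nat.find_min hex hj⟩
  obtain ⟨Ra, hRa⟩ := low_term Q (A + h + 1) k a (by
    intro j hj hjN
    by_contra hne'
    exact hmin j hj (Or.inl ⟨by omega, hne'⟩))
  obtain ⟨Rb, hRb⟩ := low_term Q (A + 1) k b (by
    intro j hj hjN
    by_contra hne'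
    exact hmin j hj (Or.inr ⟨by omega, hne'⟩))
  obtain ⟨a', ha'⟩ : ∃ a' : E[X], a' = if k < A + h + 1 then a k else 0 := ⟨_, rfl⟩
  obtain ⟨b', hb'⟩ : ∃ b' : E[X], b' = if k < A + 1 then b k else 0 := ⟨_, rfl⟩
  rw [← ha'] at hRa
  rw [← hb'] at hRb
  have had : a'.natDegree ≤ A := by
    rw [ha']; split_ifs
    · exact ha k
    · simp
  have hbd : b'.natDegree ≤ A - h := by
    rw [hb']; split_ifs
    · exact hb k
    · simp
  have hab : a' ≠ 0 ∨ b' ≠ 0 := by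
    rcases hk with ⟨h2, h3⟩ | ⟨h2, h3⟩
    · left; rw [ha', if_pos (by omega)]; exact h3
    · right; rw [hb', if_pos (by omega)]; exact h3
  obtain ⟨G, hG⟩ := frob_mod p m F
  rw [← hQ] at hG
  have hQ2 : (Q + 1) / 2 = A + 1 := by omega
  have hpow : (F ^ ((Q + 1) / 2)) ^ 2 = F ^ (Q + 1) := by
    rw [hQ2, ← pow_mul]
    congr 1
    omega
  have hsq : (X ^ (k * Q) * (a' + X ^ Q * Ra)) ^ 2 =
      F ^ (Q + 1) * (X ^ (k * Q) * (b' + X ^ Q * Rb)) ^ 2 := by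
    rw [hRa, hRb] at heq
    have h5 : X ^ (k * Q) * (a' + X ^ Q * Ra) =
        -(F ^ ((Q + 1) / 2) * (X ^ (k * Q) * (b' + X ^ Q * Rb))) := eq_neg_of_add_eq_zero_left heq
    rw [h5, neg_sq, mul_pow, hpow]
  have hX : (X ^ (k * Q) : E[X]) ^ 2 ≠ 0 := pow_ne_zero _ (pow_ne_zero _ X_ne_zero)
  have hsq2 : (a' + X ^ Q * Ra) ^ 2 = F ^ (Q + 1) * (b' + X ^ Q * Rb) ^ 2 := by
    apply mul_left_cancel₀ hX
    calc (X ^ (k * Q)) ^ 2 * (a' + X ^ Q * Ra) ^ 2 = (X ^ (k * Q) * (a' + X ^ Q * Ra)) ^ 2 := by ring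
      _ = F ^ (Q + 1) * (X ^ (k * Q) * (b' + X ^ Q * Rb)) ^ 2 := hsq
      _ = _ := by ring
  have hdvd : (X : E[X]) ^ Q ∣ a' ^ 2 - C (F.eval 0 ^ Q) * F * b' ^ 2 := by
    refine ⟨(G * b' ^ 2 + F ^ (Q + 1) * (2 * b' * Rb + X ^ Q * Rb ^ 2)) -
      (2 * a' * Ra + X ^ Q * Ra ^ 2), ?_⟩
    have h6 : a' ^ 2 = F ^ (Q + 1) * (b' + X ^ Q * Rb) ^ 2 - X ^ Q * (2 * a' * Ra + X ^ Q * Ra ^ 2) := by
      rw [← hsq2]; ring
    have h7 : F ^ (Q + 1) * (b' + X ^ Q * Rb) ^ 2 =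
        F ^ (Q + 1) * b' ^ 2 + X ^ Q * (F ^ (Q + 1) * (2 * b' * Rb + X ^ Q * Rb ^ 2)) := by ring
    have h8 : F ^ (Q + 1) * b' ^ 2 = C (F.eval 0 ^ Q) * F * b' ^ 2 + X ^ Q * (G * b' ^ 2) := by
      rw [hG]; ring
    rw [h6, h7, h8]
    ring
  have hzero : a' ^ 2 - C (F.eval 0 ^ Q) * F * b' ^ 2 = 0 := by
    apply eq_zero_of_dvd_of_natDegree_lt hdvd
    rw [natDegree_X_pow]
    have e1 : (a' ^ 2).natDegree ≤ 2 * A := by
      calc (a' ^ 2).natDegree ≤ 2 * a'.natDegree := natDegree_pow_le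
        _ ≤ 2 * A := Nat.mul_le_mul_left 2 had
    have e2 : (C (F.eval 0 ^ Q) * F * b' ^ 2).natDegree ≤ 2 * A := by
      calc (C (F.eval 0 ^ Q) * F * b' ^ 2).natDegree
          ≤ (C (F.eval 0 ^ Q) * F).natDegree + (b' ^ 2).natDegree := natDegree_mul_le
        _ ≤ F.natDegree + 2 * b'.natDegree :=
            add_le_add (natDegree_C_mul_le _ _) natDegree_pow_le
        _ ≤ 2 * h + 2 * (A - h) := by rw [hFd]; exact Nat.add_le_add_left (Nat.mul_le_mul_left 2 hbd) _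
        _ = 2 * A := by omega
    have e3 := natDegree_sub_le (a' ^ 2) (C (F.eval 0 ^ Q) * F * b' ^ 2)
    have e4 : max (a' ^ 2).natDegree (C (F.eval 0 ^ Q) * F * b' ^ 2).natDegree ≤ 2 * A :=
      max_le e1 e2
    omega
  have hfin : a' ^ 2 = C (F.eval 0 ^ Q) * F * b' ^ 2 := sub_eq_zero.mp hzero
  by_cases hbz : b' = 0
  · rw [hbz] at hfin
    have : a' = 0 := by
      apply pow_eq_zero_iff (n := 2) (by norm_num) |>.mp
      rw [hfin]; ring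
    rcases hab with h9 | h9
    · exact h9 this
    · exact h9 hbz
  · exact sq_contra F a' b' (F.eval 0 ^ Q) (pow_ne_zero _ hF0) hF (by omega) hbz hfin

end Pool.Agent.H35.WL
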