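import Mathlib

/-!
# WL-Gc: the pigeonhole principle in Stepanov's method

The map `(a_j)_{j ≤ A+h}, (b_j)_{j ≤ A} ↦ ∑ a_j^Q X^j + F^{(Q+1)/2} ∑ b_j^Q X^j` is additive
(`add_pow_char_pow`, `Q = p^m`).  Domain: `deg a_j ≤ A`, `deg b_j ≤ A - h`, i.e.
`q^{(A+h+1)(A+1) + (A+1)(A-h+1)} = q^{2(A+1)²}` elements, `q = #E`.  Values: polynomials of degree
`≤ AQ + A + h` (`h (Q+1) + (A-h) Q + A = AQ + A + h`), i.e. `q^{AQ+A+h+1}` elements, and
`A(2A+1) + A + h + 1 = 2A² + 2A + h + 1 < 2 (A+1)²`.  Two different elements with the same value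
(`Fintype.exists_ne_map_eq_of_card_lt`, with coefficient vectors `Fin _ → E`); take the difference.
-/

set_option autoImplicit false

namespace Pool.Agent.H35.WL

open Finset Polynomial

private noncomputable def gcPl {E : Type*} [Field E] (n : ℕ) (c : Fin n → E) : E[X] :=
  ∑ i : Fin n, C (c i) * X ^ (i : ℕ)

private theorem gcPl_sub {E : Type*} [Field E] (n : ℕ) (c d : Fin n → E) :
    gcPl n (c - d) = gcPl n c - gcPl n d := by
  unfold gcPl
  rw [← Finset.sum_sub_distrib]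
  apply Finset.sum_congr rfl
  intro i _
  rw [Pi.sub_apply, C_sub, sub_mul]

private theorem gcPl_deg {E : Type*} [Field E] (n : ℕ) (c : Fin (n + 1) → E) :
    (gcPl (n + 1) c).natDegree ≤ n := by
  unfold gcPl
  apply Polynomial.natDegree_sum_le_of_forall_le
  intro i _
  refine (Polynomial.natDegree_C_mul_X_pow_le _ _).trans ?_
  exact Nat.lt_succ_iff.1 i.2

private theorem gcPl_coeff {E : Type*} [Field E] (n : ℕ) (c : Fin n → E) (i : Fin n) :
    (gcPl n c).coeff i = c i := by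
  unfold gcPl
  rw [Polynomial.finsetSum_coeff]
  rw [Finset.sum_eq_single i]
  · simp
  · intro j _ hj
    rw [Polynomial.coeff_C_mul, Polynomial.coeff_X_pow, if_neg, mul_zero]
    intro h
    exact hj (Fin.ext h.symm)
  · intro h
    exact absurd (Finset.mem_univ i) h

private noncomputable def gcG {E : Type*} [Field E] (F : E[X]) (Q A h d : ℕ)
    (t : (Fin (A + h + 1) → Fin (A + 1) → E) × (Fin (A + 1) → Fin (d + 1) → E)) : E[X] :=
  ∑ j : Fin (A + h + 1), gcPl (A + 1) (t.1 j) ^ Q * X ^ (j : ℕ) +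
    F ^ ((Q + 1) / 2) * ∑ j : Fin (A + 1), gcPl (d + 1) (t.2 j) ^ Q * X ^ (j : ℕ)

private theorem gcG_sub {E : Type*} [Field E] (p m : ℕ) [Fact p.Prime] [CharP E p] (F : E[X])
    (Q A h d : ℕ) (hQ : Q = p ^ m)
    (t s : (Fin (A + h + 1) → Fin (A + 1) → E) × (Fin (A + 1) → Fin (d + 1) → E)) :
    gcG F Q A h d (t - s) = gcG F Q A h d t - gcG F Q A h d s := by
  unfold gcG
  subst hQ
  have e1 : ∀ j, gcPl (A + 1) ((t - s).1 j) ^ p ^ m * X ^ (j : ℕ) =
      gcPl (A + 1) (t.1 j) ^ p ^ m * X ^ (j : ℕ) - gcPl (A + 1) (s.1 j) ^ p ^ m * X ^ (j : ℕ) := by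
    intro j
    rw [Prod.fst_sub, Pi.sub_apply, gcPl_sub, sub_pow_char_pow, sub_mul]
  have e2 : ∀ j, gcPl (d + 1) ((t - s).2 j) ^ p ^ m * X ^ (j : ℕ) =
      gcPl (d + 1) (t.2 j) ^ p ^ m * X ^ (j : ℕ) - gcPl (d + 1) (s.2 j) ^ p ^ m * X ^ (j : ℕ) := by
    intro j
    rw [Prod.snd_sub, Pi.sub_apply, gcPl_sub, sub_pow_char_pow, sub_mul]
  simp only [e1, e2]
  rw [Finset.sum_sub_distrib, Finset.sum_sub_distrib]
  ring

private theorem gcG_deg {E : Type*} [Field E] (F : E[X]) (Q A h d : ℕ) (hA : 2 * A + 1 = Q)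
    (hd : A = h + d) (hFd : F.natDegree = 2 * h)
    (t : (Fin (A + h + 1) → Fin (A + 1) → E) × (Fin (A + 1) → Fin (d + 1) → E)) :
    (gcG F Q A h d t).natDegree ≤ A * Q + A + h := by
  unfold gcG
  have hQ2 : (Q + 1) / 2 = A + 1 := by omega
  refine (Polynomial.natDegree_add_le _ _).trans (max_le ?_ ?_)
  · apply Polynomial.natDegree_sum_le_of_forall_le
    intro j _
    refine (Polynomial.natDegree_mul_le).trans ?_
    have h1 : (gcPl (A + 1) (t.1 j) ^ Q).natDegree ≤ Q * A :=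
      Polynomial.natDegree_pow_le_of_le Q (gcPl_deg A _)
    have h2 : (X ^ (j : ℕ) : E[X]).natDegree ≤ A + h := by
      rw [Polynomial.natDegree_X_pow]
      exact Nat.lt_succ_iff.1 j.2
    nlinarith
  · refine (Polynomial.natDegree_mul_le).trans ?_
    have h0 : (F ^ ((Q + 1) / 2)).natDegree ≤ (A + 1) * (2 * h) := by
      rw [hQ2]
      exact Polynomial.natDegree_pow_le_of_le (A + 1) hFd.le
    have h3 : (∑ j : Fin (A + 1), gcPl (d + 1) (t.2 j) ^ Q * X ^ (j : ℕ)).natDegree ≤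
        Q * d + A := by
      apply Polynomial.natDegree_sum_le_of_forall_le
      intro j _
      refine (Polynomial.natDegree_mul_le).trans ?_
      have h1 : (gcPl (d + 1) (t.2 j) ^ Q).natDegree ≤ Q * d :=
        Polynomial.natDegree_pow_le_of_le Q (gcPl_deg d _)
      have h2 : (X ^ (j : ℕ) : E[X]).natDegree ≤ A := by
        rw [Polynomial.natDegree_X_pow]
        exact Nat.lt_succ_iff.1 j.2
      omega
    refine (Nat.add_le_add h0 h3).trans (le_of_eq ?_)
    subst hA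
    subst hd
    ring

theorem exists_ab {E : Type*} [Field E] [Fintype E] (p m : ℕ) [Fact p.Prime] [CharP E p]
    (Q A h : ℕ) (hQ : Q = p ^ m) (hA : 2 * A + 1 = Q) (h1 : 1 ≤ h) (hh : h ≤ A) (F : E[X])
    (hFd : F.natDegree = 2 * h) :
    ∃ a b : ℕ → E[X], (∀ j, (a j).natDegree ≤ A) ∧ (∀ j, (b j).natDegree ≤ A - h) ∧
      ((∃ j ≤ A + h, a j ≠ 0) ∨ (∃ j ≤ A, b j ≠ 0)) ∧
      ∑ j ∈ range (A + h + 1), a j ^ Q * X ^ j +
        F ^ ((Q + 1) / 2) * ∑ j ∈ range (A + 1), b j ^ Q * X ^ j = 0 := by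
  classical
  obtain ⟨d, hd⟩ : ∃ d, A = h + d := ⟨A - h, by omega⟩
  have hAd : A - h = d := by omega
  rw [hAd]
  have hcard : Fintype.card (Fin (A * Q + A + h + 1) → E) <
      Fintype.card ((Fin (A + h + 1) → Fin (A + 1) → E) × (Fin (A + 1) → Fin (d + 1) → E)) := by
    simp only [Fintype.card_prod, Fintype.card_fun, Fintype.card_fin]
    rw [← pow_mul, ← pow_mul, ← pow_add]
    apply Nat.pow_lt_pow_right Fintype.one_lt_card
    subst hA
    subst hd
    nlinarith
  obtain ⟨t, s, hts, he⟩ := Fintype.exists_ne_map_eq_of_card_lt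
    (fun t : (Fin (A + h + 1) → Fin (A + 1) → E) × (Fin (A + 1) → Fin (d + 1) → E) =>
      (fun i : Fin (A * Q + A + h + 1) => (gcG F Q A h d t).coeff i)) hcard
  have hz : gcG F Q A h d (t - s) = 0 := by
    have hdeg := gcG_deg F Q A h d hA hd hFd (t - s)
    ext n
    rw [Polynomial.coeff_zero]
    by_cases hn : n < A * Q + A + h + 1
    · have := congrFun he ⟨n, hn⟩
      simp only at this
      rw [gcG_sub p m F Q A h d hQ, Polynomial.coeff_sub, this, sub_self]
    · exact Polynomial.coeff_eq_zero_of_natDegree_lt (by omega)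
  have hts' : t - s ≠ 0 := sub_ne_zero.2 hts
  obtain ⟨u, hu⟩ : ∃ u, u = t - s := ⟨_, rfl⟩
  rw [← hu] at hz hts'
  refine ⟨fun j => if hj : j < A + h + 1 then gcPl (A + 1) (u.1 ⟨j, hj⟩) else 0,
    fun j => if hj : j < A + 1 then gcPl (d + 1) (u.2 ⟨j, hj⟩) else 0, ?_, ?_, ?_, ?_⟩
  · intro j
    dsimp only
    split_ifs with hj
    · exact gcPl_deg A _
    · simp
  · intro j
    dsimp only
    split_ifs with hj
    · exact gcPl_deg d _
    · simp
  · by_contra hc
    push Not at hc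
    obtain ⟨c1, c2⟩ := hc
    apply hts'
    apply Prod.ext
    · funext j
      have h3 := c1 j (Nat.lt_succ_iff.1 j.2)
      rw [dif_pos j.2] at h3
      funext i
      have h4 := gcPl_coeff (A + 1) (u.1 j) i
      rw [show gcPl (A + 1) (u.1 j) = 0 from h3] at h4
      rw [← h4]
      simp
    · funext j
      have h3 := c2 j (Nat.lt_succ_iff.1 j.2)
      rw [dif_pos j.2] at h3
      funext i
      have h4 := gcPl_coeff (d + 1) (u.2 j) i
      rw [show gcPl (d + 1) (u.2 j) = 0 from h3] at h4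
      rw [← h4]
      simp
  · rw [Finset.sum_range, Finset.sum_range]
    unfold gcG at hz
    refine Eq.trans ?_ hz
    congr 1
    · apply Finset.sum_congr rfl
      intro j _
      dsimp only
      rw [dif_pos j.2]
    · congr 1
      apply Finset.sum_congr rfl
      intro j _
      dsimp only
      rw [dif_pos j.2]

end Pool.Agent.H35.WL
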