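import Pool.Agent.H35.WL.Gb
import Pool.Agent.H35.WL.Gc

/-!
# WL-Gd: the number of `y` with `F(y)` a square, and the character sum

`card_sq_le`: `#E = Q²`.  With `a, b` from `exists_ab` put
`G = ∑ a_j X^{jQ} + F^{(Q+1)/2} ∑ b_j X^{jQ} ≠ 0` (`g_ne_zero`), `deg G ≤ A + (A+h) Q`
(`h (Q+1) + (A-h) + AQ = A + (A+h) Q`).  If `z² = F(y)` then, as `y^{Q²} = y`, `z^{Q²} = z`
(`FiniteField.pow_card`): `G(y)^Q = ∑ a_j(y)^Q y^j + F(y)^{Q(Q+1)/2} ∑ b_j(y)^Q y^j` and
`F(y)^{Q(Q+1)/2} = z^{Q²+Q} = z^{1+Q} = F(y)^{(Q+1)/2}`, so `G(y)^Q` is the value at `y` of the zero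
polynomial.  So all these `y` are roots of `G`.

`chi_sum_le`: apply `card_sq_le` to `F` and to `ν F`, `ν` a nonsquare: with `N₊, N₋, N₀` the numbers of
`y` with `χ(F(y)) = 1, -1, 0`: `N₊ + N₀ ≤ (q-1)/2 + hQ`, `N₋ + N₀ ≤ (q-1)/2 + hQ`,
`N₊ + N₋ + N₀ = q`, `2 (A + (A+h) Q) = q - 1 + 2hQ`, so `|N₊ - N₋| ≤ 2hQ`.
-/

set_option autoImplicit false

namespace Pool.Agent.H35.WL

open Finset Polynomial

private theorem Gd_pow {E : Type*} [Field E] [Fintype E] {Q A : ℕ}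
    (hE : Fintype.card E = Q ^ 2) (hA : 2 * A + 1 = Q) {t : E} (ht : IsSquare t) :
    (t ^ ((Q + 1) / 2)) ^ Q = t ^ ((Q + 1) / 2) := by
  obtain ⟨z, rfl⟩ := ht
  have e1 : (Q + 1) / 2 = A + 1 := by omega
  have hz : z ^ (Q ^ 2) = z := by
    rw [← hE]
    exact FiniteField.pow_card z
  rw [e1]
  calc ((z * z) ^ (A + 1)) ^ Q = z ^ ((2 * A + 1 + 1) * Q) := by ring
    _ = z ^ (Q ^ 2) * z ^ Q := by
        rw [hA, ← pow_add]
        congr 1
        ring
    _ = z * z ^ Q := by rw [hz]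
    _ = z * z ^ (2 * A + 1) := by rw [hA]
    _ = (z * z) ^ (A + 1) := by ring

private theorem Gd_eval {E : Type*} [Field E] [Fintype E] (p m : ℕ) [Fact p.Prime]
    [CharP E p] (Q A h : ℕ) (hE : Fintype.card E = Q ^ 2)
    (hQ : Q = p ^ m) (hA : 2 * A + 1 = Q) (F : E[X]) (a b : ℕ → E[X])
    (hab : ∑ j ∈ range (A + h + 1), a j ^ Q * X ^ j +
        F ^ ((Q + 1) / 2) * ∑ j ∈ range (A + 1), b j ^ Q * X ^ j = 0)
    {y : E} (hy : IsSquare (F.eval y)) :
    (∑ j ∈ range (A + h + 1), a j * X ^ (j * Q) +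
      F ^ ((Q + 1) / 2) * ∑ j ∈ range (A + 1), b j * X ^ (j * Q)).eval y = 0 := by
  have hfr : ∀ x : E, iterateFrobenius E p m x = x ^ Q := fun x => by
    rw [iterateFrobenius_def, hQ]
  have hQ0 : Q ≠ 0 := by omega
  have hyy : ∀ j : ℕ, (y ^ (j * Q)) ^ Q = y ^ j := by
    intro j
    have h1 : (y ^ (j * Q)) ^ Q = (y ^ (Q ^ 2)) ^ j := by ring
    rw [h1, ← hE, FiniteField.pow_card]
  have h1 := congrArg (eval y) hab
  simp only [eval_add, eval_mul, eval_pow, eval_finsetSum, eval_X, eval_zero] at h1 ⊢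
  have h2 : (∑ j ∈ range (A + h + 1), eval y (a j) * y ^ (j * Q) +
      eval y F ^ ((Q + 1) / 2) * ∑ j ∈ range (A + 1), eval y (b j) * y ^ (j * Q)) ^ Q = 0 := by
    rw [← hfr, map_add, map_mul, map_sum, map_sum]
    simp only [map_mul]
    simp only [hfr, hyy]
    rw [Gd_pow hE hA hy]
    exact h1
  exact (pow_eq_zero_iff hQ0).1 h2

private theorem Gd_deg {E : Type*} [Field E] (Q A h : ℕ) (hA : 2 * A + 1 = Q) (hh : h ≤ A)
    (F : E[X]) (hFd : F.natDegree = 2 * h) (a b : ℕ → E[X])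
    (ha : ∀ j, (a j).natDegree ≤ A) (hb : ∀ j, (b j).natDegree ≤ A - h) :
    (∑ j ∈ range (A + h + 1), a j * X ^ (j * Q) +
      F ^ ((Q + 1) / 2) * ∑ j ∈ range (A + 1), b j * X ^ (j * Q)).natDegree ≤
      A + (A + h) * Q := by
  have e1 : (Q + 1) / 2 = A + 1 := by omega
  have hterm : ∀ (f : E[X]) (n k j : ℕ), f.natDegree ≤ n → j ≤ k →
      (f * X ^ (j * Q)).natDegree ≤ n + k * Q := by
    intro f n k j hf hj
    refine natDegree_mul_le.trans (add_le_add hf ?_)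
    rw [natDegree_X_pow]
    exact Nat.mul_le_mul_right Q hj
  refine natDegree_add_le_of_degree_le ?_ ?_
  · refine natDegree_sum_le_of_forall_le _ _ fun j hj => ?_
    exact hterm _ _ _ _ (ha j) (by have := mem_range.1 hj; omega)
  · refine natDegree_mul_le.trans ?_
    have h1 : (F ^ ((Q + 1) / 2)).natDegree ≤ (A + 1) * (2 * h) := by
      rw [e1]
      refine natDegree_pow_le.trans ?_
      rw [hFd]
    have h2 : (∑ j ∈ range (A + 1), b j * X ^ (j * Q)).natDegree ≤ (A - h) + A * Q := by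
      refine natDegree_sum_le_of_forall_le _ _ fun j hj => ?_
      exact hterm _ _ _ _ (hb j) (by have := mem_range.1 hj; omega)
    refine (add_le_add h1 h2).trans ?_
    obtain ⟨k, rfl⟩ := Nat.exists_eq_add_of_le hh
    have h3 : h + k - h = k := by omega
    rw [h3, ← hA]
    ring_nf
    omega

theorem card_sq_le {E : Type*} [Field E] [Fintype E] [DecidableEq E] (p m : ℕ) [Fact p.Prime]
    [CharP E p] (Q A h : ℕ) (hE : Fintype.card E = Q ^ 2)
    (hQ : Q = p ^ m) (hA : 2 * A + 1 = Q) (h1 : 1 ≤ h) (hh : h ≤ A) (F : E[X])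
    (hF : Squarefree F) (hFd : F.natDegree = 2 * h) (hF0 : F.eval 0 ≠ 0) :
    (univ.filter (fun y : E => IsSquare (F.eval y))).card ≤ A + (A + h) * Q := by
  obtain ⟨a, b, ha, hb, hne, hab⟩ := exists_ab p m Q A h hQ hA h1 hh F hFd
  have hG := g_ne_zero p m Q A h hQ hA h1 hh F hF hFd hF0 a b ha hb hne
  have hdeg := Gd_deg Q A h hA hh F hFd a b ha hb
  refine le_trans ?_ hdeg
  refine le_trans ?_ (card_roots' _)
  refine le_trans (card_le_card ?_) (Multiset.toFinset_card_le _)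
  intro y hy
  rw [Multiset.mem_toFinset, mem_roots hG]
  exact Gd_eval p m Q A h hE hQ hA F a b hab (mem_filter.1 hy).2

private theorem Gd_half {E : Type*} [Field E] [Fintype E] [DecidableEq E] (p m : ℕ) [Fact p.Prime]
    [CharP E p] (Q A h : ℕ) (hE : Fintype.card E = Q ^ 2)
    (hQ : Q = p ^ m) (hA : 2 * A + 1 = Q) (h1 : 1 ≤ h) (hh : h ≤ A) (F : E[X])
    (hF : Squarefree F) (hFd : F.natDegree = 2 * h) (hF0 : F.eval 0 ≠ 0) :
    ∑ y : E, (quadraticChar E (F.eval y) : ℤ) ≤ 2 * h * Q := by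
  have h2 := card_sq_le p m Q A h hE hQ hA h1 hh F hF hFd hF0
  have hpt : ∀ y : E, (quadraticChar E (F.eval y) : ℤ) ≤
      2 * (if IsSquare (F.eval y) then 1 else 0) - 1 := by
    intro y
    by_cases hsq : IsSquare (F.eval y)
    · rw [if_pos hsq]
      rcases eq_or_ne (F.eval y) 0 with h0 | h0
      · rw [h0, quadraticChar_zero]
        norm_num
      · rw [(quadraticChar_one_iff_isSquare h0).2 hsq]
        norm_num
    · rw [if_neg hsq, quadraticChar_neg_one_iff_not_isSquare.2 hsq]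
      norm_num
  have h3 : ∑ y : E, (quadraticChar E (F.eval y) : ℤ) ≤
      2 * ((univ.filter (fun y : E => IsSquare (F.eval y))).card : ℤ) - Fintype.card E := by
    refine (sum_le_sum fun y _ => hpt y).trans (le_of_eq ?_)
    rw [sum_sub_distrib, ← mul_sum, card_filter]
    push_cast
    simp
  have h4 : ((univ.filter (fun y : E => IsSquare (F.eval y))).card : ℤ) ≤ A + (A + h) * Q := by
    exact_mod_cast h2
  have h5 : (Fintype.card E : ℤ) = (Q : ℤ) ^ 2 := by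
    rw [hE]
    push_cast
    ring
  have h6 : (2 : ℤ) * A + 1 = Q := by exact_mod_cast hA
  rw [h5] at h3
  have h7 : (2 : ℤ) * (A + (A + h) * Q) - Q ^ 2 = 2 * h * Q - 1 := by
    rw [← h6]
    ring
  linarith

theorem chi_sum_le {E : Type*} [Field E] [Fintype E] [DecidableEq E] (p m : ℕ) [Fact p.Prime]
    [CharP E p] (Q A h : ℕ) (hE : Fintype.card E = Q ^ 2)
    (hQ : Q = p ^ m) (hA : 2 * A + 1 = Q) (h1 : 1 ≤ h) (hh : h ≤ A) (F : E[X])
    (hF : Squarefree F) (hFd : F.natDegree = 2 * h) (hF0 : F.eval 0 ≠ 0) :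
    |∑ y : E, (quadraticChar E (F.eval y) : ℤ)| ≤ 2 * h * Q := by
  have hchar : ringChar E ≠ 2 := by
    intro h2
    have h3 := FiniteField.even_card_iff_char_two.1 h2
    rw [hE, ← hA] at h3
    have h4 : (2 * A + 1) ^ 2 = 2 * (2 * A ^ 2 + 2 * A) + 1 := by ring
    omega
  obtain ⟨ν, hν⟩ := FiniteField.exists_nonsquare hchar
  have hν0 : ν ≠ 0 := by
    rintro rfl
    exact hν (IsSquare.zero)
  have hνχ : (quadraticChar E ν : ℤ) = -1 := quadraticChar_neg_one_iff_not_isSquare.2 hν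
  have hu : IsUnit (C ν : E[X]) := isUnit_C.2 (IsUnit.mk0 ν hν0)
  have hF' : Squarefree (C ν * F) := by
    obtain ⟨u, hu'⟩ := hu
    rw [← hu']
    exact (Associated.squarefree_iff (associated_unit_mul_left F _ u.isUnit)).2 hF
  have hFd' : (C ν * F).natDegree = 2 * h := by rw [natDegree_C_mul hν0, hFd]
  have hF0' : (C ν * F).eval 0 ≠ 0 := by
    rw [eval_mul, eval_C]
    exact mul_ne_zero hν0 hF0
  have hp := Gd_half p m Q A h hE hQ hA h1 hh F hF hFd hF0
  have hm := Gd_half p m Q A h hE hQ hA h1 hh (C ν * F) hF' hFd' hF0'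
  have h2 : ∑ y : E, (quadraticChar E ((C ν * F).eval y) : ℤ) =
      -∑ y : E, (quadraticChar E (F.eval y) : ℤ) := by
    rw [← sum_neg_distrib]
    refine sum_congr rfl fun y _ => ?_
    rw [eval_mul, eval_C, map_mul, hνχ]
    ring
  rw [h2] at hm
  rw [abs_le]
  constructor <;> linarith

end Pool.Agent.H35.WL
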