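import Pool.Agent.H35.WL.Gd

/-!
# WL-Gf: the character sum of `(y^p - y)² - c`

`F = (X^p - X)² - C c`, `p ≠ 2`, `c ≠ 0`: `F' = -2 (X^p - X)` (`p = 0` in `E`), and
`F = (X^p - X)² - c`, so `F, F'` are coprime and `F` is separable, hence squarefree; `natDegree F = 2p`,
`F(0) = -c ≠ 0`.  `#E = (p^m)²`, `m ≥ 2`: `chi_sum_le` with `h = p`, `A = (p^m - 1)/2 ≥ p`.
-/

set_option autoImplicit false

namespace Pool.Agent.H35.WL

open Finset Polynomial

theorem chi_as_le {E : Type*} [Field E] [Fintype E] [DecidableEq E] (p m : ℕ) [Fact p.Prime]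
    [CharP E p] (hp : p ≠ 2) (hm : 2 ≤ m) (hE : Fintype.card E = (p ^ m) ^ 2) (c : E)
    (hc : c ≠ 0) :
    |∑ y : E, (quadraticChar E ((y ^ p - y) ^ 2 - c) : ℤ)| ≤ 2 * p * p ^ m := by
  have hpp : p.Prime := Fact.out
  have hp2 : 2 ≤ p := hpp.two_le
  have hp3 : 3 ≤ p := by omega
  have hodd : Odd p := hpp.odd_of_ne_two hp
  have h2 : (2 : E) ≠ 0 := by
    intro h
    have h1 : ((2 : ℕ) : E) = 0 := by exact_mod_cast h
    rw [CharP.cast_eq_zero_iff E p 2] at h1
    exact hp ((Nat.prime_dvd_prime_iff_eq hpp Nat.prime_two).1 h1)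
  set G : E[X] := X ^ p - X with hG
  set F : E[X] := G ^ 2 - C c with hF
  have hGd : G.natDegree = p := FiniteField.X_pow_card_sub_X_natDegree_eq E (by omega)
  have hFd : F.natDegree = 2 * p := by
    rw [hF, natDegree_sub_C, natDegree_pow, hGd]
  have hGder : derivative G = -1 := by
    rw [hG, derivative_sub, derivative_X_pow, derivative_X, CharP.cast_eq_zero]
    simp
  have hFder : derivative F = -(2 * G) := by
    have e3 : (C (2 : E) : E[X]) = 2 := map_ofNat C 2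
    rw [hF, derivative_sub, derivative_C, derivative_pow, hGder]
    simp [e3]
  have hsq : Squarefree F := by
    refine Separable.squarefree ?_
    rw [separable_def']
    refine ⟨C (-c⁻¹), C (-(2 * c)⁻¹) * G, ?_⟩
    rw [hFder, hF]
    have e1 : C (-(2 * c)⁻¹) * G * -(2 * G) = C c⁻¹ * G ^ 2 := by
      have e2 : (C (-(2 * c)⁻¹) : E[X]) * C 2 = -C c⁻¹ := by
        rw [← C_mul, ← C_neg]
        congr 1
        field_simp
      have e3 : (2 : E[X]) = C 2 := (map_ofNat C 2).symm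
      rw [e3]
      calc C (-(2 * c)⁻¹) * G * -(C 2 * G) = -((C (-(2 * c)⁻¹) * C 2) * G ^ 2) := by ring
        _ = -(-C c⁻¹ * G ^ 2) := by rw [e2]
        _ = _ := by ring
    rw [e1]
    have e4 : (C (-c⁻¹) : E[X]) * C c = -1 := by
      rw [← C_mul, neg_mul, inv_mul_cancel₀ hc, C_neg, C_1]
    have e5 : (C (-c⁻¹) : E[X]) = -C c⁻¹ := by rw [C_neg]
    calc C (-c⁻¹) * (G ^ 2 - C c) + C c⁻¹ * G ^ 2 =
          C (-c⁻¹) * G ^ 2 - C (-c⁻¹) * C c + C c⁻¹ * G ^ 2 := by ring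
      _ = -C c⁻¹ * G ^ 2 - (-1) + C c⁻¹ * G ^ 2 := by rw [e4, e5]
      _ = 1 := by ring
  have hF0 : F.eval 0 ≠ 0 := by
    rw [hF, hG]
    simp [hpp.ne_zero, hc]
  have hQodd : Odd (p ^ m) := hodd.pow
  obtain ⟨A, hA⟩ := hQodd
  have hpA : p ≤ A := by
    have h3 : p ^ 2 ≤ p ^ m := Nat.pow_le_pow_right (by omega) hm
    nlinarith
  have key := chi_sum_le (E := E) p m (p ^ m) A p hE rfl hA.symm (by omega) hpA F hsq hFd hF0
  have e : ∀ y : E, F.eval y = (y ^ p - y) ^ 2 - c := by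
    intro y
    rw [hF, hG]
    simp
  simp only [e] at key
  push_cast at key
  exact key

end Pool.Agent.H35.WL
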