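import Pool.Agent.H35.WL.Bd

/-!
# WL-Ic: the sum over `m₂`

`cls_card7`: copy of `cls_card` (Pool/Agent/H94/EH/M13.lean, line 255) with `M7`, `CS7`.
`inner7`: as `inner` (Pool/Agent/H94/EH/M14.lean, line 392).  If `r = 0` or `r' = 0` all terms vanish.
`B = |r||r'| p₁p₂p₃p₄`, `s = pt B m₁`, `m₁ = s k`, `(k, B s) = 1`.  At most `s w₁ w₃` classes, and with `WB`
each is at most `3001 ((..)/(k u) + 3 + log (k u)) tau(k u)^3 √(gcd(K₀, k u) k u)`, `u = u₁ u₃`;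
`tau (k u) ≤ 4 tau m₁`, `gcd(K₀, k u) ≤ gcd(K₀, k) gcd(K₀, u)`, `s gcd(K₀,k) ≤ pt (B0) m₁` (it divides it),
so `s √(gcd(K₀,k) k) ≤ √(pt (B0) m₁) √(3N)`; `log (k u) ≤ log (48 N P²) ≤ 4 + 3 log N`.
-/

set_option autoImplicit false

namespace Pool.Agent.H35.WL

open Finset
open Pool.Agent.H80.KF

private lemma ic_prime {P : ℕ} {τ : ℕ × ℕ × ℤ} (h : τ ∈ TT P) : τ.1.Prime ∧ τ.2.1.Prime := by
  unfold TT PP at h
  rw [mem_product, mem_product, mem_filter, mem_filter] at h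
  exact ⟨h.1.2, h.2.1.2⟩

private lemma ic_gg {F : ℝ → ℂ} {η : ℤ} {N : ℕ} {τ : ℕ × ℕ × ℤ} {m1 m2 : ℕ}
    (h : gg F η N τ m1 m2 ≠ 0) : Adm N τ.1 τ.2.1 τ.2.2 m1 m2 := by
  unfold gg at h
  by_contra hn
  rw [if_neg hn] at h
  exact h rfl

/-- the numbers `m₂` for two admissible pairs are congruent modulo `r` -/
private lemma ic_dvd {N p1 p2 : ℕ} {r : ℤ} {m1 m2 m2' : ℕ} (h1 : p1.Prime) (h2 : p2.Prime)
    (h : Adm N p1 p2 r m1 m2) (h' : Adm N p1 p2 r m1 m2') : r ∣ (m2 : ℤ) - m2' := by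
  have hc := (adm_r h1 h2 h).2
  have e1 : r ∣ (p1 : ℤ) * m1 - (p2 : ℤ) * m2 := ⟨_, h.2.2.2.2.1.symm⟩
  have e2 : r ∣ (p1 : ℤ) * m1 - (p2 : ℤ) * m2' := ⟨_, h'.2.2.2.2.1.symm⟩
  have e3 : r ∣ (p2 : ℤ) * ((m2 : ℤ) - m2') := by
    have e4 := dvd_sub e2 e1
    have e5 : (p1 : ℤ) * m1 - (p2 : ℤ) * m2' - ((p1 : ℤ) * m1 - (p2 : ℤ) * m2) =
        (p2 : ℤ) * ((m2 : ℤ) - m2') := by ring
    rwa [e5] at e4
  exact hc.dvd_of_dvd_mul_left e3

private lemma ic_class {N P : ℕ} {η : ℤ} {F : ℝ → ℂ} {τ τ' : ℕ × ℕ × ℤ} (hτ : τ ∈ TT P)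
    (hτ' : τ' ∈ TT P) {m1 s w ρ ρ' : ℕ} (h : CS7 F η N τ τ' m1 s w ρ ≠ 0)
    (h' : CS7 F η N τ τ' m1 s w ρ' ≠ 0) :
    (Nat.lcm τ.2.2.natAbs τ'.2.2.natAbs : ℤ) ∣ (ρ : ℤ) - ρ' := by
  obtain ⟨t, -, ht⟩ := exists_ne_zero_of_sum_ne_zero h
  obtain ⟨t', -, ht'⟩ := exists_ne_zero_of_sum_ne_zero h'
  have a1 := ic_gg (left_ne_zero_of_mul ht)
  have a2 := ic_gg (left_ne_zero_of_mul ht')
  have b1 := ic_gg (fun h0 => right_ne_zero_of_mul ht (by rw [h0, map_zero]))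
  have b2 := ic_gg (fun h0 => right_ne_zero_of_mul ht' (by rw [h0, map_zero]))
  have c1 := ic_dvd (ic_prime hτ).1 (ic_prime hτ).2 a1 a2
  have c2 := ic_dvd (ic_prime hτ').1 (ic_prime hτ').2 b1 b2
  set L := Nat.lcm τ.2.2.natAbs τ'.2.2.natAbs with hL
  have hLM : (L : ℤ) ∣ (M7 τ τ' s w : ℤ) := by
    rw [Int.natCast_dvd_natCast]
    exact ⟨s * w, rfl⟩
  have d1 : (L : ℤ) ∣ ((ρ + M7 τ τ' s w * t : ℕ) : ℤ) - ((ρ' + M7 τ τ' s w * t' : ℕ) : ℤ) := by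
    have e1 : τ.2.2.natAbs ∣ (((ρ + M7 τ τ' s w * t : ℕ) : ℤ) -
        ((ρ' + M7 τ τ' s w * t' : ℕ) : ℤ)).natAbs := Int.natAbs_dvd_natAbs.2 c1
    have e2 : τ'.2.2.natAbs ∣ (((ρ + M7 τ τ' s w * t : ℕ) : ℤ) -
        ((ρ' + M7 τ τ' s w * t' : ℕ) : ℤ)).natAbs := Int.natAbs_dvd_natAbs.2 c2
    exact Int.natCast_dvd.2 (Nat.lcm_dvd e1 e2)
  have d2 : (L : ℤ) ∣ (M7 τ τ' s w : ℤ) * t' - (M7 τ τ' s w : ℤ) * t :=
    dvd_sub (hLM.mul_right _) (hLM.mul_right _)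
  have d3 := dvd_add d1 d2
  have e5 : ((ρ + M7 τ τ' s w * t : ℕ) : ℤ) - ((ρ' + M7 τ τ' s w * t' : ℕ) : ℤ) +
      ((M7 τ τ' s w : ℤ) * t' - (M7 τ τ' s w : ℤ) * t) = (ρ : ℤ) - ρ' := by
    push_cast
    ring
  rwa [e5] at d3

theorem cls_card7 (N P : ℕ) (η : ℤ) (F : ℝ → ℂ) (τ τ' : ℕ × ℕ × ℤ) (hτ : τ ∈ TT P)
    (hτ' : τ' ∈ TT P) (m1 s w : ℕ) (hs : 1 ≤ s) (hw : 1 ≤ w) (hr : τ.2.2 ≠ 0) (hr' : τ'.2.2 ≠ 0) :
    (((range (M7 τ τ' s w)).filter (fun ρ => CS7 F η N τ τ' m1 s w ρ ≠ 0)).card : ℕ) ≤ s * w := by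
  classical
  set L := Nat.lcm τ.2.2.natAbs τ'.2.2.natAbs with hL
  have hL0 : 0 < L := Nat.lcm_pos (Int.natAbs_pos.2 hr) (Int.natAbs_pos.2 hr')
  have hM : M7 τ τ' s w = L * (s * w) := rfl
  have hcard : (range (s * w)).card = s * w := card_range _
  rw [← hcard]
  refine card_le_card_of_injOn (fun ρ => ρ / L) ?_ ?_
  · intro ρ hρ
    rw [mem_coe, mem_filter, mem_range, hM] at hρ
    rw [mem_coe, mem_range]
    exact Nat.div_lt_of_lt_mul hρ.1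
  · intro ρ hρ ρ' hρ' he
    rw [mem_coe, mem_filter] at hρ hρ'
    simp only at he
    have h1 := ic_class hτ hτ' hρ.2 hρ'.2
    rw [← hL] at h1
    have h2 : ρ' % L = ρ % L := (Nat.modEq_iff_dvd.2 h1)
    rw [← Nat.div_add_mod ρ L, ← Nat.div_add_mod ρ' L, he, h2]

/-- decomposition of the sum over `m₂` into residue classes -/
private theorem ic_classes (N M : ℕ) (hM : 1 ≤ M) (g : ℕ → ℂ) :
    ∑ m2 ∈ II N, g m2 =
      ∑ ρ ∈ range M, ∑ t ∈ (range (2 * N + 2)).filter (fun t => ρ + M * t ∈ II N), g (ρ + M * t) := by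
  rw [Finset.sum_sigma']
  refine Finset.sum_bij' (fun m _ => (⟨m % M, m / M⟩ : (_ : ℕ) × ℕ)) (fun x _ => x.1 + M * x.2) ?_ ?_ ?_ ?_ ?_
  · intro m hm
    have h1 : m ≤ 2 * N + 1 := (mem_Ioc.1 hm).2
    rw [mem_sigma]
    refine ⟨mem_range.2 (Nat.mod_lt _ hM), ?_⟩
    rw [mem_filter]
    refine ⟨mem_range.2 ?_, ?_⟩
    · exact lt_of_le_of_lt ((Nat.div_le_self m M).trans h1) (Nat.lt_succ_self _)
    · rw [Nat.mod_add_div]
      exact hm
  · intro x hx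
    rw [mem_sigma, mem_filter] at hx
    exact hx.2.2
  · intro m _
    exact Nat.mod_add_div m M
  · intro x hx
    rw [mem_sigma] at hx
    have h1 : x.1 < M := mem_range.1 hx.1
    have h2 : (x.1 + M * x.2) % M = x.1 := by
      rw [Nat.add_mul_mod_self_left, Nat.mod_eq_of_lt h1]
    have h3 : (x.1 + M * x.2) / M = x.2 := by
      rw [Nat.add_mul_div_left _ _ hM, Nat.div_eq_of_lt h1, Nat.zero_add]
    obtain ⟨x1, x2⟩ := x
    simp only at h2 h3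
    simp only [h2, h3]
  · intro m _
    rw [Nat.mod_add_div]

private theorem ic_prime_pt {B m p : ℕ} (hp : p.Prime) (h : p ∣ pt B m) : p ∣ B := by
  unfold pt at h
  obtain ⟨q, hq, hd⟩ := (Nat.Prime.prime hp).exists_mem_finset_dvd h
  rw [mem_filter] at hq
  have h1 : p ∣ q := hp.dvd_of_dvd_pow hd
  have h2 : q.Prime := Nat.prime_of_mem_primeFactors hq.1
  rw [(Nat.prime_dvd_prime_iff_eq hp h2).1 h1]
  exact hq.2

private theorem ic_mem_PP {P p : ℕ} (h : p ∈ PP P) : p.Prime ∧ p ≤ 4 * P := by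
  unfold PP at h
  rw [mem_filter, mem_Ioc] at h
  exact ⟨h.2, h.1.2⟩

private theorem ic_tau_mul (m n : ℕ) : tau (m * n) ≤ tau m * tau n := by
  unfold tau
  rw [Nat.divisors_mul]
  exact Finset.card_mul_le

private theorem ic_tau_two {p u : ℕ} (hp : p.Prime) (h : u ∣ p) : tau u ≤ 2 := by
  unfold tau
  refine (Finset.card_le_card (Nat.divisors_subset_of_dvd hp.ne_zero h)).trans ?_
  rw [hp.divisors]
  exact Finset.card_le_two

theorem inner7 (hW : WB) (N P : ℕ) (hN : 1 ≤ N) (hP : 1 ≤ P) (hPN : P ≤ N) (η : ℤ)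
    (hη : |η| ≤ 4 * (N : ℤ) ^ 2)
    (F : ℝ → ℂ) (hF : Wt N F) (τ τ' : ℕ × ℕ × ℤ) (hτ : τ ∈ TT P) (hτ' : τ' ∈ TT P)
    (hK : K0 η τ τ' ≠ 0) (m1 : ℕ) (hm : m1 ∈ II N) (u1 w1 u3 w3 : ℕ)
    (e1 : τ.1 = u1 * w1) (e3 : τ'.1 = u3 * w3)
    (hcop : Nat.Coprime (u1 * u3)
      (τ.2.2.natAbs * τ'.2.2.natAbs * (τ.2.1 * τ'.2.1) * (m1 * (w1 * w3)))) :
    ‖∑ m2 ∈ II N, gg F η N τ m1 m2 * (starRingEnd ℂ) (gg F η N τ' m1 m2)‖ ≤
      10 ^ 8 * ((w1 * w3 : ℕ) : ℝ) *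
        Real.sqrt (((u1 * u3 : ℕ) : ℝ) * (Int.gcd (K0 η τ τ') (u1 * u3 : ℕ) : ℝ)) *
        (N : ℝ) ^ ((1 : ℝ) / 2) * (Real.log N + 1) *
        ((pt (B0 η τ τ') m1 : ℕ) : ℝ) ^ ((1 : ℝ) / 2) * (tau m1 : ℝ) ^ (3 : ℕ) := by
  have hN1 : (1 : ℝ) ≤ N := by exact_mod_cast hN
  have hN0 : (0 : ℝ) < N := by linarith only [hN1]
  have hlogN : 0 ≤ Real.log N := Real.log_nonneg hN1
  by_cases hr : τ.2.2 = 0
  · rw [Finset.sum_eq_zero, norm_zero]
    · positivity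
    · intro m2 _
      have : gg F η N τ m1 m2 = 0 := by
        unfold gg
        rw [if_neg]
        intro h
        exact h.2.2.2.1 hr
      rw [this, zero_mul]
  by_cases hr' : τ'.2.2 = 0
  · rw [Finset.sum_eq_zero, norm_zero]
    · positivity
    · intro m2 _
      have : gg F η N τ' m1 m2 = 0 := by
        unfold gg
        rw [if_neg]
        intro h
        exact h.2.2.2.1 hr'
      rw [this, map_zero, mul_zero]
  -- primes
  have hT := hτ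
  have hT' := hτ'
  unfold TT at hT hT'
  rw [mem_product, mem_product] at hT hT'
  obtain ⟨hp1, hp1'⟩ := ic_mem_PP hT.1
  obtain ⟨hp2, hp2'⟩ := ic_mem_PP hT.2.1
  obtain ⟨hp3, hp3'⟩ := ic_mem_PP hT'.1
  obtain ⟨hp4, hp4'⟩ := ic_mem_PP hT'.2.1
  have hu1 : 1 ≤ u1 := by
    rcases Nat.eq_zero_or_pos u1 with h | h
    · rw [h, zero_mul] at e1
      exact absurd e1 hp1.ne_zero
    · exact h
  have hw1 : 1 ≤ w1 := by
    rcases Nat.eq_zero_or_pos w1 with h | h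
    · rw [h, mul_zero] at e1
      exact absurd e1 hp1.ne_zero
    · exact h
  have hu3 : 1 ≤ u3 := by
    rcases Nat.eq_zero_or_pos u3 with h | h
    · rw [h, zero_mul] at e3
      exact absurd e3 hp3.ne_zero
    · exact h
  have hw3 : 1 ≤ w3 := by
    rcases Nat.eq_zero_or_pos w3 with h | h
    · rw [h, mul_zero] at e3
      exact absurd e3 hp3.ne_zero
    · exact h
  have hu : 1 ≤ u1 * u3 := Nat.mul_pos hu1 hu3
  have hw : 1 ≤ w1 * w3 := Nat.mul_pos hw1 hw3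
  -- m1
  have hm1 : N + 1 ≤ m1 := (mem_Ioc.1 hm).1
  have hm2 : m1 ≤ 2 * N + 1 := (mem_Ioc.1 hm).2
  have hm0 : m1 ≠ 0 := by omega
  obtain ⟨B, hB⟩ : ∃ B : ℕ, B = τ.2.2.natAbs * τ'.2.2.natAbs * (τ.1 * τ.2.1 * (τ'.1 * τ'.2.1)) :=
    ⟨_, rfl⟩
  have hrn : τ.2.2.natAbs ≠ 0 := Int.natAbs_ne_zero.2 hr
  have hrn' : τ'.2.2.natAbs ≠ 0 := Int.natAbs_ne_zero.2 hr'
  have hB0 : B ≠ 0 := by
    rw [hB]
    exact mul_ne_zero (mul_ne_zero hrn hrn') (mul_ne_zero (mul_ne_zero hp1.ne_zero hp2.ne_zero)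
      (mul_ne_zero hp3.ne_zero hp4.ne_zero))
  obtain ⟨s, hs⟩ : ∃ s : ℕ, s = pt B m1 := ⟨_, rfl⟩
  obtain ⟨k, hk⟩ := pt_dvd B m1 hm0
  rw [← hs] at hk
  have hs1 : 1 ≤ s := by rw [hs]; exact pt_pos B m1
  have hk1 : 1 ≤ k := by
    rcases Nat.eq_zero_or_pos k with h | h
    · exfalso
      apply hm0
      rw [hk, h, mul_zero]
    · exact h
  have hdiv : m1 / s = k := by
    rw [hk]
    exact Nat.mul_div_cancel_left k hs1
  have hcp := pt_coprime B m1 hB0 hm0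
  rw [← hs, hdiv] at hcp
  have hcopk : Nat.Coprime k (B * s) := Nat.Coprime.mul_right hcp.1 hcp.2
  have hcop7 : Nat.Coprime (k * (u1 * u3))
      (τ.2.2.natAbs * τ'.2.2.natAbs * (τ.2.1 * τ'.2.1) * (s * (w1 * w3))) := by
    apply Nat.Coprime.mul_left
    · apply Nat.Coprime.coprime_dvd_right _ hcopk
      refine ⟨u1 * u3, ?_⟩
      rw [hB, e1, e3]
      ring
    · apply Nat.Coprime.coprime_dvd_right _ hcop
      apply mul_dvd_mul_left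
      apply mul_dvd_mul_right
      rw [hk]
      exact Dvd.intro _ rfl
  have hmII : s * k ∈ II N := by rw [← hk]; exact hm
  -- the modulus
  have hlcm : 1 ≤ Nat.lcm τ.2.2.natAbs τ'.2.2.natAbs :=
    Nat.lcm_pos (Nat.pos_of_ne_zero hrn) (Nat.pos_of_ne_zero hrn')
  obtain ⟨M, hM⟩ : ∃ M : ℕ, M = M7 τ τ' s (w1 * w3) := ⟨_, rfl⟩
  have hMs : s ≤ M := by
    rw [hM]
    unfold M7
    calc s = 1 * (s * 1) := by ring
      _ ≤ _ := Nat.mul_le_mul hlcm (Nat.mul_le_mul le_rfl hw)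
  have hM1 : 1 ≤ M := hs1.trans hMs
  obtain ⟨q, hq⟩ : ∃ q : ℕ, q = k * (u1 * u3) := ⟨_, rfl⟩
  have hq1 : 1 ≤ q := by rw [hq]; exact Nat.mul_pos hk1 hu
  obtain ⟨R, hR⟩ : ∃ R : ℝ, R = (tau q : ℝ) ^ 3 *
    Real.sqrt ((Int.gcd (K0 η τ τ') q : ℝ) * q) := ⟨_, rfl⟩
  have hR0 : 0 ≤ R := by rw [hR]; positivity
  have hkl : ∀ b : ℤ, ‖klS (k * (u1 * u3)) (K0 η τ τ') b‖ ≤ R := by
    intro b
    rw [← hq, hR]
    exact hW q hq1 (K0 η τ τ') b
  -- decomposition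
  rw [ic_classes N M hM1]
  have hCS : ∑ ρ ∈ range M, ∑ t ∈ (range (2 * N + 2)).filter (fun t => ρ + M * t ∈ II N),
      gg F η N τ m1 (ρ + M * t) * (starRingEnd ℂ) (gg F η N τ' m1 (ρ + M * t)) =
      ∑ ρ ∈ range M, CS7 F η N τ τ' m1 s (w1 * w3) ρ := by
    rw [hM]
    rfl
  rw [hCS]
  obtain ⟨X, hX⟩ : ∃ X : ℝ, X = 3001 * (((N + 1 : ℝ) / M + 1) / (q : ℝ) + 3 +
        Real.log (q : ℝ)) * R := ⟨_, rfl⟩
  have hqR : (1 : ℝ) ≤ q := by exact_mod_cast hq1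
  have hkR : (1 : ℝ) ≤ k := by exact_mod_cast hk1
  have hsR : (1 : ℝ) ≤ s := by exact_mod_cast hs1
  have hMR : (1 : ℝ) ≤ M := by exact_mod_cast hM1
  have huR : (1 : ℝ) ≤ ((u1 * u3 : ℕ) : ℝ) := by exact_mod_cast hu
  have hlogq : 0 ≤ Real.log q := Real.log_nonneg hqR
  have hX0 : 0 ≤ X := by
    rw [hX]
    positivity
  have hsum : ‖∑ ρ ∈ range M, CS7 F η N τ τ' m1 s (w1 * w3) ρ‖ ≤
      ((s * (w1 * w3) : ℕ) : ℝ) * X := by
    have h1 : ∑ ρ ∈ range M, CS7 F η N τ τ' m1 s (w1 * w3) ρ =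
        ∑ ρ ∈ (range M).filter (fun ρ => CS7 F η N τ τ' m1 s (w1 * w3) ρ ≠ 0),
          CS7 F η N τ τ' m1 s (w1 * w3) ρ :=
      (Finset.sum_filter_ne_zero _).symm
    rw [h1]
    refine (norm_sum_le _ _).trans ?_
    have h2 : ∑ ρ ∈ (range M).filter (fun ρ => CS7 F η N τ τ' m1 s (w1 * w3) ρ ≠ 0),
          ‖CS7 F η N τ τ' m1 s (w1 * w3) ρ‖ ≤
        ∑ _ρ ∈ (range M).filter (fun ρ => CS7 F η N τ τ' m1 s (w1 * w3) ρ ≠ 0), X := by
      refine Finset.sum_le_sum fun ρ hρ => ?_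
      have hρ1 : ρ < M7 τ τ' s (w1 * w3) := by
        rw [← hM]
        exact mem_range.1 (mem_filter.1 hρ).1
      have h3 := cls_bound7 N P hN hP η hη F hF τ τ' hτ hτ' s k u1 w1 u3 w3 hs1 hk1 hmII
        e1 e3 hr hr' hcop7 ρ hρ1 R hkl
      rw [← hk, ← hM, ← hq] at h3
      rw [hX]
      exact h3
    refine h2.trans ?_
    rw [Finset.sum_const, nsmul_eq_mul]
    refine mul_le_mul_of_nonneg_right ?_ hX0
    have hc := cls_card7 N P η F τ τ' hτ hτ' m1 s (w1 * w3) hs1 hw hr hr'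
    rw [← hM] at hc
    exact_mod_cast hc
  refine hsum.trans ?_
  -- the factor before the root
  have hfac : ((N + 1 : ℝ) / M + 1) / q + 3 + Real.log q ≤ 10 * (Real.log N + 1) := by
    have hsq : (s : ℝ) * k ≤ M * q := by
      have h1 : s * k ≤ M * q := by
        rw [hq]
        exact Nat.mul_le_mul hMs (Nat.le_mul_of_pos_right k hu)
      exact_mod_cast h1
    have h1 : (N + 1 : ℝ) / M / q ≤ 1 := by
      rw [div_div, div_le_one (by positivity)]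
      have h2 : (N + 1 : ℝ) ≤ s * k := by
        rw [hk] at hm1
        exact_mod_cast hm1
      exact h2.trans hsq
    have h2 : (1 : ℝ) / q ≤ 1 := by
      rw [div_le_one (by positivity)]
      exact hqR
    have h3 : Real.log q ≤ 3 * Real.log N + 5 := by
      have h4 : (q : ℝ) ≤ 48 * (N : ℝ) ^ 3 := by
        have h5 : q ≤ 48 * N ^ 3 := by
          have g1 : k ≤ 3 * N := by
            have : k ≤ m1 := by
              rw [hk]
              exact Nat.le_mul_of_pos_left k hs1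
            omega
          have g2 : u1 ≤ 4 * P := by
            refine le_trans ?_ hp1'
            rw [e1]
            exact Nat.le_mul_of_pos_right u1 hw1
          have g3 : u3 ≤ 4 * P := by
            refine le_trans ?_ hp3'
            rw [e3]
            exact Nat.le_mul_of_pos_right u3 hw3
          rw [hq]
          calc k * (u1 * u3) ≤ (3 * N) * ((4 * P) * (4 * P)) :=
                Nat.mul_le_mul g1 (Nat.mul_le_mul g2 g3)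
            _ ≤ (3 * N) * ((4 * N) * (4 * N)) := by
                apply Nat.mul_le_mul_left
                exact Nat.mul_le_mul (Nat.mul_le_mul_left 4 hPN) (Nat.mul_le_mul_left 4 hPN)
            _ = 48 * N ^ 3 := by ring
        exact_mod_cast h5
      have h6 : Real.log q ≤ Real.log (48 * (N : ℝ) ^ 3) := Real.log_le_log (by positivity) h4
      rw [Real.log_mul (by norm_num) (by positivity), Real.log_pow] at h6
      have h7 : Real.log 48 ≤ 5 := by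
        have e : (48 : ℝ) = 3 * 2 ^ 4 := by norm_num
        rw [e, Real.log_mul (by norm_num) (by norm_num), Real.log_pow]
        have := Real.log_le_sub_one_of_pos (show (0 : ℝ) < 3 by norm_num)
        have h8 := Real.log_two_lt_d9
        push_cast
        linarith only [this, h8]
      push_cast at h6
      linarith only [h6, h7]
    rw [add_div]
    linarith only [h1, h2, h3, hlogN]
  -- the root
  have hsg : s * Int.gcd (K0 η τ τ') k ≤ pt (B0 η τ τ') m1 := by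
    refine Nat.le_of_dvd (pt_pos _ _) (dvd_pt _ _ _ hm0 ?_ ?_)
    · rw [hk]
      refine Nat.mul_dvd_mul_left s ?_
      have := Int.gcd_dvd_right (K0 η τ τ') (k : ℤ)
      exact_mod_cast this
    · intro p hp hpd
      rcases (Nat.Prime.dvd_mul hp).1 hpd with h | h
      · have h1 : p ∣ B := by
          rw [hs] at h
          exact ic_prime_pt hp h
        refine h1.trans ?_
        rw [hB]
        unfold B0
        exact ⟨(K0 η τ τ').natAbs, by ring⟩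
      · have h1 : ((p : ℕ) : ℤ) ∣ K0 η τ τ' := by
          refine (Int.natCast_dvd_natCast.2 h).trans ?_
          exact Int.gcd_dvd_left (K0 η τ τ') (k : ℤ)
        have h2 : p ∣ (K0 η τ τ').natAbs := Int.natCast_dvd.1 h1
        refine h2.trans ?_
        unfold B0
        rw [mul_assoc]
        exact Dvd.intro _ rfl
  have htau : tau q ≤ 4 * tau m1 := by
    have h1 : tau k ≤ tau m1 := by
      unfold tau
      refine Finset.card_le_card (Nat.divisors_subset_of_dvd hm0 ?_)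
      rw [hk]
      exact Nat.dvd_mul_left k s
    have h2 : tau u1 ≤ 2 := ic_tau_two hp1 ⟨w1, e1⟩
    have h3 : tau u3 ≤ 2 := ic_tau_two hp3 ⟨w3, e3⟩
    rw [hq]
    calc tau (k * (u1 * u3)) ≤ tau k * tau (u1 * u3) := ic_tau_mul _ _
      _ ≤ tau k * (tau u1 * tau u3) := Nat.mul_le_mul_left _ (ic_tau_mul _ _)
      _ ≤ tau m1 * (2 * 2) := Nat.mul_le_mul h1 (Nat.mul_le_mul h2 h3)
      _ = 4 * tau m1 := by ring
  have hm3 : (m1 : ℝ) ≤ 3 * N := by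
    have : m1 ≤ 3 * N := by omega
    exact_mod_cast this
  have hsgR : (s : ℝ) * (Int.gcd (K0 η τ τ') k : ℝ) ≤ ((pt (B0 η τ τ') m1 : ℕ) : ℝ) := by
    exact_mod_cast hsg
  have htauR : (tau q : ℝ) ≤ 4 * tau m1 := by exact_mod_cast htau
  have hgcd : Int.gcd (K0 η τ τ') q ≤
      Int.gcd (K0 η τ τ') k * Int.gcd (K0 η τ τ') (u1 * u3 : ℕ) := by
    have h0 : 0 < (K0 η τ τ').natAbs := Int.natAbs_pos.2 hK
    have h1 : Nat.gcd (K0 η τ τ').natAbs (k * (u1 * u3)) ∣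
        Nat.gcd (K0 η τ τ').natAbs k * Nat.gcd (K0 η τ τ').natAbs (u1 * u3) :=
      Nat.gcd_mul_right_dvd_mul_gcd _ _ _
    rw [hq]
    exact Nat.le_of_dvd (Nat.mul_pos (Nat.gcd_pos_of_pos_left _ h0)
      (Nat.gcd_pos_of_pos_left _ h0)) h1
  have hgcdR : (Int.gcd (K0 η τ τ') q : ℝ) ≤
      (Int.gcd (K0 η τ τ') k : ℝ) * (Int.gcd (K0 η τ τ') (u1 * u3 : ℕ) : ℝ) := by
    exact_mod_cast hgcd
  have hqe : (q : ℝ) = k * ((u1 * u3 : ℕ) : ℝ) := by rw [hq]; push_cast; ring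
  have hm1e : (m1 : ℝ) = s * k := by exact_mod_cast hk
  obtain ⟨U, hU⟩ : ∃ U : ℝ, U = Real.sqrt (((u1 * u3 : ℕ) : ℝ) *
    (Int.gcd (K0 η τ τ') (u1 * u3 : ℕ) : ℝ)) := ⟨_, rfl⟩
  have hU0 : 0 ≤ U := by rw [hU]; positivity
  obtain ⟨V, hV⟩ : ∃ V : ℝ, V = Real.sqrt ((pt (B0 η τ τ') m1 : ℕ) : ℝ) := ⟨_, rfl⟩
  have hV0 : 0 ≤ V := by rw [hV]; positivity
  have hroot : (s : ℝ) * Real.sqrt ((Int.gcd (K0 η τ τ') q : ℝ) * q) ≤
      2 * Real.sqrt N * V * U := by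
    have e2 : (s : ℝ) * Real.sqrt ((Int.gcd (K0 η τ τ') q : ℝ) * q) =
        Real.sqrt ((s : ℝ) ^ 2 * ((Int.gcd (K0 η τ τ') q : ℝ) * q)) := by
      rw [Real.sqrt_mul (sq_nonneg (s : ℝ)) ((Int.gcd (K0 η τ τ') q : ℝ) * q),
        Real.sqrt_sq (Nat.cast_nonneg s)]
    have e4 : 2 * Real.sqrt N * V * U = Real.sqrt (4 * N * ((pt (B0 η τ τ') m1 : ℕ) : ℝ) *
        (((u1 * u3 : ℕ) : ℝ) * (Int.gcd (K0 η τ τ') (u1 * u3 : ℕ) : ℝ))) := by
      rw [Real.sqrt_mul (show 0 ≤ 4 * (N : ℝ) * ((pt (B0 η τ τ') m1 : ℕ) : ℝ) by positivity) _,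
        Real.sqrt_mul (show 0 ≤ 4 * (N : ℝ) by positivity) _,
        Real.sqrt_mul (show (0 : ℝ) ≤ 4 by norm_num) _, ← hU, ← hV]
      have f1 : Real.sqrt 4 = 2 := by
        rw [show (4 : ℝ) = 2 ^ 2 by norm_num, Real.sqrt_sq (by norm_num)]
      rw [f1]
    rw [e2, e4]
    apply Real.sqrt_le_sqrt
    calc (s : ℝ) ^ 2 * ((Int.gcd (K0 η τ τ') q : ℝ) * q)
        ≤ (s : ℝ) ^ 2 * (((Int.gcd (K0 η τ τ') k : ℝ) *
            (Int.gcd (K0 η τ τ') (u1 * u3 : ℕ) : ℝ)) * q) := by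
          apply mul_le_mul_of_nonneg_left _ (by positivity)
          exact mul_le_mul_of_nonneg_right hgcdR (by positivity)
      _ = ((s : ℝ) * (Int.gcd (K0 η τ τ') k : ℝ)) * m1 *
            (((u1 * u3 : ℕ) : ℝ) * (Int.gcd (K0 η τ τ') (u1 * u3 : ℕ) : ℝ)) := by
          rw [hm1e, hqe]
          ring
      _ ≤ ((pt (B0 η τ τ') m1 : ℕ) : ℝ) * (3 * N) *
            (((u1 * u3 : ℕ) : ℝ) * (Int.gcd (K0 η τ τ') (u1 * u3 : ℕ) : ℝ)) := by
          apply mul_le_mul_of_nonneg_right _ (by positivity)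
          exact mul_le_mul hsgR hm3 (Nat.cast_nonneg _) (Nat.cast_nonneg _)
      _ ≤ 4 * N * ((pt (B0 η τ τ') m1 : ℕ) : ℝ) *
            (((u1 * u3 : ℕ) : ℝ) * (Int.gcd (K0 η τ τ') (u1 * u3 : ℕ) : ℝ)) := by
          apply mul_le_mul_of_nonneg_right _ (by positivity)
          have : 0 ≤ ((pt (B0 η τ τ') m1 : ℕ) : ℝ) * (N : ℝ) := by positivity
          linarith only [this]
  have hfac0 : 0 ≤ ((N + 1 : ℝ) / M + 1) / q + 3 + Real.log q := by positivity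
  have hroot0 : 0 ≤ (s : ℝ) * Real.sqrt ((Int.gcd (K0 η τ τ') q : ℝ) * q) := by positivity
  have hsqN : (N : ℝ) ^ ((1 : ℝ) / 2) = Real.sqrt N := (Real.sqrt_eq_rpow _).symm
  have hsqV : ((pt (B0 η τ τ') m1 : ℕ) : ℝ) ^ ((1 : ℝ) / 2) = V := by
    rw [hV]
    exact (Real.sqrt_eq_rpow _).symm
  rw [hsqN, hsqV, ← hU]
  have ht3 : (tau q : ℝ) ^ 3 ≤ 64 * (tau m1 : ℝ) ^ (3 : ℕ) := by
    calc (tau q : ℝ) ^ 3 ≤ (4 * (tau m1 : ℝ)) ^ 3 := pow_le_pow_left₀ (Nat.cast_nonneg _) htauR 3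
      _ = _ := by ring
  calc ((s * (w1 * w3) : ℕ) : ℝ) * X
      = 3001 * ((w1 * w3 : ℕ) : ℝ) * ((((N + 1 : ℝ) / M + 1) / q + 3 + Real.log q) *
        ((tau q : ℝ) ^ 3 * ((s : ℝ) * Real.sqrt ((Int.gcd (K0 η τ τ') q : ℝ) * q)))) := by
        rw [hX, hR]
        push_cast
        ring
    _ ≤ 3001 * ((w1 * w3 : ℕ) : ℝ) * ((10 * (Real.log N + 1)) *
        ((64 * (tau m1 : ℝ) ^ (3 : ℕ)) * (2 * Real.sqrt N * V * U))) := by
        apply mul_le_mul_of_nonneg_left _ (by positivity)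
        apply mul_le_mul hfac _ (mul_nonneg (by positivity) hroot0) (by positivity)
        exact mul_le_mul ht3 hroot hroot0 (by positivity)
    _ = 3841280 * (((w1 * w3 : ℕ) : ℝ) * U * Real.sqrt N * (Real.log N + 1) * V *
          (tau m1 : ℝ) ^ (3 : ℕ)) := by ring
    _ ≤ 10 ^ 8 * (((w1 * w3 : ℕ) : ℝ) * U * Real.sqrt N * (Real.log N + 1) * V *
          (tau m1 : ℝ) ^ (3 : ℕ)) := by
        apply mul_le_mul_of_nonneg_right (by norm_num)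
        positivity
    _ = _ := by ring

end Pool.Agent.H35.WL
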