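import Pool.Agent.H35.WL.Ki

/-!
# WL-In: the sum over `m₂` (`P^8` version)

Copy of `inner` (Pool/Agent/H94/EH/M14.lean, line 392) with `cls_bound3` and
`B = tau(k)^3 √(gcd(K₀, k) k) = tau(k)^3 √k` (`k` is coprime to `B0`, which is a multiple of `K₀`).
`s = pt (B0 η τ τ') m₁`, `m₁ = s k`: at most `16 P² s` classes, each
`≤ 3001 (...) √k tau(k)^3`, so `P² s √(N/s)`.
-/

set_option autoImplicit false

namespace Pool.Agent.H35.WL

open Finset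
open Pool.Agent.H80.KF

/-- decomposition of the sum over `m₂` into residue classes -/
private theorem in3_classes (N M : ℕ) (hM : 1 ≤ M) (g : ℕ → ℂ) :
    ∑ m2 ∈ II N, g m2 =
      ∑ ρ ∈ range M, ∑ t ∈ (range (2 * N + 2)).filter (fun t => ρ + M * t ∈ II N), g (ρ + M * t) := by
  rw [Finset.sum_sigma']
  refine Finset.sum_bij' (fun m _ => (⟨m % M, m / M⟩ : (_ : ℕ) × ℕ)) (fun x _ => x.1 + M * x.2) ?_ ?_ ?_ ?_ ?_
  · intro m hm
    have h1 : m ≤ 2 * N + 1 := (mem_Ioc.1 hm).2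
    rw [mem_sigma]
    refine ⟨mem_range.2 (Nat.mod_lt _ hM), ?_⟩
    rw [mem_filter]
    refine ⟨mem_range.2 ?_, ?_⟩
    · exact lt_of_le_of_lt ((Nat.div_le_self m M).trans h1) (Nat.lt_succ_self _)
    · rw [Nat.mod_add_div]
      exact hm
  · intro x hx
    rw [mem_sigma, mem_filter] at hx
    exact hx.2.2
  · intro m _
    exact Nat.mod_add_div m M
  · intro x hx
    rw [mem_sigma] at hx
    have h1 : x.1 < M := mem_range.1 hx.1
    have h2 : (x.1 + M * x.2) % M = x.1 := by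
      rw [Nat.add_mul_mod_self_left, Nat.mod_eq_of_lt h1]
    have h3 : (x.1 + M * x.2) / M = x.2 := by
      rw [Nat.add_mul_div_left _ _ hM, Nat.div_eq_of_lt h1, Nat.zero_add]
    obtain ⟨x1, x2⟩ := x
    simp only at h2 h3
    simp only [h2, h3]
  · intro m _
    rw [Nat.mod_add_div]

private theorem in3_prime_pt {B m p : ℕ} (hp : p.Prime) (h : p ∣ pt B m) : p ∣ B := by
  unfold pt at h
  obtain ⟨q, hq, hd⟩ := (Nat.Prime.prime hp).exists_mem_finset_dvd h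
  rw [mem_filter] at hq
  have h1 : p ∣ q := hp.dvd_of_dvd_pow hd
  have h2 : q.Prime := Nat.prime_of_mem_primeFactors hq.1
  rw [(Nat.prime_dvd_prime_iff_eq hp h2).1 h1]
  exact hq.2

private theorem in3_mem_PP {P p : ℕ} (h : p ∈ PP P) : p.Prime ∧ p ≤ 4 * P := by
  unfold PP at h
  rw [mem_filter, mem_Ioc] at h
  exact ⟨h.2, h.1.2⟩

theorem inner3 (hW : WB) (N P : ℕ) (hN : 1 ≤ N) (hP : 1 ≤ P) (η : ℤ)
    (hη : |η| ≤ 4 * (N : ℤ) ^ 2)
    (F : ℝ → ℂ) (hF : Wt N F) (τ τ' : ℕ × ℕ × ℤ) (hτ : τ ∈ TT P) (hτ' : τ' ∈ TT P)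
    (hK : K0 η τ τ' ≠ 0) (m1 : ℕ) (hm : m1 ∈ II N) :
    ‖∑ m2 ∈ II N, gg F η N τ m1 m2 * (starRingEnd ℂ) (gg F η N τ' m1 m2)‖ ≤
      10 ^ 7 * (P : ℝ) ^ 2 * (N : ℝ) ^ ((1 : ℝ) / 2) * (Real.log N + 1) *
        ((pt (B0 η τ τ') m1 : ℕ) : ℝ) ^ ((1 : ℝ) / 2) * (tau m1 : ℝ) ^ (3 : ℕ) := by
  have hN1 : (1 : ℝ) ≤ N := by exact_mod_cast hN
  have hlogN : 0 ≤ Real.log N := Real.log_nonneg hN1
  have hR0 : 0 ≤ 10 ^ 7 * (P : ℝ) ^ 2 * (N : ℝ) ^ ((1 : ℝ) / 2) * (Real.log N + 1) *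
        ((pt (B0 η τ τ') m1 : ℕ) : ℝ) ^ ((1 : ℝ) / 2) * (tau m1 : ℝ) ^ (3 : ℕ) := by
    positivity
  by_cases hr : τ.2.2 = 0
  · rw [Finset.sum_eq_zero, norm_zero]
    · exact hR0
    · intro m2 _
      have : gg F η N τ m1 m2 = 0 := by
        unfold gg
        rw [if_neg]
        intro h
        exact h.2.2.2.1 hr
      rw [this, zero_mul]
  by_cases hr' : τ'.2.2 = 0
  · rw [Finset.sum_eq_zero, norm_zero]
    · exact hR0
    · intro m2 _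
      have : gg F η N τ' m1 m2 = 0 := by
        unfold gg
        rw [if_neg]
        intro h
        exact h.2.2.2.1 hr'
      rw [this, map_zero, mul_zero]
  -- primes
  have hT := hτ
  have hT' := hτ'
  unfold TT at hT hT'
  rw [mem_product, mem_product] at hT hT'
  obtain ⟨hp1, hp1'⟩ := in3_mem_PP hT.1
  obtain ⟨hp2, hp2'⟩ := in3_mem_PP hT.2.1
  obtain ⟨hp3, hp3'⟩ := in3_mem_PP hT'.1
  obtain ⟨hp4, hp4'⟩ := in3_mem_PP hT'.2.1
  -- m1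
  have hm1 : N + 1 ≤ m1 := (mem_Ioc.1 hm).1
  have hm2 : m1 ≤ 2 * N + 1 := (mem_Ioc.1 hm).2
  have hm0 : m1 ≠ 0 := by omega
  set B : ℕ := τ.2.2.natAbs * τ'.2.2.natAbs * (τ.1 * τ.2.1 * (τ'.1 * τ'.2.1)) with hB
  have hrn : τ.2.2.natAbs ≠ 0 := Int.natAbs_ne_zero.2 hr
  have hrn' : τ'.2.2.natAbs ≠ 0 := Int.natAbs_ne_zero.2 hr'
  have hB0 : B ≠ 0 := by
    rw [hB]
    exact mul_ne_zero (mul_ne_zero hrn hrn') (mul_ne_zero (mul_ne_zero hp1.ne_zero hp2.ne_zero)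
      (mul_ne_zero hp3.ne_zero hp4.ne_zero))
  obtain ⟨k, hk⟩ := pt_dvd B m1 hm0
  set s : ℕ := pt B m1 with hs
  have hs1 : 1 ≤ s := pt_pos B m1
  have hk1 : 1 ≤ k := by
    rcases Nat.eq_zero_or_pos k with h | h
    · exfalso
      apply hm0
      rw [hk, h, mul_zero]
    · exact h
  have hdiv : m1 / s = k := by
    rw [hk]
    exact Nat.mul_div_cancel_left k hs1
  have hcp := pt_coprime B m1 hB0 hm0
  rw [← hs, hdiv] at hcp
  have hcop : Nat.Coprime k (τ.2.2.natAbs * τ'.2.2.natAbs * (τ.1 * τ.2.1 * (τ'.1 * τ'.2.1)) * s) :=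
    Nat.Coprime.mul_right hcp.1 hcp.2
  -- the modulus
  have hlcm : 1 ≤ Nat.lcm τ.2.2.natAbs τ'.2.2.natAbs :=
    Nat.lcm_pos (Nat.pos_of_ne_zero hrn) (Nat.pos_of_ne_zero hrn')
  have hpp : 1 ≤ τ.1 * τ'.1 := Nat.mul_pos hp1.pos hp3.pos
  have hMs : s ≤ M0 τ τ' s := by
    unfold M0
    calc s = 1 * (s * 1) := by ring
      _ ≤ _ := Nat.mul_le_mul hlcm (Nat.mul_le_mul le_rfl hpp)
  have hM1 : 1 ≤ M0 τ τ' s := hs1.trans hMs
  have hmII : s * k ∈ II N := by rw [← hk]; exact hm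
  -- decomposition
  rw [in3_classes N (M0 τ τ' s) hM1]
  have hCS : ∑ ρ ∈ range (M0 τ τ' s), ∑ t ∈ (range (2 * N + 2)).filter (fun t => ρ + M0 τ τ' s * t ∈ II N),
      gg F η N τ m1 (ρ + M0 τ τ' s * t) * (starRingEnd ℂ) (gg F η N τ' m1 (ρ + M0 τ τ' s * t)) =
      ∑ ρ ∈ range (M0 τ τ' s), CS F η N τ τ' m1 s ρ := rfl
  rw [hCS]
  set X : ℝ := 3001 * (((N + 1 : ℝ) / (M0 τ τ' s) + 1) / k + 3 + Real.log k) *
        ((tau k : ℝ) ^ 3 * Real.sqrt ((Int.gcd (K0 η τ τ') k : ℝ) * k)) with hX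
  have hkR : (1 : ℝ) ≤ k := by exact_mod_cast hk1
  have hsR : (1 : ℝ) ≤ s := by exact_mod_cast hs1
  have hMR : (1 : ℝ) ≤ M0 τ τ' s := by exact_mod_cast hM1
  have hlogk : 0 ≤ Real.log k := Real.log_nonneg hkR
  have hX0 : 0 ≤ X := by
    rw [hX]
    positivity
  have hsum : ‖∑ ρ ∈ range (M0 τ τ' s), CS F η N τ τ' m1 s ρ‖ ≤ ((s * (τ.1 * τ'.1) : ℕ) : ℝ) * X := by
    have h1 : ∑ ρ ∈ range (M0 τ τ' s), CS F η N τ τ' m1 s ρ =
        ∑ ρ ∈ (range (M0 τ τ' s)).filter (fun ρ => CS F η N τ τ' m1 s ρ ≠ 0), CS F η N τ τ' m1 s ρ :=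
      (Finset.sum_filter_ne_zero _).symm
    rw [h1]
    refine (norm_sum_le _ _).trans ?_
    have h2 : ∑ ρ ∈ (range (M0 τ τ' s)).filter (fun ρ => CS F η N τ τ' m1 s ρ ≠ 0), ‖CS F η N τ τ' m1 s ρ‖ ≤
        ∑ _ρ ∈ (range (M0 τ τ' s)).filter (fun ρ => CS F η N τ τ' m1 s ρ ≠ 0), X := by
      refine Finset.sum_le_sum fun ρ hρ => ?_
      have h3 := cls_bound3 N P hN hP η hη F hF τ τ' hτ hτ' s k hs1 hk1 hmII hr hr' hcop ρ
        (mem_range.1 (mem_filter.1 hρ).1) _ (hW k hk1 (K0 η τ τ'))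
      rw [← hk] at h3
      exact h3
    refine h2.trans ?_
    rw [Finset.sum_const, nsmul_eq_mul]
    refine mul_le_mul_of_nonneg_right ?_ hX0
    exact_mod_cast cls_card N P η F τ τ' hτ hτ' m1 s hs1 hr hr'
  refine hsum.trans ?_
  -- the factor before the root
  have hfac : ((N + 1 : ℝ) / (M0 τ τ' s) + 1) / k + 3 + Real.log k ≤ 7 * (Real.log N + 1) := by
    have h1 : (N + 1 : ℝ) / (M0 τ τ' s) / k ≤ 1 := by
      rw [div_div, div_le_one (by positivity)]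
      have h2 : (N + 1 : ℝ) ≤ s * k := by
        rw [hk] at hm1
        exact_mod_cast hm1
      refine h2.trans (mul_le_mul_of_nonneg_right ?_ (by positivity))
      exact_mod_cast hMs
    have h2 : (1 : ℝ) / k ≤ 1 := by
      rw [div_le_one (by positivity)]
      exact hkR
    have h3 : Real.log k ≤ Real.log N + 2 := by
      have h4 : (k : ℝ) ≤ 3 * N := by
        have h5 : k ≤ 3 * N := by
          have : k ≤ m1 := by
            rw [hk]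
            exact Nat.le_mul_of_pos_left k hs1
          omega
        exact_mod_cast h5
      have h6 : Real.log k ≤ Real.log (3 * N) := Real.log_le_log (by positivity) h4
      rw [Real.log_mul (by norm_num) (by positivity)] at h6
      have h7 : Real.log 3 ≤ 2 := by
        have := Real.log_le_sub_one_of_pos (show (0 : ℝ) < 3 by norm_num)
        linarith only [this]
      linarith
    rw [add_div]
    linarith
  -- the root
  have hsg : s * Int.gcd (K0 η τ τ') k ≤ pt (B0 η τ τ') m1 := by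
    refine Nat.le_of_dvd (pt_pos _ _) (dvd_pt _ _ _ hm0 ?_ ?_)
    · rw [hk]
      refine Nat.mul_dvd_mul_left s ?_
      have := Int.gcd_dvd_right (K0 η τ τ') (k : ℤ)
      exact_mod_cast this
    · intro p hp hpd
      rcases (Nat.Prime.dvd_mul hp).1 hpd with h | h
      · have h1 : p ∣ B := in3_prime_pt hp h
        refine h1.trans ?_
        rw [hB]
        unfold B0
        exact ⟨(K0 η τ τ').natAbs, by ring⟩
      · have h1 : ((p : ℕ) : ℤ) ∣ K0 η τ τ' := by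
          refine (Int.natCast_dvd_natCast.2 h).trans ?_
          exact Int.gcd_dvd_left (K0 η τ τ') (k : ℤ)
        have h2 : p ∣ (K0 η τ τ').natAbs := Int.natCast_dvd.1 h1
        refine h2.trans ?_
        unfold B0
        rw [mul_assoc]
        exact Dvd.intro _ rfl
  have htau : tau k ≤ tau m1 := by
    unfold tau
    refine Finset.card_le_card (Nat.divisors_subset_of_dvd hm0 ?_)
    rw [hk]
    exact Nat.dvd_mul_left k s
  have hm3 : (m1 : ℝ) ≤ 3 * N := by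
    have : m1 ≤ 3 * N := by omega
    exact_mod_cast this
  have hsgR : (s : ℝ) * (Int.gcd (K0 η τ τ') k : ℝ) ≤ ((pt (B0 η τ τ') m1 : ℕ) : ℝ) := by
    exact_mod_cast hsg
  have htauR : (tau k : ℝ) ≤ tau m1 := by exact_mod_cast htau
  have hroot : (s : ℝ) * ((tau k : ℝ) ^ 3 * Real.sqrt ((Int.gcd (K0 η τ τ') k : ℝ) * k)) ≤
      3 * ((N : ℝ) ^ ((1 : ℝ) / 2) * ((pt (B0 η τ τ') m1 : ℕ) : ℝ) ^ ((1 : ℝ) / 2) *
        (tau m1 : ℝ) ^ (3 : ℕ)) := by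
    have e1 : (s : ℝ) * Real.sqrt ((Int.gcd (K0 η τ τ') k : ℝ) * k) ≤
        3 * ((N : ℝ) ^ ((1 : ℝ) / 2) * ((pt (B0 η τ τ') m1 : ℕ) : ℝ) ^ ((1 : ℝ) / 2)) := by
      rw [← Real.sqrt_eq_rpow, ← Real.sqrt_eq_rpow]
      have f1 : (s : ℝ) * Real.sqrt ((Int.gcd (K0 η τ τ') k : ℝ) * k) =
          Real.sqrt (((s : ℝ) * (Int.gcd (K0 η τ τ') k : ℝ)) * m1) := by
        have g1 : (m1 : ℝ) = s * k := by exact_mod_cast hk
        rw [g1, show ((s : ℝ) * (Int.gcd (K0 η τ τ') k : ℝ)) * (s * k) =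
          (s : ℝ) ^ 2 * ((Int.gcd (K0 η τ τ') k : ℝ) * k) by ring,
          Real.sqrt_mul (show (0 : ℝ) ≤ (s : ℝ) ^ 2 by positivity), Real.sqrt_sq (by positivity)]
      have f2 : 3 * (Real.sqrt (N : ℝ) * Real.sqrt ((pt (B0 η τ τ') m1 : ℕ) : ℝ)) =
          Real.sqrt (9 * ((N : ℝ) * ((pt (B0 η τ τ') m1 : ℕ) : ℝ))) := by
        rw [Real.sqrt_mul (by norm_num), show (9 : ℝ) = 3 ^ 2 by norm_num,
          Real.sqrt_sq (by norm_num), Real.sqrt_mul (by positivity)]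
      rw [f1, f2]
      refine Real.sqrt_le_sqrt ?_
      calc ((s : ℝ) * (Int.gcd (K0 η τ τ') k : ℝ)) * m1
          ≤ ((pt (B0 η τ τ') m1 : ℕ) : ℝ) * (3 * N) :=
            mul_le_mul hsgR hm3 (by positivity) (by positivity)
        _ ≤ 9 * ((N : ℝ) * ((pt (B0 η τ τ') m1 : ℕ) : ℝ)) := by
            have : 0 ≤ (N : ℝ) * ((pt (B0 η τ τ') m1 : ℕ) : ℝ) := by positivity
            nlinarith only [this]
    have e2 : (tau k : ℝ) ^ 3 ≤ (tau m1 : ℝ) ^ (3 : ℕ) :=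
      pow_le_pow_left₀ (by positivity) htauR 3
    calc (s : ℝ) * ((tau k : ℝ) ^ 3 * Real.sqrt ((Int.gcd (K0 η τ τ') k : ℝ) * k))
        = ((s : ℝ) * Real.sqrt ((Int.gcd (K0 η τ τ') k : ℝ) * k)) * (tau k : ℝ) ^ 3 := by ring
      _ ≤ (3 * ((N : ℝ) ^ ((1 : ℝ) / 2) * ((pt (B0 η τ τ') m1 : ℕ) : ℝ) ^ ((1 : ℝ) / 2))) *
          (tau m1 : ℝ) ^ (3 : ℕ) := mul_le_mul e1 e2 (by positivity) (by positivity)
      _ = _ := by ring
  have hp13 : ((τ.1 * τ'.1 : ℕ) : ℝ) ≤ 16 * (P : ℝ) ^ 2 := by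
    have : τ.1 * τ'.1 ≤ (4 * P) * (4 * P) := Nat.mul_le_mul hp1' hp3'
    calc ((τ.1 * τ'.1 : ℕ) : ℝ) ≤ (((4 * P) * (4 * P) : ℕ) : ℝ) := by exact_mod_cast this
      _ = 16 * (P : ℝ) ^ 2 := by push_cast; ring
  set Y : ℝ := (N : ℝ) ^ ((1 : ℝ) / 2) * ((pt (B0 η τ τ') m1 : ℕ) : ℝ) ^ ((1 : ℝ) / 2) *
        (tau m1 : ℝ) ^ (3 : ℕ) with hY
  have hY0 : 0 ≤ Y := by rw [hY]; positivity
  have hfac0 : 0 ≤ ((N + 1 : ℝ) / (M0 τ τ' s) + 1) / k + 3 + Real.log k := by positivity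
  have hroot0 : 0 ≤ (s : ℝ) * ((tau k : ℝ) ^ 3 * Real.sqrt ((Int.gcd (K0 η τ τ') k : ℝ) * k)) := by
    positivity
  calc ((s * (τ.1 * τ'.1) : ℕ) : ℝ) * X
      = 3001 * (((τ.1 * τ'.1 : ℕ) : ℝ)) * ((((N + 1 : ℝ) / (M0 τ τ' s) + 1) / k + 3 + Real.log k) *
        ((s : ℝ) * ((tau k : ℝ) ^ 3 * Real.sqrt ((Int.gcd (K0 η τ τ') k : ℝ) * k)))) := by
        rw [hX]
        push_cast
        ring
    _ ≤ 3001 * (16 * (P : ℝ) ^ 2) * ((7 * (Real.log N + 1)) * (3 * Y)) := by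
        refine mul_le_mul ?_ (mul_le_mul hfac hroot hroot0 (by positivity)) (mul_nonneg hfac0 hroot0) (by positivity)
        exact mul_le_mul_of_nonneg_left hp13 (by norm_num)
    _ ≤ 10 ^ 7 * (P : ℝ) ^ 2 * (Real.log N + 1) * Y := by
        have : 0 ≤ (P : ℝ) ^ 2 * (Real.log N + 1) * Y := by positivity
        nlinarith only [hR0]
    _ = _ := by
        rw [hY]
        ring

end Pool.Agent.H35.WL
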