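import Mathlib

/-!
# WL-La: the multiplicative function on monic polynomials

`MD p d`: the monic polynomials of degree `d` over `F_p`.  `lam ψ a b g = ψ(-a g_{d-1} - b g_1/g_0)`
if `g_0 ≠ 0`, and `0` if `g_0 = 0`: for `g = ∏ (X - x_i)` it is `∏ ψ(a x_i + b/x_i)`.
`lam_mul`: `Polynomial.Monic.nextCoeff_mul`; `(gh)_1/(gh)_0 = g_1/g_0 + h_1/h_0`.
-/

set_option autoImplicit false

namespace Pool.Agent.H35.WL

open Finset Polynomial

/-- the monic polynomials of degree `d` -/
noncomputable def MD (p : ℕ) [Fact p.Prime] (d : ℕ) : Finset (ZMod p)[X] := by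
  classical
  exact (univ : Finset (Fin d → ZMod p)).image (fun c => X ^ d + ∑ i : Fin d, C (c i) * X ^ (i : ℕ))

/-- the multiplicative function of the Kloosterman sum -/
noncomputable def lam {p : ℕ} [Fact p.Prime] (ψ : AddChar (ZMod p) ℂ) (a b : ZMod p)
    (g : (ZMod p)[X]) : ℂ := by
  classical
  exact if g.coeff 0 = 0 then 0 else ψ (-(a * g.nextCoeff) - b * (g.coeff 1 / g.coeff 0))

theorem mem_MD {p : ℕ} [Fact p.Prime] {d : ℕ} {g : (ZMod p)[X]} :
    g ∈ MD p d ↔ g.Monic ∧ g.natDegree = d := by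
  classical
  unfold MD
  rw [Finset.mem_image]
  constructor
  · rintro ⟨c, -, rfl⟩
    have hdeg : degree (∑ i : Fin d, C (c i) * X ^ (i : ℕ)) < (d : WithBot ℕ) :=
      degree_sum_fin_lt c
    refine ⟨monic_X_pow_add hdeg, natDegree_eq_of_degree_eq_some ?_⟩
    rw [degree_add_eq_left_of_degree_lt (by rw [degree_X_pow]; exact hdeg), degree_X_pow]
  · rintro ⟨hm, hd⟩
    refine ⟨fun i => g.coeff i, Finset.mem_univ _, ?_⟩
    have h := hm.as_sum
    rw [hd, Finset.sum_range] at h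
    exact h.symm

theorem lam_one {p : ℕ} [Fact p.Prime] (ψ : AddChar (ZMod p) ℂ) (a b : ZMod p) :
    lam ψ a b 1 = 1 := by
  classical
  have h1 : (1 : (ZMod p)[X]).nextCoeff = 0 := by
    rw [← C_1]
    exact nextCoeff_C_eq_zero 1
  have h2 : (1 : (ZMod p)[X]).coeff 1 = 0 := by
    simp [coeff_one]
  unfold lam
  rw [if_neg (by simp), h1, h2]
  simp

theorem lam_mul {p : ℕ} [Fact p.Prime] (ψ : AddChar (ZMod p) ℂ) (a b : ZMod p)
    (g h : (ZMod p)[X]) (hg : g.Monic) (hh : h.Monic) :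
    lam ψ a b (g * h) = lam ψ a b g * lam ψ a b h := by
  classical
  by_cases g0 : g.coeff 0 = 0
  · have h0 : (g * h).coeff 0 = 0 := by rw [mul_coeff_zero, g0, zero_mul]
    unfold lam
    rw [if_pos h0, if_pos g0, zero_mul]
  · by_cases h0 : h.coeff 0 = 0
    · have gh0 : (g * h).coeff 0 = 0 := by rw [mul_coeff_zero, h0, mul_zero]
      unfold lam
      rw [if_pos gh0, if_pos h0, mul_zero]
    · have gh0 : (g * h).coeff 0 ≠ 0 := by
        rw [mul_coeff_zero]
        exact mul_ne_zero g0 h0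
      unfold lam
      rw [if_neg gh0, if_neg g0, if_neg h0, ← AddChar.map_add_eq_mul]
      congr 1
      rw [hg.nextCoeff_mul hh, mul_coeff_zero, mul_coeff_one]
      field_simp
      ring

end Pool.Agent.H35.WL
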