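import Pool.Agent.H35.WL.La

/-!
# WL-Lb: the sums of `lam` over the monic polynomials of degree `d`

`A_0 = 1`; `A_1 = K`; `A_2 = ∑_{g_0 ≠ 0} ψ-sum over g_1 of ψ(-g_1 (a + b/g_0)) = p` (only
`g_0 = -b/a`); `A_d = 0` for `d ≥ 3`, because `g_{d-1}` is free and independent of `g_1, g_0` and
`∑_t ψ(-a t) = 0`.  Here `MD p d` is the injective image of the coefficient vectors.
-/

set_option autoImplicit false

namespace Pool.Agent.H35.WL

open Finset Polynomial

/-- the sum of `lam` over the monic polynomials of degree `d` -/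
noncomputable def AL {p : ℕ} [Fact p.Prime] (ψ : AddChar (ZMod p) ℂ) (a b : ZMod p) (d : ℕ) : ℂ :=
  ∑ g ∈ MD p d, lam ψ a b g

/-- the Kloosterman sum over `F_p` -/
noncomputable def KZ {p : ℕ} [Fact p.Prime] (ψ : AddChar (ZMod p) ℂ) (a b : ZMod p) : ℂ :=
  ∑ x : (ZMod p)ˣ, ψ (a * (x : ZMod p) + b * ((x⁻¹ : (ZMod p)ˣ) : ZMod p))

private noncomputable def mk {p : ℕ} [Fact p.Prime] {d : ℕ} (c : Fin d → ZMod p) : (ZMod p)[X] :=
  X ^ d + ∑ i : Fin d, C (c i) * X ^ (i : ℕ)

private lemma mk_coeff_lt {p : ℕ} [Fact p.Prime] {d : ℕ} (c : Fin d → ZMod p) (j : Fin d) :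
    (mk c).coeff (j : ℕ) = c j := by
  unfold mk
  rw [coeff_add, finsetSum_coeff]
  have h1 : ((X : (ZMod p)[X]) ^ d).coeff (j : ℕ) = 0 := by
    rw [coeff_X_pow, if_neg (by have := j.2; omega)]
  rw [h1, zero_add, Finset.sum_eq_single j]
  · rw [coeff_C_mul, coeff_X_pow, if_pos rfl, mul_one]
  · intro i _ hij
    rw [coeff_C_mul, coeff_X_pow, if_neg, mul_zero]
    intro h
    exact hij (Fin.ext h.symm)
  · intro h
    exact absurd (Finset.mem_univ j) h

private lemma mk_mem {p : ℕ} [Fact p.Prime] {d : ℕ} (c : Fin d → ZMod p) : mk c ∈ MD p d := by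
  classical
  unfold MD
  exact Finset.mem_image_of_mem _ (Finset.mem_univ c)

private lemma mk_inj {p : ℕ} [Fact p.Prime] {d : ℕ} :
    Function.Injective (mk : (Fin d → ZMod p) → (ZMod p)[X]) := by
  intro c c' h
  funext j
  rw [← mk_coeff_lt c j, ← mk_coeff_lt c' j, h]

private lemma al_eq {p : ℕ} [Fact p.Prime] (ψ : AddChar (ZMod p) ℂ) (a b : ZMod p) (d : ℕ) :
    AL ψ a b d = ∑ c : Fin d → ZMod p, lam ψ a b (mk c) := by
  classical
  unfold AL MD
  rw [Finset.sum_image]
  · rfl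
  · intro c _ c' _ h
    exact mk_inj h

private lemma lam_of {p : ℕ} [Fact p.Prime] (ψ : AddChar (ZMod p) ℂ) (a b : ZMod p)
    (g : (ZMod p)[X]) (u v w : ZMod p) (hu : g.coeff 0 = u) (hv : g.coeff 1 = v)
    (hw : g.nextCoeff = w) :
    lam ψ a b g = if u = 0 then 0 else ψ (-(a * w) - b * (v / u)) := by
  subst hu hv hw
  unfold lam
  split_ifs <;> rfl

private lemma mk_next {p : ℕ} [Fact p.Prime] {d : ℕ} (c : Fin d → ZMod p) (j : Fin d)
    (hj : (j : ℕ) + 1 = d) : (mk c).nextCoeff = c j := by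
  have hd := (mem_MD.mp (mk_mem c)).2
  rw [nextCoeff_of_natDegree_pos (by rw [hd]; omega), hd]
  have : d - 1 = (j : ℕ) := by omega
  rw [this, mk_coeff_lt]

private lemma sum_units {p : ℕ} [Fact p.Prime] (f : ZMod p → ℂ) :
    ∑ x : ZMod p, (if x = 0 then 0 else f x) = ∑ x : (ZMod p)ˣ, f (x : ZMod p) := by
  classical
  have h1 : ∑ x : ZMod p, (if x = 0 then 0 else f x)
      = ∑ x ∈ (Finset.univ : Finset (ZMod p)).filter (fun x => x ≠ 0), f x := by
    rw [Finset.sum_filter]
    refine Finset.sum_congr rfl (fun x _ => ?_)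
    by_cases h : x = 0
    · simp [h]
    · simp [h]
  rw [h1]
  symm
  refine Finset.sum_bij (fun (x : (ZMod p)ˣ) _ => (x : ZMod p)) ?_ ?_ ?_ ?_
  · intro x _
    simp
  · intro x _ y _ h
    exact Units.ext h
  · intro x hx
    have hx' : x ≠ 0 := by simpa using hx
    exact ⟨Units.mk0 x hx', Finset.mem_univ _, rfl⟩
  · intro x _
    rfl

private lemma sum_char {p : ℕ} [Fact p.Prime] (ψ : AddChar (ZMod p) ℂ) (hψ : ψ ≠ 1) (w : ZMod p) :
    ∑ x : ZMod p, ψ (x * w) = if w = 0 then (p : ℂ) else 0 := by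
  classical
  by_cases hw : w = 0
  · simp [hw, ZMod.card]
  · rw [if_neg hw]
    have h1 : ∑ x : ZMod p, ψ (x * w) = ∑ x : ZMod p, ψ x :=
      Fintype.sum_equiv (Equiv.mulRight₀ w hw) _ _ (fun x => rfl)
    rw [h1]
    exact (AddChar.sum_eq_zero_iff_ne_zero).mpr hψ

theorem al_zero {p : ℕ} [Fact p.Prime] (ψ : AddChar (ZMod p) ℂ) (a b : ZMod p) :
    AL ψ a b 0 = 1 := by
  rw [al_eq]
  have h : ∀ c : Fin 0 → ZMod p, lam ψ a b (mk c) = 1 := by
    intro c
    have : mk c = 1 := by
      unfold mk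
      simp
    rw [this, lam_one]
  rw [Finset.sum_congr rfl (fun c _ => h c)]
  simp

theorem al_one {p : ℕ} [Fact p.Prime] (ψ : AddChar (ZMod p) ℂ) (a b : ZMod p) :
    AL ψ a b 1 = KZ ψ a b := by
  classical
  rw [al_eq]
  have h : ∀ c : Fin 1 → ZMod p, lam ψ a b (mk c)
      = if c 0 = 0 then 0 else ψ (-(a * c 0) - b * (1 / c 0)) := by
    intro c
    have hd := mem_MD.mp (mk_mem c)
    refine lam_of ψ a b _ _ _ _ (mk_coeff_lt c 0) ?_ (mk_next c 0 (by simp))
    have h2 := hd.1.coeff_natDegree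
    rw [hd.2] at h2
    exact h2
  rw [Finset.sum_congr rfl (fun c _ => h c)]
  have h3 : ∑ c : Fin 1 → ZMod p, (if c 0 = 0 then 0 else ψ (-(a * c 0) - b * (1 / c 0)))
      = ∑ x : ZMod p, (if x = 0 then 0 else ψ (-(a * x) - b * (1 / x))) :=
    Fintype.sum_equiv (Equiv.funUnique (Fin 1) (ZMod p)) _ _ (fun c => rfl)
  rw [h3, sum_units (fun x => ψ (-(a * x) - b * (1 / x)))]
  unfold KZ
  refine Fintype.sum_equiv (Equiv.neg (ZMod p)ˣ) _ _ (fun x => ?_)
  congr 1
  rw [Equiv.neg_apply, inv_neg, Units.val_neg, Units.val_neg, Units.val_inv_eq_inv_val]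
  ring

theorem al_two {p : ℕ} [Fact p.Prime] (ψ : AddChar (ZMod p) ℂ) (hψ : ψ ≠ 1) (a b : ZMod p)
    (ha : a ≠ 0) (hb : b ≠ 0) : AL ψ a b 2 = p := by
  classical
  rw [al_eq]
  have h : ∀ c : Fin 2 → ZMod p, lam ψ a b (mk c)
      = if c 0 = 0 then 0 else ψ (-(a * c 1) - b * (c 1 / c 0)) := by
    intro c
    exact lam_of ψ a b _ _ _ _ (mk_coeff_lt c 0) (mk_coeff_lt c 1) (mk_next c 1 (by simp))
  rw [Finset.sum_congr rfl (fun c _ => h c)]
  have h3 : ∑ c : Fin 2 → ZMod p, (if c 0 = 0 then 0 else ψ (-(a * c 1) - b * (c 1 / c 0)))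
      = ∑ x : ZMod p × ZMod p, (if x.1 = 0 then 0 else ψ (-(a * x.2) - b * (x.2 / x.1))) :=
    Fintype.sum_equiv (finTwoArrowEquiv (ZMod p)) _ _ (fun c => rfl)
  rw [h3, Fintype.sum_prod_type]
  have h4 : ∀ x : ZMod p, ∑ y : ZMod p,
      (if (x, y).1 = 0 then 0 else ψ (-(a * (x, y).2) - b * ((x, y).2 / (x, y).1)))
        = if x = -(b / a) then (p : ℂ) else 0 := by
    intro x
    by_cases hx : x = 0
    · have hne : ¬ (x = -(b / a)) := by
        rw [hx]
        intro h0
        have : b / a = 0 := by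
          have := congrArg Neg.neg h0
          simpa using this.symm
        exact (div_ne_zero hb ha) this
      rw [if_neg hne]
      refine Finset.sum_eq_zero (fun y _ => ?_)
      rw [if_pos hx]
    · have h5 : ∀ y : ZMod p,
          (if (x, y).1 = 0 then 0 else ψ (-(a * (x, y).2) - b * ((x, y).2 / (x, y).1)))
            = ψ (y * (-(a + b / x))) := by
        intro y
        rw [if_neg hx]
        congr 1
        field_simp
        try ring
      rw [Finset.sum_congr rfl (fun y _ => h5 y), sum_char ψ hψ]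
      have h6 : (-(a + b / x) = 0) ↔ x = -(b / a) := by
        rw [neg_eq_zero]
        constructor
        · intro h0
          have h7 : a * x + b = 0 := by
            have := congrArg (fun t => t * x) h0
            simp only [zero_mul] at this
            rw [add_mul, div_mul_cancel₀ b hx] at this
            exact this
          rw [eq_neg_iff_add_eq_zero]
          have h8 : a * (x + b / a) = 0 := by
            rw [mul_add, mul_div_cancel₀ b ha]
            exact h7
          exact (mul_eq_zero.mp h8).resolve_left ha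
        · intro h0
          have h7 : a * x + b = 0 := by
            rw [h0]
            field_simp
            try ring
          have h8 : (a + b / x) * x = 0 := by
            rw [add_mul, div_mul_cancel₀ b hx]
            exact h7
          exact (mul_eq_zero.mp h8).resolve_right hx
      by_cases h9 : x = -(b / a)
      · rw [if_pos h9, if_pos (h6.mpr h9)]
      · rw [if_neg h9, if_neg (fun h0 => h9 (h6.mp h0))]
  rw [Finset.sum_congr rfl (fun x _ => h4 x), Finset.sum_ite_eq' Finset.univ (-(b / a)),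
    if_pos (Finset.mem_univ _)]

theorem al_large {p : ℕ} [Fact p.Prime] (ψ : AddChar (ZMod p) ℂ) (hψ : ψ ≠ 1) (a b : ZMod p)
    (ha : a ≠ 0) (d : ℕ) (hd : 3 ≤ d) : AL ψ a b d = 0 := by
  classical
  rw [al_eq]
  obtain ⟨s, hs⟩ : ∃ s, ψ s ≠ 1 := by
    by_contra hcon
    push Not at hcon
    exact hψ (DFunLike.ext _ _ (fun s => by rw [hcon s, AddChar.one_apply]))
  set j0 : Fin d := ⟨0, by omega⟩ with hj0
  set j1 : Fin d := ⟨1, by omega⟩ with hj1
  set jl : Fin d := ⟨d - 1, by omega⟩ with hjl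
  have h : ∀ c : Fin d → ZMod p, lam ψ a b (mk c)
      = if c j0 = 0 then 0 else ψ (-(a * c jl) - b * (c j1 / c j0)) := by
    intro c
    exact lam_of ψ a b _ _ _ _ (mk_coeff_lt c j0) (mk_coeff_lt c j1)
      (mk_next c jl (by show d - 1 + 1 = d; omega))
  rw [Finset.sum_congr rfl (fun c _ => h c)]
  set v : Fin d → ZMod p := Pi.single jl (-(s / a)) with hv
  set S : ℂ := ∑ c : Fin d → ZMod p,
    (if c j0 = 0 then 0 else ψ (-(a * c jl) - b * (c j1 / c j0))) with hS
  have hn0 : j0 ≠ jl := by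
    intro h0
    have := congrArg Fin.val h0
    simp only [hj0, hjl] at this
    omega
  have hn1 : j1 ≠ jl := by
    intro h0
    have := congrArg Fin.val h0
    simp only [hj1, hjl] at this
    omega
  have hshift : S = ψ s * S := by
    have e1 : S = ∑ c : Fin d → ZMod p,
        (if (c + v) j0 = 0 then 0
          else ψ (-(a * (c + v) jl) - b * ((c + v) j1 / (c + v) j0))) :=
      (Fintype.sum_equiv (Equiv.addRight v) _ _ (fun c => rfl)).symm
    conv_lhs => rw [e1]
    rw [hS, Finset.mul_sum]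
    refine Finset.sum_congr rfl (fun c _ => ?_)
    have v0 : v j0 = 0 := by rw [hv, Pi.single_eq_of_ne hn0]
    have v1 : v j1 = 0 := by rw [hv, Pi.single_eq_of_ne hn1]
    have vl : v jl = -(s / a) := by rw [hv, Pi.single_eq_same]
    rw [Pi.add_apply, Pi.add_apply, Pi.add_apply, v0, v1, vl, add_zero, add_zero]
    by_cases hc : c j0 = 0
    · rw [if_pos hc, if_pos hc, mul_zero]
    · rw [if_neg hc, if_neg hc, ← AddChar.map_add_eq_mul]
      congr 1
      have : a * (s / a) = s := mul_div_cancel₀ s ha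
      linear_combination this
  have h2 : (1 - ψ s) * S = 0 := by
    rw [sub_mul, one_mul, ← hshift, sub_self]
  exact (mul_eq_zero.mp h2).resolve_left (sub_ne_zero.mpr (Ne.symm hs))

end Pool.Agent.H35.WL
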