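import Pool.Agent.H35.WL.Lb

/-!
# WL-Lc: Newton's identity for the L-function

`TM m = ∑_{k | m} ∑_{P monic irreducible, deg P = k} k lam(P)^{m/k}`.
For monic `g` of degree `d ≥ 1`: `d = ∑_{(P,j) : j ≥ 1, P^j | g} deg P` (unique factorization:
`∑_P v_P(g) deg P = d`), so
`d A_d = ∑_g lam(g) ∑_{(P,j), P^j | g} deg P = ∑_{(P,j)} deg P ∑_{h ∈ MD (d - j deg P)} lam(P)^j lam(h)
= ∑_{m=1}^d TM m · A_{d-m}` (`g = P^j h`, `m = j deg P`).
-/

set_option autoImplicit false

namespace Pool.Agent.H35.WL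

open Finset Polynomial

/-- the power sums of the L-function -/
noncomputable def TM {p : ℕ} [Fact p.Prime] (ψ : AddChar (ZMod p) ℂ) (a b : ZMod p) (m : ℕ) : ℂ := by
  classical
  exact ∑ k ∈ m.divisors, ∑ P ∈ (MD p k).filter (fun P => Irreducible P),
    (k : ℂ) * lam ψ a b P ^ (m / k)

/-- the monic irreducible polynomials of degree `k` -/
private noncomputable def lcI (p : ℕ) [Fact p.Prime] (k : ℕ) : Finset (ZMod p)[X] := by
  classical
  exact (MD p k).filter (fun P => Irreducible P)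

private theorem lcI_mem {p : ℕ} [Fact p.Prime] {k : ℕ} {P : (ZMod p)[X]} :
    P ∈ lcI p k ↔ (P.Monic ∧ P.natDegree = k) ∧ Irreducible P := by
  classical
  unfold lcI
  rw [Finset.mem_filter, mem_MD]

/-- the indicator function of divisibility -/
private noncomputable def lcE {p : ℕ} [Fact p.Prime] (Q g : (ZMod p)[X]) : ℂ := by
  classical
  exact if Q ∣ g then 1 else 0

private theorem lc_pow {p : ℕ} [Fact p.Prime] (ψ : AddChar (ZMod p) ℂ) (a b : ZMod p)
    {P : (ZMod p)[X]} (hP : P.Monic) (j : ℕ) : lam ψ a b (P ^ j) = lam ψ a b P ^ j := by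
  induction j with
  | zero => rw [pow_zero, pow_zero, lam_one]
  | succ j ih => rw [pow_succ, pow_succ, lam_mul ψ a b _ _ (hP.pow j) hP, ih]

/-- the polynomials divisible by `P ^ j` -/
private theorem lc_div {p : ℕ} [Fact p.Prime] (ψ : AddChar (ZMod p) ℂ) (a b : ZMod p)
    {P : (ZMod p)[X]} (hP : P.Monic) {d j : ℕ} (h : j * P.natDegree ≤ d) :
    ∑ g ∈ MD p d, lcE (P ^ j) g * lam ψ a b g =
      lam ψ a b P ^ j * AL ψ a b (d - j * P.natDegree) := by
  classical
  have h1 : ∀ g : (ZMod p)[X], lcE (P ^ j) g * lam ψ a b g =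
      if P ^ j ∣ g then lam ψ a b g else 0 := by
    intro g
    unfold lcE
    split_ifs with h2
    · rw [one_mul]
    · rw [zero_mul]
  rw [Finset.sum_congr rfl fun g _ => h1 g, ← Finset.sum_filter]
  unfold AL
  rw [Finset.mul_sum]
  symm
  refine Finset.sum_bij (fun g _ => P ^ j * g) ?_ ?_ ?_ ?_
  · intro g hg
    rw [mem_MD] at hg
    rw [Finset.mem_filter, mem_MD]
    refine ⟨⟨(hP.pow j).mul hg.1, ?_⟩, dvd_mul_right _ _⟩
    rw [(hP.pow j).natDegree_mul hg.1, hP.natDegree_pow, hg.2]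
    omega
  · intro g _ g' _ hgg
    exact mul_left_cancel₀ (hP.pow j).ne_zero hgg
  · intro g hg
    rw [Finset.mem_filter, mem_MD] at hg
    obtain ⟨⟨hg1, hg2⟩, g', rfl⟩ := hg
    have hg3 : g'.Monic := (hP.pow j).of_mul_monic_left hg1
    refine ⟨g', ?_, rfl⟩
    rw [mem_MD]
    refine ⟨hg3, ?_⟩
    rw [(hP.pow j).natDegree_mul hg3, hP.natDegree_pow] at hg2
    omega
  · intro g hg
    rw [mem_MD] at hg
    rw [lam_mul ψ a b _ _ (hP.pow j) hg.1, lc_pow ψ a b hP]

/-- the number of the powers of `P` which divide `g` -/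
private theorem lc_count {p : ℕ} [Fact p.Prime] {g P : (ZMod p)[X]} (hg : g.Monic)
    (hP : P.Monic) (hPi : Irreducible P) :
    ∑ m ∈ (Icc 1 g.natDegree).filter (fun m => P.natDegree ∣ m), lcE (P ^ (m / P.natDegree)) g =
      ((UniqueFactorizationMonoid.normalizedFactors g).count P : ℂ) := by
  classical
  have hk : 0 < P.natDegree := hPi.natDegree_pos
  have hc : ∀ j : ℕ, P ^ j ∣ g ↔ j ≤ (UniqueFactorizationMonoid.normalizedFactors g).count P := by
    intro j
    rw [pow_dvd_iff_le_emultiplicity,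
      UniqueFactorizationMonoid.emultiplicity_eq_count_normalizedFactors hPi hg.ne_zero,
      hP.normalize_eq_self, Nat.cast_le]
  have h1 : ((Icc 1 g.natDegree).filter (fun m => P.natDegree ∣ m)).filter
      (fun m => P ^ (m / P.natDegree) ∣ g) =
      (Icc 1 ((UniqueFactorizationMonoid.normalizedFactors g).count P)).image
        (fun j => P.natDegree * j) := by
    ext m
    simp only [Finset.mem_filter, Finset.mem_Icc, Finset.mem_image]
    constructor
    · rintro ⟨⟨⟨h1, _⟩, j, rfl⟩, h4⟩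
      rw [Nat.mul_div_cancel_left _ hk] at h4
      refine ⟨j, ⟨?_, (hc j).1 h4⟩, rfl⟩
      rcases Nat.eq_zero_or_pos j with hj | hj
      · rw [hj, mul_zero] at h1
        omega
      · exact hj
    · rintro ⟨j, ⟨hj1, hj2⟩, rfl⟩
      have h2 : P ^ j ∣ g := (hc j).2 hj2
      have h3 := Polynomial.natDegree_le_of_dvd h2 hg.ne_zero
      rw [hP.natDegree_pow, mul_comm] at h3
      refine ⟨⟨⟨Nat.mul_pos hk hj1, h3⟩, dvd_mul_right _ _⟩, ?_⟩
      rw [Nat.mul_div_cancel_left _ hk]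
      exact h2
  have h2 : ∀ m, lcE (P ^ (m / P.natDegree)) g =
      if P ^ (m / P.natDegree) ∣ g then (1 : ℂ) else 0 := by
    intro m
    unfold lcE
    split_ifs <;> rfl
  rw [Finset.sum_congr rfl fun m _ => h2 m, ← Finset.sum_filter, h1, Finset.sum_const,
    Finset.card_image_of_injective _ (fun i j hij => Nat.eq_of_mul_eq_mul_left hk hij),
    Nat.card_Icc, Nat.add_sub_cancel, nsmul_eq_mul, mul_one]

/-- the degree is the sum of the degrees of the prime factors -/
private theorem lc_deg {p : ℕ} [Fact p.Prime] {g : (ZMod p)[X]} (hg : g.Monic) :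
    ∑ m ∈ Icc 1 g.natDegree, ∑ k ∈ m.divisors, ∑ P ∈ lcI p k, (k : ℂ) * lcE (P ^ (m / k)) g =
      (g.natDegree : ℂ) := by
  classical
  have h1 : ∑ m ∈ Icc 1 g.natDegree, ∑ k ∈ m.divisors, ∑ P ∈ lcI p k,
      (k : ℂ) * lcE (P ^ (m / k)) g =
      ∑ k ∈ Icc 1 g.natDegree, ∑ m ∈ (Icc 1 g.natDegree).filter (fun m => k ∣ m),
        ∑ P ∈ lcI p k, (k : ℂ) * lcE (P ^ (m / k)) g := by
    refine Finset.sum_comm' fun m k => ?_
    simp only [Finset.mem_filter, Finset.mem_Icc, Nat.mem_divisors]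
    constructor
    · rintro ⟨⟨h1, h2⟩, h3, h4⟩
      have h5 := Nat.le_of_dvd h1 h3
      have h6 := Nat.pos_of_dvd_of_pos h3 h1
      exact ⟨⟨⟨h1, h2⟩, h3⟩, h6, h5.trans h2⟩
    · rintro ⟨⟨⟨h1, h2⟩, h3⟩, _, _⟩
      exact ⟨⟨h1, h2⟩, h3, by omega⟩
  rw [h1]
  have h2 : ∀ k ∈ Icc 1 g.natDegree, ∑ m ∈ (Icc 1 g.natDegree).filter (fun m => k ∣ m),
        ∑ P ∈ lcI p k, (k : ℂ) * lcE (P ^ (m / k)) g =
      ∑ P ∈ (UniqueFactorizationMonoid.normalizedFactors g).toFinset.filter
        (fun P => P.natDegree = k),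
        ((UniqueFactorizationMonoid.normalizedFactors g).count P • P.natDegree : ℂ) := by
    intro k _
    rw [Finset.sum_comm]
    have h3 : ∀ P ∈ lcI p k, ∑ m ∈ (Icc 1 g.natDegree).filter (fun m => k ∣ m),
        (k : ℂ) * lcE (P ^ (m / k)) g =
        ((UniqueFactorizationMonoid.normalizedFactors g).count P • P.natDegree : ℂ) := by
      intro P hP
      rw [lcI_mem] at hP
      obtain ⟨⟨hP1, rfl⟩, hP2⟩ := hP
      rw [← Finset.mul_sum, lc_count hg hP1 hP2, nsmul_eq_mul, mul_comm]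
    rw [Finset.sum_congr rfl h3]
    symm
    refine Finset.sum_subset ?_ ?_
    · intro P hP
      rw [Finset.mem_filter, Multiset.mem_toFinset] at hP
      rw [lcI_mem]
      have h4 := UniqueFactorizationMonoid.irreducible_of_normalized_factor P hP.1
      refine ⟨⟨?_, hP.2⟩, h4⟩
      rw [← UniqueFactorizationMonoid.normalize_normalized_factor P hP.1]
      exact Polynomial.monic_normalize h4.ne_zero
    · intro P hP hP2
      rw [lcI_mem] at hP
      have h4 : P ∉ UniqueFactorizationMonoid.normalizedFactors g := by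
        intro h5
        exact hP2 (Finset.mem_filter.2 ⟨Multiset.mem_toFinset.2 h5, hP.1.2⟩)
      rw [Multiset.count_eq_zero_of_notMem h4, zero_smul]
  rw [Finset.sum_congr rfl h2, Finset.sum_fiberwise_of_maps_to]
  · have h3 := Finset.sum_multiset_map_count (UniqueFactorizationMonoid.normalizedFactors g)
      (fun P => (P.natDegree : ℂ))
    rw [← h3]
    have h4 : (0 : (ZMod p)[X]) ∉ UniqueFactorizationMonoid.normalizedFactors g :=
      UniqueFactorizationMonoid.zero_notMem_normalizedFactors g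
    have h5 := Polynomial.natDegree_multiset_prod _ h4
    rw [UniqueFactorizationMonoid.prod_normalizedFactors_eq hg.ne_zero, hg.normalize_eq_self] at h5
    rw [h5, Nat.cast_multiset_sum, Multiset.map_map]
    rfl
  · intro P hP
    rw [Multiset.mem_toFinset] at hP
    rw [Finset.mem_Icc]
    have h4 := UniqueFactorizationMonoid.irreducible_of_normalized_factor P hP
    exact ⟨h4.natDegree_pos, Polynomial.natDegree_le_of_dvd
      (UniqueFactorizationMonoid.dvd_of_mem_normalizedFactors hP) hg.ne_zero⟩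

theorem newton {p : ℕ} [Fact p.Prime] (ψ : AddChar (ZMod p) ℂ) (a b : ZMod p) (d : ℕ)
    (hd : 1 ≤ d) :
    (d : ℂ) * AL ψ a b d = ∑ m ∈ Icc 1 d, TM ψ a b m * AL ψ a b (d - m) := by
  classical
  have hT : ∀ m, TM ψ a b m =
      ∑ k ∈ m.divisors, ∑ P ∈ lcI p k, (k : ℂ) * lam ψ a b P ^ (m / k) := fun m => rfl
  have h1 : (d : ℂ) * AL ψ a b d = ∑ g ∈ MD p d, ∑ m ∈ Icc 1 d, ∑ k ∈ m.divisors,
      ∑ P ∈ lcI p k, (k : ℂ) * (lcE (P ^ (m / k)) g * lam ψ a b g) := by
    unfold AL
    rw [Finset.mul_sum]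
    refine Finset.sum_congr rfl fun g hg => ?_
    rw [mem_MD] at hg
    obtain ⟨hg1, rfl⟩ := hg
    conv_lhs => rw [← lc_deg hg1, Finset.sum_mul]
    refine Finset.sum_congr rfl fun m _ => ?_
    rw [Finset.sum_mul]
    refine Finset.sum_congr rfl fun k _ => ?_
    rw [Finset.sum_mul]
    refine Finset.sum_congr rfl fun P _ => ?_
    ring
  rw [h1, Finset.sum_comm]
  refine Finset.sum_congr rfl fun m hm => ?_
  rw [hT, Finset.sum_comm, Finset.sum_mul]
  refine Finset.sum_congr rfl fun k hk => ?_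
  rw [Finset.sum_comm, Finset.sum_mul]
  refine Finset.sum_congr rfl fun P hP => ?_
  rw [lcI_mem] at hP
  rw [Finset.mem_Icc] at hm
  have hmk : m / k * P.natDegree = m := by
    rw [hP.1.2]
    exact Nat.div_mul_cancel (Nat.dvd_of_mem_divisors hk)
  have h2 := lc_div ψ a b hP.1.1 (d := d) (j := m / k) (by rw [hmk]; exact hm.2)
  rw [hmk] at h2
  rw [← Finset.mul_sum, h2, mul_assoc]

end Pool.Agent.H35.WL
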