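import Mathlib

/-!
# WL-Tr: sums over the elements of trace zero; the number of solutions of `a x + b/x = t`

`sum_trace_zero`: the map `y ↦ y^p - y` is additive with kernel the prime field (`p` elements, the roots
of `X^p - X`), so its image has `#E/p` elements and each has `p` preimages; the image is contained in
the kernel of the trace (`trace (y^p) = trace y`: `Algebra.trace_eq_of_algEquiv` with the Frobenius, or
the formula for the trace of finite fields), and the kernel of the trace has `#E/p` elements
(the trace is onto: `Algebra.trace_surjective`, or rank-nullity).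

`count_conic`: `x ≠ 0`, `a x + b/x = t` iff `a x² - t x + b = 0` (`b ≠ 0` excludes `x = 0`) iff
`(2 a x - t)² = t² - 4ab`; the number of square roots of `D` is `1 + χ(D)`
(`quadraticChar_card_sqrts`).
-/

set_option autoImplicit false

namespace Pool.Agent.H35.WL

open Finset

/-- the additive map `y ↦ y ^ p - y` -/
private noncomputable def TrWL_phi (p : ℕ) [Fact p.Prime] (E : Type*) [Field E]
    [Algebra (ZMod p) E] : E →+ E where
  toFun y := y ^ p - y
  map_zero' := by
    rw [zero_pow (Fact.out : p.Prime).ne_zero, sub_zero]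
  map_add' x y := by
    have : CharP E p := charP_of_injective_algebraMap (algebraMap (ZMod p) E).injective p
    rw [add_pow_char]
    ring

private theorem TrWL_ker (p : ℕ) [Fact p.Prime] (E : Type*) [Field E] [Fintype E] [DecidableEq E]
    [Algebra (ZMod p) E] : (univ.filter (fun y : E => y ^ p - y = 0)).card = p := by
  have hp : p.Prime := Fact.out
  have : CharP E p := charP_of_injective_algebraMap (algebraMap (ZMod p) E).injective p
  have h1 : univ.filter (fun y : E => y ^ p - y = 0) =
      (univ : Finset (ZMod p)).image (algebraMap (ZMod p) E) := by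
    symm
    apply Finset.eq_of_subset_of_card_le
    · intro y hy
      obtain ⟨c, -, rfl⟩ := Finset.mem_image.1 hy
      rw [Finset.mem_filter]
      refine ⟨Finset.mem_univ _, ?_⟩
      rw [← map_pow, ZMod.pow_card, sub_self]
    · rw [Finset.card_image_of_injective _ (algebraMap (ZMod p) E).injective, Finset.card_univ,
        ZMod.card]
      have hne : (Polynomial.X ^ p - Polynomial.X : Polynomial E) ≠ 0 :=
        FiniteField.X_pow_card_sub_X_ne_zero E hp.one_lt
      have hdeg : (Polynomial.X ^ p - Polynomial.X : Polynomial E).natDegree = p :=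
        FiniteField.X_pow_card_sub_X_natDegree_eq E hp.one_lt
      have hsub : univ.filter (fun y : E => y ^ p - y = 0) ⊆
          (Polynomial.X ^ p - Polynomial.X : Polynomial E).roots.toFinset := by
        intro y hy
        rw [Finset.mem_filter] at hy
        rw [Multiset.mem_toFinset, Polynomial.mem_roots hne, Polynomial.IsRoot.def]
        simpa using hy.2
      calc (univ.filter (fun y : E => y ^ p - y = 0)).card
          ≤ (Polynomial.X ^ p - Polynomial.X : Polynomial E).roots.toFinset.card :=
            Finset.card_le_card hsub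
        _ ≤ Multiset.card (Polynomial.X ^ p - Polynomial.X : Polynomial E).roots :=
            Multiset.toFinset_card_le _
        _ ≤ (Polynomial.X ^ p - Polynomial.X : Polynomial E).natDegree :=
            Polynomial.card_roots' _
        _ = p := hdeg
  rw [h1, Finset.card_image_of_injective _ (algebraMap (ZMod p) E).injective, Finset.card_univ,
    ZMod.card]

private theorem TrWL_fib (p : ℕ) [Fact p.Prime] (E : Type*) [Field E] [Fintype E] [DecidableEq E]
    [Algebra (ZMod p) E] {t : E} (ht : ∃ y : E, y ^ p - y = t) :
    (univ.filter (fun y : E => y ^ p - y = t)).card = p := by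
  have h1 := AddMonoidHom.card_fiber_eq_of_mem_range (TrWL_phi p E) (x := t) (y := 0)
    ⟨ht.choose, ht.choose_spec⟩ ⟨0, map_zero _⟩
  have h2 := TrWL_ker p E
  exact h1.trans h2

private theorem TrWL_card (p : ℕ) [Fact p.Prime] (E : Type*) [Field E] [Fintype E] [DecidableEq E]
    [Algebra (ZMod p) E] :
    p * (univ.filter (fun t : E => Algebra.trace (ZMod p) E t = 0)).card = Fintype.card E := by
  have : FiniteDimensional (ZMod p) E := inferInstance
  have hs : Function.Surjective (Algebra.trace (ZMod p) E) := Algebra.trace_surjective (ZMod p) E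
  have h1 : ∀ c : ZMod p, (univ.filter (fun t : E => Algebra.trace (ZMod p) E t = c)).card =
      (univ.filter (fun t : E => Algebra.trace (ZMod p) E t = 0)).card := by
    intro c
    exact AddMonoidHom.card_fiber_eq_of_mem_range ((Algebra.trace (ZMod p) E).toAddMonoidHom)
      (x := c) (y := 0) (hs c) (hs 0)
  have h2 := Finset.card_eq_sum_card_fiberwise (s := (univ : Finset E))
    (t := (univ : Finset (ZMod p))) (f := Algebra.trace (ZMod p) E) (fun _ _ => by simp)
  rw [Finset.card_univ] at h2
  rw [h2, Finset.sum_congr rfl (fun c _ => h1 c), Finset.sum_const, Finset.card_univ, ZMod.card,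
    smul_eq_mul]

private theorem TrWL_trace (p : ℕ) [Fact p.Prime] (E : Type*) [Field E] [Fintype E]
    [Algebra (ZMod p) E] (y : E) :
    Algebra.trace (ZMod p) E (y ^ p - y) = 0 := by
  have : FiniteDimensional (ZMod p) E := inferInstance
  have h1 := Algebra.trace_eq_of_algEquiv (FiniteField.frobeniusAlgEquivOfAlgebraic (ZMod p) E) y
  have h2 : (FiniteField.frobeniusAlgEquivOfAlgebraic (ZMod p) E) y = y ^ p := by
    rw [FiniteField.coe_frobeniusAlgEquivOfAlgebraic, ZMod.card]
  rw [h2] at h1
  rw [map_sub, h1, sub_self]

private theorem TrWL_image (p : ℕ) [Fact p.Prime] (E : Type*) [Field E] [Fintype E]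
    [DecidableEq E] [Algebra (ZMod p) E] :
    (univ : Finset E).image (fun y => y ^ p - y) =
      univ.filter (fun t : E => Algebra.trace (ZMod p) E t = 0) := by
  have hp : p.Prime := Fact.out
  apply Finset.eq_of_subset_of_card_le
  · intro t ht
    obtain ⟨y, -, rfl⟩ := Finset.mem_image.1 ht
    rw [Finset.mem_filter]
    exact ⟨Finset.mem_univ _, TrWL_trace p E y⟩
  · have h1 := TrWL_card p E
    have h2 := Finset.card_eq_sum_card_fiberwise (s := (univ : Finset E))
      (t := (univ : Finset E).image (fun y => y ^ p - y)) (f := fun y => y ^ p - y)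
      (fun y _ => by simp)
    have h3 : ∀ t ∈ (univ : Finset E).image (fun y => y ^ p - y),
        (univ.filter (fun y : E => y ^ p - y = t)).card = p := by
      intro t ht
      obtain ⟨y, -, hy⟩ := Finset.mem_image.1 ht
      exact TrWL_fib p E ⟨y, hy⟩
    rw [Finset.sum_congr rfl h3, Finset.sum_const, smul_eq_mul, Finset.card_univ, ← h1,
      mul_comm] at h2
    exact (Nat.eq_of_mul_eq_mul_right hp.pos h2).le

theorem sum_trace_zero (p : ℕ) [Fact p.Prime] (E : Type*) [Field E] [Fintype E] [DecidableEq E]
    [Algebra (ZMod p) E] (g : E → ℤ) :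
    (p : ℤ) * ∑ t ∈ univ.filter (fun t : E => Algebra.trace (ZMod p) E t = 0), g t =
      ∑ y : E, g (y ^ p - y) := by
  have h1 := Finset.sum_comp g (fun y : E => y ^ p - y) (s := univ)
  rw [h1, TrWL_image, Finset.mul_sum]
  refine Finset.sum_congr rfl fun t ht => ?_
  rw [← TrWL_image] at ht
  obtain ⟨y, -, hy⟩ := Finset.mem_image.1 ht
  rw [TrWL_fib p E ⟨y, hy⟩, nsmul_eq_mul]

theorem count_conic (E : Type*) [Field E] [Fintype E] [DecidableEq E] (h2 : ringChar E ≠ 2)
    (a b t : E) (ha : a ≠ 0) (hb : b ≠ 0) :
    (((univ : Finset Eˣ).filter (fun x : Eˣ => a * (x : E) + b * ((x⁻¹ : Eˣ) : E) = t)).card : ℤ) =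
      1 + quadraticChar E (t ^ 2 - 4 * a * b) := by
  have h20 : (2 : E) ≠ 0 := Ring.two_ne_zero h2
  have h1 := quadraticChar_card_sqrts h2 (t ^ 2 - 4 * a * b)
  rw [add_comm, ← h1]
  congr 1
  refine Finset.card_bij (fun x _ => 2 * a * (x : E) - t) ?_ ?_ ?_
  · intro x hx
    rw [Finset.mem_filter] at hx
    rw [Set.mem_toFinset, Set.mem_ofPred_eq]
    have h3 : (x : E) * ((x⁻¹ : Eˣ) : E) = 1 := Units.mul_inv x
    have h4 : a * (x : E) ^ 2 + b = t * x := by
      have h5 := congrArg (fun z => z * (x : E)) hx.2
      linear_combination h5 - b * h3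
    linear_combination (4 * a) * h4
  · intro x _ x' _ h
    have h3 : 2 * a * ((x : E) - x') = 0 := by linear_combination h
    rcases mul_eq_zero.1 h3 with h4 | h4
    · rcases mul_eq_zero.1 h4 with h5 | h5
      · exact absurd h5 h20
      · exact absurd h5 ha
    · exact Units.ext (sub_eq_zero.1 h4)
  · intro z hz
    rw [Set.mem_toFinset, Set.mem_ofPred_eq] at hz
    have h2a : 2 * a ≠ 0 := mul_ne_zero h20 ha
    have hx0 : (z + t) / (2 * a) ≠ 0 := by
      intro h
      rcases div_eq_zero_iff.1 h with h3 | h3
      · have h4 : z = -t := by linear_combination h3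
        rw [h4] at hz
        have h5 : 2 * a * (2 * b) = 0 := by linear_combination hz
        rcases mul_eq_zero.1 h5 with h6 | h6
        · exact h2a h6
        · rcases mul_eq_zero.1 h6 with h7 | h7
          · exact h20 h7
          · exact hb h7
      · exact h2a h3
    refine ⟨Units.mk0 _ hx0, ?_, ?_⟩
    · rw [Finset.mem_filter]
      refine ⟨Finset.mem_univ _, ?_⟩
      rw [Units.val_inv_eq_inv_val, Units.val_mk0]
      have hzt : z + t ≠ 0 := fun h => hx0 (by rw [h, zero_div])
      rw [inv_div]
      field_simp
      linear_combination hz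
    · rw [Units.val_mk0, mul_div_cancel₀ _ h2a]
      ring

end Pool.Agent.H35.WL
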