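import Pool.Agent.H35.WL.Gf
import Pool.Agent.H35.WL.Tr

/-!
# WL-Su: the sum of the Kloosterman sums over all multiples of the coefficients

`SE ψ E a b = ∑_{x ∈ E^*} ψ(Tr(a x + b/x))`.  For `ψ` nontrivial on `F_p`:
`∑_{c ∈ F_p} SE ψ E (ca) (cb) = p Z`, `Z = #{x : Tr(a x + b/x) = 0}`, and the term `c = 0` is `q - 1`.
`Z = ∑_{Tr t = 0} (1 + χ(t² - 4ab))` (`count_conic`), `p Z = ∑_y (1 + χ((y^p - y)² - 4ab)) = q + ∑ χ`
(`sum_trace_zero`).  So `∑_{c ≠ 0} SE = 1 + ∑_y χ((y^p - y)² - 4ab)`; `chi_as_le`.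
-/

set_option autoImplicit false

namespace Pool.Agent.H35.WL

open Finset

/-- the Kloosterman sum over a finite extension of `F_p` -/
noncomputable def SE {p : ℕ} [Fact p.Prime] (ψ : AddChar (ZMod p) ℂ) (E : Type*) [Field E]
    [Fintype E] [DecidableEq E] [Algebra (ZMod p) E] (a b : ZMod p) : ℂ :=
  ∑ x : Eˣ, ψ (Algebra.trace (ZMod p) E (algebraMap (ZMod p) E a * (x : E) +
    algebraMap (ZMod p) E b * ((x⁻¹ : Eˣ) : E)))

private theorem su_units (F : Type*) [Field F] [Fintype F] [DecidableEq F] (f : F → ℂ) :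
    ∑ c : Fˣ, f (c : F) = ∑ c : F, f c - f 0 := by
  have h1 : ∑ c : Fˣ, f (c : F) = ∑ c ∈ univ.filter (fun c : F => c ≠ 0), f c := by
    rw [Finset.sum_subtype (univ.filter (fun c : F => c ≠ 0)) (p := fun c : F => c ≠ 0)
      (by intro x; simp) f]
    exact Fintype.sum_equiv (unitsEquivNeZero) _ _ (fun _ => rfl)
  have h2 : ∑ c : F, f c = ∑ c ∈ univ.filter (fun c : F => c ≠ 0), f c + f 0 := by
    rw [← Finset.sum_filter_add_sum_filter_not univ (fun c : F => c ≠ 0)]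
    congr 1
    have : univ.filter (fun c : F => ¬ c ≠ 0) = {0} := by
      ext x; simp
    rw [this, sum_singleton]
  rw [h1, h2]
  ring

theorem se_sum_le {p : ℕ} [Fact p.Prime] (hp : p ≠ 2) (ψ : AddChar (ZMod p) ℂ) (hψ : ψ ≠ 1)
    (E : Type*) [Field E] [Fintype E] [DecidableEq E] [Algebra (ZMod p) E] (m : ℕ) (hm : 2 ≤ m)
    (hE : Fintype.card E = (p ^ m) ^ 2) (a b : ZMod p) (ha : a ≠ 0) (hb : b ≠ 0) :
    ‖∑ c : (ZMod p)ˣ, SE ψ E ((c : ZMod p) * a) ((c : ZMod p) * b)‖ ≤ 1 + 2 * p * (p : ℝ) ^ m := by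
  have hpp : p.Prime := Fact.out
  have hchar : CharP E p := charP_of_injective_algebraMap (algebraMap (ZMod p) E).injective p
  have hrc : ringChar E = p := ringChar.eq E p ▸ rfl
  have hprim : ψ.IsPrimitive := AddChar.IsPrimitive.of_ne_one hψ
  set A := algebraMap (ZMod p) E a with hA
  set B := algebraMap (ZMod p) E b with hB
  have hA0 : A ≠ 0 := by rw [hA]; simpa using ha
  have hB0 : B ≠ 0 := by rw [hB]; simpa using hb
  obtain ⟨T, hT⟩ : ∃ T : Eˣ → ZMod p, T = fun x : Eˣ =>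
    Algebra.trace (ZMod p) E (A * (x : E) + B * ((x⁻¹ : Eˣ) : E)) := ⟨_, rfl⟩
  have hSE : ∀ c : ZMod p, SE ψ E (c * a) (c * b) = ∑ x : Eˣ, ψ (c * T x) := by
    intro c
    unfold SE
    apply sum_congr rfl
    intro x _
    congr 1
    rw [hT]
    have : algebraMap (ZMod p) E (c * a) * (x : E) + algebraMap (ZMod p) E (c * b) *
        ((x⁻¹ : Eˣ) : E) = c • (A * (x : E) + B * ((x⁻¹ : Eˣ) : E)) := by
      rw [map_mul, map_mul, Algebra.smul_def]
      ring
    rw [this, map_smul, smul_eq_mul]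
  -- the number of zeros of `T`
  obtain ⟨Z, hZ⟩ : ∃ Z : ℕ, Z = ((univ : Finset Eˣ).filter (fun x => T x = 0)).card := ⟨_, rfl⟩
  have hsum : ∑ c : (ZMod p)ˣ, SE ψ E ((c : ZMod p) * a) ((c : ZMod p) * b) =
      (p : ℂ) * Z - (Fintype.card E - 1) := by
    have h1 : ∑ c : (ZMod p)ˣ, SE ψ E ((c : ZMod p) * a) ((c : ZMod p) * b) =
        ∑ x : Eˣ, ∑ c : (ZMod p)ˣ, ψ ((c : ZMod p) * T x) := by
      rw [sum_comm]
      apply sum_congr rfl
      intro c _
      exact hSE c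
    have h2 : ∀ x : Eˣ, ∑ c : (ZMod p)ˣ, ψ ((c : ZMod p) * T x) =
        (if T x = 0 then (p : ℂ) else 0) - 1 := by
      intro x
      rw [su_units (ZMod p) (fun c => ψ (c * T x)), AddChar.sum_mulShift (T x) hprim]
      rw [zero_mul, AddChar.map_zero_eq_one, ZMod.card]
      split_ifs <;> simp
    rw [h1, sum_congr rfl (fun x _ => h2 x), sum_sub_distrib, ← sum_filter, sum_const, sum_const,
      ← hZ, nsmul_eq_mul, nsmul_eq_mul, mul_one, mul_comm, card_univ, Fintype.card_units]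
    rw [Nat.cast_sub Fintype.card_pos, Nat.cast_one]
  have hcount : (p : ℤ) * Z = Fintype.card E +
      ∑ y : E, quadraticChar E ((y ^ p - y) ^ 2 - 4 * A * B) := by
    have h1 : (Z : ℤ) = ∑ t ∈ univ.filter (fun t : E => Algebra.trace (ZMod p) E t = 0),
        (1 + quadraticChar E (t ^ 2 - 4 * A * B)) := by
      rw [hZ, Finset.card_eq_sum_card_fiberwise (f := fun x : Eˣ => A * (x : E) + B * ((x⁻¹ : Eˣ) : E))
        (t := univ.filter (fun t : E => Algebra.trace (ZMod p) E t = 0))]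
      · rw [Nat.cast_sum]
        apply sum_congr rfl
        intro t ht
        rw [← count_conic E (by rw [hrc]; exact hp) A B t hA0 hB0]
        congr 2
        ext x
        rw [mem_filter, mem_filter, mem_filter, hT]
        rw [mem_filter] at ht
        constructor
        · rintro ⟨_, h3⟩; exact ⟨mem_univ _, h3⟩
        · rintro ⟨_, h3⟩
          exact ⟨⟨mem_univ _, by simp only; rw [h3]; exact ht.2⟩, h3⟩
      · intro x hx
        rw [mem_coe, mem_filter, hT] at hx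
        rw [mem_coe, mem_filter]
        exact ⟨mem_univ _, hx.2⟩
    rw [h1, sum_trace_zero p E (fun t => 1 + quadraticChar E (t ^ 2 - 4 * A * B)), sum_add_distrib,
      sum_const, card_univ, nsmul_eq_mul, mul_one]
  have hfin : ∑ c : (ZMod p)ˣ, SE ψ E ((c : ZMod p) * a) ((c : ZMod p) * b) =
      ((1 + ∑ y : E, quadraticChar E ((y ^ p - y) ^ 2 - 4 * A * B) : ℤ) : ℂ) := by
    rw [hsum]
    have h3 : ((p : ℂ) * Z) = (((p : ℤ) * Z : ℤ) : ℂ) := by push_cast; ring
    rw [h3, hcount]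
    push_cast
    ring
  have h4 : (4 * A * B : E) ≠ 0 := by
    have h5 : (2 : E) ≠ 0 := by
      apply Ring.two_ne_zero
      rw [hrc]; exact hp
    have h6 : (4 : E) = 2 * 2 := by norm_num
    rw [h6]
    exact mul_ne_zero (mul_ne_zero (mul_ne_zero h5 h5) hA0) hB0
  have hchi := chi_as_le (E := E) p m hp hm hE (4 * A * B) h4
  rw [hfin, Complex.norm_intCast]
  have h7 : |1 + ∑ y : E, quadraticChar E ((y ^ p - y) ^ 2 - 4 * A * B)| ≤
      1 + 2 * (p : ℤ) * (p : ℤ) ^ m := by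
    refine (abs_add_le _ _).trans ?_
    rw [abs_one]
    have : |∑ y : E, (quadraticChar E ((y ^ p - y) ^ 2 - 4 * A * B) : ℤ)| ≤ 2 * (p : ℤ) * (p : ℤ) ^ m := by
      exact_mod_cast hchi
    linarith
  exact_mod_cast h7

end Pool.Agent.H35.WL
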