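import Pool.Agent.H35.WL.Lc
import Pool.Agent.H35.WL.Su

/-!
# WL-Ld: the power sums are the Kloosterman sums over the extensions

`E/F_p` of degree `m`.  Group the `x ∈ E^*` by `P = minpoly (ZMod p) x`, monic irreducible, of degree
`k | m`, `P(0) ≠ 0`.  Every monic irreducible `P` of degree `k | m` splits in `E` with `k` different
roots (`P | X^{p^m} - X`), and these are the elements with minimal polynomial `P`; `P = X` has
`lam = 0`.  `Tr(x) = (m/k) (-nextCoeff P)` (`trace_eq_finrank_mul_minpoly_nextCoeff`), and the minimal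
polynomial of `x⁻¹` is `reverse P / P(0)`, so `Tr(x⁻¹) = (m/k) (-P_1/P_0)`; hence
`ψ(Tr(a x + b/x)) = lam(P)^{m/k}`.
-/

set_option autoImplicit false

namespace Pool.Agent.H35.WL

open Finset Polynomial

private lemma ld_adj {K E : Type*} [Field K] [Field E] [Algebra K E] (x : E) :
    IntermediateField.adjoin K {x⁻¹} = IntermediateField.adjoin K {x} := by
  apply le_antisymm
  · rw [IntermediateField.adjoin_simple_le_iff]
    exact inv_mem (IntermediateField.mem_adjoin_simple_self K x)
  · rw [IntermediateField.adjoin_simple_le_iff]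
    have h := inv_mem (IntermediateField.mem_adjoin_simple_self K x⁻¹)
    rwa [inv_inv] at h

private lemma ld_deg {K E : Type*} [Field K] [Field E] [Algebra K E] {x : E}
    (hx : IsIntegral K x) : (minpoly K x⁻¹).natDegree = (minpoly K x).natDegree := by
  have hx' : IsIntegral K x⁻¹ := by
    rw [← isAlgebraic_iff_isIntegral] at hx ⊢
    exact hx.inv
  rw [← IntermediateField.adjoin.finrank hx, ← IntermediateField.adjoin.finrank hx', ld_adj]

private lemma ld_next {K E : Type*} [Field K] [Field E] [Algebra K E] {x : E} (hx0 : x ≠ 0)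
    (hx : IsIntegral K x) :
    (minpoly K x⁻¹).nextCoeff = (minpoly K x).coeff 1 / (minpoly K x).coeff 0 := by
  have hx' : IsIntegral K x⁻¹ := by
    rw [← isAlgebraic_iff_isIntegral] at hx ⊢
    exact hx.inv
  set P := minpoly K x with hP
  have hPm : P.Monic := minpoly.monic hx
  have hP0 : P.coeff 0 ≠ 0 := minpoly.coeff_zero_ne_zero hx hx0
  have hk : 0 < P.natDegree := minpoly.natDegree_pos hx
  have htr : P.natTrailingDegree = 0 := by
    rw [natTrailingDegree_eq_zero]
    exact Or.inr hP0
  have hrd : P.reverse.natDegree = P.natDegree := by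
    rw [reverse_natDegree, htr, Nat.sub_zero]
  have hrl : P.reverse.leadingCoeff = P.coeff 0 := by
    rw [reverse_leadingCoeff, trailingCoeff, htr]
  set Q : K[X] := C (P.coeff 0)⁻¹ * P.reverse with hQ
  have hQm : Q.Monic := by
    rw [Monic, hQ, leadingCoeff_mul, leadingCoeff_C, hrl, inv_mul_cancel₀ hP0]
  have hQd : Q.natDegree = P.natDegree := by
    rw [hQ, natDegree_C_mul (inv_ne_zero hP0), hrd]
  have hQr : aeval x⁻¹ Q = 0 := by
    let _ : Invertible x := invertibleOfNonzero hx0
    have h1 : aeval x⁻¹ P.reverse = 0 := by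
      have h2 := (eval₂_reverse_eq_zero_iff (algebraMap K E) x P).mpr (minpoly.aeval K x)
      rwa [invOf_eq_inv] at h2
    rw [hQ, map_mul, h1, mul_zero]
  have hdvd : minpoly K x⁻¹ ∣ Q := minpoly.dvd K x⁻¹ hQr
  have hQe : Q = minpoly K x⁻¹ := by
    refine eq_of_monic_of_dvd_of_natDegree_le (minpoly.monic hx') hQm hdvd ?_
    rw [hQd, ld_deg hx]
  rw [← hQe, nextCoeff_of_natDegree_pos (by rw [hQd]; exact hk), hQd, hQ, coeff_C_mul,
    coeff_reverse]
  have h3 : revAt P.natDegree (P.natDegree - 1) = 1 := by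
    rw [revAt_le (by omega)]
    omega
  rw [h3]
  field_simp

private lemma ld_val {p : ℕ} [Fact p.Prime] (ψ : AddChar (ZMod p) ℂ) (a b : ZMod p)
    (E : Type*) [Field E] [Fintype E] [Algebra (ZMod p) E] (m : ℕ)
    (hE : Module.finrank (ZMod p) E = m) (x : Eˣ) :
    ψ (Algebra.trace (ZMod p) E (algebraMap (ZMod p) E a * (x : E) +
      algebraMap (ZMod p) E b * ((x⁻¹ : Eˣ) : E))) =
      lam ψ a b (minpoly (ZMod p) (x : E)) ^ (m / (minpoly (ZMod p) (x : E)).natDegree) := by
  have hfd : FiniteDimensional (ZMod p) E := inferInstance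
  have hx : IsIntegral (ZMod p) (x : E) := .of_finite _ _
  have hx0 : (x : E) ≠ 0 := x.ne_zero
  have hk : 0 < (minpoly (ZMod p) (x : E)).natDegree := minpoly.natDegree_pos hx
  have hP0 : (minpoly (ZMod p) (x : E)).coeff 0 ≠ 0 := minpoly.coeff_zero_ne_zero hx hx0
  have hf : ∀ y : E, Module.finrank (IntermediateField.adjoin (ZMod p) {y}) E =
      m / (minpoly (ZMod p) y).natDegree := by
    intro y
    have hy : IsIntegral (ZMod p) y := .of_finite _ _
    have h1 := Module.finrank_mul_finrank (ZMod p) (IntermediateField.adjoin (ZMod p) {y}) E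
    rw [IntermediateField.adjoin.finrank hy, hE] at h1
    rw [← h1, Nat.mul_div_cancel_left _ (minpoly.natDegree_pos hy)]
  have ht1 := trace_eq_finrank_mul_minpoly_nextCoeff (ZMod p) (x : E)
  have ht2 := trace_eq_finrank_mul_minpoly_nextCoeff (ZMod p) ((x : E)⁻¹)
  rw [hf] at ht1 ht2
  rw [ld_next hx0 hx, ld_deg hx] at ht2
  have hL : lam ψ a b (minpoly (ZMod p) (x : E)) =
      ψ (-(a * (minpoly (ZMod p) (x : E)).nextCoeff) -
        b * ((minpoly (ZMod p) (x : E)).coeff 1 / (minpoly (ZMod p) (x : E)).coeff 0)) := by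
    unfold lam
    rw [if_neg hP0]
  rw [hL, ← AddChar.map_nsmul_eq_pow]
  congr 1
  rw [map_add, ← Algebra.smul_def, ← Algebra.smul_def, map_smul, map_smul,
    Units.val_inv_eq_inv_val, ht1, ht2, nsmul_eq_mul, smul_eq_mul, smul_eq_mul]
  ring

private lemma ld_card {p : ℕ} [Fact p.Prime] (E : Type*) [Field E] [Fintype E] [DecidableEq E]
    [Algebra (ZMod p) E] (m : ℕ) (hE : Fintype.card E = p ^ m) (P : (ZMod p)[X])
    (hm : P.Monic) (hi : Irreducible P) (hd : P.natDegree ∣ m) (h0 : P.coeff 0 ≠ 0)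
    [DecidablePred fun x : Eˣ => minpoly (ZMod p) (x : E) = P] :
    ((univ : Finset Eˣ).filter (fun x : Eˣ => minpoly (ZMod p) (x : E) = P)).card =
      P.natDegree := by
  have hdvd : P ∣ X ^ (Fintype.card E) - X := by
    have h1 := (Irreducible.natDegree_dvd_iff_dvd_X_pow_card_pow_sub_X hi (n := m)).mp hd
    rwa [Nat.card_zmod, ← hE] at h1
  have hne : map (algebraMap (ZMod p) E) (X ^ (Fintype.card E) - X) ≠ 0 := by
    have := FiniteField.X_pow_card_sub_X_ne_zero (ZMod p) (p := Fintype.card E)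
      Fintype.one_lt_card
    exact Polynomial.map_ne_zero this
  have hs : Splits (map (algebraMap (ZMod p) E) P) :=
    (FiniteField.splits_X_pow_card_sub_X p).of_dvd hne (map_dvd (algebraMap (ZMod p) E) hdvd)
  have hsep : P.Separable := PerfectField.separable_of_irreducible hi
  have h2 := card_rootSet_eq_natDegree (K := E) hsep hs
  rw [← h2, ← Finset.card_image_of_injective _ (Units.val_injective : Function.Injective
    (fun x : Eˣ => (x : E))), ← Set.toFinset_card]
  congr 1
  ext y
  simp only [Finset.mem_image, Finset.mem_filter, Finset.mem_univ, true_and, Set.mem_toFinset,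
    mem_rootSet]
  constructor
  · rintro ⟨x, hx, rfl⟩
    refine ⟨hi.ne_zero, ?_⟩
    rw [← hx]
    exact minpoly.aeval _ _
  · rintro ⟨_, hy⟩
    have hy0 : y ≠ 0 := by
      rintro rfl
      apply h0
      rw [← coeff_zero_eq_aeval_zero'] at hy
      exact (map_eq_zero_iff _ (algebraMap (ZMod p) E).injective).mp hy
    exact ⟨Units.mk0 y hy0, (minpoly.eq_of_irreducible_of_monic hi hy hm).symm, rfl⟩

theorem se_eq_tm {p : ℕ} [Fact p.Prime] (ψ : AddChar (ZMod p) ℂ) (a b : ZMod p)
    (E : Type*) [Field E] [Fintype E] [DecidableEq E] [Algebra (ZMod p) E] (m : ℕ) (hm : 1 ≤ m)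
    (hE : Fintype.card E = p ^ m) : SE ψ E a b = TM ψ a b m := by
  classical
  have hfr : Module.finrank (ZMod p) E = m := by
    have h1 := Module.card_eq_pow_finrank (K := ZMod p) (V := E)
    rw [ZMod.card, hE] at h1
    exact (Nat.pow_right_injective (Fact.out : p.Prime).two_le h1).symm
  unfold SE TM
  rw [Finset.sum_sigma' m.divisors (fun k => (MD p k).filter (fun P => Irreducible P))
    (fun k P => (k : ℂ) * lam ψ a b P ^ (m / k))]
  rw [← Finset.sum_fiberwise_of_maps_to (s := (univ : Finset Eˣ))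
    (t := m.divisors.sigma (fun k => (MD p k).filter (fun P => Irreducible P)))
    (g := fun x : Eˣ => (⟨(minpoly (ZMod p) (x : E)).natDegree, minpoly (ZMod p) (x : E)⟩ :
      Σ _ : ℕ, (ZMod p)[X]))]
  · refine Finset.sum_congr rfl ?_
    rintro ⟨k, P⟩ hj
    rw [Finset.mem_sigma, Finset.mem_filter] at hj
    obtain ⟨hk, hP, hi⟩ := hj
    simp only at hk hP hi
    rw [mem_MD] at hP
    obtain ⟨hPm, hPd⟩ := hP
    have hkm : k ∣ m := Nat.dvd_of_mem_divisors hk
    have hk0 : 0 < k := Nat.pos_of_mem_divisors hk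
    have hset : (univ : Finset Eˣ).filter (fun x : Eˣ =>
        (⟨(minpoly (ZMod p) (x : E)).natDegree, minpoly (ZMod p) (x : E)⟩ :
          Σ _ : ℕ, (ZMod p)[X]) = ⟨k, P⟩) =
        (univ : Finset Eˣ).filter (fun x : Eˣ => minpoly (ZMod p) (x : E) = P) := by
      ext x
      simp only [Finset.mem_filter, Finset.mem_univ, true_and]
      constructor
      · intro h
        have := congrArg Sigma.snd h
        exact this
      · intro h
        rw [h, hPd]
    rw [hset]
    have hval : ∀ x ∈ (univ : Finset Eˣ).filter (fun x : Eˣ => minpoly (ZMod p) (x : E) = P),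
        ψ (Algebra.trace (ZMod p) E (algebraMap (ZMod p) E a * (x : E) +
          algebraMap (ZMod p) E b * ((x⁻¹ : Eˣ) : E))) = lam ψ a b P ^ (m / k) := by
      intro x hx
      rw [Finset.mem_filter] at hx
      rw [ld_val ψ a b E m hfr x, hx.2, hPd]
    rw [Finset.sum_congr rfl hval, Finset.sum_const, nsmul_eq_mul]
    by_cases h0 : P.coeff 0 = 0
    · have hl : lam ψ a b P = 0 := by
        unfold lam
        rw [if_pos h0]
      have hmk : m / k ≠ 0 := (Nat.div_pos (Nat.le_of_dvd (by omega) hkm) hk0).ne'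
      rw [hl, zero_pow hmk, mul_zero, mul_zero]
    · rw [ld_card E m hE P hPm hi (hPd ▸ hkm) h0, hPd]
  · intro x _
    have hx : IsIntegral (ZMod p) (x : E) := .of_finite _ _
    rw [Finset.mem_sigma, Finset.mem_filter, Nat.mem_divisors, mem_MD]
    refine ⟨⟨?_, by omega⟩, ⟨minpoly.monic hx, rfl⟩, minpoly.irreducible hx⟩
    have h := minpoly.degree_dvd hx
    rwa [hfr] at h

end Pool.Agent.H35.WL
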