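import Mathlib

/-!
# WL-Ps: the power sum lemma

`|∑ l_i^m| ≤ C R^m` for all large `m` implies `|l_i| ≤ R`.  Suppose `ρ = max |l_i| > R`, `μ_i = l_i/ρ`,
`|μ_i| ≤ 1` with equality for some `i₀`.  `(1/M) ∑_{m=1}^M |∑ μ_i^m|² = ∑_{i,j} (1/M) ∑_m (μ_i μ̄_j)^m`;
for `|z| ≤ 1` the mean of `z^m` tends to `1` if `z = 1` and to `0` otherwise
(`|∑_{m<M} z^m| ≤ 2/|1-z|`); the term `i = j = i₀` is `1`, so the limit is at least `1`; but
`|∑ μ_i^m|² ≤ C² (R/ρ)^{2m} → 0`.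
-/

set_option autoImplicit false

namespace Pool.Agent.H35.WL

open Finset

open Classical in
private theorem ps_mean {z : ℂ} (hz : ‖z‖ ≤ 1) :
    Filter.Tendsto (fun n : ℕ => ((n : ℝ)⁻¹ : ℂ) * ∑ m ∈ range n, z ^ m) Filter.atTop
      (nhds (if z = 1 then 1 else 0)) := by
  by_cases h : z = 1
  · rw [if_pos h, h]
    refine Filter.Tendsto.congr' ?_ tendsto_const_nhds
    filter_upwards [Filter.eventually_gt_atTop 0] with n hn
    have hn' : (n : ℂ) ≠ 0 := by exact_mod_cast hn.ne'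
    simp [hn']
  · rw [if_neg h]
    have h1 : z - 1 ≠ 0 := sub_ne_zero.2 h
    rw [tendsto_zero_iff_norm_tendsto_zero]
    have h2 : Filter.Tendsto (fun n : ℕ => (n : ℝ)⁻¹ * (2 / ‖z - 1‖)) Filter.atTop (nhds 0) := by
      have := (tendsto_inv_atTop_nhds_zero_nat (𝕜 := ℝ)).mul_const (2 / ‖z - 1‖)
      rwa [zero_mul] at this
    refine squeeze_zero (fun n => norm_nonneg _) (fun n => ?_) h2
    rw [norm_mul, geom_sum_eq h, norm_div]
    have h3 : ‖((n : ℝ)⁻¹ : ℂ)‖ = (n : ℝ)⁻¹ := by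
      rw [norm_inv, Complex.norm_real, Real.norm_of_nonneg (Nat.cast_nonneg n)]
    rw [h3]
    have h4 : ‖z ^ n - 1‖ ≤ 2 := by
      refine (norm_sub_le _ _).trans ?_
      rw [norm_pow, norm_one]
      have := pow_le_one₀ (norm_nonneg z) hz (n := n)
      linarith
    exact mul_le_mul_of_nonneg_left (div_le_div_of_nonneg_right h4 (norm_nonneg _))
      (by positivity)

theorem power_sum {ι : Type*} [Fintype ι] (l : ι → ℂ) (C R : ℝ) (hR : 0 < R) (m0 : ℕ)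
    (h : ∀ m : ℕ, m0 ≤ m → ‖∑ i, l i ^ m‖ ≤ C * R ^ m) (i : ι) : ‖l i‖ ≤ R := by
  classical
  obtain ⟨i0, -, hi0⟩ := Finset.exists_max_image (univ : Finset ι) (fun i => ‖l i‖) ⟨i, mem_univ i⟩
  refine (hi0 i (mem_univ i)).trans ?_
  by_contra hc
  rw [not_le] at hc
  obtain ⟨ρ, hρ⟩ : ∃ ρ : ℝ, ρ = ‖l i0‖ := ⟨_, rfl⟩
  rw [← hρ] at hc
  have hρ0 : 0 < ρ := hR.trans hc
  obtain ⟨μ, hμ⟩ : ∃ μ : ι → ℂ, μ = fun i => l i / ρ := ⟨_, rfl⟩
  have hρc : (ρ : ℂ) ≠ 0 := by exact_mod_cast hρ0.ne'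
  have hμ1 : ∀ i, ‖μ i‖ ≤ 1 := by
    intro i
    rw [hμ]
    dsimp only
    rw [norm_div, Complex.norm_real, Real.norm_of_nonneg hρ0.le, div_le_one hρ0, hρ]
    exact hi0 i (mem_univ i)
  have hμ0 : ‖μ i0‖ = 1 := by
    rw [hμ]
    dsimp only
    rw [norm_div, Complex.norm_real, Real.norm_of_nonneg hρ0.le, ← hρ, div_self hρ0.ne']
  obtain ⟨u, hu⟩ : ∃ u : ℕ → ℝ, u = fun m => ‖∑ i, μ i ^ m‖ ^ 2 := ⟨_, rfl⟩
  -- the squares tend to zero
  have hu0 : Filter.Tendsto u Filter.atTop (nhds 0) := by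
    have h1 : Filter.Tendsto (fun m : ℕ => C ^ 2 * ((R / ρ) ^ 2) ^ m) Filter.atTop (nhds 0) := by
      have h2 : (R / ρ) ^ 2 < 1 := by
        have h3 : R / ρ < 1 := (div_lt_one hρ0).2 hc
        have h4 : 0 ≤ R / ρ := by positivity
        nlinarith
      have := (tendsto_pow_atTop_nhds_zero_of_lt_one (by positivity) h2).const_mul (C ^ 2)
      rwa [mul_zero] at this
    refine squeeze_zero' (Filter.Eventually.of_forall fun m => ?_) ?_ h1
    · rw [hu]; positivity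
    · filter_upwards [Filter.eventually_ge_atTop m0] with m hm
      have h2 := h m hm
      have h3 : ∑ i, μ i ^ m = (∑ i, l i ^ m) / (ρ : ℂ) ^ m := by
        rw [hμ, sum_div]
        refine sum_congr rfl fun i _ => ?_
        rw [div_pow]
      have h4 : ‖∑ i, μ i ^ m‖ ≤ C * (R / ρ) ^ m := by
        rw [h3, norm_div, norm_pow, Complex.norm_real, Real.norm_of_nonneg hρ0.le, div_pow,
          ← mul_div_assoc]
        exact div_le_div_of_nonneg_right h2 (by positivity)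
      rw [hu]
      dsimp only
      calc ‖∑ i, μ i ^ m‖ ^ 2 ≤ (C * (R / ρ) ^ m) ^ 2 := pow_le_pow_left₀ (norm_nonneg _) h4 2
        _ = C ^ 2 * ((R / ρ) ^ 2) ^ m := by rw [mul_pow, ← pow_mul, ← pow_mul, mul_comm m 2]
  have hA := hu0.cesaro
  -- the mean of the squares
  have hB : Filter.Tendsto (fun n : ℕ => ∑ i, ∑ j,
      (((n : ℝ)⁻¹ : ℂ) * ∑ m ∈ range n, (μ i * (starRingEnd ℂ) (μ j)) ^ m).re) Filter.atTop
      (nhds (∑ i, ∑ j, ((if μ i * (starRingEnd ℂ) (μ j) = 1 then 1 else 0 : ℂ)).re)) := by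
    refine tendsto_finsetSum _ fun i _ => tendsto_finsetSum _ fun j _ => ?_
    refine (Complex.continuous_re.tendsto _).comp (ps_mean ?_)
    rw [norm_mul, RCLike.norm_conj]
    exact mul_le_one₀ (hμ1 i) (norm_nonneg _) (hμ1 j)
  have hC : ∀ n : ℕ, (n : ℝ)⁻¹ * ∑ m ∈ range n, u m = ∑ i, ∑ j,
      (((n : ℝ)⁻¹ : ℂ) * ∑ m ∈ range n, (μ i * (starRingEnd ℂ) (μ j)) ^ m).re := by
    intro n
    have h1 : ∀ m, (u m : ℂ) = ∑ i, ∑ j, (μ i * (starRingEnd ℂ) (μ j)) ^ m := by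
      intro m
      rw [hu]
      dsimp only
      rw [← Complex.normSq_eq_norm_sq, Complex.normSq_eq_conj_mul_self, mul_comm, map_sum,
        sum_mul_sum]
      refine sum_congr rfl fun i _ => sum_congr rfl fun j _ => ?_
      rw [map_pow, mul_pow]
    have h2 : (((n : ℝ)⁻¹ * ∑ m ∈ range n, u m : ℝ) : ℂ) = ∑ i, ∑ j,
        (((n : ℝ)⁻¹ : ℂ) * ∑ m ∈ range n, (μ i * (starRingEnd ℂ) (μ j)) ^ m) := by
      push_cast
      simp only [h1, ← mul_sum]
      congr 1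
      rw [sum_comm]
      refine sum_congr rfl fun i _ => ?_
      rw [sum_comm]
    have h3 := congrArg Complex.re h2
    rw [Complex.ofReal_re] at h3
    rw [h3, Complex.re_sum]
    refine sum_congr rfl fun i _ => ?_
    rw [Complex.re_sum]
  have hD : Filter.Tendsto (fun n : ℕ => (n : ℝ)⁻¹ * ∑ m ∈ range n, u m) Filter.atTop
      (nhds (∑ i, ∑ j, ((if μ i * (starRingEnd ℂ) (μ j) = 1 then 1 else 0 : ℂ)).re)) := by
    simp only [hC]
    exact hB
  have hE := tendsto_nhds_unique hA hD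
  have hpos : ∀ i j, 0 ≤ ((if μ i * (starRingEnd ℂ) (μ j) = 1 then 1 else 0 : ℂ)).re := by
    intro i j
    split_ifs <;> simp
  have hF : (1 : ℝ) ≤ ∑ i, ∑ j, ((if μ i * (starRingEnd ℂ) (μ j) = 1 then 1 else 0 : ℂ)).re := by
    have h1 : ((if μ i0 * (starRingEnd ℂ) (μ i0) = 1 then 1 else 0 : ℂ)).re = 1 := by
      have h2 : μ i0 * (starRingEnd ℂ) (μ i0) = 1 := by
        rw [Complex.mul_conj, Complex.normSq_eq_norm_sq, hμ0]
        norm_num
      rw [if_pos h2, Complex.one_re]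
    calc (1 : ℝ) = ((if μ i0 * (starRingEnd ℂ) (μ i0) = 1 then 1 else 0 : ℂ)).re := h1.symm
      _ ≤ ∑ j, ((if μ i0 * (starRingEnd ℂ) (μ j) = 1 then 1 else 0 : ℂ)).re :=
          single_le_sum (f := fun j => ((if μ i0 * (starRingEnd ℂ) (μ j) = 1 then 1 else 0 : ℂ)).re)
            (fun j _ => hpos i0 j) (mem_univ i0)
      _ ≤ _ := single_le_sum
            (f := fun i => ∑ j, ((if μ i * (starRingEnd ℂ) (μ j) = 1 then 1 else 0 : ℂ)).re)
            (fun i _ => sum_nonneg fun j _ => hpos i j) (mem_univ i0)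
  linarith

end Pool.Agent.H35.WL
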