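import Pool.Agent.H35.WL.Lc

/-!
# WL-Rt: the roots of the L-function

Take `α, β` with `α + β = -K`, `αβ = p` (`ℂ` is algebraically closed).  By `newton`,
`al_zero, al_one, al_two, al_large`: `T_1 = K`, `T_2 = 2p - K²`, `T_n = -K T_{n-1} - p T_{n-2}` for
`n ≥ 3`, the same recursion as `-(α^n + β^n)`.
-/

set_option autoImplicit false

namespace Pool.Agent.H35.WL

open Finset

private theorem rt_one {p : ℕ} [Fact p.Prime] (ψ : AddChar (ZMod p) ℂ) (a b : ZMod p) :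
    TM ψ a b 1 = KZ ψ a b := by
  have h := newton ψ a b 1 le_rfl
  rw [Icc_self, sum_singleton, Nat.sub_self, al_zero, al_one, mul_one, Nat.cast_one, one_mul] at h
  exact h.symm

private theorem rt_two {p : ℕ} [Fact p.Prime] (ψ : AddChar (ZMod p) ℂ) (hψ : ψ ≠ 1) (a b : ZMod p)
    (ha : a ≠ 0) (hb : b ≠ 0) : TM ψ a b 2 = 2 * p - KZ ψ a b ^ 2 := by
  have h := newton ψ a b 2 (by norm_num)
  rw [Finset.sum_Icc_succ_top (by norm_num), Icc_self, sum_singleton] at h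
  norm_num at h
  rw [al_zero, al_one, al_two ψ hψ a b ha hb, rt_one] at h
  linear_combination -h

private theorem rt_rec {p : ℕ} [Fact p.Prime] (ψ : AddChar (ZMod p) ℂ) (hψ : ψ ≠ 1) (a b : ZMod p)
    (ha : a ≠ 0) (hb : b ≠ 0) (n : ℕ) :
    TM ψ a b (n + 3) = -KZ ψ a b * TM ψ a b (n + 2) - p * TM ψ a b (n + 1) := by
  have h := newton ψ a b (n + 3) (by omega)
  rw [al_large ψ hψ a b ha (n + 3) (by omega), mul_zero,
    Finset.sum_Icc_succ_top (by omega), Finset.sum_Icc_succ_top (by omega),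
    Finset.sum_Icc_succ_top (by omega)] at h
  have h0 : ∑ m ∈ Icc 1 n, TM ψ a b m * AL ψ a b (n + 2 + 1 - m) = 0 := by
    refine sum_eq_zero fun m hm => ?_
    have h1 := (mem_Icc.1 hm).2
    rw [al_large ψ hψ a b ha _ (by omega), mul_zero]
  have e1 : n + 2 + 1 - (n + 1) = 2 := by omega
  have e2 : n + 2 + 1 - (n + 1 + 1) = 1 := by omega
  have e3 : n + 2 + 1 - (n + 2 + 1) = 0 := by omega
  rw [h0, e1, e2, e3, al_zero, al_one, al_two ψ hψ a b ha hb] at h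
  have e4 : n + 1 + 1 = n + 2 := by omega
  have e5 : n + 2 + 1 = n + 3 := by omega
  rw [e4, e5] at h
  linear_combination -h

theorem roots {p : ℕ} [Fact p.Prime] (ψ : AddChar (ZMod p) ℂ) (hψ : ψ ≠ 1) (a b : ZMod p)
    (ha : a ≠ 0) (hb : b ≠ 0) : ∃ α β : ℂ, α + β = -KZ ψ a b ∧ α * β = p ∧
      ∀ n : ℕ, 1 ≤ n → TM ψ a b n = -(α ^ n + β ^ n) := by
  obtain ⟨s, hs⟩ := IsAlgClosed.exists_pow_nat_eq (KZ ψ a b ^ 2 - 4 * p) (n := 2) (by norm_num)
  have h1 : (-KZ ψ a b + s) / 2 + (-KZ ψ a b - s) / 2 = -KZ ψ a b := by ring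
  have h2 : (-KZ ψ a b + s) / 2 * ((-KZ ψ a b - s) / 2) = p := by
    linear_combination -(1 / 4) * hs
  refine ⟨(-KZ ψ a b + s) / 2, (-KZ ψ a b - s) / 2, h1, h2, ?_⟩
  set α := (-KZ ψ a b + s) / 2 with hα
  set β := (-KZ ψ a b - s) / 2 with hβ
  have key : ∀ n : ℕ, TM ψ a b (n + 1) = -(α ^ (n + 1) + β ^ (n + 1)) ∧
      TM ψ a b (n + 2) = -(α ^ (n + 2) + β ^ (n + 2)) := by
    intro n
    induction n with
    | zero =>
      refine ⟨?_, ?_⟩
      · rw [zero_add, rt_one, pow_one, pow_one, h1, neg_neg]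
      · rw [zero_add, rt_two ψ hψ a b ha hb]
        linear_combination (α + β - KZ ψ a b) * h1 - 2 * h2
    | succ n ih =>
      obtain ⟨ih1, ih2⟩ := ih
      refine ⟨ih2, ?_⟩
      have e1 : n + 1 + 2 = n + 3 := by omega
      rw [e1, rt_rec ψ hψ a b ha hb, ih2, ih1]
      linear_combination (α ^ (n + 2) + β ^ (n + 2)) * h1 - (α ^ (n + 1) + β ^ (n + 1)) * h2
  intro n hn
  obtain ⟨m, rfl⟩ : ∃ m, n = m + 1 := ⟨n - 1, by omega⟩
  exact (key m).1

end Pool.Agent.H35.WL
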