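import Pool.Agent.H35.WL.Ld
import Pool.Agent.H35.WL.Rt
import Pool.Agent.H35.WL.Ps

/-!
# WL-Le: Weil's bound

`weil`: `∑_{c ≠ 0} (α_c^{2m} + β_c^{2m})` has absolute value at most `(1 + 2p) (p)^m` for `m ≥ 2`
(`se_sum_le` with `E = GaloisField p (2m)`, `se_eq_tm`, the roots for `(ca, cb)`); by `power_sum` for the
family `α_c², β_c²` all `|α_c|², |β_c|² ≤ p`, so `|K| ≤ 2 √p`.
-/

set_option autoImplicit false

namespace Pool.Agent.H35.WL

open Finset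

theorem weil {p : ℕ} [Fact p.Prime] (hp : p ≠ 2) (ψ : AddChar (ZMod p) ℂ) (hψ : ψ ≠ 1)
    (a b : ZMod p) (ha : a ≠ 0) (hb : b ≠ 0) : ‖KZ ψ a b‖ ≤ 2 * Real.sqrt p := by
  classical
  have hpp : p.Prime := Fact.out
  have hp1 : (1 : ℝ) ≤ p := by exact_mod_cast hpp.one_lt.le
  have hroots : ∀ c : (ZMod p)ˣ, ∃ z : ℂ × ℂ,
      z.1 + z.2 = -KZ ψ ((c : ZMod p) * a) ((c : ZMod p) * b) ∧
      ∀ n : ℕ, 1 ≤ n →
        TM ψ ((c : ZMod p) * a) ((c : ZMod p) * b) n = -(z.1 ^ n + z.2 ^ n) := by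
    intro c
    obtain ⟨α, β, h1, -, h3⟩ := roots ψ hψ ((c : ZMod p) * a) ((c : ZMod p) * b)
      (mul_ne_zero c.ne_zero ha) (mul_ne_zero c.ne_zero hb)
    exact ⟨(α, β), h1, h3⟩
  choose z hz1 hz2 using hroots
  set l : (ZMod p)ˣ × Bool → ℂ := fun i => if i.2 then (z i.1).1 ^ 2 else (z i.1).2 ^ 2 with hldef
  have hl : ∀ m : ℕ, ∑ i, l i ^ m =
      ∑ c : (ZMod p)ˣ, ((z c).1 ^ (2 * m) + (z c).2 ^ (2 * m)) := by
    intro m
    rw [Fintype.sum_prod_type]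
    refine sum_congr rfl fun c _ => ?_
    rw [Fintype.sum_bool, pow_mul, pow_mul]
    simp [hldef]
  have hbd : ∀ m : ℕ, 2 ≤ m → ‖∑ i, l i ^ m‖ ≤ (1 + 2 * (p : ℝ)) * (p : ℝ) ^ m := by
    intro m hm
    rw [hl]
    let _ : Fintype (GaloisField p (2 * m)) := Fintype.ofFinite _
    have hcard : Fintype.card (GaloisField p (2 * m)) = p ^ (2 * m) := by
      rw [← Nat.card_eq_fintype_card]
      exact GaloisField.card p (2 * m) (by omega)
    have hE1 : Fintype.card (GaloisField p (2 * m)) = (p ^ m) ^ 2 := by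
      rw [hcard, ← pow_mul, mul_comm m 2]
    have h1 := se_sum_le hp ψ hψ (GaloisField p (2 * m)) m hm hE1 a b ha hb
    have h2 : ∑ c : (ZMod p)ˣ, SE ψ (GaloisField p (2 * m)) ((c : ZMod p) * a)
        ((c : ZMod p) * b) = -∑ c : (ZMod p)ˣ, ((z c).1 ^ (2 * m) + (z c).2 ^ (2 * m)) := by
      rw [← sum_neg_distrib]
      refine sum_congr rfl fun c _ => ?_
      rw [se_eq_tm ψ _ _ (GaloisField p (2 * m)) (2 * m) (by omega) hcard,
        hz2 c (2 * m) (by omega)]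
    rw [h2, norm_neg] at h1
    refine h1.trans ?_
    have h3 : (1 : ℝ) ≤ (p : ℝ) ^ m := one_le_pow₀ hp1
    nlinarith
  have hfin : ∀ i, ‖l i‖ ≤ (p : ℝ) := fun i =>
    power_sum l (1 + 2 * (p : ℝ)) p (by linarith) 2 hbd i
  have h1 := hfin (1, true)
  have h2 := hfin (1, false)
  simp only [hldef, if_true, norm_pow, Bool.false_eq_true, if_false] at h1 h2
  have h3 : ‖(z 1).1‖ ≤ Real.sqrt p := by
    have := Real.abs_le_sqrt h1
    rwa [abs_of_nonneg (norm_nonneg _)] at this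
  have h4 : ‖(z 1).2‖ ≤ Real.sqrt p := by
    have := Real.abs_le_sqrt h2
    rwa [abs_of_nonneg (norm_nonneg _)] at this
  have h5 := hz1 1
  rw [Units.val_one, one_mul, one_mul] at h5
  calc ‖KZ ψ a b‖ = ‖(z 1).1 + (z 1).2‖ := by rw [h5, norm_neg]
    _ ≤ ‖(z 1).1‖ + ‖(z 1).2‖ := norm_add_le _ _
    _ ≤ 2 * Real.sqrt p := by linarith

end Pool.Agent.H35.WL
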