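import Pool.Agent.H35.WL.In

/-!
# WL-Oo: the off-diagonal part (`P^8` version)

`pt_half_sum`: as `pt_sum` (Pool/Agent/H94/EH/M13.lean, line 418): `∑_{m ∈ II N} pt(B,m)^{1/2} ≤
∑_{d | B^∞, d ≤ 3N} d^{1/2} · 3N/d ≤ 3N ∏_{p | B} (1 - p^{-1/2})^{-1} ≤ 3 N 4^{ω(B)} ≤ 3 N tau(B)^2`
(`1 - 2^{-1/2} = .2928 > 1/4`).
`oo_bound8`: copy of `oo_bound` (Pool/Agent/H94/EH/M14.lean, line 832) with `inner3`.
-/

set_option autoImplicit false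

namespace Pool.Agent.H35.WL

open Finset
open Pool.Agent.H80.KF

private theorem ph_prime_dvd {B m p : ℕ} (hp : p.Prime) (h : p ∣ pt B m) : p ∣ B := by
  unfold pt at h
  obtain ⟨q, hq, hpq⟩ := (Prime.dvd_finsetProd_iff hp.prime _).1 h
  have h1 := Finset.mem_filter.1 hq
  have h2 := (Nat.prime_dvd_prime_iff_eq hp (Nat.prime_of_mem_primeFactors h1.1)).1
    (hp.dvd_of_dvd_pow hpq)
  rw [h2]
  exact h1.2

/-- `n ↦ n^{-1/2}` -/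
private noncomputable def ph_f : ℕ →* ℝ where
  toFun n := (n : ℝ) ^ (-(1 : ℝ) / 2)
  map_one' := by simp
  map_mul' a b := by
    push_cast
    exact Real.mul_rpow (Nat.cast_nonneg a) (Nat.cast_nonneg b)

private theorem ph_f_apply (n : ℕ) : ph_f n = (n : ℝ) ^ (-(1 : ℝ) / 2) := rfl

private theorem ph_f_nonneg (n : ℕ) : 0 ≤ ph_f n := Real.rpow_nonneg (Nat.cast_nonneg n) _

private theorem ph_f_prime {p : ℕ} (hp : p.Prime) : ph_f p ≤ 3 / 4 := by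
  rw [ph_f_apply]
  have h1 : (2 : ℝ) ≤ p := by exact_mod_cast hp.two_le
  have h2 : (p : ℝ) ^ (-(1 : ℝ) / 2) ≤ (2 : ℝ) ^ (-(1 : ℝ) / 2) :=
    Real.rpow_le_rpow_of_nonpos (by norm_num) h1 (by norm_num)
  refine h2.trans ?_
  have h3 : ((2 : ℝ) ^ (-(1 : ℝ) / 2)) ^ (2 : ℕ) = 1 / 2 := by
    rw [← Real.rpow_natCast, ← Real.rpow_mul (by norm_num)]
    have : (-(1 : ℝ) / 2) * ((2 : ℕ) : ℝ) = ((-1 : ℤ) : ℝ) := by norm_num
    rw [this, Real.rpow_intCast]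
    norm_num
  by_contra hlt
  push Not at hlt
  have h4 : ((3 : ℝ) / 4) ^ (2 : ℕ) < ((2 : ℝ) ^ (-(1 : ℝ) / 2)) ^ (2 : ℕ) :=
    pow_lt_pow_left₀ hlt (by norm_num) (by norm_num)
  rw [h3] at h4
  norm_num at h4

private theorem ph_count (M d : ℕ) (hd : 1 ≤ d) :
    (((Ioc 0 M).filter (fun m => d ∣ m)).card : ℝ) ≤ M / d := by
  have h1 : ((Ioc 0 M).filter (fun m => d ∣ m)).card = M / d := Nat.Ioc_filter_dvd_card_eq_div M d
  rw [h1]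
  exact Nat.cast_div_le

private theorem ph_two_pow (B : ℕ) (hB : B ≠ 0) : 2 ^ B.primeFactors.card ≤ tau B := by
  unfold tau
  rw [← Finset.card_powerset]
  refine Finset.card_le_card_of_injOn (fun s => ∏ p ∈ s, p) ?_ ?_
  · intro s hs
    have hs' : s ⊆ B.primeFactors := Finset.mem_powerset.1 hs
    show ∏ p ∈ s, p ∈ (B.divisors : Set ℕ)
    rw [Finset.mem_coe, Nat.mem_divisors]
    exact ⟨(Finset.prod_dvd_prod_of_subset _ _ _ hs').trans (Nat.prod_primeFactors_dvd B), hB⟩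
  · intro s hs t ht hst
    have hs' : s ⊆ B.primeFactors := Finset.mem_powerset.1 hs
    have ht' : t ⊆ B.primeFactors := Finset.mem_powerset.1 ht
    have h1 : ∀ u : Finset ℕ, u ⊆ B.primeFactors → (∏ p ∈ u, p).primeFactors = u := by
      intro u hu
      exact Nat.primeFactors_prod fun p hp => Nat.prime_of_mem_primeFactors (hu hp)
    rw [← h1 s hs', ← h1 t ht']
    exact congrArg Nat.primeFactors hst

private theorem ph_term (B m : ℕ) (S : Finset ℕ) (hmS : pt B m ∈ S) (hm : m ≠ 0) :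
    ((pt B m : ℕ) : ℝ) ^ ((1 : ℝ) / 2) ≤
      ∑ d ∈ S, if d ∣ m then (d : ℝ) ^ ((1 : ℝ) / 2) else 0 := by
  have h1 : (if pt B m ∣ m then ((pt B m : ℕ) : ℝ) ^ ((1 : ℝ) / 2) else 0) =
      ((pt B m : ℕ) : ℝ) ^ ((1 : ℝ) / 2) := if_pos (pt_dvd B m hm)
  rw [← h1]
  refine Finset.single_le_sum (f := fun d : ℕ => if d ∣ m then (d : ℝ) ^ ((1 : ℝ) / 2) else 0)
    (fun d _ => ?_) hmS
  split_ifs
  · exact Real.rpow_nonneg (Nat.cast_nonneg d) _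
  · exact le_rfl

theorem pt_half_sum (N B : ℕ) (hN : 1 ≤ N) (hB : 1 ≤ B) :
    ∑ m ∈ II N, ((pt B m : ℕ) : ℝ) ^ ((1 : ℝ) / 2) ≤ 3 * N * (tau B : ℝ) ^ 2 := by
  classical
  set S : Finset ℕ := (II N).image (pt B) with hS
  have hII : II N ⊆ Ioc 0 (3 * N) := by
    intro m hm
    have := Finset.mem_Ioc.1 hm
    exact Finset.mem_Ioc.2 ⟨by omega, by omega⟩
  have hS1 : ∀ d ∈ S, 1 ≤ d := by
    intro d hd
    obtain ⟨m, _, rfl⟩ := Finset.mem_image.1 hd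
    exact pt_pos B m
  have hS2 : ∀ d ∈ S, d ∈ Nat.factoredNumbers B.primeFactors := by
    intro d hd
    obtain ⟨m, _, rfl⟩ := Finset.mem_image.1 hd
    rw [Nat.mem_factoredNumbers']
    intro p hp hpd
    exact Nat.mem_primeFactors.2 ⟨hp, ph_prime_dvd hp hpd, by omega⟩
  -- step 1
  have h1 : ∑ m ∈ II N, ((pt B m : ℕ) : ℝ) ^ ((1 : ℝ) / 2) ≤
      ∑ d ∈ S, (d : ℝ) ^ ((1 : ℝ) / 2) * ((3 * N : ℕ) / d : ℝ) := by
    calc ∑ m ∈ II N, ((pt B m : ℕ) : ℝ) ^ ((1 : ℝ) / 2)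
        ≤ ∑ m ∈ II N, ∑ d ∈ S, if d ∣ m then (d : ℝ) ^ ((1 : ℝ) / 2) else 0 := by
          refine Finset.sum_le_sum fun m hm => ?_
          have hm0 : m ≠ 0 := by
            have := Finset.mem_Ioc.1 hm
            omega
          exact ph_term B m S (Finset.mem_image_of_mem _ hm) hm0
      _ = ∑ d ∈ S, ∑ m ∈ II N, if d ∣ m then (d : ℝ) ^ ((1 : ℝ) / 2) else 0 := Finset.sum_comm
      _ ≤ ∑ d ∈ S, (d : ℝ) ^ ((1 : ℝ) / 2) * ((3 * N : ℕ) / d : ℝ) := by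
          refine Finset.sum_le_sum fun d hd => ?_
          rw [← Finset.sum_filter, Finset.sum_const, nsmul_eq_mul, mul_comm]
          refine mul_le_mul_of_nonneg_left ?_ (Real.rpow_nonneg (Nat.cast_nonneg d) _)
          refine le_trans ?_ (ph_count (3 * N) d (hS1 d hd))
          exact_mod_cast Finset.card_le_card (Finset.filter_subset_filter _ hII)
  -- step 2
  have h2 : ∑ d ∈ S, (d : ℝ) ^ ((1 : ℝ) / 2) * ((3 * N : ℕ) / d : ℝ) =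
      3 * N * ∑ d ∈ S, ph_f d := by
    rw [Finset.mul_sum]
    refine Finset.sum_congr rfl fun d hd => ?_
    have hd0 : (0 : ℝ) < d := by exact_mod_cast hS1 d hd
    have h3 : (d : ℝ) ^ ((1 : ℝ) / 2) = ph_f d * d := by
      rw [ph_f_apply]
      nth_rw 3 [← Real.rpow_one (d : ℝ)]
      rw [← Real.rpow_add hd0]
      norm_num
    rw [h3]
    push_cast
    field_simp
  -- step 3
  have hnorm : ∀ {p : ℕ}, p.Prime → ‖ph_f p‖ < 1 := by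
    intro p hp
    rw [Real.norm_of_nonneg (ph_f_nonneg p)]
    have := ph_f_prime hp
    linarith
  have h4 := EulerProduct.summable_and_hasSum_factoredNumbers_prod_filter_prime_geometric
    (f := ph_f) hnorm B.primeFactors
  have h5 : ∑ d ∈ S, ph_f d ≤ ∏ p ∈ B.primeFactors with p.Prime, (1 - ph_f p)⁻¹ := by
    have h6 : ∑ d ∈ S.attach, ph_f d.1 = ∑ d ∈ S, ph_f d := Finset.sum_attach S (fun d => ph_f d)
    rw [← h6]
    let e : {d // d ∈ S} → Nat.factoredNumbers B.primeFactors := fun d => ⟨d.1, hS2 d.1 d.2⟩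
    have he : Function.Injective e := by
      intro a b hab
      apply Subtype.ext
      exact congrArg (fun x => x.1) hab
    have h7 : ∑ d ∈ S.attach, ph_f d.1 =
        ∑ m ∈ S.attach.image e, ph_f (m : ℕ) := by
      rw [Finset.sum_image fun a _ b _ h => he h]
    rw [h7]
    exact sum_le_hasSum _ (fun m _ => ph_f_nonneg _) h4.2
  have h6 : ∏ p ∈ B.primeFactors with p.Prime, (1 - ph_f p)⁻¹ ≤ (4 : ℝ) ^ B.primeFactors.card := by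
    have h7 : B.primeFactors.filter (fun p => p.Prime) = B.primeFactors :=
      Finset.filter_true_of_mem fun p hp => Nat.prime_of_mem_primeFactors hp
    rw [h7, ← Finset.prod_const]
    refine Finset.prod_le_prod (fun p hp => ?_) fun p hp => ?_
    · have := ph_f_prime (Nat.prime_of_mem_primeFactors hp)
      exact inv_nonneg.2 (by linarith)
    · have := ph_f_prime (Nat.prime_of_mem_primeFactors hp)
      rw [inv_le_comm₀ (by linarith) (by norm_num)]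
      linarith
  have h7 : (4 : ℝ) ^ B.primeFactors.card ≤ (tau B : ℝ) ^ 2 := by
    have h8 : ((2 : ℝ) ^ B.primeFactors.card) ≤ tau B := by
      exact_mod_cast ph_two_pow B (by omega)
    calc (4 : ℝ) ^ B.primeFactors.card = ((2 : ℝ) ^ B.primeFactors.card) ^ 2 := by
          rw [← pow_mul, mul_comm, pow_mul]
          norm_num
      _ ≤ (tau B : ℝ) ^ 2 := pow_le_pow_left₀ (by positivity) h8 2
  rw [h2] at h1
  refine h1.trans ?_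
  exact mul_le_mul_of_nonneg_left (h5.trans (h6.trans h7)) (by positivity)

private theorem oo8_mem_PP {P p : ℕ} (h : p ∈ PP P) : 1 ≤ p ∧ p ≤ 4 * P := by
  unfold PP at h
  rw [mem_filter, mem_Ioc] at h
  exact ⟨h.2.one_lt.le, h.1.2⟩

private theorem oo8_mem_TT {P : ℕ} {τ : ℕ × ℕ × ℤ} (h : τ ∈ TT P) :
    (1 ≤ τ.1 ∧ τ.1 ≤ 4 * P) ∧ (1 ≤ τ.2.1 ∧ τ.2.1 ≤ 4 * P) ∧ |τ.2.2| ≤ 8 * (P : ℤ) := by
  unfold TT at h
  rw [mem_product, mem_product, mem_Icc] at h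
  exact ⟨oo8_mem_PP h.1, oo8_mem_PP h.2.1, abs_le.2 h.2.2⟩

private theorem oo8_K0_le {N P : ℕ} {η : ℤ} (hη : |η| ≤ 4 * (N : ℤ) ^ 2) {τ τ' : ℕ × ℕ × ℤ}
    (hτ : τ ∈ TT P) (hτ' : τ' ∈ TT P) : |K0 η τ τ'| ≤ 4096 * (N : ℤ) ^ 2 * (P : ℤ) ^ 4 := by
  obtain ⟨⟨a1, a2⟩, ⟨a3, a4⟩, a5⟩ := oo8_mem_TT hτ
  obtain ⟨⟨b1, b2⟩, ⟨b3, b4⟩, b5⟩ := oo8_mem_TT hτ'
  have hP : (0 : ℤ) ≤ P := Int.natCast_nonneg P
  have key : ∀ (p q p' q' : ℕ) (r : ℤ), 1 ≤ p → p ≤ 4 * P → 1 ≤ q → q ≤ 4 * P → p' ≤ 4 * P →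
      q' ≤ 4 * P → |r| ≤ 8 * (P : ℤ) →
      |((p : ℤ) - q) * r * p' * q'| ≤ 512 * (P : ℤ) ^ 4 := by
    intro p q p' q' r h1 h2 h3 h4 h5 h6 h7
    rw [abs_mul, abs_mul, abs_mul, Nat.abs_cast, Nat.abs_cast]
    have c1 : |((p : ℤ) - q)| ≤ 4 * P := by
      rw [abs_le]
      constructor <;> omega
    have c2 : (p' : ℤ) ≤ 4 * P := by exact_mod_cast h5
    have c3 : (q' : ℤ) ≤ 4 * P := by exact_mod_cast h6
    calc |((p : ℤ) - q)| * |r| * p' * q' ≤ (4 * P) * (8 * P) * (4 * P) * (4 * P) := by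
          apply mul_le_mul _ c3 (Int.natCast_nonneg _) (by positivity)
          apply mul_le_mul _ c2 (Int.natCast_nonneg _) (by positivity)
          exact mul_le_mul c1 h7 (abs_nonneg _) (by positivity)
      _ = 512 * (P : ℤ) ^ 4 := by ring
  have k1 := key τ.1 τ.2.1 τ'.1 τ'.2.1 τ.2.2 a1 a2 a3 a4 b2 b4 a5
  have k2 := key τ'.1 τ'.2.1 τ.1 τ.2.1 τ'.2.2 b1 b2 b3 b4 a2 a4 b5
  unfold K0
  rw [abs_mul]
  calc |η| * |((τ.1 : ℤ) - τ.2.1) * τ.2.2 * τ'.1 * τ'.2.1 -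
        ((τ'.1 : ℤ) - τ'.2.1) * τ'.2.2 * τ.1 * τ.2.1|
      ≤ (4 * (N : ℤ) ^ 2) * (512 * (P : ℤ) ^ 4 + 512 * (P : ℤ) ^ 4) := by
        apply mul_le_mul hη _ (abs_nonneg _) (by positivity)
        exact (abs_sub _ _).trans (add_le_add k1 k2)
    _ = 4096 * (N : ℤ) ^ 2 * (P : ℤ) ^ 4 := by ring

private theorem oo8_B0_le {N P : ℕ} (hPN : P ≤ N) {η : ℤ} (hη : |η| ≤ 4 * (N : ℤ) ^ 2)
    {τ τ' : ℕ × ℕ × ℤ} (hτ : τ ∈ TT P) (hτ' : τ' ∈ TT P) :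
    B0 η τ τ' ≤ 2 ^ 26 * N ^ 12 := by
  obtain ⟨⟨a1, a2⟩, ⟨a3, a4⟩, a5⟩ := oo8_mem_TT hτ
  obtain ⟨⟨b1, b2⟩, ⟨b3, b4⟩, b5⟩ := oo8_mem_TT hτ'
  have k1 : (K0 η τ τ').natAbs ≤ 4096 * N ^ 2 * P ^ 4 := by
    have := oo8_K0_le hη hτ hτ'
    rw [Int.abs_eq_natAbs] at this
    exact_mod_cast this
  have k2 : τ.2.2.natAbs ≤ 8 * P := by
    rw [Int.abs_eq_natAbs] at a5
    exact_mod_cast a5
  have k3 : τ'.2.2.natAbs ≤ 8 * P := by
    rw [Int.abs_eq_natAbs] at b5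
    exact_mod_cast b5
  unfold B0
  calc (K0 η τ τ').natAbs * (τ.2.2.natAbs * τ'.2.2.natAbs) * (τ.1 * τ.2.1 * (τ'.1 * τ'.2.1))
      ≤ (4096 * N ^ 2 * P ^ 4) * ((8 * P) * (8 * P)) * ((4 * P) * (4 * P) * ((4 * P) * (4 * P))) :=
        Nat.mul_le_mul (Nat.mul_le_mul k1 (Nat.mul_le_mul k2 k3))
          (Nat.mul_le_mul (Nat.mul_le_mul a2 a4) (Nat.mul_le_mul b2 b4))
    _ = 2 ^ 26 * (N ^ 2 * P ^ 10) := by ring
    _ ≤ 2 ^ 26 * (N ^ 2 * N ^ 10) := by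
        apply Nat.mul_le_mul_left
        apply Nat.mul_le_mul_left
        exact Nat.pow_le_pow_left hPN 10
    _ = 2 ^ 26 * N ^ 12 := by ring

private theorem oo8_gg {F : ℝ → ℂ} {η : ℤ} {N : ℕ} {τ : ℕ × ℕ × ℤ} {m1 m2 : ℕ}
    (h : gg F η N τ m1 m2 ≠ 0) : Adm N τ.1 τ.2.1 τ.2.2 m1 m2 := by
  by_contra hc
  apply h
  unfold gg
  rw [if_neg hc]

private theorem oo8_II {N m : ℕ} (hN : 1 ≤ N) (h : m ∈ II N) : 1 ≤ m ∧ m ≤ 3 * N := by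
  unfold II at h
  rw [mem_Ioc] at h
  omega

private theorem oo8_TT_card {P : ℕ} (hP : 1 ≤ P) : ((TT P).card : ℝ) ≤ 153 * (P : ℝ) ^ 3 := by
  have hP' : (1 : ℝ) ≤ P := by exact_mod_cast hP
  unfold TT
  rw [card_product, card_product, Int.card_Icc]
  have e : ((8 * (P : ℤ) + 1 - -(8 * P : ℤ)).toNat) = 16 * P + 1 := by omega
  rw [e]
  push_cast
  have h := pp_card_le P
  have h0 : (0 : ℝ) ≤ ((PP P).card : ℝ) := Nat.cast_nonneg _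
  calc ((PP P).card : ℝ) * (((PP P).card : ℝ) * (16 * P + 1))
      ≤ (3 * P) * ((3 * P) * (17 * P)) := by
        apply mul_le_mul h _ (by positivity) (by positivity)
        apply mul_le_mul h _ (by positivity) (by positivity)
        linarith only [hP']
    _ = 153 * (P : ℝ) ^ 3 := by ring

private theorem oo8_term (hW : WB) {δ C1 : ℝ} (hδ : 0 < δ) (hC1 : 1 ≤ C1)
    (hdiv : ∀ n : ℕ, 1 ≤ n → (n.divisors.card : ℝ) ≤ C1 * (n : ℝ) ^ δ)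
    {N P : ℕ} (hN : 1 ≤ N) (hP : 1 ≤ P) (hPN : P ≤ N) {η : ℤ} (hη0 : η ≠ 0)
    (hη : |η| ≤ 4 * (N : ℤ) ^ 2) {F : ℝ → ℂ} (hF : Wt N F) {τ τ' : ℕ × ℕ × ℤ}
    (hτ : τ ∈ TT P) (hτ' : τ' ∈ TT P) (hd : ¬ Diag τ τ') :
    ∑ m1 ∈ II N, ‖∑ m2 ∈ II N, gg F η N τ m1 m2 * (starRingEnd ℂ) (gg F η N τ' m1 m2)‖ ≤
      10 ^ 7 * (P : ℝ) ^ 2 * (N : ℝ) ^ ((1 : ℝ) / 2) * (Real.log N + 1) * (C1 * (3 * (N : ℝ)) ^ δ) ^ 3 *
        (3 * N * (C1 * (2 ^ 26 * (N : ℝ) ^ 12) ^ δ) ^ 2) := by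
  have hN1 : (1 : ℝ) ≤ N := by exact_mod_cast hN
  have hlog : 0 ≤ Real.log N := Real.log_nonneg hN1
  have hC0 : 0 < C1 := by linarith only [hC1]
  by_cases hex : ∃ m1 ∈ II N, ∃ m2 ∈ II N, gg F η N τ m1 m2 ≠ 0 ∧ gg F η N τ' m1 m2 ≠ 0
  · obtain ⟨m1, _, m2, _, h1, h2⟩ := hex
    have ha := oo8_gg h1
    have ha' := oo8_gg h2
    have hK : K0 η τ τ' ≠ 0 := k0_ne N P η hη0 τ τ' hτ hτ' hd m1 m2 m1 m2 ha ha'
    have hr : τ.2.2 ≠ 0 := ha.2.2.2.1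
    have hr' : τ'.2.2 ≠ 0 := ha'.2.2.2.1
    obtain ⟨⟨a1, a2⟩, ⟨a3, a4⟩, a5⟩ := oo8_mem_TT hτ
    obtain ⟨⟨b1, b2⟩, ⟨b3, b4⟩, b5⟩ := oo8_mem_TT hτ'
    have hB1 : 1 ≤ B0 η τ τ' := by
      unfold B0
      have c1 : 0 < (K0 η τ τ').natAbs := Int.natAbs_pos.2 hK
      have c2 : 0 < τ.2.2.natAbs := Int.natAbs_pos.2 hr
      have c3 : 0 < τ'.2.2.natAbs := Int.natAbs_pos.2 hr'
      exact Nat.mul_pos (Nat.mul_pos c1 (Nat.mul_pos c2 c3))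
        (Nat.mul_pos (Nat.mul_pos a1 a3) (Nat.mul_pos b1 b3))
    have hB2 := oo8_B0_le hPN hη hτ hτ'
    have htB : (tau (B0 η τ τ') : ℝ) ≤ C1 * (2 ^ 26 * (N : ℝ) ^ 12) ^ δ := by
      refine (hdiv _ hB1).trans ?_
      apply mul_le_mul_of_nonneg_left _ hC0.le
      apply Real.rpow_le_rpow (Nat.cast_nonneg _) _ hδ.le
      exact_mod_cast hB2
    have htm : ∀ m ∈ II N, (tau m : ℝ) ^ (3 : ℕ) ≤ (C1 * (3 * (N : ℝ)) ^ δ) ^ 3 := by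
      intro m hm
      obtain ⟨d1, d2⟩ := oo8_II hN hm
      have e1 : (tau m : ℝ) ≤ C1 * (3 * (N : ℝ)) ^ δ := by
        refine (hdiv _ d1).trans ?_
        apply mul_le_mul_of_nonneg_left _ hC0.le
        apply Real.rpow_le_rpow (Nat.cast_nonneg _) _ hδ.le
        exact_mod_cast d2
      exact pow_le_pow_left₀ (Nat.cast_nonneg _) e1 3
    calc ∑ m1 ∈ II N, ‖∑ m2 ∈ II N, gg F η N τ m1 m2 * (starRingEnd ℂ) (gg F η N τ' m1 m2)‖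
        ≤ ∑ m1 ∈ II N, 10 ^ 7 * (P : ℝ) ^ 2 * (N : ℝ) ^ ((1 : ℝ) / 2) * (Real.log N + 1) *
            (C1 * (3 * (N : ℝ)) ^ δ) ^ 3 * ((pt (B0 η τ τ') m1 : ℕ) : ℝ) ^ ((1 : ℝ) / 2) := by
          apply Finset.sum_le_sum
          intro m hm
          refine (inner3 hW N P hN hP η hη F hF τ τ' hτ hτ' hK m hm).trans ?_
          have f1 : (0 : ℝ) ≤ ((pt (B0 η τ τ') m : ℕ) : ℝ) ^ ((1 : ℝ) / 2) :=
            Real.rpow_nonneg (Nat.cast_nonneg _) _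
          calc 10 ^ 7 * (P : ℝ) ^ 2 * (N : ℝ) ^ ((1 : ℝ) / 2) * (Real.log N + 1) *
                ((pt (B0 η τ τ') m : ℕ) : ℝ) ^ ((1 : ℝ) / 2) * (tau m : ℝ) ^ (3 : ℕ)
              ≤ 10 ^ 7 * (P : ℝ) ^ 2 * (N : ℝ) ^ ((1 : ℝ) / 2) * (Real.log N + 1) *
                ((pt (B0 η τ τ') m : ℕ) : ℝ) ^ ((1 : ℝ) / 2) * (C1 * (3 * (N : ℝ)) ^ δ) ^ 3 :=
                mul_le_mul_of_nonneg_left (htm m hm) (by positivity)
            _ = _ := by ring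
      _ = 10 ^ 7 * (P : ℝ) ^ 2 * (N : ℝ) ^ ((1 : ℝ) / 2) * (Real.log N + 1) *
            (C1 * (3 * (N : ℝ)) ^ δ) ^ 3 *
            ∑ m1 ∈ II N, ((pt (B0 η τ τ') m1 : ℕ) : ℝ) ^ ((1 : ℝ) / 2) := by
          rw [Finset.mul_sum]
      _ ≤ _ := by
          apply mul_le_mul_of_nonneg_left _ (by positivity)
          refine (pt_half_sum N _ hN hB1).trans ?_
          apply mul_le_mul_of_nonneg_left _ (by positivity)
          exact pow_le_pow_left₀ (Nat.cast_nonneg _) htB 2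
  · push Not at hex
    have hz : ∑ m1 ∈ II N, ‖∑ m2 ∈ II N,
        gg F η N τ m1 m2 * (starRingEnd ℂ) (gg F η N τ' m1 m2)‖ = 0 := by
      apply Finset.sum_eq_zero
      intro m1 hm1
      rw [norm_eq_zero]
      apply Finset.sum_eq_zero
      intro m2 hm2
      by_cases h0 : gg F η N τ m1 m2 = 0
      · rw [h0, zero_mul]
      · rw [hex m1 hm1 m2 hm2 h0, map_zero, mul_zero]
    rw [hz]
    positivity

theorem oo_bound8 (hW : WB) : OOB 8 := by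
  intro ε hε
  obtain ⟨δ, hδe⟩ : ∃ δ : ℝ, δ = ε / 28 := ⟨_, rfl⟩
  have hδ : 0 < δ := by rw [hδe]; positivity
  obtain ⟨C1, hC1, hdiv⟩ := Pool.Agent.H92.EH.div_bound δ hδ
  have hC0 : 0 < C1 := by linarith only [hC1]
  refine ⟨153 ^ 2 * (10 ^ 7 * (1 / δ + 1) * (C1 * 3 ^ δ) ^ 3 * (3 * (C1 * (2 ^ 26) ^ δ) ^ 2)),
    by positivity, ?_⟩
  intro N P hN hP hPN η hη0 hη F hF
  have hN1 : (1 : ℝ) ≤ N := by exact_mod_cast hN
  have hN0 : (0 : ℝ) < N := by linarith only [hN1]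
  have hP1 : (1 : ℝ) ≤ P := by exact_mod_cast hP
  have hlog : 0 ≤ Real.log N := Real.log_nonneg hN1
  obtain ⟨Bd, hBd⟩ : ∃ Bd : ℝ, Bd = 10 ^ 7 * (P : ℝ) ^ 2 * (N : ℝ) ^ ((1 : ℝ) / 2) *
      (Real.log N + 1) * (C1 * (3 * (N : ℝ)) ^ δ) ^ 3 *
        (3 * N * (C1 * (2 ^ 26 * (N : ℝ) ^ 12) ^ δ) ^ 2) := ⟨_, rfl⟩
  have hBd0 : 0 ≤ Bd := by rw [hBd]; positivity
  have h1 : OO F η N P ≤ (153 * (P : ℝ) ^ 3) ^ 2 * Bd := by
    unfold OO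
    calc _ ≤ ∑ t ∈ (TT P ×ˢ TT P).filter (fun t => ¬ Diag t.1 t.2), Bd := by
          apply Finset.sum_le_sum
          intro t ht
          rw [mem_filter, mem_product] at ht
          rw [hBd]
          exact oo8_term hW hδ hC1 hdiv hN hP hPN hη0 hη hF ht.1.1 ht.1.2 ht.2
      _ = (((TT P ×ˢ TT P).filter (fun t => ¬ Diag t.1 t.2)).card : ℝ) * Bd := by
          rw [Finset.sum_const, nsmul_eq_mul]
      _ ≤ (153 * (P : ℝ) ^ 3) ^ 2 * Bd := by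
          apply mul_le_mul_of_nonneg_right _ hBd0
          have c1 : (((TT P ×ˢ TT P).filter (fun t => ¬ Diag t.1 t.2)).card : ℝ) ≤
              ((TT P ×ˢ TT P).card : ℝ) := by exact_mod_cast Finset.card_filter_le _ _
          refine c1.trans ?_
          rw [card_product]
          push_cast
          rw [pow_two]
          exact mul_le_mul (oo8_TT_card hP) (oo8_TT_card hP) (Nat.cast_nonneg _) (by positivity)
  refine h1.trans ?_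
  have hNd : (1 : ℝ) ≤ (N : ℝ) ^ δ := Real.one_le_rpow hN1 hδ.le
  have e1 : Real.log N + 1 ≤ (1 / δ + 1) * (N : ℝ) ^ δ := by
    have := Real.log_le_rpow_div hN0.le hδ
    have e : (1 / δ + 1) * (N : ℝ) ^ δ = (N : ℝ) ^ δ / δ + (N : ℝ) ^ δ := by ring
    rw [e]
    linarith only [hNd, this]
  have e2 : (3 * (N : ℝ)) ^ δ = 3 ^ δ * (N : ℝ) ^ δ := Real.mul_rpow (by norm_num) hN0.le
  have e3 : (2 ^ 26 * (N : ℝ) ^ 12) ^ δ = (2 ^ 26) ^ δ * (N : ℝ) ^ (12 * δ) := by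
    rw [Real.mul_rpow (by norm_num) (by positivity), ← Real.rpow_natCast (N : ℝ) 12,
      ← Real.rpow_mul hN0.le]
    norm_num
  have e4 : (N : ℝ) ^ (3 / 2 + ε) = (N : ℝ) ^ ((1 : ℝ) / 2) * (N : ℝ) ^ δ * ((N : ℝ) ^ δ) ^ 3 * N *
      ((N : ℝ) ^ (12 * δ)) ^ 2 := by
    rw [← Real.rpow_natCast ((N : ℝ) ^ (12 * δ)) 2, ← Real.rpow_mul hN0.le,
      ← Real.rpow_natCast ((N : ℝ) ^ δ) 3, ← Real.rpow_mul hN0.le,
      ← Real.rpow_add hN0, ← Real.rpow_add hN0, ← Real.rpow_add_one hN0.ne',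
      ← Real.rpow_add hN0]
    congr 1
    rw [hδe]
    push_cast
    ring
  rw [hBd, e2, e3, e4]
  calc (153 * (P : ℝ) ^ 3) ^ 2 * (10 ^ 7 * (P : ℝ) ^ 2 * (N : ℝ) ^ ((1 : ℝ) / 2) *
        (Real.log N + 1) * (C1 * (3 ^ δ * (N : ℝ) ^ δ)) ^ 3 *
        (3 * N * (C1 * ((2 ^ 26) ^ δ * (N : ℝ) ^ (12 * δ))) ^ 2))
      ≤ (153 * (P : ℝ) ^ 3) ^ 2 * (10 ^ 7 * (P : ℝ) ^ 2 * (N : ℝ) ^ ((1 : ℝ) / 2) *
        ((1 / δ + 1) * (N : ℝ) ^ δ) * (C1 * (3 ^ δ * (N : ℝ) ^ δ)) ^ 3 *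
        (3 * N * (C1 * ((2 ^ 26) ^ δ * (N : ℝ) ^ (12 * δ))) ^ 2)) := by
        apply mul_le_mul_of_nonneg_left _ (by positivity)
        apply mul_le_mul_of_nonneg_right _ (by positivity)
        apply mul_le_mul_of_nonneg_right _ (by positivity)
        exact mul_le_mul_of_nonneg_left e1 (by positivity)
    _ = _ := by ring

end Pool.Agent.H35.WL
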