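import Pool.Agent.H35.WL.Defs

/-!
# WL-Qa: Kloosterman sums modulo prime powers, counting facts

`sqrt_count`: the units `y mod p^l` with `y² ≡ c`: `(y - y₀)(y + y₀) ≡ 0`; `p` odd: `p` does not divide
both factors, so `y ≡ ± y₀`; `p = 2`: one of the factors is divisible by `2^{l-1}`, so
`y ≡ ± y₀ mod 2^{l-1}`, at most `4` residues mod `2^l`.

`quad_sum`: `|∑_{t mod p} e((c t + d t²)/p)|² ≤ 2p` if `p ∤ d`: for odd `p` expand the square:
`∑_{t,u} e((c (t-u) + d (t² - u²))/p) = ∑_h e((c h + d h²)/p) ∑_u e(2 d h u/p) = p`; `p = 2`: trivial.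
-/

set_option autoImplicit false

namespace Pool.Agent.H35.WL

open Finset
open Pool.Agent.H80.KF

private theorem qa_two (m : ℕ) (r : ℤ) :
    ((range m).filter (fun y : ℕ => (m : ℤ) ∣ 2 * ((y : ℤ) - r))).card ≤ 2 := by
  obtain ⟨T, hT⟩ : ∃ T, T = (range m).filter (fun y : ℕ => (m : ℤ) ∣ 2 * ((y : ℤ) - r)) := ⟨_, rfl⟩
  rw [← hT]
  rcases T.eq_empty_or_nonempty with h | h
  · rw [h]
    simp
  have hmem : ∀ y ∈ T, y < m ∧ (m : ℤ) ∣ 2 * ((y : ℤ) - r) := by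
    intro y hy
    rw [hT, mem_filter, mem_range] at hy
    exact hy
  have hsub : T ⊆ {T.min' h, T.min' h + m / 2} := by
    intro y hy
    have h1 := T.min'_le y hy
    obtain ⟨h2, h3⟩ := hmem y hy
    obtain ⟨h4, h5⟩ := hmem _ (T.min'_mem h)
    generalize T.min' h = y1 at h1 h4 h5 ⊢
    have h6 : (m : ℤ) ∣ 2 * ((y : ℤ) - y1) := by
      have := dvd_sub h3 h5
      have e : 2 * ((y : ℤ) - r) - 2 * ((y1 : ℤ) - r) = 2 * ((y : ℤ) - y1) := by ring
      rwa [e] at this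
    obtain ⟨k, hk⟩ := h6
    have hm : (0 : ℤ) < m := by
      have : 0 < m := by omega
      exact_mod_cast this
    have h7 : ((y : ℤ) - y1) < m := by omega
    have h8 : (0 : ℤ) ≤ (y : ℤ) - y1 := by omega
    have k1 : k < 2 := by
      by_contra hc
      push Not at hc
      nlinarith
    have k0 : 0 ≤ k := by
      by_contra hc
      push Not at hc
      nlinarith
    rw [mem_insert, mem_singleton]
    have k2 : k = 0 ∨ k = 1 := by omega
    rcases k2 with rfl | rfl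
    · left
      omega
    · right
      omega
  exact (card_le_card hsub).trans card_le_two

private theorem qa_split (p l : ℕ) (hp : p.Prime) (y y0 : ℤ) (hy : ¬ (p : ℤ) ∣ y)
    (hy0 : ¬ (p : ℤ) ∣ y0) (h : ((p ^ l : ℕ) : ℤ) ∣ (y - y0) * (y + y0)) :
    ((p ^ l : ℕ) : ℤ) ∣ 2 * (y - y0) ∨ ((p ^ l : ℕ) : ℤ) ∣ 2 * (y + y0) := by
  have hP : Prime (p : ℤ) := Nat.prime_iff_prime_int.1 hp
  push_cast at h ⊢
  have cop : ∀ w : ℤ, ¬ (p : ℤ) ∣ w → IsCoprime ((p : ℤ) ^ l) w := fun w hw =>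
    ((Prime.coprime_iff_not_dvd hP).2 hw).pow_left
  by_cases h2 : p = 2
  · subst h2
    push_cast at hy hy0 cop h ⊢
    obtain ⟨i, hi⟩ : ∃ i : ℤ, y = 2 * i + 1 := ⟨y / 2, by omega⟩
    obtain ⟨j, hj⟩ : ∃ j : ℤ, y0 = 2 * j + 1 := ⟨y0 / 2, by omega⟩
    by_cases h3 : (2 : ℤ) ∣ i - j
    · have h4 : ¬ (2 : ℤ) ∣ i + j + 1 := by omega
      left
      have e : (y - y0) * (y + y0) = (i + j + 1) * (2 * (y - y0)) := by
        rw [hi, hj]
        ring
      rw [e] at h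
      exact (cop _ h4).dvd_of_dvd_mul_left h
    · right
      have e : (y - y0) * (y + y0) = (i - j) * (2 * (y + y0)) := by
        rw [hi, hj]
        ring
      rw [e] at h
      exact (cop _ h3).dvd_of_dvd_mul_left h
  · by_cases h3 : (p : ℤ) ∣ y - y0
    · have h4 : ¬ (p : ℤ) ∣ y + y0 := by
        intro h5
        have h6 := dvd_add h3 h5
        have e : y - y0 + (y + y0) = 2 * y := by ring
        rw [e] at h6
        rcases hP.dvd_or_dvd h6 with h7 | h7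
        · have h8 : p ∣ 2 := by exact_mod_cast h7
          exact h2 ((Nat.prime_dvd_prime_iff_eq hp Nat.prime_two).1 h8)
        · exact hy h7
      left
      exact Dvd.dvd.mul_left ((cop _ h4).dvd_of_dvd_mul_right h) 2
    · right
      exact Dvd.dvd.mul_left ((cop _ h3).dvd_of_dvd_mul_left h) 2

theorem sqrt_count (p l : ℕ) (hp : p.Prime) (a b : ℤ) (ha : ¬ (p : ℤ) ∣ a) :
    ((range (p ^ l)).filter (fun y => Nat.Coprime y p ∧ ((p ^ l : ℕ) : ℤ) ∣ a - b * (y : ℤ) ^ 2)).card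
      ≤ 4 := by
  rcases l with _ | l
  · refine (card_filter_le _ _).trans ?_
    rw [pow_zero, card_range]
    norm_num
  obtain ⟨S, hS⟩ : ∃ S, S = (range (p ^ (l + 1))).filter (fun y => Nat.Coprime y p ∧
    ((p ^ (l + 1) : ℕ) : ℤ) ∣ a - b * (y : ℤ) ^ 2) := ⟨_, rfl⟩
  rw [← hS]
  rcases S.eq_empty_or_nonempty with h | ⟨y0, hy0⟩
  · rw [h]
    simp
  have hP : Prime (p : ℤ) := Nat.prime_iff_prime_int.1 hp
  have hmem : ∀ y ∈ S, y < p ^ (l + 1) ∧ ¬ (p : ℤ) ∣ (y : ℤ) ∧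
      ((p ^ (l + 1) : ℕ) : ℤ) ∣ a - b * (y : ℤ) ^ 2 := by
    intro y hy
    rw [hS, mem_filter, mem_range] at hy
    refine ⟨hy.1, fun h1 => ?_, hy.2.2⟩
    have h2 : p ∣ y := by exact_mod_cast h1
    exact (Nat.Prime.coprime_iff_not_dvd hp).1 hy.2.1.symm h2
  obtain ⟨g1, g2, g3⟩ := hmem y0 hy0
  have hpl : (p : ℤ) ∣ ((p ^ (l + 1) : ℕ) : ℤ) := by
    push_cast
    exact dvd_pow_self _ (Nat.succ_ne_zero l)
  have hb : ¬ (p : ℤ) ∣ b := by
    intro h1
    have h2 := hpl.trans g3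
    have h3 := dvd_add h2 (Dvd.dvd.mul_right h1 ((y0 : ℤ) ^ 2))
    rw [sub_add_cancel] at h3
    exact ha h3
  have hcop : IsCoprime (((p ^ (l + 1) : ℕ) : ℤ)) b := by
    push_cast
    exact ((Prime.coprime_iff_not_dvd hP).2 hb).pow_left
  have hsub : S ⊆ (range (p ^ (l + 1))).filter
        (fun y : ℕ => ((p ^ (l + 1) : ℕ) : ℤ) ∣ 2 * ((y : ℤ) - (y0 : ℤ))) ∪
      (range (p ^ (l + 1))).filter
        (fun y : ℕ => ((p ^ (l + 1) : ℕ) : ℤ) ∣ 2 * ((y : ℤ) - (-(y0 : ℤ)))) := by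
    intro y hy
    obtain ⟨f1, f2, f3⟩ := hmem y hy
    have h1 : ((p ^ (l + 1) : ℕ) : ℤ) ∣ b * (((y : ℤ) - y0) * ((y : ℤ) + y0)) := by
      have h2 := dvd_sub g3 f3
      have e : a - b * (y0 : ℤ) ^ 2 - (a - b * (y : ℤ) ^ 2) =
          b * (((y : ℤ) - y0) * ((y : ℤ) + y0)) := by ring
      rwa [e] at h2
    have h2 := hcop.dvd_of_dvd_mul_left h1
    rw [mem_union, mem_filter, mem_filter, mem_range, sub_neg_eq_add]
    rcases qa_split p (l + 1) hp y y0 f2 g2 h2 with h3 | h3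
    · exact Or.inl ⟨f1, h3⟩
    · exact Or.inr ⟨f1, h3⟩
  refine (card_le_card hsub).trans ((card_union_le _ _).trans ?_)
  have t1 := qa_two (p ^ (l + 1)) (y0 : ℤ)
  have t2 := qa_two (p ^ (l + 1)) (-(y0 : ℤ))
  omega

private theorem qa_char (q : ℕ) [NeZero q] (j : ℤ) :
    ZMod.stdAddChar (j : ZMod q) = ee ((j : ℝ) / q) := by
  rw [ZMod.stdAddChar_coe, ee]
  congr 1
  push_cast
  ring

private theorem qa_sum (p : ℕ) [NeZero p] (c d : ℤ) :
    ∑ t ∈ range p, ee (((c : ℝ) * t + d * t ^ 2) / p) =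
      ∑ x : ZMod p, ZMod.stdAddChar ((c : ZMod p) * x + (d : ZMod p) * x ^ 2) := by
  refine Finset.sum_nbij' (fun t : ℕ => (t : ZMod p)) (fun x => x.val) (fun _ _ => mem_univ _)
    (fun x _ => mem_range.2 (ZMod.val_lt x)) ?_ (fun x _ => ZMod.natCast_zmod_val x) ?_
  · intro t ht
    exact ZMod.val_cast_of_lt (mem_range.1 ht)
  · intro t _
    have h1 : (c : ZMod p) * (t : ZMod p) + (d : ZMod p) * (t : ZMod p) ^ 2 =
        ((c * (t : ℤ) + d * (t : ℤ) ^ 2 : ℤ) : ZMod p) := by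
      push_cast
      rfl
    rw [h1, qa_char]
    congr 1
    push_cast
    rfl

private theorem qa_sq (p : ℕ) [NeZero p] (c d : ZMod p)
    (h2 : ∀ h : ZMod p, 2 * d * h = 0 → h = 0) :
    (∑ x : ZMod p, ZMod.stdAddChar (c * x + d * x ^ 2)) *
      (starRingEnd ℂ) (∑ x : ZMod p, ZMod.stdAddChar (c * x + d * x ^ 2)) = (p : ℂ) := by
  classical
  rw [map_sum, Finset.sum_mul_sum]
  have e1 : ∀ x y : ZMod p, ZMod.stdAddChar (c * x + d * x ^ 2) *
      (starRingEnd ℂ) (ZMod.stdAddChar (c * y + d * y ^ 2)) =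
      (ZMod.stdAddChar ((c * x + d * x ^ 2) - (c * y + d * y ^ 2)) : ℂ) := by
    intro x y
    rw [← AddChar.map_neg_eq_conj, ← AddChar.map_add_eq_mul, sub_eq_add_neg]
  simp_rw [e1]
  rw [Finset.sum_comm]
  have e2 : ∀ y : ZMod p, ∑ x : ZMod p,
      (ZMod.stdAddChar ((c * x + d * x ^ 2) - (c * y + d * y ^ 2)) : ℂ) =
      ∑ h : ZMod p, (ZMod.stdAddChar (c * h + d * h ^ 2) : ℂ) * ZMod.stdAddChar (y * (2 * d * h)) := by
    intro y
    rw [← Equiv.sum_comp (Equiv.addRight y)]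
    refine Finset.sum_congr rfl fun h _ => ?_
    rw [← AddChar.map_add_eq_mul]
    congr 1
    simp only [Equiv.coe_addRight]
    ring
  simp_rw [e2]
  rw [Finset.sum_comm]
  simp_rw [← Finset.mul_sum]
  have e3 : ∀ h : ZMod p, (ZMod.stdAddChar (c * h + d * h ^ 2) : ℂ) *
      ∑ y : ZMod p, ZMod.stdAddChar (y * (2 * d * h)) = if h = 0 then (p : ℂ) else 0 := by
    intro h
    rw [AddChar.sum_mulShift _ (ZMod.isPrimitive_stdAddChar p), ZMod.card]
    by_cases hh : h = 0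
    · subst hh
      simp
    · have h3 : 2 * d * h ≠ 0 := fun h4 => hh (h2 h h4)
      rw [if_neg h3, if_neg hh]
      simp
  simp_rw [e3]
  rw [Finset.sum_ite_eq']
  simp

theorem quad_sum (p : ℕ) (hp : p.Prime) (c d : ℤ) (hd : ¬ (p : ℤ) ∣ d) :
    ‖∑ t ∈ range p, ee (((c : ℝ) * t + d * t ^ 2) / p)‖ ≤ Real.sqrt (2 * p) := by
  have : NeZero p := ⟨hp.ne_zero⟩
  have : Fact p.Prime := ⟨hp⟩
  by_cases h2 : p = 2
  · subst h2
    have h3 : ‖∑ t ∈ range 2, ee (((c : ℝ) * t + d * t ^ 2) / (2 : ℕ))‖ ≤ 2 := by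
      refine (norm_sum_le _ _).trans ?_
      have h4 : ∀ t ∈ range 2, ‖ee (((c : ℝ) * t + d * t ^ 2) / (2 : ℕ))‖ ≤ 1 := by
        intro t _
        unfold ee
        rw [show (2 * Real.pi * ((((c : ℝ) * t + d * t ^ 2) / (2 : ℕ) : ℝ) : ℂ) * Complex.I : ℂ) =
          ((2 * Real.pi * (((c : ℝ) * t + d * t ^ 2) / (2 : ℕ)) : ℝ) : ℂ) * Complex.I by push_cast; ring,
          Complex.norm_exp_ofReal_mul_I]
      refine (Finset.sum_le_sum h4).trans ?_
      simp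
    refine h3.trans ?_
    rw [show (2 * ((2 : ℕ) : ℝ)) = 2 ^ 2 by norm_num, Real.sqrt_sq (by norm_num)]
  · rw [qa_sum p c d]
    have hcond : ∀ h : ZMod p, 2 * (d : ZMod p) * h = 0 → h = 0 := by
      intro h hh
      have d0 : (d : ZMod p) ≠ 0 := by
        rw [Ne, ZMod.intCast_zmod_eq_zero_iff_dvd]
        exact hd
      have t0 : (2 : ZMod p) ≠ 0 := by
        intro h3
        have h4 : ((2 : ℕ) : ZMod p) = 0 := by exact_mod_cast h3
        rw [ZMod.natCast_eq_zero_iff] at h4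
        exact h2 ((Nat.prime_dvd_prime_iff_eq hp Nat.prime_two).1 h4)
      rcases mul_eq_zero.1 hh with h5 | h5
      · rcases mul_eq_zero.1 h5 with h6 | h6
        · exact absurd h6 t0
        · exact absurd h6 d0
      · exact h5
    have h3 := qa_sq p (c : ZMod p) (d : ZMod p) hcond
    rw [Complex.mul_conj'] at h3
    have h4 : ‖∑ x : ZMod p, (ZMod.stdAddChar ((c : ZMod p) * x + (d : ZMod p) * x ^ 2) : ℂ)‖ ^ 2 =
        (p : ℝ) := by exact_mod_cast h3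
    rw [← Real.sqrt_sq (norm_nonneg (∑ x : ZMod p,
      (ZMod.stdAddChar ((c : ZMod p) * x + (d : ZMod p) * x ^ 2) : ℂ))), h4]
    apply Real.sqrt_le_sqrt
    have : (0 : ℝ) ≤ p := Nat.cast_nonneg p
    linarith

end Pool.Agent.H35.WL
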