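import Pool.Agent.H35.WL.Qa

/-!
# WL-Qb: Kloosterman sums modulo `p^{2l}` and `p^{2l+1}`, `l ≥ 1`, `p ∤ a`

`klS q a b = ∑_x e((a x̄ + b x)/q)`.  `q = p^k`, `j = k - l`, `2j ≥ k`; `x = y + p^j z`, `y mod p^j`,
`(y,p) = 1`, `z mod p^l`: `x̄ ≡ ȳ - ȳ² p^j z mod p^k`, so the sum over `z` is
`∑_z e((b - a ȳ²) z/p^l) = p^l` if `p^l ∣ b y² - a`, and `0` otherwise.
`k = 2l`: `|klS| ≤ p^l · #{y mod p^l : b y² ≡ a} ≤ 4 p^l`.
`k = 2l+1`: `y = y₀ + p^l t`, `y₀ mod p^l`, `t mod p`, `b y₀² ≡ a mod p^l`: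
`x̄ ≡ ȳ₀ - ȳ₀² p^l t + ȳ₀³ p^{2l} t² mod p^{2l+1}`, so the inner sum over `t` is
`∑_t e((c t + d t²)/p)` with `c = (b - a ȳ₀²)/p^l`, `d = a ȳ₀³`, `p ∤ d`: `quad_sum`.  So
`|klS| ≤ 4 p^l √(2p) ≤ 8 p^{k/2}`.
-/

set_option autoImplicit false

namespace Pool.Agent.H35.WL

open Finset
open Pool.Agent.H80.KF

private theorem qb_sum_mul (m n : ℕ) (f : ℕ → ℂ) :
    ∑ x ∈ range (m * n), f x = ∑ z ∈ range n, ∑ y ∈ range m, f (y + m * z) := by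
  induction n with
  | zero => simp
  | succ n ih =>
    rw [Nat.mul_succ, sum_range_add, ih, sum_range_succ]
    congr 1
    exact sum_congr rfl fun y _ => by rw [add_comm]

private theorem qb_ee_nat_mul (n : ℕ) (t : ℝ) : ee ((n : ℝ) * t) = ee t ^ n := by
  induction n with
  | zero => simp [ee_zero]
  | succ n ih =>
    rw [pow_succ, ← ih, ← ee_add]
    congr 1
    push_cast
    ring

private theorem qb_ee_eq_one {t : ℝ} (h : ee t = 1) : ∃ k : ℤ, t = k := by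
  unfold ee at h
  rw [Complex.exp_eq_one_iff] at h
  obtain ⟨n, hn⟩ := h
  refine ⟨n, ?_⟩
  have hpi : (2 * Real.pi * Complex.I : ℂ) ≠ 0 := by
    simp [Real.pi_ne_zero, Complex.I_ne_zero]
  have h2 : (t : ℂ) * (2 * Real.pi * Complex.I) = (n : ℂ) * (2 * Real.pi * Complex.I) := by
    rw [← hn]; ring
  have h3 := mul_right_cancel₀ hpi h2
  exact_mod_cast h3

private theorem qb_orth {n : ℕ} (hn : 1 ≤ n) (c : ℤ) :
    ∑ z ∈ range n, ee ((c : ℝ) * z / n) = if (n : ℤ) ∣ c then (n : ℂ) else 0 := by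
  have hn0 : (n : ℝ) ≠ 0 := by
    have : (1 : ℝ) ≤ n := by exact_mod_cast hn
    linarith
  have hterm : ∀ z : ℕ, ee ((c : ℝ) * z / n) = ee ((c : ℝ) / n) ^ z := by
    intro z
    rw [← qb_ee_nat_mul]
    congr 1
    ring
  split_ifs with h
  · obtain ⟨k, hk⟩ := h
    have h1 : ∀ z ∈ range n, ee ((c : ℝ) * z / n) = 1 := by
      intro z _
      have e : (c : ℝ) * z / n = ((k * z : ℤ) : ℝ) := by
        rw [hk]
        push_cast
        field_simp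
      rw [e, ee_int]
    rw [sum_congr rfl h1]
    simp
  · have h1 : ee ((c : ℝ) / n) ≠ 1 := by
      intro h1
      obtain ⟨k, hk⟩ := qb_ee_eq_one h1
      apply h
      refine ⟨k, ?_⟩
      rw [div_eq_iff hn0] at hk
      have : (c : ℝ) = ((n * k : ℤ) : ℝ) := by
        rw [hk]; push_cast; ring
      exact_mod_cast this
    rw [sum_congr rfl fun z _ => hterm z, geom_sum_eq h1, ← qb_ee_nat_mul]
    have e : (n : ℝ) * ((c : ℝ) / n) = (c : ℝ) := by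
      field_simp
    rw [e, ee_int, sub_self, zero_div]

/-- the terms of the sum -/
private noncomputable def qb_g (q : ℕ) (a b : ℤ) (x : ℕ) : ℂ := ee ((b : ℝ) * x / q) * kf q a x

private theorem qb_norm_g (q : ℕ) (a b : ℤ) (x : ℕ) : ‖qb_g q a b x‖ = 1 := by
  unfold qb_g
  rw [norm_mul, norm_ee, norm_kf, one_mul]

private theorem qb_cop_iff {p k x : ℕ} (hk : 1 ≤ k) : Nat.Coprime x (p ^ k) ↔ Nat.Coprime x p :=
  Nat.coprime_pow_right_iff (by omega) x p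

private theorem qb_cop_add {p m : ℕ} (hm : p ∣ m) (y z : ℕ) :
    Nat.Coprime (y + m * z) p ↔ Nat.Coprime y p := by
  obtain ⟨r, rfl⟩ := hm
  rw [mul_assoc]
  exact Nat.coprime_add_mul_left_left y p (r * z)

private theorem qb_klS {p k : ℕ} (hk : 1 ≤ k) (a b : ℤ) :
    klS (p ^ k) a b = ∑ x ∈ range (p ^ k), if Nat.Coprime x p then qb_g (p ^ k) a b x else 0 := by
  unfold klS
  rw [sum_filter]
  refine sum_congr rfl fun x _ => ?_
  simp only [qb_cop_iff hk]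
  rfl

/-- the linear expansion -/
private theorem qb_lin {p j l : ℕ} (hp : p.Prime) (hj : 1 ≤ j) (hl : l ≤ j) (a b : ℤ) {y : ℕ}
    (hy : Nat.Coprime y p) (z : ℕ) :
    qb_g (p ^ (j + l)) a b (y + p ^ j * z) = qb_g (p ^ (j + l)) a b y *
      ee (((b - a * (iv (p ^ (j + l)) y : ℤ) ^ 2 : ℤ) : ℝ) * z / (p ^ l : ℕ)) := by
  have hq : 1 ≤ p ^ (j + l) := Nat.one_le_pow _ _ hp.pos
  have hyq : Nat.Coprime y (p ^ (j + l)) := (qb_cop_iff (by omega)).2 hy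
  have hY := iv_spec hq hyq
  have hkf : kf (p ^ (j + l)) a y = ee ((a : ℝ) * (iv (p ^ (j + l)) y : ℝ) / ((p ^ (j + l) : ℕ) : ℝ)) :=
    rfl
  set Y : ℕ := iv (p ^ (j + l)) y with hYd
  have hdv : ((p ^ (j + l) : ℕ) : ℤ) ∣ ((y + p ^ j * z : ℕ) : ℤ) *
      ((Y : ℤ) - (Y : ℤ) ^ 2 * ((p : ℤ) ^ j * z)) - 1 := by
    have e : ((y + p ^ j * z : ℕ) : ℤ) * ((Y : ℤ) - (Y : ℤ) ^ 2 * ((p : ℤ) ^ j * z)) - 1 =
        ((y : ℤ) * Y - 1) * (1 - Y * ((p : ℤ) ^ j * z)) -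
          (p : ℤ) ^ (j + l) * ((p : ℤ) ^ (j - l) * ((Y : ℤ) ^ 2 * z ^ 2)) := by
      have e2 : (p : ℤ) ^ (j + l) * ((p : ℤ) ^ (j - l) * ((Y : ℤ) ^ 2 * z ^ 2)) =
          ((p : ℤ) ^ j) ^ 2 * ((Y : ℤ) ^ 2 * z ^ 2) := by
        rw [← mul_assoc, ← pow_add, ← pow_mul]
        congr 2
        omega
      rw [e2]
      push_cast
      ring
    rw [e]
    refine dvd_sub (Dvd.dvd.mul_right hY _) ?_
    refine ⟨(p : ℤ) ^ (j - l) * ((Y : ℤ) ^ 2 * z ^ 2), ?_⟩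
    push_cast
    ring
  have hp0 : (p : ℝ) ≠ 0 := by exact_mod_cast hp.ne_zero
  unfold qb_g
  rw [kf_eq hq a _ hdv, hkf, ← ee_add, ← ee_add, ← ee_add]
  congr 1
  push_cast
  rw [pow_add]
  field_simp
  ring

private theorem qb_cond {p j l : ℕ} (hp : p.Prime) (hj : 1 ≤ j) (a b : ℤ) {y : ℕ}
    (hy : Nat.Coprime y p) :
    ((p ^ l : ℕ) : ℤ) ∣ b - a * (iv (p ^ (j + l)) y : ℤ) ^ 2 ↔
      ((p ^ l : ℕ) : ℤ) ∣ a - b * (y : ℤ) ^ 2 := by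
  have hq : 1 ≤ p ^ (j + l) := Nat.one_le_pow _ _ hp.pos
  have hyq : Nat.Coprime y (p ^ (j + l)) := (qb_cop_iff (by omega)).2 hy
  have hY := iv_spec hq hyq
  set Y : ℕ := iv (p ^ (j + l)) y with hYd
  have hlq : ((p ^ l : ℕ) : ℤ) ∣ ((p ^ (j + l) : ℕ) : ℤ) := by
    exact_mod_cast pow_dvd_pow p (by omega : l ≤ j + l)
  obtain ⟨r, hr⟩ := hlq.trans hY
  constructor
  · rintro ⟨s, hs⟩
    refine ⟨-(s * (y : ℤ) ^ 2) - a * (((y : ℤ) * Y + 1) * r), ?_⟩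
    linear_combination (-(y : ℤ) ^ 2) * hs - a * ((y : ℤ) * Y + 1) * hr
  · rintro ⟨s, hs⟩
    refine ⟨-(s * (Y : ℤ) ^ 2) - b * (((y : ℤ) * Y + 1) * r), ?_⟩
    linear_combination (-(Y : ℤ) ^ 2) * hs - b * ((y : ℤ) * Y + 1) * hr

private theorem qb_main {p j l : ℕ} (hp : p.Prime) (hj : 1 ≤ j) (hl : l ≤ j) (a b : ℤ) :
    klS (p ^ (j + l)) a b = ((p ^ l : ℕ) : ℂ) *
      ∑ y ∈ (range (p ^ j)).filter (fun y => Nat.Coprime y p ∧
        ((p ^ l : ℕ) : ℤ) ∣ a - b * (y : ℤ) ^ 2), qb_g (p ^ (j + l)) a b y := by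
  have hpj : p ∣ p ^ j := dvd_pow_self p (by omega)
  have hpl : 1 ≤ p ^ l := Nat.one_le_pow _ _ hp.pos
  rw [qb_klS (by omega), sum_filter, mul_sum]
  have e1 : range (p ^ (j + l)) = range (p ^ j * p ^ l) := by rw [pow_add]
  rw [e1, qb_sum_mul, sum_comm]
  refine sum_congr rfl fun y _ => ?_
  simp only [qb_cop_add hpj]
  by_cases hy : Nat.Coprime y p
  · simp only [if_pos hy]
    rw [sum_congr rfl fun z _ => qb_lin hp hj hl a b hy z, ← mul_sum, qb_orth hpl]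
    have hc := qb_cond (l := l) hp hj a b hy
    by_cases h : ((p ^ l : ℕ) : ℤ) ∣ a - b * (y : ℤ) ^ 2
    · rw [if_pos (hc.2 h), if_pos ⟨hy, h⟩]
      ring
    · rw [if_neg (fun h' => h (hc.1 h')), if_neg (fun h' => h h'.2)]
      ring
  · have hy2 : ¬ (Nat.Coprime y p ∧ ((p ^ l : ℕ) : ℤ) ∣ a - b * (y : ℤ) ^ 2) := fun h' => hy h'.1
    simp only [if_neg hy, if_neg hy2]
    simp

theorem klS_even (p l : ℕ) (hp : p.Prime) (hl : 1 ≤ l) (a b : ℤ) (ha : ¬ (p : ℤ) ∣ a) :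
    ‖klS (p ^ (2 * l)) a b‖ ≤ 8 * Real.sqrt ((p : ℝ) ^ (2 * l)) := by
  have h1 := qb_main hp hl (le_refl l) a b
  have e : 2 * l = l + l := by ring
  have h2 : Real.sqrt ((p : ℝ) ^ (2 * l)) = (p : ℝ) ^ l := by
    rw [mul_comm, pow_mul]
    exact Real.sqrt_sq (by positivity)
  rw [h2, e, h1, norm_mul]
  have h3 : ‖∑ y ∈ (range (p ^ l)).filter (fun y => Nat.Coprime y p ∧
        ((p ^ l : ℕ) : ℤ) ∣ a - b * (y : ℤ) ^ 2), qb_g (p ^ (l + l)) a b y‖ ≤ 4 := by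
    refine (norm_sum_le _ _).trans ?_
    rw [sum_congr rfl fun y _ => qb_norm_g (p ^ (l + l)) a b y, sum_const, nsmul_eq_mul, mul_one]
    exact_mod_cast sqrt_count p l hp a b ha
  have h4 : ‖((p ^ l : ℕ) : ℂ)‖ = (p : ℝ) ^ l := by
    rw [Complex.norm_natCast]
    push_cast
    rfl
  rw [h4]
  have h5 : (0 : ℝ) ≤ (p : ℝ) ^ l := by positivity
  nlinarith

/-- the quadratic expansion -/
private theorem qb_quad {p l : ℕ} (hp : p.Prime) (hl : 1 ≤ l) (a b c : ℤ) {y : ℕ}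
    (hy : Nat.Coprime y p)
    (hc : b - a * (iv (p ^ (l + 1 + l)) y : ℤ) ^ 2 = (p : ℤ) ^ l * c) (t : ℕ) :
    qb_g (p ^ (l + 1 + l)) a b (y + p ^ l * t) = qb_g (p ^ (l + 1 + l)) a b y *
      ee (((c : ℝ) * t + (a * (iv (p ^ (l + 1 + l)) y : ℤ) ^ 3 : ℤ) * t ^ 2) / p) := by
  have hq : 1 ≤ p ^ (l + 1 + l) := Nat.one_le_pow _ _ hp.pos
  have hyq : Nat.Coprime y (p ^ (l + 1 + l)) := (qb_cop_iff (by omega)).2 hy
  have hY := iv_spec hq hyq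
  have hkf : kf (p ^ (l + 1 + l)) a y =
      ee ((a : ℝ) * (iv (p ^ (l + 1 + l)) y : ℝ) / ((p ^ (l + 1 + l) : ℕ) : ℝ)) := rfl
  set Y : ℕ := iv (p ^ (l + 1 + l)) y with hYd
  have hdv : ((p ^ (l + 1 + l) : ℕ) : ℤ) ∣ ((y + p ^ l * t : ℕ) : ℤ) *
      ((Y : ℤ) - (Y : ℤ) ^ 2 * ((p : ℤ) ^ l * t) + (Y : ℤ) ^ 3 * ((p : ℤ) ^ l * t) ^ 2) - 1 := by
    have e : ((y + p ^ l * t : ℕ) : ℤ) *
        ((Y : ℤ) - (Y : ℤ) ^ 2 * ((p : ℤ) ^ l * t) + (Y : ℤ) ^ 3 * ((p : ℤ) ^ l * t) ^ 2) - 1 =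
        ((y : ℤ) * Y - 1) * (1 - Y * ((p : ℤ) ^ l * t) + (Y : ℤ) ^ 2 * ((p : ℤ) ^ l * t) ^ 2) +
          (p : ℤ) ^ (l + 1 + l) * ((p : ℤ) ^ (l - 1) * ((Y : ℤ) ^ 3 * t ^ 3)) := by
      have e2 : (p : ℤ) ^ (l + 1 + l) * ((p : ℤ) ^ (l - 1) * ((Y : ℤ) ^ 3 * t ^ 3)) =
          ((p : ℤ) ^ l) ^ 3 * ((Y : ℤ) ^ 3 * t ^ 3) := by
        rw [← mul_assoc, ← pow_add, ← pow_mul]
        congr 2
        omega
      rw [e2]
      push_cast
      ring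
    rw [e]
    refine dvd_add (Dvd.dvd.mul_right hY _) ?_
    refine ⟨(p : ℤ) ^ (l - 1) * ((Y : ℤ) ^ 3 * t ^ 3), ?_⟩
    push_cast
    ring
  have hp0 : (p : ℝ) ≠ 0 := by exact_mod_cast hp.ne_zero
  have hc' : (b : ℝ) - a * (Y : ℝ) ^ 2 = (p : ℝ) ^ l * c := by exact_mod_cast hc
  unfold qb_g
  rw [kf_eq hq a _ hdv, hkf, ← ee_add, ← ee_add, ← ee_add]
  congr 1
  push_cast
  rw [pow_add, pow_add, pow_one]
  field_simp
  linear_combination ((p : ℝ) ^ l * t) * hc'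

theorem klS_odd (p l : ℕ) (hp : p.Prime) (hl : 1 ≤ l) (a b : ℤ) (ha : ¬ (p : ℤ) ∣ a) :
    ‖klS (p ^ (2 * l + 1)) a b‖ ≤ 8 * Real.sqrt ((p : ℝ) ^ (2 * l + 1)) := by
  have h1 := qb_main (j := l + 1) hp (by omega) (by omega : l ≤ l + 1) a b
  have e : 2 * l + 1 = l + 1 + l := by ring
  have hpl : p ∣ p ^ l := dvd_pow_self p (by omega)
  have h2 : Real.sqrt ((p : ℝ) ^ (2 * l + 1)) = (p : ℝ) ^ l * Real.sqrt p := by
    rw [pow_succ, Real.sqrt_mul (by positivity), mul_comm 2 l, pow_mul, Real.sqrt_sq (by positivity)]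
  have h4 : ‖((p ^ l : ℕ) : ℂ)‖ = (p : ℝ) ^ l := by
    rw [Complex.norm_natCast]
    push_cast
    rfl
  have h3 : ‖∑ y ∈ (range (p ^ (l + 1))).filter (fun y => Nat.Coprime y p ∧
        ((p ^ l : ℕ) : ℤ) ∣ a - b * (y : ℤ) ^ 2), qb_g (p ^ (l + 1 + l)) a b y‖ ≤
      4 * Real.sqrt (2 * p) := by
    have e1 : range (p ^ (l + 1)) = range (p ^ l * p) := by rw [pow_succ]
    have e2 : ∀ y t : ℕ, (((p ^ l : ℕ) : ℤ) ∣ a - b * ((y + p ^ l * t : ℕ) : ℤ) ^ 2) ↔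
        ((p ^ l : ℕ) : ℤ) ∣ a - b * (y : ℤ) ^ 2 := by
      intro y t
      have e3 : a - b * ((y + p ^ l * t : ℕ) : ℤ) ^ 2 = a - b * (y : ℤ) ^ 2 +
          ((p ^ l : ℕ) : ℤ) * (-(b * (2 * y * t + ((p ^ l : ℕ) : ℤ) * t ^ 2))) := by
        push_cast
        ring
      rw [e3]
      exact dvd_add_left (dvd_mul_right _ _)
    rw [sum_filter, e1, qb_sum_mul, sum_comm]
    simp only [qb_cop_add hpl, e2]
    have h5 : ∀ y ∈ range (p ^ l), ‖∑ t ∈ range p,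
        (if Nat.Coprime y p ∧ ((p ^ l : ℕ) : ℤ) ∣ a - b * (y : ℤ) ^ 2 then
          qb_g (p ^ (l + 1 + l)) a b (y + p ^ l * t) else 0)‖ ≤
        if Nat.Coprime y p ∧ ((p ^ l : ℕ) : ℤ) ∣ a - b * (y : ℤ) ^ 2 then Real.sqrt (2 * p)
          else 0 := by
      intro y _
      by_cases hy : Nat.Coprime y p ∧ ((p ^ l : ℕ) : ℤ) ∣ a - b * (y : ℤ) ^ 2
      · simp only [if_pos hy]
        obtain ⟨c, hc⟩ := (qb_cond (j := l + 1) hp (by omega) a b hy.1).2 hy.2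
        have hc2 : b - a * (iv (p ^ (l + 1 + l)) y : ℤ) ^ 2 = (p : ℤ) ^ l * c := by
          rw [hc]
          push_cast
          rfl
        rw [sum_congr rfl fun t _ => qb_quad hp hl a b c hy.1 hc2 t, ← mul_sum, norm_mul,
          qb_norm_g, one_mul]
        refine quad_sum p hp c _ ?_
        intro hd
        have hpZ : Prime (p : ℤ) := Nat.prime_iff_prime_int.1 hp
        rcases hpZ.dvd_or_dvd hd with h | h
        · exact ha h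
        · have hY : (p : ℤ) ∣ (iv (p ^ (l + 1 + l)) y : ℤ) := hpZ.dvd_of_dvd_pow h
          have hyq : Nat.Coprime y (p ^ (l + 1 + l)) := (qb_cop_iff (by omega)).2 hy.1
          have hs := iv_spec (Nat.one_le_pow _ _ hp.pos) hyq
          have hpq : (p : ℤ) ∣ ((p ^ (l + 1 + l) : ℕ) : ℤ) := by
            exact_mod_cast dvd_pow_self p (by omega : l + 1 + l ≠ 0)
          have h6 : (p : ℤ) ∣ 1 := by
            have h7 := dvd_sub (Dvd.dvd.mul_left hY (y : ℤ)) (hpq.trans hs)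
            have e7 : (y : ℤ) * (iv (p ^ (l + 1 + l)) y : ℤ) -
              ((y : ℤ) * (iv (p ^ (l + 1 + l)) y : ℤ) - 1) = 1 := by ring
            rwa [e7] at h7
          exact hpZ.not_dvd_one h6
      · simp only [if_neg hy]
        simp
    refine (norm_sum_le _ _).trans ((sum_le_sum h5).trans ?_)
    rw [← sum_filter, sum_const, nsmul_eq_mul]
    refine mul_le_mul_of_nonneg_right ?_ (Real.sqrt_nonneg _)
    exact_mod_cast sqrt_count p l hp a b ha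
  have h5 : Real.sqrt (2 * p) ≤ 2 * Real.sqrt p := by
    rw [Real.sqrt_mul (by norm_num)]
    refine mul_le_mul_of_nonneg_right ?_ (Real.sqrt_nonneg _)
    rw [Real.sqrt_le_left (by norm_num)]
    norm_num
  rw [h2, e, h1, norm_mul, h4]
  have h6 : (0 : ℝ) ≤ (p : ℝ) ^ l := by positivity
  have h7 := mul_le_mul_of_nonneg_left (h3.trans (mul_le_mul_of_nonneg_left h5 (by norm_num : (0 : ℝ) ≤ 4))) h6
  linarith [h7]

end Pool.Agent.H35.WL
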