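import Pool.Agent.H35.WL.Qb
import Pool.Agent.H35.WL.Ep

/-!
# WL-Qc: all prime powers

Induction on `k`.  `k = 0`: the sum is at most `1`.  `k = 1`: `klS_prime`.  `k ≥ 2`, `p ∤ a`:
`klS_even`, `klS_odd`.  `p ∣ a`, `p ∤ b`: the sum is `0` (`klS_vanish`: `x = y + p^{k-1} z`, `z mod p`:
`a x̄` depends only on `y` modulo `p^{k-1}`, so `∑_z e(b z/p) = 0`).  `p ∣ a`, `p ∣ b`:
`klS (p^k) a b = p klS (p^{k-1}) (a/p) (b/p)` (`klS_reduce`), `gcd(a, p^k) = p gcd(a/p, p^{k-1})`, and
`p · 8 √(g p^{k-1}) = 8 √(p g p^k)`.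
-/

set_option autoImplicit false

namespace Pool.Agent.H35.WL

open Finset
open Pool.Agent.H80.KF

private theorem qc_split (m : ℕ) (F : ℕ → ℂ) (p : ℕ) :
    ∑ x ∈ range (m * p), F x = ∑ z ∈ range p, ∑ y ∈ range m, F (y + m * z) := by
  induction p with
  | zero => simp
  | succ p ih =>
    rw [Nat.mul_succ, Finset.sum_range_add, ih, Finset.sum_range_succ]
    congr 1
    refine Finset.sum_congr rfl fun y _ => ?_
    rw [add_comm]

private theorem qc_klS (q : ℕ) (a b : ℤ) : klS q a b = ∑ x ∈ range q,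
    (if Nat.Coprime x q then ee ((b : ℝ) * x / q) * kf q a x else 0) := by
  unfold klS
  rw [Finset.sum_filter]

private theorem qc_cop {p k j y z : ℕ} (hp : p.Prime) (hk : 1 ≤ k) (hj : 1 ≤ j) :
    Nat.Coprime (y + p ^ j * z) (p ^ k) ↔ Nat.Coprime y (p ^ j) := by
  have hk' : 0 < k := by omega
  have hj' : 0 < j := by omega
  rw [Nat.coprime_pow_right_iff hk', Nat.coprime_pow_right_iff hj']
  obtain ⟨i, rfl⟩ : ∃ i, j = i + 1 := ⟨j - 1, by omega⟩
  have e : y + p ^ (i + 1) * z = y + p * (p ^ i * z) := by ring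
  rw [e, Nat.coprime_add_mul_left_left]

private theorem qc_geom {p : ℕ} (hp : p.Prime) {b : ℤ} (hb : ¬ (p : ℤ) ∣ b) :
    ∑ z ∈ range p, ee ((b : ℝ) * z / p) = 0 := by
  have hp0 : (p : ℝ) ≠ 0 := by exact_mod_cast hp.ne_zero
  have h1 : ∀ z : ℕ, ee ((b : ℝ) * z / p) = ee ((b : ℝ) / p) ^ z := by
    intro z
    induction z with
    | zero => simp [ee_zero]
    | succ z ih =>
      rw [pow_succ, ← ih, ← ee_add]
      congr 1
      push_cast
      field_simp
  have h2 : ee ((b : ℝ) / p) ^ p = 1 := by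
    rw [← h1]
    have e : (b : ℝ) * (p : ℝ) / p = (b : ℝ) := by field_simp
    rw [e, ee_int]
  have h3 : ee ((b : ℝ) / p) ≠ 1 := by
    intro h
    unfold ee at h
    rw [Complex.exp_eq_one_iff] at h
    obtain ⟨n, hn⟩ := h
    apply hb
    refine ⟨n, ?_⟩
    have hpi : (2 * (Real.pi : ℂ) * Complex.I) ≠ 0 := Complex.two_pi_I_ne_zero
    have e : (2 * (Real.pi : ℂ) * Complex.I) * (((b : ℝ) / p : ℝ) : ℂ) =
        (2 * (Real.pi : ℂ) * Complex.I) * (n : ℂ) := by
      rw [mul_comm (2 * (Real.pi : ℂ) * Complex.I) (n : ℂ), ← hn]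
      ring
    have e2 := mul_left_cancel₀ hpi e
    have e3 : ((b : ℝ) / p : ℝ) = (n : ℝ) := by
      exact_mod_cast e2
    rw [div_eq_iff hp0] at e3
    have e4 : (b : ℝ) = ((p : ℤ) * n : ℤ) := by
      rw [e3]; push_cast; ring
    exact_mod_cast e4
  rw [Finset.sum_congr rfl fun z _ => h1 z]
  have h4 := geom_sum_eq h3 p
  rw [h4, h2, sub_self, zero_div]

theorem klS_vanish (p k : ℕ) (hp : p.Prime) (hk : 2 ≤ k) (a b : ℤ) (ha : (p : ℤ) ∣ a)
    (hb : ¬ (p : ℤ) ∣ b) : klS (p ^ k) a b = 0 := by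
  obtain ⟨j, rfl⟩ : ∃ j, k = j + 1 := ⟨k - 1, by omega⟩
  have hj : 1 ≤ j := by omega
  have hp0 : (p : ℝ) ≠ 0 := by exact_mod_cast hp.ne_zero
  have hq1 : 1 ≤ p ^ (j + 1) := Nat.one_le_pow _ _ hp.pos
  rw [qc_klS]
  have hpow : p ^ (j + 1) = p ^ j * p := pow_succ p j
  set F : ℕ → ℂ := fun x => if Nat.Coprime x (p ^ (j + 1)) then
    ee ((b : ℝ) * x / ((p ^ (j + 1) : ℕ) : ℝ)) * kf (p ^ (j + 1)) a x else 0 with hF
  have h1 : ∑ x ∈ range (p ^ (j + 1)), F x = ∑ z ∈ range p, ∑ y ∈ range (p ^ j), F (y + p ^ j * z) := by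
    conv_lhs => rw [hpow]
    exact qc_split _ F p
  have h2 : ∀ y z : ℕ, F (y + p ^ j * z) = ee ((b : ℝ) * z / p) * F y := by
    intro y z
    simp only [hF]
    have hc1 := qc_cop (p := p) (k := j + 1) (j := j) (y := y) (z := z) hp (by omega) hj
    have hc2 := qc_cop (p := p) (k := j + 1) (j := j) (y := y) (z := 0) hp (by omega) hj
    rw [mul_zero, add_zero] at hc2
    by_cases hy : Nat.Coprime y (p ^ j)
    · rw [if_pos (hc1.2 hy), if_pos (hc2.2 hy)]
      have hA : kf (p ^ (j + 1)) a (y + p ^ j * z) = kf (p ^ (j + 1)) a y := by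
        obtain ⟨a', rfl⟩ := ha
        have s1 := iv_spec hq1 (hc1.2 hy)
        have s2 := iv_spec hq1 (hc2.2 hy)
        set w := iv (p ^ (j + 1)) y with hw
        set w' := iv (p ^ (j + 1)) (y + p ^ j * z) with hw'
        have t1 : ((p ^ j : ℕ) : ℤ) ∣ (y : ℤ) * ((w' : ℤ) - w) := by
          have d1 : ((p ^ j : ℕ) : ℤ) ∣ ((p ^ (j + 1) : ℕ) : ℤ) := by
            rw [hpow]; push_cast; exact dvd_mul_right _ _
          have u1 := d1.trans s1
          have u2 := d1.trans s2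
          have u3 := dvd_sub u1 u2
          have e : ((y + p ^ j * z : ℕ) : ℤ) * (w' : ℤ) - 1 - ((y : ℤ) * (w : ℤ) - 1) =
              (y : ℤ) * ((w' : ℤ) - w) + ((p ^ j : ℕ) : ℤ) * (z * w') := by
            push_cast; ring
          rw [e] at u3
          exact (Int.dvd_add_left (dvd_mul_right _ _)).1 u3
        have t2 : IsCoprime ((p ^ j : ℕ) : ℤ) (y : ℤ) := (Nat.isCoprime_iff_coprime.2 hy).symm
        obtain ⟨t, ht⟩ := t2.dvd_of_dvd_mul_left t1
        have ht' : (w' : ℝ) - (w : ℝ) = ((p ^ j : ℕ) : ℝ) * t := by exact_mod_cast ht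
        unfold kf
        rw [← hw, ← hw']
        apply ee_eq_of_int (a' * t)
        rw [← sub_div, ← mul_sub, ht', hpow]
        push_cast
        field_simp
      rw [hA, ← mul_assoc, ← ee_add]
      congr 2
      rw [hpow]
      push_cast
      field_simp
      ring
    · rw [if_neg (fun h => hy (hc1.1 h)), if_neg (fun h => hy (hc2.1 h)), mul_zero]
  rw [h1]
  have h3 : ∀ z ∈ range p, ∑ y ∈ range (p ^ j), F (y + p ^ j * z) =
      ee ((b : ℝ) * z / p) * ∑ y ∈ range (p ^ j), F y := by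
    intro z _
    rw [Finset.mul_sum]
    exact Finset.sum_congr rfl fun y _ => h2 y z
  rw [Finset.sum_congr rfl h3, ← Finset.sum_mul, qc_geom hp hb, zero_mul]

theorem klS_reduce (p k : ℕ) (hp : p.Prime) (hk : 1 ≤ k) (a b : ℤ) :
    klS (p ^ (k + 1)) (p * a) (p * b) = p * klS (p ^ k) a b := by
  have hp0 : (p : ℝ) ≠ 0 := by exact_mod_cast hp.ne_zero
  have hq1 : 1 ≤ p ^ (k + 1) := Nat.one_le_pow _ _ hp.pos
  have hq0 : 1 ≤ p ^ k := Nat.one_le_pow _ _ hp.pos
  rw [qc_klS, qc_klS]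
  have hpow : p ^ (k + 1) = p ^ k * p := pow_succ p k
  set F : ℕ → ℂ := fun x => if Nat.Coprime x (p ^ (k + 1)) then
    ee ((((p : ℤ) * b : ℤ) : ℝ) * x / ((p ^ (k + 1) : ℕ) : ℝ)) * kf (p ^ (k + 1)) (p * a) x else 0 with hF
  set G : ℕ → ℂ := fun x => if Nat.Coprime x (p ^ k) then
    ee ((b : ℝ) * x / ((p ^ k : ℕ) : ℝ)) * kf (p ^ k) a x else 0 with hG
  have h1 : ∑ x ∈ range (p ^ (k + 1)), F x = ∑ z ∈ range p, ∑ y ∈ range (p ^ k), F (y + p ^ k * z) := by
    conv_lhs => rw [hpow]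
    exact qc_split _ F p
  have h2 : ∀ y z : ℕ, F (y + p ^ k * z) = G y := by
    intro y z
    simp only [hF, hG]
    have hc1 := qc_cop (p := p) (k := k + 1) (j := k) (y := y) (z := z) hp (by omega) hk
    by_cases hy : Nat.Coprime y (p ^ k)
    · rw [if_pos (hc1.2 hy), if_pos hy]
      have hA : kf (p ^ (k + 1)) (p * a) (y + p ^ k * z) = kf (p ^ k) a y := by
        have s1 := iv_spec hq1 (hc1.2 hy)
        set w' := iv (p ^ (k + 1)) (y + p ^ k * z) with hw'
        have t1 : ((p ^ k : ℕ) : ℤ) ∣ (y : ℤ) * (w' : ℤ) - 1 := by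
          have d1 : ((p ^ k : ℕ) : ℤ) ∣ ((p ^ (k + 1) : ℕ) : ℤ) := by
            rw [hpow]; push_cast; exact dvd_mul_right _ _
          have u1 := d1.trans s1
          have e : ((y + p ^ k * z : ℕ) : ℤ) * (w' : ℤ) - 1 =
              ((y : ℤ) * (w' : ℤ) - 1) + ((p ^ k : ℕ) : ℤ) * (z * w') := by
            push_cast; ring
          rw [e] at u1
          exact (Int.dvd_add_left (dvd_mul_right _ _)).1 u1
        rw [kf_eq hq0 a _ t1]
        unfold kf
        rw [← hw']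
        congr 1
        rw [hpow]
        push_cast
        field_simp
      rw [hA]
      congr 1
      apply ee_eq_of_int (b * z)
      rw [hpow]
      push_cast
      field_simp
      ring
    · rw [if_neg (fun h => hy (hc1.1 h)), if_neg hy]
  rw [h1]
  have h3 : ∀ z ∈ range p, ∑ y ∈ range (p ^ k), F (y + p ^ k * z) = ∑ y ∈ range (p ^ k), G y := by
    intro z _
    exact Finset.sum_congr rfl fun y _ => h2 y z
  rw [Finset.sum_congr rfl h3, Finset.sum_const, card_range, nsmul_eq_mul]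

theorem klS_pp (p k : ℕ) (hp : p.Prime) (a b : ℤ) :
    ‖klS (p ^ k) a b‖ ≤ 8 * Real.sqrt ((Int.gcd a (p ^ k : ℕ) : ℝ) * (p : ℝ) ^ k) := by
  induction k generalizing a b with
  | zero =>
    rw [qc_klS]
    simp [norm_ee, norm_kf]
  | succ k ih =>
    rcases Nat.eq_zero_or_pos k with hk0 | hk0
    · subst hk0
      simp only [zero_add, pow_one]
      exact klS_prime p hp a b
    · have hk1 : 1 ≤ k := hk0
      have hp1 : 0 < p := hp.pos
      by_cases ha : (p : ℤ) ∣ a
      · by_cases hb : (p : ℤ) ∣ b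
        · obtain ⟨a', rfl⟩ := ha
          obtain ⟨b', rfl⟩ := hb
          rw [klS_reduce p k hp hk1 a' b', norm_mul, Complex.norm_natCast]
          have hg : Int.gcd ((p : ℤ) * a') (p ^ (k + 1) : ℕ) = p * Int.gcd a' (p ^ k : ℕ) := by
            have e : ((p ^ (k + 1) : ℕ) : ℤ) = (p : ℤ) * ((p ^ k : ℕ) : ℤ) := by
              push_cast; ring
            rw [e, Int.gcd_mul_left]
            simp
          have hp0 : (0 : ℝ) ≤ (p : ℝ) := by positivity
          calc (p : ℝ) * ‖klS (p ^ k) a' b'‖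
              ≤ (p : ℝ) * (8 * Real.sqrt ((Int.gcd a' (p ^ k : ℕ) : ℝ) * (p : ℝ) ^ k)) :=
                mul_le_mul_of_nonneg_left (ih a' b') hp0
            _ = 8 * (Real.sqrt ((p : ℝ) ^ 2) * Real.sqrt ((Int.gcd a' (p ^ k : ℕ) : ℝ) * (p : ℝ) ^ k)) := by
                rw [Real.sqrt_sq hp0]; ring
            _ = 8 * Real.sqrt ((Int.gcd ((p : ℤ) * a') (p ^ (k + 1) : ℕ) : ℝ) * (p : ℝ) ^ (k + 1)) := by
                rw [← Real.sqrt_mul (by positivity), hg]
                congr 2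
                push_cast
                ring
        · rw [klS_vanish p (k + 1) hp (by omega) a b ha hb, norm_zero]
          positivity
      · have hq : (1 : ℝ) ≤ (Int.gcd a (p ^ (k + 1) : ℕ) : ℝ) := by
          have : 0 < Int.gcd a (p ^ (k + 1) : ℕ) := by
            apply Int.gcd_pos_of_ne_zero_right
            have : 0 < p ^ (k + 1) := pow_pos hp1 _
            exact_mod_cast this.ne'
          exact_mod_cast this
        have hmain : ‖klS (p ^ (k + 1)) a b‖ ≤ 8 * Real.sqrt ((p : ℝ) ^ (k + 1)) := by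
          rcases Nat.even_or_odd' (k + 1) with ⟨l, hl | hl⟩
          · rw [hl]
            exact klS_even p l hp (by omega) a b ha
          · rw [hl]
            exact klS_odd p l hp (by omega) a b ha
        refine hmain.trans ?_
        apply mul_le_mul_of_nonneg_left _ (by norm_num)
        apply Real.sqrt_le_sqrt
        have : (0 : ℝ) ≤ (p : ℝ) ^ (k + 1) := by positivity
        nlinarith

end Pool.Agent.H35.WL
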